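import Mathlib

/-!
# The root of `1 - τ = exp (-3 τ)` in `(0, 1)` is unique
-/

namespace Pool.Agent.CycSh

private theorem uni_lt {s t : ℝ} (hs0 : 0 < s) (hst : s < t) (hs : 1 - s = Real.exp (-3 * s))
    (ht : 1 - t = Real.exp (-3 * t)) : False := by
  have ht0 : 0 < t := hs0.trans hst
  have h1 : 0 < s / t := by positivity
  have h2 : 0 < 1 - s / t := by
    rw [sub_pos, div_lt_one ht0]
    exact hst
  have hne : -3 * t ≠ (0 : ℝ) := by
    intro h
    linarith
  have h3 := strictConvexOn_exp.2 (Set.mem_univ (-3 * t)) (Set.mem_univ (0 : ℝ)) hne h1 h2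
    (by ring)
  simp only [smul_eq_mul, mul_zero, add_zero, Real.exp_zero, mul_one] at h3
  have e : s / t * (-3 * t) = -3 * s := by
    field_simp
  rw [e, ← hs, ← ht] at h3
  have e2 : s / t * (1 - t) + (1 - s / t) = 1 - s := by
    field_simp
    ring
  linarith

theorem tau_uni {s t : ℝ} (hs0 : 0 < s) (hs : 1 - s = Real.exp (-3 * s)) (ht0 : 0 < t)
    (ht : 1 - t = Real.exp (-3 * t)) : s = t := by
  rcases lt_trichotomy s t with h | h | h
  · exact (uni_lt hs0 h hs ht).elim
  · exact h
  · exact (uni_lt ht0 h ht hs).elim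

end Pool.Agent.CycSh
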