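import Pool.Agent.W_1bfdb5sh_h41.BlU
import Pool.Agent.W_1bfdb5fd_h19.AiP

/-!
# The process for chordless closed walks, weighted

From `ai_sum` (W_1bfdb5fd_h19/AiP.lean) for the blow-ups with weights `⌈N x⌉`, `N → ∞`
(degree bound `N K + |V|`).
-/

namespace Pool.Agent.CycSh

open Finset Pool.Agent.CycGT Pool.Agent.CycFD
open scoped Classical

variable {V : Type} [Fintype V] {G : SimpleGraph V} {x : V → ℝ}

private lemma aiw_wS (y : V → ℝ) (N : ℝ) (S : Finset V) :
    wS (fun v => N * y v) S = N * wS y S := by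
  unfold wS
  rw [mul_sum]

private lemma aiw_wP {r : ℕ} [NeZero r] (y : V → ℝ) (N : ℝ) (k : ZMod r → V) :
    wP (fun v => N * y v) k = N ^ r * wP y k := by
  unfold wP
  rw [prod_mul_distrib, prod_const, card_univ, ZMod.card]

/-- `ai_sum` for a blow-up. -/
private lemma aiw_bl {r : ℕ} [NeZero r] (i : ℕ) (h6 : 6 * i + 6 < r) (b : V → ℕ) {D : ℝ}
    (hD : ∀ v, wS (fun v => (b v : ℝ)) (Nb G v) ≤ D) :
    ∑ k ∈ AI G r, wP (fun v => (b v : ℝ)) k * ((∑ v, (b v : ℝ)) * D ^ (2 * i + 2) *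
      Real.exp (((r : ℝ) - (2 * i + 3)) / r *
        ∑ t, Real.log (wS (fun v => (b v : ℝ)) (FS G i k t))))⁻¹ ≤ 1 := by
  have hdeg : DegLe (Gb G b) D := by
    intro z
    have e : Nb (Gb G b) z =
        (univ : Finset (Σ v, Fin (b v))).filter (fun z' => z'.1 ∈ Nb G z.1) := by
      ext w
      rw [mem_Nb, mem_filter, mem_Nb]
      exact ⟨fun h => ⟨mem_univ _, h⟩, fun h => h.2⟩
    rw [e, Gb_pre]
    exact hD _
  have h := ai_sum (G := Gb G b) (r := r) i h6 hdeg
  have e1 : ∀ W : ZMod r → (Σ v, Fin (b v)), ∀ t,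
      (#(FS (Gb G b) i W t) : ℝ) =
        wS (fun v => (b v : ℝ)) (FS G i (fun p => (W p).1) t) := by
    intro W t
    rw [← Gb_pre]
    congr 2
    ext w
    rw [mem_FS, mem_filter, mem_FS]
    exact ⟨fun h => ⟨mem_univ _, h⟩, fun h => h.2⟩
  simp only [e1, Gb_card] at h
  refine le_trans (le_of_eq ?_) h
  unfold AI
  rw [sum_filter, sum_filter]
  have e2 := Gb_sum G b r (fun k => if (∀ p q, G.Adj (k p) (k q) → q = p + 1 ∨ q = p - 1) then
    ((∑ v, (b v : ℝ)) * D ^ (2 * i + 2) *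
      Real.exp (((r : ℝ) - (2 * i + 3)) / r *
        ∑ t, Real.log (wS (fun v => (b v : ℝ)) (FS G i k t))))⁻¹ else 0)
  refine Eq.trans ?_ (e2.symm.trans ?_)
  · refine sum_congr rfl fun k _ => ?_
    split_ifs with h1
    · rfl
    · rw [mul_zero]
  · rfl

/-- The same with weights `b / N`. -/
private lemma aiw_sc {r : ℕ} [NeZero r] (i : ℕ) (h6 : 6 * i + 6 < r) (y : V → ℝ)
    (hy : ∀ v, 0 < y v) {N : ℕ} (hN : 0 < N) (b : V → ℕ) (hb : ∀ v, (b v : ℝ) = N * y v)
    {D : ℝ} (hD : ∀ v, dg G y v ≤ D) :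
    ∑ k ∈ AI G r, wP y k * ((∑ v, y v) * D ^ (2 * i + 2) *
      Real.exp (((r : ℝ) - (2 * i + 3)) / r *
        ∑ t, Real.log (wS y (FS G i k t))))⁻¹ ≤ 1 := by
  have hN0 : (0 : ℝ) < N := by exact_mod_cast hN
  have hr0 : (0 : ℝ) < r := by exact_mod_cast (by omega : 0 < r)
  have hbe : (fun v => (b v : ℝ)) = fun v => (N : ℝ) * y v := funext hb
  have h := aiw_bl (G := G) i h6 b (D := N * D) (by
    intro v
    rw [hbe, aiw_wS]
    exact mul_le_mul_of_nonneg_left (hD v) hN0.le)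
  refine le_trans (le_of_eq (sum_congr rfl fun k hk => ?_)) h
  rw [hbe, aiw_wP, ← mul_sum]
  have hf : ∀ t, 0 < wS y (FS G i k t) := fun t =>
    sum_pos (fun w _ => hy w) (card_pos.1 (fs_pos h6 hk t))
  have e1 : ∑ t, Real.log (wS (fun v => (N : ℝ) * y v) (FS G i k t)) =
      r * Real.log N + ∑ t, Real.log (wS y (FS G i k t)) := by
    have : ∀ t, Real.log (wS (fun v => (N : ℝ) * y v) (FS G i k t)) =
        Real.log N + Real.log (wS y (FS G i k t)) := by
      intro t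
      rw [aiw_wS, Real.log_mul hN0.ne' (hf t).ne']
    rw [sum_congr rfl fun t _ => this t, sum_add_distrib, sum_const, card_univ, ZMod.card,
      nsmul_eq_mul]
  rw [e1, mul_add, Real.exp_add]
  have e2 : Real.exp (((r : ℝ) - (2 * i + 3)) / r * (r * Real.log N)) =
      (N : ℝ) ^ (r - (2 * i + 3)) := by
    have : ((r : ℝ) - (2 * i + 3)) / r * (r * Real.log N) =
        ((r - (2 * i + 3) : ℕ) : ℝ) * Real.log N := by
      rw [Nat.cast_sub (by omega)]
      push_cast
      field_simp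
    rw [this, Real.exp_nat_mul, Real.exp_log hN0]
  rw [e2]
  have e3 : (N : ℝ) * (∑ v, y v) * (N * D) ^ (2 * i + 2) * ((N : ℝ) ^ (r - (2 * i + 3)) *
      Real.exp (((r : ℝ) - (2 * i + 3)) / r * ∑ t, Real.log (wS y (FS G i k t)))) =
      (N : ℝ) ^ r * ((∑ v, y v) * D ^ (2 * i + 2) *
        Real.exp (((r : ℝ) - (2 * i + 3)) / r * ∑ t, Real.log (wS y (FS G i k t)))) := by
    have : (N : ℝ) ^ r = N * N ^ (2 * i + 2) * N ^ (r - (2 * i + 3)) := by
      rw [← pow_succ', ← pow_add]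
      congr 1
      omega
    rw [this, mul_pow]
    ring
  rw [e3, mul_inv ((N : ℝ) ^ r)]
  have : (N : ℝ) ^ r ≠ 0 := by positivity
  field_simp

theorem aiw {r : ℕ} [NeZero r] (i : ℕ) (h6 : 6 * i + 6 < r) (hx : ∀ v, 0 < x v)
    {m K : ℝ} (hm : 0 < m) (hs : ∑ v, x v = m) (hK : 0 < K) (hD : ∀ v, dg G x v ≤ K) :
    ∑ k ∈ AI G r, wP x k * Real.exp ((1 - (2 * (i : ℝ) + 3) / r) * Xw G x i k) ≤
      m * K ^ (2 * i + 2) := by
  have hr0 : (0 : ℝ) < r := by exact_mod_cast (by omega : 0 < r)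
  set y : ℕ → V → ℝ := fun N v => ((⌈(N : ℝ) * x v⌉₊ : ℕ) : ℝ) / N with hyd
  have hlim : ∀ v, Filter.Tendsto (fun N : ℕ => y N v) Filter.atTop (nhds (x v)) :=
    fun v => ceil_tendsto hx v
  have hf : ∀ k ∈ AI G r, ∀ t, 0 < wS x (FS G i k t) := fun k hk t =>
    sum_pos (fun w _ => hx w) (card_pos.1 (fs_pos h6 hk t))
  have hwS : ∀ S : Finset V, Filter.Tendsto (fun N : ℕ => wS (y N) S) Filter.atTop
      (nhds (wS x S)) := fun S => tendsto_finsetSum _ fun v _ => hlim v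
  have hwP : ∀ k : ZMod r → V, Filter.Tendsto (fun N : ℕ => wP (y N) k) Filter.atTop
      (nhds (wP x k)) := fun k => tendsto_finsetProd _ fun p _ => hlim (k p)
  have key : ∀ N : ℕ, 0 < N → ∑ k ∈ AI G r, wP (y N) k *
      ((∑ v, y N v) * (K + Fintype.card V / N) ^ (2 * i + 2) *
      Real.exp (((r : ℝ) - (2 * i + 3)) / r *
        ∑ t, Real.log (wS (y N) (FS G i k t))))⁻¹ ≤ 1 := by
    intro N hN
    have hN0 : (0 : ℝ) < N := by exact_mod_cast hN
    refine aiw_sc i h6 (y N) (fun v => ?_) hN (fun v => ⌈(N : ℝ) * x v⌉₊) (fun v => ?_)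
      (fun v => ?_)
    · have := hx v
      exact div_pos (by exact_mod_cast Nat.ceil_pos.2 (by positivity)) hN0
    · rw [hyd]
      field_simp
    · have h1 : dg G (y N) v ≤ ∑ w ∈ Nb G v, (x w + 1 / N) := by
        refine sum_le_sum fun w _ => ?_
        have h2 := (Nat.ceil_lt_add_one (by have := hx w; positivity :
          (0 : ℝ) ≤ (N : ℝ) * x w)).le
        rw [hyd]
        beta_reduce
        rw [div_le_iff₀ hN0]
        have : (x w + 1 / N) * N = N * x w + 1 := by field_simp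
        rw [this]
        exact h2
      refine h1.trans ?_
      rw [sum_add_distrib, sum_const, nsmul_eq_mul]
      refine add_le_add (hD v) ?_
      rw [mul_one_div]
      exact div_le_div_of_nonneg_right (by exact_mod_cast card_le_univ _) hN0.le
  have hlim2 : Filter.Tendsto (fun N : ℕ => ∑ k ∈ AI G r, wP (y N) k *
      ((∑ v, y N v) * (K + Fintype.card V / N) ^ (2 * i + 2) *
      Real.exp (((r : ℝ) - (2 * i + 3)) / r *
        ∑ t, Real.log (wS (y N) (FS G i k t))))⁻¹) Filter.atTop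
      (nhds (∑ k ∈ AI G r, wP x k * (m * K ^ (2 * i + 2) *
      Real.exp (((r : ℝ) - (2 * i + 3)) / r *
        ∑ t, Real.log (wS x (FS G i k t))))⁻¹)) := by
    refine tendsto_finsetSum _ fun k hk => (hwP k).mul (Filter.Tendsto.inv₀ ?_ ?_)
    · refine (Filter.Tendsto.mul ?_ (Filter.Tendsto.pow ?_ _)).mul ?_
      · rw [← hs]
        exact tendsto_finsetSum _ fun v _ => hlim v
      · have h3 : Filter.Tendsto (fun N : ℕ => K + (Fintype.card V : ℝ) / N) Filter.atTop
            (nhds (K + 0)) :=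
          tendsto_const_nhds.add (tendsto_const_div_atTop_nhds_zero_nat _)
        rwa [add_zero] at h3
      · refine (Real.continuous_exp.tendsto _).comp (Filter.Tendsto.const_mul _ ?_)
        exact tendsto_finsetSum _ fun t _ => (hwS _).log (hf k hk t).ne'
    · positivity
  have h4 := le_of_tendsto hlim2 (Filter.eventually_atTop.2 ⟨1, fun N hN => key N hN⟩)
  have hMK : 0 < m * K ^ (2 * i + 2) := by positivity
  have h5 : ∑ k ∈ AI G r, wP x k * Real.exp ((1 - (2 * (i : ℝ) + 3) / r) * Xw G x i k) =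
      m * K ^ (2 * i + 2) * ∑ k ∈ AI G r, wP x k * (m * K ^ (2 * i + 2) *
      Real.exp (((r : ℝ) - (2 * i + 3)) / r *
        ∑ t, Real.log (wS x (FS G i k t))))⁻¹ := by
    rw [mul_sum]
    refine sum_congr rfl fun k _ => ?_
    have e1 : (1 - (2 * (i : ℝ) + 3) / r) * Xw G x i k =
        -(((r : ℝ) - (2 * i + 3)) / r * ∑ t, Real.log (wS x (FS G i k t))) := by
      unfold Xw
      field_simp
    rw [e1, Real.exp_neg, mul_inv (m * K ^ (2 * i + 2))]
    field_simp
  rw [h5]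
  calc _ ≤ m * K ^ (2 * i + 2) * 1 := mul_le_mul_of_nonneg_left h4 hMK.le
    _ = _ := mul_one _

end Pool.Agent.CycSh
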