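import Pool.Agent.W_1bfdb5sh_h41.Bs

/-!
# Walk counts from the product of two degrees

`Lb G x L`: `1 ≤ L` and `dg u * dg w ≤ L ^ 2` for every edge.
-/

namespace Pool.Agent.CycSh

open Finset Pool.Agent.CycGT Pool.Agent.CycFD
open scoped Classical

variable {V : Type} [Fintype V] {G : SimpleGraph V} {x : V → ℝ} {L : ℝ}

private theorem arm_dg (u : V) : dg G x u = ∑ z, (if G.Adj u z then x z else 0) := by
  rw [dg, wS, Nb, Finset.sum_filter]
  refine Finset.sum_congr rfl fun z _ => ?_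
  simp only [G.adj_comm z u]

private theorem arm_key (hx : ∀ v, 0 ≤ x v) (hL : Lb G x L) (u : V) :
    ∑ z, (if G.Adj u z then x z else 0) * dg G x z ≤ L ^ 2 := by
  have hdg : 0 ≤ dg G x u := wS_nonneg hx _
  rcases hdg.eq_or_lt with h0 | h0
  · have h1 : ∀ z, (if G.Adj u z then x z else 0) = 0 := by
      have h2 := h0.symm
      rw [arm_dg, Finset.sum_eq_zero_iff_of_nonneg] at h2
      · exact fun z => h2 z (Finset.mem_univ z)
      · intro z _
        split_ifs
        · exact hx z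
        · exact le_rfl
    rw [Finset.sum_eq_zero (fun z _ => by rw [h1 z, zero_mul])]
    positivity
  · have h1 : ∑ z, (if G.Adj u z then x z else 0) * dg G x z ≤
        ∑ z, (if G.Adj u z then x z else 0) * (L ^ 2 / dg G x u) := by
      refine Finset.sum_le_sum fun z _ => ?_
      split_ifs with h
      · refine mul_le_mul_of_nonneg_left ?_ (hx z)
        rw [le_div_iff₀ h0, mul_comm]
        exact hL.2 u z h
      · simp
    refine h1.trans ?_
    rw [← Finset.sum_mul, ← arm_dg, mul_div_cancel₀ _ h0.ne']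

private theorem arm_sum_succ (n : ℕ) (u : V) :
    ∑ w, Bn G x (n + 1) u w = ∑ z, (if G.Adj u z then x z else 0) * ∑ w, Bn G x n z w := by
  simp only [Bn_succ, Finset.mul_sum]
  exact Finset.sum_comm

private theorem arm_ite (hx : ∀ v, 0 ≤ x v) (u z : V) : 0 ≤ (if G.Adj u z then x z else 0) := by
  split_ifs
  · exact hx z
  · exact le_rfl

theorem row_even (hx : ∀ v, 0 ≤ x v) (hL : Lb G x L) (n : ℕ) (u : V) :
    ∑ w, Bn G x (2 * n) u w ≤ L ^ (2 * n) := by
  induction n generalizing u with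
  | zero => simp [Bn_zero]
  | succ n ih =>
    have h1 : 2 * (n + 1) = 2 * n + 1 + 1 := by ring
    rw [h1, arm_sum_succ]
    have h2 : ∀ z, ∑ w, Bn G x (2 * n + 1) z w ≤ dg G x z * L ^ (2 * n) := by
      intro z
      rw [arm_sum_succ, arm_dg, Finset.sum_mul]
      exact Finset.sum_le_sum fun y _ => mul_le_mul_of_nonneg_left (ih y) (arm_ite hx z y)
    have h3 : ∑ z, (if G.Adj u z then x z else 0) * ∑ w, Bn G x (2 * n + 1) z w ≤
        ∑ z, ((if G.Adj u z then x z else 0) * dg G x z) * L ^ (2 * n) := by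
      refine Finset.sum_le_sum fun z _ => ?_
      rw [mul_assoc]
      exact mul_le_mul_of_nonneg_left (h2 z) (arm_ite hx u z)
    refine h3.trans ?_
    rw [← Finset.sum_mul]
    have h4 : (0 : ℝ) ≤ L ^ (2 * n) := pow_nonneg (by linarith [hL.1]) _
    calc _ ≤ L ^ 2 * L ^ (2 * n) := mul_le_mul_of_nonneg_right (arm_key hx hL u) h4
      _ = L ^ (2 * n + 1 + 1) := by ring

theorem row_odd (hx : ∀ v, 0 ≤ x v) (hL : Lb G x L) (n : ℕ) (u : V) :
    ∑ w, Bn G x (2 * n + 1) u w ≤ dg G x u * L ^ (2 * n) := by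
  rw [arm_sum_succ, arm_dg, Finset.sum_mul]
  exact Finset.sum_le_sum fun y _ =>
    mul_le_mul_of_nonneg_left (row_even hx hL n y) (arm_ite hx u y)

private theorem arm_last (hx : ∀ v, 0 ≤ x v) (n : ℕ) (v s : V) :
    Bn G x (n + 1) v s ≤ x s * ∑ z, Bn G x n v z := by
  rw [Bn_succ', Finset.mul_sum]
  refine Finset.sum_le_sum fun z _ => ?_
  rw [mul_comm (x s)]
  refine mul_le_mul_of_nonneg_left ?_ (Bn_nonneg hx n v z)
  split_ifs
  · exact le_rfl
  · exact hx s

theorem arm_odd (hx : ∀ v, 0 ≤ x v) (hL : Lb G x L) (n : ℕ) (v s : V) :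
    Bn G x (2 * n + 1) v s ≤ x s * L ^ (2 * n) :=
  (arm_last hx _ v s).trans (mul_le_mul_of_nonneg_left (row_even hx hL n v) (hx s))

theorem arm_even (hx : ∀ v, 0 ≤ x v) (hL : Lb G x L) (n : ℕ) (v s : V) :
    Bn G x (2 * n + 2) v s ≤ x s * (dg G x v * L ^ (2 * n)) :=
  (arm_last hx _ v s).trans (mul_le_mul_of_nonneg_left (row_odd hx hL n v) (hx s))

theorem arm_odd' (hx : ∀ v, 0 < x v) (hL : Lb G x L) (n : ℕ) (v s : V) :
    Bn G x (2 * n + 1) s v ≤ x v * L ^ (2 * n) :=
  arm_odd (fun w => (hx w).le) hL n s v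

theorem arm_even' (hx : ∀ v, 0 < x v) (hL : Lb G x L) (n : ℕ) (v s : V) :
    Bn G x (2 * n + 2) s v ≤ x v * (dg G x v * L ^ (2 * n)) := by
  have h1 := arm_even (fun w => (hx w).le) hL n v s
  have h2 : x s * Bn G x (2 * n + 2) s v = x v * Bn G x (2 * n + 2) v s := Bn_symm _ s v
  have h3 : x s * Bn G x (2 * n + 2) s v ≤ x s * (x v * (dg G x v * L ^ (2 * n))) := by
    rw [h2]
    calc _ ≤ x v * (x s * (dg G x v * L ^ (2 * n))) := mul_le_mul_of_nonneg_left h1 (hx v).le
      _ = _ := by ring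
  exact le_of_mul_le_mul_left h3 (hx s)

end Pool.Agent.CycSh
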