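import Pool.Agent.W_1bfdb5sh_h41.Df

/-!
# The numbers `Tn m i = 2 m binom(m + 2 i, i)`
-/

namespace Pool.Agent.CycSh

open Finset Pool.Agent.CycGT Pool.Agent.CycFD

theorem Tn_pos {m : ℕ} (hm : 0 < m) (i : ℕ) : 0 < Tn m i := by
  unfold Tn
  have h1 : 0 < (m + 2 * i).choose i := Nat.choose_pos (by omega)
  have h2 : (0 : ℝ) < m := by exact_mod_cast hm
  have h3 : (0 : ℝ) < ((m + 2 * i).choose i : ℝ) := by exact_mod_cast h1
  positivity

/-- One step: `T_i / T_(i+1) ≤ (i+1) / m`. -/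
theorem Tn_succ {m : ℕ} (hm : 0 < m) (i : ℕ) : Tn m i * m ≤ (i + 1) * Tn m (i + 1) := by
  have h1 : (m + 2 * i).choose i * m ≤ (i + 1) * (m + 2 * (i + 1)).choose (i + 1) := by
    have e1 : m + 2 * (i + 1) = (m + 2 * i + 1) + 1 := by ring
    have h2 := Nat.add_one_mul_choose_eq (m + 2 * i + 1) i
    have h3 : (m + 2 * i).choose i ≤ (m + 2 * i + 1).choose i :=
      Nat.choose_le_choose i (Nat.le_succ _)
    rw [e1]
    calc (m + 2 * i).choose i * m ≤ (m + 2 * i + 1).choose i * (m + 2 * i + 1 + 1) :=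
          Nat.mul_le_mul h3 (by omega)
      _ = (m + 2 * i + 1 + 1) * (m + 2 * i + 1).choose i := by ring
      _ = (m + 2 * i + 1 + 1).choose (i + 1) * (i + 1) := h2
      _ = _ := by ring
  have h4 : ((m + 2 * i).choose i : ℝ) * m ≤ (i + 1) * ((m + 2 * (i + 1)).choose (i + 1) : ℝ) := by
    exact_mod_cast h1
  unfold Tn
  have h5 : (0 : ℝ) ≤ 2 * m := by positivity
  have h6 := mul_le_mul_of_nonneg_left h4 h5
  calc 2 * (m : ℝ) * ((m + 2 * i).choose i : ℝ) * m = 2 * m * (((m + 2 * i).choose i : ℝ) * m) := by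
        ring
    _ ≤ _ := h6
    _ = _ := by ring

theorem Tn_desc {m : ℕ} (hm : 0 < m) (j l : ℕ) (hl : l ≤ j) :
    Tn m (j - l) ≤ (j.descFactorial l : ℝ) / (m : ℝ) ^ l * Tn m j := by
  have hm' : (0 : ℝ) < m := by exact_mod_cast hm
  induction l with
  | zero => simp
  | succ l ih =>
    have ih := ih (by omega)
    obtain ⟨i, hi⟩ : ∃ i, j - l = i + 1 := ⟨j - l - 1, by omega⟩
    have e1 : j - (l + 1) = i := by omega
    have h1 := Tn_succ hm i
    rw [hi] at ih
    rw [e1, Nat.descFactorial_succ, hi]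
    push_cast
    have h2 : Tn m i ≤ (i + 1) / m * Tn m (i + 1) := by
      rw [div_mul_eq_mul_div, le_div_iff₀ hm']
      exact h1
    have h3 : (0 : ℝ) ≤ ((i : ℝ) + 1) / m := by positivity
    have h4 := mul_le_mul_of_nonneg_left ih h3
    refine h2.trans (h4.trans (le_of_eq ?_))
    rw [pow_succ]
    field_simp

theorem Tn_le {m : ℕ} (hm : 0 < m) (j l : ℕ) (hl : l ≤ j) :
    Tn m (j - l) ≤ ((j : ℝ) / m) ^ l * Tn m j := by
  have hm' : (0 : ℝ) < m := by exact_mod_cast hm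
  refine (Tn_desc hm j l hl).trans ?_
  have h1 : (j.descFactorial l : ℝ) ≤ (j : ℝ) ^ l := by
    exact_mod_cast Nat.descFactorial_le_pow j l
  rw [div_pow]
  refine mul_le_mul_of_nonneg_right ?_ (Tn_nonneg m j)
  exact div_le_div_of_nonneg_right h1 (by positivity)

theorem Tn_ge (m j : ℕ) : 2 * (m : ℝ) * (m : ℝ) ^ j ≤ j.factorial * Tn m j := by
  have h1 : m ^ j ≤ j.factorial * (m + 2 * j).choose j := by
    rw [← Nat.descFactorial_eq_factorial_mul_choose]
    refine le_trans ?_ (Nat.pow_sub_le_descFactorial (m + 2 * j) j)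
    exact Nat.pow_le_pow_left (by omega) j
  have h2 : (m : ℝ) ^ j ≤ (j.factorial : ℝ) * ((m + 2 * j).choose j : ℝ) := by exact_mod_cast h1
  unfold Tn
  have h5 : (0 : ℝ) ≤ 2 * m := by positivity
  have h6 := mul_le_mul_of_nonneg_left h2 h5
  refine h6.trans (le_of_eq ?_)
  ring

end Pool.Agent.CycSh
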