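import Pool.Agent.W_1bfdb5sh_h41.Pair
import Pool.Agent.W_1bfdb5sh_h41.TnR

/-!
# The main inequality for the degrees of a maximiser
-/

namespace Pool.Agent.CycSh

open Finset Pool.Agent.CycGT Pool.Agent.CycFD
open scoped Classical

variable {V : Type} [Fintype V] {G : SimpleGraph V} {x : V → ℝ}

private theorem BtA_pow {m i j : ℕ} (hm : 4 * j + 7 ≤ m) (hi : i ≤ j) {z : ℝ} (hz : 0 ≤ z)
    (h0 : 0 ≤ (m : ℝ) - z + 4) :
    (((m : ℝ) - z + 4) / m) ^ (m + 2 * i) ≤ Real.exp (12 - z) := by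
  have hm0 : (0 : ℝ) < m := by
    have : 0 < m := by omega
    exact_mod_cast this
  have h1 : ((m : ℝ) - z + 4) / m ≤ Real.exp ((4 - z) / m) := by
    have h2 := Real.add_one_le_exp ((4 - z) / m)
    have h3 : ((m : ℝ) - z + 4) / m = (4 - z) / m + 1 := by
      field_simp
      ring
    rw [h3]
    exact h2
  have h4 : 0 ≤ ((m : ℝ) - z + 4) / m := div_nonneg h0 hm0.le
  have h5 := pow_le_pow_left₀ h4 h1 (m + 2 * i)
  refine h5.trans ?_
  rw [← Real.exp_nat_mul]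
  refine Real.exp_le_exp.2 ?_
  push_cast
  have hi' : 4 * (i : ℝ) + 7 ≤ m := by
    have : 4 * i + 7 ≤ m := by omega
    exact_mod_cast this
  have hi0 : (0 : ℝ) ≤ i := Nat.cast_nonneg i
  rw [mul_div_assoc', div_le_iff₀ hm0]
  rcases le_or_gt z 4 with hz4 | hz4
  · nlinarith
  · nlinarith

/-- The weighted counts for weights of total size `m - z + 4`. -/
theorem Fw_exp {m j : ℕ} [NeZero m] (h : Mx G m j x) (hm : 4 * j + 7 ≤ m) {y : V → ℝ}
    (hy : ∀ v, 0 ≤ y v) {z : ℝ} (hz : 0 ≤ z) (hs : ∑ v, y v = m - z + 4) {l : ℕ} (hl : l ≤ j) :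
    Fw G (m + 2 * (j - l)) y ≤ (j.descFactorial l : ℝ) / (m : ℝ) ^ l *
      (Fw G (m + 2 * j) x * Real.exp (12 - z)) := by
  have hm1 : 0 < m := by omega
  have hm0 : (0 : ℝ) < m := by exact_mod_cast hm1
  have h0 : 0 ≤ (m : ℝ) - z + 4 := by
    rw [← hs]
    exact sum_nonneg fun v _ => hy v
  have hF : Tn m j ≤ Fw G (m + 2 * j) x := h.big.le
  have hF0 : 0 ≤ Fw G (m + 2 * j) x := (Tn_nonneg m j).trans hF
  rcases Nat.eq_zero_or_pos l with rfl | hl0
  · have h1 := h.opt y hy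
    rw [hs] at h1
    have h2 := mul_le_mul_of_nonneg_left (BtA_pow (i := j) hm le_rfl hz h0) hF0
    have h3 : Fw G (m + 2 * j) y ≤ Fw G (m + 2 * j) x * Real.exp (12 - z) := h1.trans h2
    rw [Nat.descFactorial_zero, pow_zero, Nat.cast_one, div_one, one_mul]
    exact h3
  · have h1 := h.cl (j - l) (by omega) inferInstance V inferInstance G h.of y hy
    rw [hs] at h1
    have h2 := BtA_pow (i := j - l) hm (Nat.sub_le _ _) hz h0
    have h3 := Tn_desc hm1 j l hl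
    have h4 : (0 : ℝ) ≤ (j.descFactorial l : ℝ) / (m : ℝ) ^ l := by positivity
    calc Fw G (m + 2 * (j - l)) y ≤ Tn m (j - l) * (((m : ℝ) - z + 4) / m) ^ (m + 2 * (j - l)) := h1
      _ ≤ Tn m (j - l) * Real.exp (12 - z) := mul_le_mul_of_nonneg_left h2 (Tn_nonneg _ _)
      _ ≤ ((j.descFactorial l : ℝ) / (m : ℝ) ^ l * Tn m j) * Real.exp (12 - z) :=
          mul_le_mul_of_nonneg_right h3 (Real.exp_pos _).le
      _ ≤ ((j.descFactorial l : ℝ) / (m : ℝ) ^ l * Fw G (m + 2 * j) x) * Real.exp (12 - z) :=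
          mul_le_mul_of_nonneg_right (mul_le_mul_of_nonneg_left hF h4) (Real.exp_pos _).le
      _ = _ := by ring

end Pool.Agent.CycSh
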