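import Pool.Agent.W_1bfdb5sh_h41.Pair
import Pool.Agent.W_1bfdb5sh_h41.TnR
import Pool.Agent.W_1bfdb5sh_h41.BtA

/-!
# The main inequality for the degrees of a maximiser
-/

namespace Pool.Agent.CycSh

open Finset Pool.Agent.CycGT Pool.Agent.CycFD
open scoped Classical

variable {V : Type} [Fintype V] {G : SimpleGraph V} {x : V → ℝ}

theorem bstar {m j : ℕ} [NeZero m] (h : Mx G m j x) (hm : 4 * j + 7 ≤ m) {L : ℝ}
    (hL : Lb G x L) {v w : V} (hvw : G.Adj v w) :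
    1 ≤ (2 * (j : ℝ) + 2) ^ 2 * (m : ℝ) ^ 5 * Real.exp (12 - (dg G x v + dg G x w)) *
      ∑ l ∈ range (j + 1), L ^ (2 * l) * ((j.descFactorial l : ℝ) / (m : ℝ) ^ l) := by
  have hm0 : (0 : ℝ) < m := by
    have : 0 < m := by omega
    exact_mod_cast this
  have hF : 0 < Fw G (m + 2 * j) x := lt_of_le_of_lt (Tn_nonneg m j) h.big
  have hx : ∀ v, 0 ≤ x v := fun v => (h.pos v).le
  set y := yz x (Nb G v ∪ Nb G w) v w with hy
  set z : ℝ := dg G x v + dg G x w with hz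
  have hz0 : 0 ≤ z := add_nonneg (wS_nonneg hx _) (wS_nonneg hx _)
  have hy0 : ∀ u, 0 ≤ y u := fun u => yz_nonneg hx _ v w u
  have hys : ∑ u, y u = m - z + 4 := by
    have h1 := yz_sum h.of (by omega) h.pos hvw
    rw [h.sum] at h1
    exact h1
  have h1 := pair_le h.ho h.of hm h.pos h.sum hL hvw
  rw [h.deg v] at h1
  have h2 : ∑ l ∈ range (j + 1), L ^ (2 * l) * Fw G (m + 2 * (j - l)) y ≤
      ∑ l ∈ range (j + 1), L ^ (2 * l) * ((j.descFactorial l : ℝ) / (m : ℝ) ^ l) *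
        (Fw G (m + 2 * j) x * Real.exp (12 - z)) := by
    refine Finset.sum_le_sum fun l hl => ?_
    have h3 := Fw_exp h hm hy0 hz0 hys (l := l) (by have := Finset.mem_range.1 hl; omega)
    have h4 : (0 : ℝ) ≤ L ^ (2 * l) := pow_nonneg (by linarith [hL.1]) _
    calc _ ≤ L ^ (2 * l) * ((j.descFactorial l : ℝ) / (m : ℝ) ^ l *
          (Fw G (m + 2 * j) x * Real.exp (12 - z))) := mul_le_mul_of_nonneg_left h3 h4
      _ = _ := by ring
  rw [← Finset.sum_mul] at h2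
  have h5 : Fw G (m + 2 * j) x / m ≤ (2 * (j : ℝ) + 2) ^ 2 * (m : ℝ) ^ 4 *
      ((∑ l ∈ range (j + 1), L ^ (2 * l) * ((j.descFactorial l : ℝ) / (m : ℝ) ^ l)) *
        (Fw G (m + 2 * j) x * Real.exp (12 - z))) :=
    h1.trans (mul_le_mul_of_nonneg_left h2 (by positivity))
  rw [div_le_iff₀ hm0] at h5
  have h6 : Fw G (m + 2 * j) x * 1 ≤ Fw G (m + 2 * j) x * ((2 * (j : ℝ) + 2) ^ 2 * (m : ℝ) ^ 5 *
      Real.exp (12 - z) *
      ∑ l ∈ range (j + 1), L ^ (2 * l) * ((j.descFactorial l : ℝ) / (m : ℝ) ^ l)) := by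
    rw [mul_one]
    refine h5.trans (le_of_eq ?_)
    ring
  exact le_of_mul_le_mul_left h6 hF

end Pool.Agent.CycSh
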