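import Pool.Agent.W_1bfdb5sh_h41.Pair
import Pool.Agent.W_1bfdb5sh_h41.TnR

/-!
# The main inequality for the degrees of a maximiser
-/

namespace Pool.Agent.CycSh

open Finset Pool.Agent.CycGT Pool.Agent.CycFD
open scoped Classical

variable {V : Type} [Fintype V] {G : SimpleGraph V} {x : V → ℝ}

private theorem fw_pos {m j : ℕ} [NeZero m] (h : Mx G m j x) : 0 < Fw G (m + 2 * j) x :=
  lt_of_le_of_lt (Tn_nonneg m j) h.big

/-- Every vertex of a maximiser has a neighbour. -/
private theorem has_nb_aux {m j : ℕ} [NeZero m] (h : Mx G m j x) (v : V) : ∃ w, G.Adj v w := by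
  by_contra hc
  push Not at hc
  have h1 := h.deg v
  have hm : (0 : ℝ) < m := by exact_mod_cast Nat.pos_of_ne_zero (NeZero.ne m)
  have h2 : 0 < Fw G (m + 2 * j) x / m := div_pos (fw_pos h) hm
  have h3 : dw G (m + 2 * j) x v = 0 := by
    unfold dw
    have : (clos G (m + 2 * j)).filter (fun W => W 0 = v) = ∅ := by
      rw [filter_eq_empty_iff]
      intro W hW h0
      have h5 : G.Adj (W 0) (W (0 + 1)) := (mem_filter.1 hW).2 0
      rw [h0] at h5
      exact hc _ h5
    rw [this, sum_empty]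
  linarith

/-- A maximiser has an edge of maximal product of the degrees. -/
theorem max_edge {m j : ℕ} [NeZero m] (h : Mx G m j x) : ∃ v w, G.Adj v w ∧
    ∀ u u', G.Adj u u' → dg G x u * dg G x u' ≤ dg G x v * dg G x w := by
  have hne : (clos G (m + 2 * j)).Nonempty := by
    by_contra hc
    rw [not_nonempty_iff_eq_empty] at hc
    have h1 := fw_pos h
    unfold Fw at h1
    rw [hc, sum_empty] at h1
    exact lt_irrefl _ h1
  obtain ⟨W, hW⟩ := hne
  have h5 : G.Adj (W 0) (W (0 + 1)) := (mem_filter.1 hW).2 0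
  obtain ⟨p, hp, hmax⟩ := exists_max_image
    ((univ : Finset (V × V)).filter fun p => G.Adj p.1 p.2)
    (fun p => dg G x p.1 * dg G x p.2) ⟨(W 0, W (0 + 1)), by simpa using h5⟩
  refine ⟨p.1, p.2, (mem_filter.1 hp).2, fun u u' hu => ?_⟩
  exact hmax (u, u') (by simpa using hu)

/-- Every vertex of a maximiser has a neighbour. -/
theorem has_nb {m j : ℕ} [NeZero m] (h : Mx G m j x) (v : V) : ∃ w, G.Adj v w :=
  has_nb_aux h v

end Pool.Agent.CycSh
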