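import Pool.Agent.W_1bfdb5sh_h41.Df

/-!
# Matrix entries

`Bn G x n u w`: weight of the walks of `n` steps from `u` to `w`, without the weight of `u`.
-/

namespace Pool.Agent.CycSh

open Finset Pool.Agent.CycGT Pool.Agent.CycFD
open scoped Classical

variable {V : Type} [Fintype V] {G : SimpleGraph V} {x y : V → ℝ}

theorem Bn_zero (u w : V) : Bn G x 0 u w = if u = w then 1 else 0 := by
  unfold Bn
  rw [pow_zero, Matrix.one_apply]

theorem Bn_one (u w : V) : Bn G x 1 u w = if G.Adj u w then x w else 0 := by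
  unfold Bn
  rw [pow_one]
  rfl

theorem Bn_add (a b : ℕ) (u w : V) : Bn G x (a + b) u w = ∑ z, Bn G x a u z * Bn G x b z w := by
  unfold Bn
  rw [pow_add, Matrix.mul_apply]

/-- Peel off the first step. -/
theorem Bn_succ (n : ℕ) (u w : V) :
    Bn G x (n + 1) u w = ∑ z, (if G.Adj u z then x z else 0) * Bn G x n z w := by
  rw [add_comm n 1, Bn_add]
  exact sum_congr rfl fun z _ => by rw [Bn_one]

/-- Peel off the last step. -/
theorem Bn_succ' (n : ℕ) (u w : V) :
    Bn G x (n + 1) u w = ∑ z, Bn G x n u z * (if G.Adj z w then x w else 0) := by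
  rw [Bn_add]
  exact sum_congr rfl fun z _ => by rw [Bn_one]

end Pool.Agent.CycSh
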