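import Pool.Agent.W_1bfdb5sh_h41.Df
import Pool.Agent.W_1bfdb5sh_h41.BsA

/-!
# Matrix entries

`Bn G x n u w`: weight of the walks of `n` steps from `u` to `w`, without the weight of `u`.
-/

namespace Pool.Agent.CycSh

open Finset Pool.Agent.CycGT Pool.Agent.CycFD
open scoped Classical

variable {V : Type} [Fintype V] {G : SimpleGraph V} {x y : V → ℝ}

theorem Bn_nonneg (hx : ∀ v, 0 ≤ x v) (n : ℕ) (u w : V) : 0 ≤ Bn G x n u w := by
  induction n generalizing u with
  | zero =>
    rw [Bn_zero]
    split_ifs <;> norm_num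
  | succ n ih =>
    rw [Bn_succ]
    refine sum_nonneg fun z _ => mul_nonneg ?_ (ih z)
    split_ifs
    · exact hx z
    · exact le_refl 0

theorem Bn_mono (hx : ∀ v, 0 ≤ x v) (hxy : ∀ v, x v ≤ y v) (n : ℕ) (u w : V) :
    Bn G x n u w ≤ Bn G y n u w := by
  induction n generalizing u with
  | zero => rw [Bn_zero, Bn_zero]
  | succ n ih =>
    rw [Bn_succ, Bn_succ]
    refine sum_le_sum fun z _ => mul_le_mul ?_ (ih z) (Bn_nonneg hx n z w) ?_
    · split_ifs
      · exact hxy z
      · exact le_refl 0
    · split_ifs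
      · exact (hx z).trans (hxy z)
      · exact le_refl 0

theorem Bn_symm (n : ℕ) (u w : V) : x u * Bn G x n u w = x w * Bn G x n w u := by
  induction n generalizing u with
  | zero =>
    rw [Bn_zero, Bn_zero]
    by_cases h : u = w
    · subst h
      simp
    · rw [if_neg h, if_neg (Ne.symm h)]
      simp
  | succ n ih =>
    rw [Bn_succ, Bn_succ', mul_sum, mul_sum]
    refine sum_congr rfl fun z _ => ?_
    have h1 := ih z
    by_cases h : G.Adj u z
    · rw [if_pos h, if_pos h.symm]
      calc x u * (x z * Bn G x n z w) = x u * (x z * Bn G x n z w) := rfl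
        _ = x u * (x w * Bn G x n w z) := by rw [h1]
        _ = x w * (Bn G x n w z * x u) := by ring
    · rw [if_neg h, if_neg (fun h' => h h'.symm)]
      ring

/-- A nonzero entry comes from a walk. -/
theorem Bn_wk {n : ℕ} {u w : V} (h : Bn G x n u w ≠ 0) : Wk G n u w := by
  induction n generalizing u with
  | zero =>
    rw [Bn_zero] at h
    rw [wk_zero]
    by_contra hne
    exact h (if_neg hne)
  | succ n ih =>
    rw [Bn_succ] at h
    obtain ⟨z, _, hz⟩ := Finset.exists_ne_zero_of_sum_ne_zero h
    rw [wk_succ]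
    refine ⟨z, ?_, ih (right_ne_zero_of_mul hz)⟩
    by_contra hne
    rw [if_neg hne, zero_mul] at hz
    exact hz rfl

/-- No closed walks of odd length smaller than `m`. -/
theorem Bn_odd {m : ℕ} (hG : OddFree G m) {n : ℕ} (hn : Odd n) (h : n < m) (v : V) :
    Bn G x n v v = 0 := by
  by_contra hne
  exact hG n h hn v (Bn_wk hne)

end Pool.Agent.CycSh
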