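import Pool.Agent.W_1bfdb5sh_h41.Df
import Pool.Agent.W_1bfdb5sh_h41.BsB

/-!
# Matrix entries

`Bn G x n u w`: weight of the walks of `n` steps from `u` to `w`, without the weight of `u`.
-/

namespace Pool.Agent.CycSh

open Finset Pool.Agent.CycGT Pool.Agent.CycFD
open scoped Classical

variable {V : Type} [Fintype V] {G : SimpleGraph V} {x y : V → ℝ}

/-- Row sums for a degree bound. -/
theorem Bn_row (hx : ∀ v, 0 ≤ x v) {D : ℝ} (hD : ∀ v, dg G x v ≤ D) (n : ℕ) (u : V) :
    ∑ w, Bn G x n u w ≤ D ^ n := by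
  have hdg : ∀ v, 0 ≤ dg G x v := fun v => wS_nonneg hx _
  have hD0 : 0 ≤ D := (hdg u).trans (hD u)
  induction n generalizing u with
  | zero =>
    simp only [Bn_zero, pow_zero]
    rw [sum_ite_eq univ u (fun _ => (1 : ℝ))]
    simp
  | succ n ih =>
    have h1 : ∑ w, Bn G x (n + 1) u w =
        ∑ z, (if G.Adj u z then x z else 0) * ∑ w, Bn G x n z w := by
      simp only [Bn_succ]
      rw [sum_comm]
      exact sum_congr rfl fun z _ => by rw [mul_sum]
    rw [h1]
    have h2 : ∑ z, (if G.Adj u z then x z else 0) * ∑ w, Bn G x n z w ≤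
        ∑ z, (if G.Adj u z then x z else 0) * D ^ n := by
      refine sum_le_sum fun z _ => mul_le_mul_of_nonneg_left (ih z) ?_
      split_ifs
      · exact hx z
      · exact le_refl _
    refine h2.trans ?_
    rw [← sum_mul]
    have h3 : ∑ z, (if G.Adj u z then x z else 0) = dg G x u := by
      unfold dg wS Nb
      rw [sum_filter]
      exact sum_congr rfl fun z _ => by rw [G.adj_comm]
    rw [h3, pow_succ, mul_comm (D ^ n)]
    exact mul_le_mul_of_nonneg_right (hD u) (pow_nonneg hD0 n)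

/-- An entry for a degree bound. -/
theorem Bn_entry (hx : ∀ v, 0 ≤ x v) {D : ℝ} (hD : ∀ v, dg G x v ≤ D) (n : ℕ) (u w : V) :
    Bn G x n u w ≤ D ^ n :=
  (single_le_sum (f := fun w => Bn G x n u w) (fun z _ => Bn_nonneg hx n u z)
    (mem_univ w)).trans (Bn_row hx hD n u)

end Pool.Agent.CycSh
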