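import Pool.Agent.W_1bfdb5sh_h41.Bs

/-!
# Closed walks and matrix entries

Hint: `Pool.Agent.CycGT.NegD_path`, `NegD_cyc` (W_1bfdb5_h19/NegD.lean) treat sums over functions on
`Fin`.
-/

namespace Pool.Agent.CycSh

open Finset Pool.Agent.CycGT Pool.Agent.CycFD
open scoped Classical

variable {V : Type} [Fintype V]

/-- product of the matrices `T k, ..., T (k + n - 1)` -/
private noncomputable def TrPm (T : ℕ → Matrix V V ℝ) : ℕ → ℕ → Matrix V V ℝ
  | _, 0 => 1
  | k, n + 1 => T k * TrPm T (k + 1) n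

private theorem TrPm_congr (T T' : ℕ → Matrix V V ℝ) : ∀ (n k : ℕ),
    (∀ i, k ≤ i → i < k + n → T i = T' i) → TrPm T k n = TrPm T' k n := by
  intro n
  induction n with
  | zero => intro k _; rfl
  | succ n ih =>
    intro k h
    show T k * TrPm T (k + 1) n = T' k * TrPm T' (k + 1) n
    rw [h k le_rfl (by omega), ih (k + 1) fun i h1 h2 => h i (by omega) (by omega)]

private theorem TrPm_const (M : Matrix V V ℝ) : ∀ (n k : ℕ), TrPm (fun _ => M) k n = M ^ n := by
  intro n
  induction n with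
  | zero => intro k; exact (pow_zero M).symm
  | succ n ih =>
    intro k
    show M * TrPm (fun _ => M) (k + 1) n = M ^ (n + 1)
    rw [ih, pow_succ']

private theorem TrPm_add (T : ℕ → Matrix V V ℝ) : ∀ (a b k : ℕ),
    TrPm T k (a + b) = TrPm T k a * TrPm T (k + a) b := by
  intro a
  induction a with
  | zero =>
    intro b k
    rw [Nat.zero_add, Nat.add_zero]
    exact (one_mul _).symm
  | succ a ih =>
    intro b k
    have e : a + 1 + b = (a + b) + 1 := by omega
    rw [e]
    show T k * TrPm T (k + 1) (a + b) = T k * TrPm T (k + 1) a * TrPm T (k + (a + 1)) b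
    rw [ih, mul_assoc]
    congr 3
    omega

private theorem Tr_path (T : ℕ → Matrix V V ℝ) : ∀ (m k : ℕ) (s t : V), ∑ q : Fin m → V,
    (∏ i : Fin m, T (k + i) ((Fin.cons s q : Fin (m + 1) → V) i.castSucc) (q i)) *
      T (k + m) ((Fin.cons s q : Fin (m + 1) → V) (Fin.last m)) t = TrPm T k (m + 1) s t := by
  intro m
  induction m with
  | zero =>
    intro k s t
    simp [TrPm]
  | succ m ih =>
    intro k s t
    show _ = (T k * TrPm T (k + 1) (m + 1)) s t
    rw [Matrix.mul_apply]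
    rw [← (Fin.consEquiv (fun _ : Fin (m + 1) => V)).sum_comp, Fintype.sum_prod_type]
    refine Finset.sum_congr rfl fun a _ => ?_
    rw [← ih (k + 1) a t, Finset.mul_sum]
    refine Finset.sum_congr rfl fun q _ => ?_
    have hc : (Fin.consEquiv (fun _ : Fin (m + 1) => V)) (a, q) =
        (Fin.cons a q : Fin (m + 1) → V) := rfl
    rw [hc, Fin.prod_univ_succ, ← Fin.succ_last]
    simp only [Fin.castSucc_zero, Fin.cons_zero, Fin.cons_succ, Fin.castSucc_succ, Fin.val_zero,
      Nat.add_zero, Fin.val_succ]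
    have e1 : ∀ i : Fin m, k + (i.val + 1) = k + 1 + i.val := fun i => by omega
    have e2 : k + (m + 1) = k + 1 + m := by omega
    simp only [e1, e2]
    ring

private theorem Tr_cyc (T : ℕ → Matrix V V ℝ) (m : ℕ) (φ : V → ℝ) :
    ∑ p : Fin (m + 1) → V, (∏ i : Fin (m + 1), T i (p i) (p (i + 1))) * φ (p 0) =
      ∑ s : V, φ s * TrPm T 0 (m + 1) s s := by
  rw [← (Fin.consEquiv (fun _ : Fin (m + 1) => V)).sum_comp, Fintype.sum_prod_type]
  refine Finset.sum_congr rfl fun s _ => ?_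
  rw [← Tr_path T m 0 s s, Finset.mul_sum]
  refine Finset.sum_congr rfl fun q _ => ?_
  have hc : (Fin.consEquiv (fun _ : Fin (m + 1) => V)) (s, q) =
      (Fin.cons s q : Fin (m + 1) → V) := rfl
  rw [hc, Fin.prod_univ_castSucc, Fin.last_add_one, Fin.cons_zero, mul_comm]
  congr 1
  simp only [Nat.zero_add, Fin.val_last, Fin.val_castSucc]
  congr 1
  refine Finset.prod_congr rfl fun i _ => ?_
  rw [Fin.coeSucc_eq_succ, Fin.cons_succ]

/-- sums over closed walks as sums over all functions -/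
private theorem Tr_clos (G : SimpleGraph V) (x : V → ℝ) (m : ℕ) [NeZero (m + 1)]
    (Φ : (ZMod (m + 1) → V) → ℝ) :
    ∑ W ∈ clos G (m + 1), wP x W * Φ W =
      ∑ W : Fin (m + 1) → V, (∏ i : Fin (m + 1), Bm G x (W i) (W (i + 1))) * Φ W := by
  have h : ∀ W : ZMod (m + 1) → V, (if IsCl G (m + 1) W then wP x W else 0) =
      ∏ i : ZMod (m + 1), Bm G x (W i) (W (i + 1)) := by
    intro W
    split_ifs with hW
    · unfold wP
      rw [← Equiv.prod_comp (Equiv.addRight (1 : ZMod (m + 1))) (fun i => x (W i))]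
      refine Finset.prod_congr rfl fun i _ => ?_
      rw [Bm_apply, if_pos (hW i)]
      rfl
    · unfold IsCl at hW
      push Not at hW
      obtain ⟨i, hi⟩ := hW
      symm
      refine Finset.prod_eq_zero (mem_univ i) ?_
      rw [Bm_apply, if_neg hi]
  have h2 : ∑ W ∈ clos G (m + 1), wP x W * Φ W =
      ∑ W : ZMod (m + 1) → V, (∏ i : ZMod (m + 1), Bm G x (W i) (W (i + 1))) * Φ W := by
    unfold clos
    rw [sum_filter]
    refine Finset.sum_congr rfl fun W _ => ?_
    rw [← h W]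
    split_ifs with hW
    · rfl
    · rw [zero_mul]
  rw [h2]
  rfl

/-- Closed walks with two marked positions `0` and `q`. -/
theorem two_point (G : SimpleGraph V) (x : V → ℝ) {r q : ℕ} [NeZero r] (h0 : 0 < q) (hq : q < r)
    (φ : V → V → ℝ) : ∑ W ∈ clos G r, wP x W * φ (W 0) (W (q : ZMod r)) =
      ∑ u, ∑ w, φ u w * (Bn G x q u w * Bn G x (r - q) w u) := by
  obtain ⟨m, rfl⟩ : ∃ m, r = m + 1 := ⟨r - 1, by omega⟩
  set qf : Fin (m + 1) := ⟨q, hq⟩ with hqf
  have hqz : ((q : ℕ) : ZMod (m + 1)) = (qf : ZMod (m + 1)) := by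
    apply ZMod.val_injective (m + 1)
    rw [ZMod.val_cast_of_lt hq]
    rfl
  rw [hqz, Tr_clos G x m (fun W => φ (W 0) (W qf))]
  set T : V → ℕ → Matrix V V ℝ := fun b i =>
    Matrix.of fun u w => if i = q ∧ u ≠ b then 0 else Bm G x u w with hT
  have hval : (qf : ℕ) = q := rfl
  have h1 : ∀ W : Fin (m + 1) → V,
      (∏ i : Fin (m + 1), Bm G x (W i) (W (i + 1))) * φ (W 0) (W qf) =
      ∑ b : V, (∏ i : Fin (m + 1), T b i (W i) (W (i + 1))) * φ (W 0) b := by
    intro W
    rw [Finset.sum_eq_single (W qf)]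
    · congr 1
      refine Finset.prod_congr rfl fun i _ => ?_
      rw [hT]
      show _ = if ((i : ℕ) = q ∧ W i ≠ W qf) then (0 : ℝ) else
        Bm G x (W i) (W (i + 1))
      rw [if_neg]
      rintro ⟨h2, h3⟩
      apply h3
      congr 1
      apply Fin.ext
      rw [hval, h2]
    · intro b _ hb
      rw [Finset.prod_eq_zero (mem_univ qf), zero_mul]
      rw [hT]
      show (if ((qf : ℕ) = q ∧ W qf ≠ b) then (0 : ℝ) else
        Bm G x (W qf) (W (qf + 1))) = 0
      rw [if_pos ⟨hval, fun h => hb h.symm⟩]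
    · intro h
      exact absurd (mem_univ _) h
  have h2 : ∑ W : Fin (m + 1) → V, (∏ i : Fin (m + 1), Bm G x (W i) (W (i + 1))) *
      φ (W 0) (W qf) =
      ∑ b : V, ∑ s : V, φ s b * TrPm (T b) 0 (m + 1) s s := by
    rw [Finset.sum_congr rfl fun W _ => h1 W, Finset.sum_comm]
    refine Finset.sum_congr rfl fun b _ => ?_
    exact Tr_cyc (T b) m (fun s => φ s b)
  refine Eq.trans h2 ?_
  rw [Finset.sum_comm]
  refine Finset.sum_congr rfl fun s _ => Finset.sum_congr rfl fun b _ => ?_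
  congr 1
  have e : m + 1 = q + (1 + (m - q)) := by omega
  have e' : m + 1 - q = (m - q) + 1 := by omega
  rw [e', e, TrPm_add, TrPm_add (T b) 1]
  have h3 : TrPm (T b) 0 q = Bm G x ^ q := by
    rw [← TrPm_const (Bm G x) q 0]
    refine TrPm_congr _ _ q 0 fun i _ hi => ?_
    ext u w
    rw [hT]
    show (if i = q ∧ u ≠ b then (0 : ℝ) else Bm G x u w) = _
    rw [if_neg]
    rintro ⟨h4, _⟩
    omega
  have h5 : TrPm (T b) (0 + q + 1) (m - q) = Bm G x ^ (m - q) := by
    rw [← TrPm_const (Bm G x) (m - q) (0 + q + 1)]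
    refine TrPm_congr _ _ (m - q) (0 + q + 1) fun i hi _ => ?_
    ext u w
    rw [hT]
    show (if i = q ∧ u ≠ b then (0 : ℝ) else Bm G x u w) = _
    rw [if_neg]
    rintro ⟨h4, _⟩
    omega
  have h6 : TrPm (T b) (0 + q) 1 = T b q := by
    show T b (0 + q) * 1 = T b q
    rw [mul_one, Nat.zero_add]
  rw [h3, h5, h6, Matrix.mul_apply]
  unfold Bn
  rw [Finset.sum_eq_single b]
  · congr 1
    rw [pow_succ', Matrix.mul_apply, Matrix.mul_apply]
    refine Finset.sum_congr rfl fun w _ => ?_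
    congr 1
    rw [hT]
    show (if q = q ∧ b ≠ b then (0 : ℝ) else Bm G x b w) = _
    rw [if_neg (fun h => h.2 rfl)]
  · intro u _ hu
    rw [Matrix.mul_apply, Finset.sum_eq_zero, mul_zero]
    intro w _
    have : T b q u w = 0 := by
      rw [hT]
      show (if q = q ∧ u ≠ b then (0 : ℝ) else Bm G x u w) = 0
      rw [if_pos ⟨rfl, hu⟩]
    rw [this, zero_mul]
  · intro h
    exact absurd (mem_univ _) h

/-- Closed walks with a marked position 0. -/
theorem one_point (G : SimpleGraph V) (x : V → ℝ) (r : ℕ) [NeZero r] (φ : V → ℝ) :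
    ∑ W ∈ clos G r, wP x W * φ (W 0) = ∑ u, φ u * Bn G x r u u := by
  have hr : r ≠ 0 := NeZero.ne r
  obtain ⟨m, rfl⟩ : ∃ m, r = m + 1 := ⟨r - 1, by omega⟩
  rw [Tr_clos G x m (fun W => φ (W 0))]
  refine Eq.trans (Tr_cyc (fun _ => Bm G x) m φ) ?_
  rw [TrPm_const]
  rfl

theorem Fw_trace (G : SimpleGraph V) (x : V → ℝ) (r : ℕ) [NeZero r] :
    Fw G r x = ∑ u, Bn G x r u u := by
  have h := one_point G x r (fun _ => 1)
  simp only [mul_one, one_mul] at h
  exact h

theorem Bn_diag (G : SimpleGraph V) (x : V → ℝ) (r : ℕ) [NeZero r] (v : V) :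
    Bn G x r v v = x v * dw G r x v := by
  have h := one_point G x r (fun w => if w = v then 1 else 0)
  have h2 : ∑ u, (if u = v then (1 : ℝ) else 0) * Bn G x r u u = Bn G x r v v := by
    rw [Finset.sum_eq_single v]
    · rw [if_pos rfl, one_mul]
    · intro u _ hu
      rw [if_neg hu, zero_mul]
    · intro h
      exact absurd (mem_univ _) h
  rw [← h2, ← h]
  unfold dw
  rw [Finset.mul_sum, Finset.sum_filter]
  refine Finset.sum_congr rfl fun W _ => ?_
  split_ifs with hW
  · rw [mul_one, ← hW]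
    unfold wP
    rw [Finset.mul_prod_erase univ (fun p => x (W p)) (mem_univ 0)]
  · rw [mul_zero]

end Pool.Agent.CycSh
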