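import Pool.Agent.W_1bfdb5sh_h41.R1
import Pool.Agent.W_1bfdb5sh_h41.Bs
import Pool.Agent.W_1bfdb5sh_h41.Tr

/-!
# Bad visits of closed walks through a vertex
-/

namespace Pool.Agent.CycSh

open Finset Pool.Agent.CycGT Pool.Agent.CycFD
open scoped Classical

variable {V : Type} [Fintype V] {G : SimpleGraph V} {x : V → ℝ}

theorem dw_split (G : SimpleGraph V) (r : ℕ) [NeZero r] (hx : ∀ v, 0 ≤ x v) (v : V)
    (B : Finset V) : dw G r x v ≤
      ∑ W ∈ (clos G r).filter (fun W => W 0 = v),
        (∏ p ∈ univ.erase (0 : ZMod r), x (W p)) *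
          (#((univ.erase (0 : ZMod r)).filter (fun p => W p ∈ B)) : ℝ) +
      dw G r (off x B) v := by
  unfold dw
  rw [← Finset.sum_add_distrib]
  refine Finset.sum_le_sum fun W _ => ?_
  have h0 : 0 ≤ ∏ p ∈ univ.erase (0 : ZMod r), x (W p) := Finset.prod_nonneg fun p _ => hx _
  have h1 : 0 ≤ ∏ p ∈ univ.erase (0 : ZMod r), off x B (W p) :=
    Finset.prod_nonneg fun p _ => by
      unfold off
      split_ifs
      · exact le_rfl
      · exact hx _
  by_cases hB : ((univ.erase (0 : ZMod r)).filter (fun p => W p ∈ B)).Nonempty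
  · have h2 : (1 : ℝ) ≤ (#((univ.erase (0 : ZMod r)).filter (fun p => W p ∈ B)) : ℝ) := by
      exact_mod_cast Finset.card_pos.2 hB
    have h3 := mul_le_mul_of_nonneg_left h2 h0
    rw [mul_one] at h3
    linarith
  · have h2 : ∏ p ∈ univ.erase (0 : ZMod r), off x B (W p) =
        ∏ p ∈ univ.erase (0 : ZMod r), x (W p) := by
      refine Finset.prod_congr rfl fun p hp => ?_
      have hp' : W p ∉ B := fun h => hB ⟨p, Finset.mem_filter.2 ⟨hp, h⟩⟩
      unfold off
      rw [if_neg hp']
    rw [h2]
    have h3 : 0 ≤ (∏ p ∈ univ.erase (0 : ZMod r), x (W p)) *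
        (#((univ.erase (0 : ZMod r)).filter (fun p => W p ∈ B)) : ℝ) :=
      mul_nonneg h0 (Nat.cast_nonneg _)
    linarith

private theorem dw_two_mul (G : SimpleGraph V) (x : V → ℝ) {r : ℕ} [NeZero r] (hr : 3 ≤ r)
    (v : V) : x v * dw G r x v =
      x v * ∑ s ∈ Nb G v, ∑ s' ∈ Nb G v, x s * Bn G x (r - 2) s s' := by
  rw [← Bn_diag]
  obtain ⟨n, rfl⟩ : ∃ n, r = n + 2 := ⟨r - 2, by omega⟩
  have e : n + 2 - 2 = n := by omega
  rw [e, show n + 2 = (n + 1) + 1 from rfl, Bn_succ]
  simp only [Bn_succ']
  rw [Finset.mul_sum]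
  unfold Nb
  rw [Finset.sum_filter]
  refine Finset.sum_congr rfl fun s _ => ?_
  by_cases hs : G.Adj v s
  · rw [if_pos hs, if_pos hs.symm, Finset.mul_sum, Finset.sum_filter, Finset.mul_sum]
    refine Finset.sum_congr rfl fun s' _ => ?_
    by_cases hs' : G.Adj s' v
    · rw [if_pos hs', if_pos hs']
      ring
    · rw [if_neg hs', if_neg hs']
      ring
  · rw [if_neg hs, if_neg (fun h => hs h.symm), zero_mul]

private theorem up_cont (x : V → ℝ) (v w : V) :
    Continuous fun t : ℝ => Function.update x v t w := by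
  by_cases h : w = v
  · subst h
    simp only [Function.update_self]
    exact continuous_id
  · simp only [Function.update_of_ne h]
    exact continuous_const

private theorem Bm_cont (G : SimpleGraph V) (x : V → ℝ) (v : V) :
    Continuous fun t : ℝ => Bm G (Function.update x v t) := by
  refine continuous_matrix fun u w => ?_
  show Continuous fun t : ℝ => if G.Adj u w then Function.update x v t w else 0
  by_cases h : G.Adj u w
  · simp only [if_pos h]
    exact up_cont x v w
  · simp only [if_neg h]
    exact continuous_const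

/-- Closed walks through `v` and the two neighbours of the position 0. -/
theorem dw_two (G : SimpleGraph V) (x : V → ℝ) {r : ℕ} [NeZero r] (hr : 3 ≤ r) (v : V) :
    dw G r x v = ∑ s ∈ Nb G v, ∑ s' ∈ Nb G v, x s * Bn G x (r - 2) s s' := by
  have hc : ∀ w, Continuous fun t : ℝ => Function.update x v t w := up_cont x v
  have h1 : Continuous fun t : ℝ => dw G r (Function.update x v t) v := by
    unfold dw
    exact continuous_finsetSum _ fun W _ => continuous_finsetProd _ fun p _ => hc (W p)
  have h2 : Continuous fun t : ℝ => ∑ s ∈ Nb G v, ∑ s' ∈ Nb G v,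
      Function.update x v t s * Bn G (Function.update x v t) (r - 2) s s' := by
    refine continuous_finsetSum _ fun s _ => continuous_finsetSum _ fun s' _ =>
      (hc s).mul ?_
    unfold Bn
    exact ((Bm_cont G x v).pow (r - 2)).matrix_elem s s'
  have h3 : Set.EqOn (fun t : ℝ => dw G r (Function.update x v t) v)
      (fun t : ℝ => ∑ s ∈ Nb G v, ∑ s' ∈ Nb G v,
        Function.update x v t s * Bn G (Function.update x v t) (r - 2) s s') {0}ᶜ := by
    intro t ht
    have h := dw_two_mul G (Function.update x v t) hr v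
    rw [Function.update_self] at h
    exact mul_left_cancel₀ ht h
  have h4 := h1.ext_on (dense_compl_singleton (0 : ℝ)) h2 h3
  have h5 := congrFun h4 (x v)
  simp only [Function.update_eq_self] at h5
  exact h5

end Pool.Agent.CycSh
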