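import Pool.Agent.W_1bfdb5sh_h41.DwE
import Pool.Agent.W_1bfdb5fd_h19.Eb

/-!
# A good closed walk is balanced
-/

namespace Pool.Agent.CycSh

open Finset Pool.Agent.CycGT Pool.Agent.CycFD
open scoped Classical

theorem near_one {x : ℝ} (hx : 0 < x) (h : x - 1 - Real.log x ≤ 1 / 4000) :
    |x - 1| ≤ 1 / 20 := by
  obtain ⟨y, hy, rfl⟩ : ∃ y : ℝ, 0 < y ∧ y ^ 2 = x :=
    ⟨√x, Real.sqrt_pos.2 hx, Real.sq_sqrt hx.le⟩
  have h1 : Real.log (y ^ 2) = 2 * Real.log y := by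
    rw [Real.log_pow]
    norm_num
  have h2 := Real.log_le_sub_one_of_pos hy
  rw [h1] at h
  have h3 : (y - 1) ^ 2 ≤ 1 / 4000 := by nlinarith
  have h4 : |y - 1| ≤ 1 / 60 := by
    refine abs_le_of_sq_le_sq ?_ (by norm_num)
    exact h3.trans (by norm_num)
  obtain ⟨h5, h6⟩ := abs_le.1 h4
  rw [abs_le]
  constructor <;> nlinarith

theorem sq_four {x : ℝ} (hx : 0 < x) (h : x ≤ 21 / 20) :
    (x - 1) ^ 2 ≤ 4 * (x - 1 - Real.log x) := by
  obtain ⟨z, hz, rfl⟩ : ∃ z : ℝ, 0 < z ∧ z ^ 4 = x := by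
    refine ⟨√√x, Real.sqrt_pos.2 (Real.sqrt_pos.2 hx), ?_⟩
    have h1 : (√√x) ^ 4 = ((√√x) ^ 2) ^ 2 := by ring
    rw [h1, Real.sq_sqrt (Real.sqrt_nonneg x), Real.sq_sqrt hx.le]
  have h1 : Real.log (z ^ 4) = 4 * Real.log z := by
    rw [Real.log_pow]
    norm_num
  have h2 := Real.log_le_sub_one_of_pos hz
  rw [h1]
  have hz1 : z ≤ 81 / 80 := by
    by_contra hc
    rw [not_le] at hc
    have h3 : (81 / 80 : ℝ) ^ 4 < z ^ 4 := pow_lt_pow_left₀ hc (by norm_num) (by norm_num)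
    have h4 : (21 / 20 : ℝ) < (81 / 80) ^ 4 := by norm_num
    linarith
  have h3 : (z + 1) ^ 2 * (z ^ 2 + 1) ^ 2 ≤ 4 * (z ^ 2 + 2 * z + 3) := by
    have h4 : z ^ 2 ≤ 21 / 20 := by nlinarith
    have h5 : (z ^ 2 + 1) ^ 2 ≤ 5 := by nlinarith [sq_nonneg z]
    have h6 : (z + 1) ^ 2 ≤ 5 := by nlinarith
    calc (z + 1) ^ 2 * (z ^ 2 + 1) ^ 2 ≤ (z + 1) ^ 2 * 5 :=
          mul_le_mul_of_nonneg_left h5 (sq_nonneg _)
      _ ≤ 4 * (z ^ 2 + 2 * z + 3) := by nlinarith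
  have h4 : (z ^ 4 - 1) ^ 2 = (z - 1) ^ 2 * ((z + 1) ^ 2 * (z ^ 2 + 1) ^ 2) := by ring
  rw [h4]
  calc (z - 1) ^ 2 * ((z + 1) ^ 2 * (z ^ 2 + 1) ^ 2)
      ≤ (z - 1) ^ 2 * (4 * (z ^ 2 + 2 * z + 3)) := mul_le_mul_of_nonneg_left h3 (sq_nonneg _)
    _ = 4 * (z ^ 4 - 4 * z + 3) := by ring
    _ ≤ 4 * (z ^ 4 - 1 - 4 * Real.log z) := by linarith

theorem bal_w {V : Type} [Fintype V] {G : SimpleGraph V} {x : V → ℝ} {m : ℕ} [NeZero m]
    (hm : 20 ≤ m) (ho : Odd m) (hG : OddFree G m) {c : ZMod m → V} (hc : IsCl G m c)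
    (hx : ∀ v, 0 < x v) (hs : ∑ v, x v = m) (h : Dw G x c ≤ 1 / 10000) :
    wS x (BB G c) ≤ 3 / 10000 ∧ (∀ t, |wS x (AA G c t) - 1| ≤ 1 / 20) ∧
      ∑ t, (wS x (AA G c t) - 1) ^ 2 ≤ 1 / 1000 := by
  have hb : 0 ≤ wS x (BB G c) := wS_nonneg (fun v => (hx v).le) _
  have hP := Phw_nonneg (by omega) ho hG hc hx hs
  have hE := Phw_eq (by omega) ho hG hc hs
  have hm' : (20 : ℝ) ≤ m := by exact_mod_cast hm
  have hco : (2 / 5 : ℝ) ≤ ((m : ℝ) - 4) / (2 * m) := by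
    rw [le_div_iff₀ (by linarith)]
    linarith
  have hD : 2 / 5 * wS x (BB G c) + 2 / 5 * Phw G x c ≤ 1 / 10000 := by
    refine le_trans ?_ h
    unfold Dw
    have := mul_le_mul_of_nonneg_right hco hb
    linarith
  have hb' : wS x (BB G c) ≤ 1 / 4000 := by linarith
  have hP' : Phw G x c ≤ 1 / 4000 := by linarith
  have hpos : ∀ t, 0 < wS x (AA G c t) := by
    intro t
    refine lt_of_lt_of_le (hx (c t)) ?_
    refine Finset.single_le_sum (f := x) (fun v _ => (hx v).le) ?_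
    rw [mem_AA]
    refine ⟨?_, hc t⟩
    have h1 := hc (t - 1)
    rw [sub_add_cancel] at h1
    exact h1.symm
  have hnn : ∀ t ∈ (univ : Finset (ZMod m)),
      0 ≤ wS x (AA G c t) - 1 - Real.log (wS x (AA G c t)) := by
    intro t _
    have := Real.log_le_sub_one_of_pos (hpos t)
    linarith
  have hle : ∀ t, wS x (AA G c t) - 1 - Real.log (wS x (AA G c t)) ≤ 1 / 4000 := by
    intro t
    refine le_trans (Finset.single_le_sum hnn (mem_univ t)) ?_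
    rw [← hE]
    exact hP'
  have hone : ∀ t, |wS x (AA G c t) - 1| ≤ 1 / 20 := fun t => near_one (hpos t) (hle t)
  refine ⟨by linarith, hone, ?_⟩
  calc ∑ t, (wS x (AA G c t) - 1) ^ 2
      ≤ ∑ t, 4 * (wS x (AA G c t) - 1 - Real.log (wS x (AA G c t))) := by
        refine Finset.sum_le_sum fun t _ => sq_four (hpos t) ?_
        have := (abs_le.1 (hone t)).2
        linarith
    _ = 4 * Phw G x c := by rw [← Finset.mul_sum, ← hE]
    _ ≤ 1 / 1000 := by linarith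

end Pool.Agent.CycSh
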