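import Pool.Agent.W_1bfdb5sh_h41.Pl

/-!
# Blow-ups with integer weights

`Gb G b` has `b v` copies of the vertex `v`.
-/

namespace Pool.Agent.CycSh

open Finset Pool.Agent.CycGT Pool.Agent.CycFD
open scoped Classical

variable {V : Type} [Fintype V]

omit [Fintype V] in
/-- The number of the lifts of a sequence of vertices. -/
theorem BuB_card (b : V → ℕ) {r : ℕ} [NeZero r] (W : ZMod r → V)
    (S : Finset (ZMod r → Σ v, Fin (b v)))
    (hS : ∀ W' : ZMod r → Σ v, Fin (b v), W' ∈ S ↔ (fun p => (W' p).1) = W) :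
    #S = ∏ p, b (W p) := by
  have h1 : S = (univ : Finset (∀ p, Fin (b (W p)))).image
      (fun g => fun p => (⟨W p, g p⟩ : Σ v, Fin (b v))) := by
    ext W'
    rw [hS, mem_image]
    constructor
    · intro h
      subst h
      exact ⟨fun p => (W' p).2, mem_univ _, rfl⟩
    · rintro ⟨g, -, rfl⟩
      rfl
  rw [h1, card_image_of_injective]
  · rw [card_univ, Fintype.card_pi]
    simp
  · intro g g' h
    funext p
    have := congrFun h p
    simpa using this

/-- Sums over the closed walks of the blow-up of a function of the projection. -/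
theorem Gb_sum (G : SimpleGraph V) (b : V → ℕ) (r : ℕ) [NeZero r] (f : (ZMod r → V) → ℝ) :
    ∑ W ∈ clos (Gb G b) r, f (fun p => (W p).1) =
      ∑ W ∈ clos G r, wP (fun v => (b v : ℝ)) W * f W := by
  have hmem : ∀ W : ZMod r → Σ v, Fin (b v),
      W ∈ clos (Gb G b) r ↔ (fun p => (W p).1) ∈ clos G r := by
    intro W
    unfold clos
    rw [mem_filter, mem_filter]
    exact ⟨fun h => ⟨mem_univ _, h.2⟩, fun h => ⟨mem_univ _, h.2⟩⟩
  rw [← sum_fiberwise_of_maps_to (s := clos (Gb G b) r) (t := clos G r)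
    (g := fun W p => (W p).1) fun W hW => (hmem W).1 hW]
  refine sum_congr rfl fun W hW => ?_
  have h1 : ∑ W' ∈ (clos (Gb G b) r).filter (fun W' => (fun p => (W' p).1) = W),
      f (fun p => (W' p).1) =
      ∑ W' ∈ (clos (Gb G b) r).filter (fun W' => (fun p => (W' p).1) = W), f W :=
    sum_congr rfl fun W' hW' => by rw [(mem_filter.1 hW').2]
  rw [h1, sum_const, BuB_card b W _ fun W' => ?_, nsmul_eq_mul, wP]
  · push_cast
    rfl
  · rw [mem_filter, hmem]
    constructor
    · exact fun h => h.2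
    · intro h
      rw [h]
      exact ⟨hW, rfl⟩

omit [Fintype V] in
/-- Walks of the blow-up and of the graph (`b` positive). -/
theorem Gb_wk {G : SimpleGraph V} {b : V → ℕ} (hb : ∀ v, 0 < b v) {n : ℕ} (hn : 0 < n)
    {z z' : Σ v, Fin (b v)} : Wk (Gb G b) n z z' ↔ Wk G n z.1 z'.1 := by
  constructor
  · rintro ⟨p, hp⟩
    let F : Gb G b →g G := ⟨Sigma.fst, fun {a c} h => h⟩
    exact ⟨p.map F, by rw [SimpleGraph.Walk.length_map, hp]⟩
  · rintro ⟨p, hp⟩
    induction n generalizing z with
    | zero => omega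
    | succ n ih =>
      obtain ⟨v, i⟩ := z
      cases p with
      | nil => simp at hp
      | @cons _ w _ h q =>
        rw [SimpleGraph.Walk.length_cons] at hp
        rcases Nat.eq_zero_or_pos n with h0 | h0
        · subst h0
          have hq : w = z'.1 := SimpleGraph.Walk.eq_of_length_eq_zero (p := q) (by omega)
          have h' : (Gb G b).Adj ⟨v, i⟩ z' := by
            change G.Adj v z'.1
            rw [← hq]
            exact h
          exact ⟨SimpleGraph.Walk.cons h' SimpleGraph.Walk.nil, by simp⟩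
        · obtain ⟨q', hq'⟩ := ih h0 (z := ⟨w, ⟨0, hb w⟩⟩) q (by omega)
          have h' : (Gb G b).Adj ⟨v, i⟩ ⟨w, ⟨0, hb w⟩⟩ := h
          exact ⟨SimpleGraph.Walk.cons h' q', by rw [SimpleGraph.Walk.length_cons, hq']⟩

end Pool.Agent.CycSh
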