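import Pool.Agent.W_1bfdb5sh_h41.Pl

/-!
# Blow-ups with integer weights

`Gb G b` has `b v` copies of the vertex `v`.
-/

namespace Pool.Agent.CycSh

open Finset Pool.Agent.CycGT Pool.Agent.CycFD
open scoped Classical

variable {V : Type} [Fintype V]

theorem Gb_odd {G : SimpleGraph V} {m : ℕ} (hG : OddFree G m) (b : V → ℕ) :
    OddFree (Gb G b) m := by
  intro r hr ho v hv
  obtain ⟨p, hp⟩ := hv
  let f : Gb G b →g G := { toFun := Sigma.fst, map_rel' := fun h => h }
  exact hG r hr ho (f v) ⟨p.map f, by rw [SimpleGraph.Walk.length_map, hp]⟩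

theorem Gb_card (b : V → ℕ) : (Fintype.card (Σ v, Fin (b v)) : ℝ) = ∑ v, (b v : ℝ) := by
  rw [Fintype.card_sigma]
  push_cast
  exact sum_congr rfl fun v _ => by rw [Fintype.card_fin]

/-- The size of the preimage of a set. -/
theorem Gb_pre (b : V → ℕ) (S : Finset V) :
    (#((univ : Finset (Σ v, Fin (b v))).filter (fun z => z.1 ∈ S)) : ℝ) =
      wS (fun v => (b v : ℝ)) S := by
  have h : (univ : Finset (Σ v, Fin (b v))).filter (fun z => z.1 ∈ S) =
      S.sigma fun v => (univ : Finset (Fin (b v))) := by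
    ext z
    simp
  rw [h, card_sigma]
  unfold wS
  push_cast
  exact sum_congr rfl fun v _ => by rw [card_univ, Fintype.card_fin]

/-- Approximation by integers. -/
theorem ceil_tendsto {x : V → ℝ} (hx : ∀ v, 0 < x v) (v : V) :
    Filter.Tendsto (fun N : ℕ => ((⌈(N : ℝ) * x v⌉₊ : ℕ) : ℝ) / N) Filter.atTop (nhds (x v)) := by
  have h := (tendsto_nat_ceil_mul_div_atTop (hx v).le).comp tendsto_natCast_atTop_atTop
  refine h.congr fun N => ?_
  simp only [Function.comp]
  rw [mul_comm]

end Pool.Agent.CycSh
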