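import Pool.Agent.W_1bfdb5sh_h41.R1
import Pool.Agent.W_1bfdb5sh_h41.Bs

/-!
# Bad visits of closed walks through a vertex
-/

namespace Pool.Agent.CycSh

open Finset Pool.Agent.CycGT Pool.Agent.CycFD
open scoped Classical

variable {V : Type} [Fintype V] {G : SimpleGraph V} {x : V → ℝ}

/-- `((m + 2) / m) ^ M` is at most 9. -/
theorem pow_nine {m j : ℕ} (hm : 0 < m) (hj : 40 * j ≤ m) {i : ℕ} (hi : i ≤ j) {s : ℝ}
    (hs0 : 0 ≤ s) (hs : s ≤ (m : ℝ) + 2) : (s / m) ^ (m + 2 * i) ≤ 9 := by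
  have hm' : (0 : ℝ) < m := by exact_mod_cast hm
  have h1 : s / m ≤ Real.exp (2 / m) := by
    have h2 : s / m ≤ 2 / m + 1 := by
      rw [div_add_one hm'.ne', div_le_div_iff_of_pos_right hm']
      linarith
    exact h2.trans (Real.add_one_le_exp _)
  have h3 : (s / m) ^ (m + 2 * i) ≤ Real.exp (2 / m) ^ (m + 2 * i) :=
    pow_le_pow_left₀ (div_nonneg hs0 hm'.le) h1 _
  refine h3.trans ?_
  rw [← Real.exp_nat_mul]
  have h4 : ((m + 2 * i : ℕ) : ℝ) * (2 / m) ≤ 21 / 10 := by
    have hi' : (40 : ℝ) * i ≤ m := by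
      have : 40 * i ≤ m := by omega
      exact_mod_cast this
    push_cast
    rw [mul_div_assoc', div_le_div_iff₀ hm' (by norm_num)]
    linarith
  refine (Real.exp_le_exp.mpr h4).trans ?_
  have h5 : (21 / 10 : ℝ) = 1 + 1 + 1 / 10 := by norm_num
  rw [h5, Real.exp_add, Real.exp_add]
  have h6 : Real.exp (1 / 10) ≤ 10 / 9 := by
    have h7 := Real.one_sub_le_exp_neg (1 / 10)
    have h8 : Real.exp (1 / 10) * Real.exp (-(1 / 10)) = 1 := by
      rw [← Real.exp_add]
      simp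
    have h9 := Real.exp_pos (1 / 10)
    nlinarith
  have h10 := Real.exp_one_lt_d9
  have h11 := Real.exp_pos 1
  have h12 : Real.exp 1 * Real.exp 1 ≤ 7.4 := by nlinarith
  have h13 := Real.exp_pos (1 / 10)
  nlinarith

theorem bad_vis {m j : ℕ} [NeZero m] (h : Mx G m j x) (hj : 40 * j ≤ m) (v : V)
    (B : Finset V) :
    ∑ W ∈ (clos G (m + 2 * j)).filter (fun W => W 0 = v),
      (∏ p ∈ univ.erase (0 : ZMod (m + 2 * j)), x (W p)) *
        (#((univ.erase (0 : ZMod (m + 2 * j))).filter (fun p => W p ∈ B)) : ℝ) ≤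
      wS x B * (9 * (Fw G (m + 2 * j) x / m)) := by
  have hm : 0 < m := Nat.pos_of_ne_zero (NeZero.ne m)
  have hm' : (0 : ℝ) < m := by exact_mod_cast hm
  have hx : ∀ u, 0 ≤ x u := fun u => (h.pos u).le
  set r := m + 2 * j with hr
  have hr' : (m : ℝ) ≤ (r : ℝ) := by
    rw [hr]
    push_cast
    have : (0 : ℝ) ≤ (j : ℝ) := Nat.cast_nonneg _
    linarith
  have hF : 0 ≤ Fw G r x := by
    unfold Fw
    exact sum_nonneg fun W _ => wP_nonneg hx W
  -- one marked vertex w
  have hw : ∀ w : V, ∑ W ∈ (clos G r).filter (fun W => W 0 = v),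
      ∑ p ∈ univ.erase (0 : ZMod r),
      (if W p = w then ∏ q ∈ (univ.erase (0 : ZMod r)).erase p, x (W q) else 0) ≤
      9 * (Fw G r x / m) := by
    intro w
    have h1 := r2 G r hx v w
    have h2 := h.opt (ad (ad x w 1) v 1) (fun u =>
      ad_nonneg (fun u => ad_nonneg hx w zero_le_one u) v zero_le_one u)
    have h3 : ∑ u, ad (ad x w 1) v 1 u = (m : ℝ) + 2 := by
      rw [ad_sum, ad_sum, h.sum]
      ring
    rw [h3] at h2
    have h4 := pow_nine hm hj (le_refl j) (s := (m : ℝ) + 2) (by positivity) (le_refl _)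
    have h5 : Fw G r x * (((m : ℝ) + 2) / m) ^ (m + 2 * j) ≤ Fw G r x * 9 :=
      mul_le_mul_of_nonneg_left h4 hF
    set S := ∑ W ∈ (clos G r).filter (fun W => W 0 = v),
      ∑ p ∈ univ.erase (0 : ZMod r),
      (if W p = w then ∏ q ∈ (univ.erase (0 : ZMod r)).erase p, x (W q) else 0) with hS
    have hS0 : 0 ≤ S := by
      refine sum_nonneg fun W _ => sum_nonneg fun p _ => ?_
      split_ifs
      · exact prod_nonneg fun q _ => hx _
      · exact le_refl _
    have h6 : (m : ℝ) * S ≤ Fw G r x * 9 :=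
      (mul_le_mul_of_nonneg_right hr' hS0).trans (h1.trans (h2.trans h5))
    rw [mul_div_assoc', le_div_iff₀ hm']
    linarith
  have e1 : ∑ W ∈ (clos G r).filter (fun W => W 0 = v),
      (∏ p ∈ univ.erase (0 : ZMod r), x (W p)) *
        (#((univ.erase (0 : ZMod r)).filter (fun p => W p ∈ B)) : ℝ) =
      ∑ w ∈ B, x w * ∑ W ∈ (clos G r).filter (fun W => W 0 = v),
      ∑ p ∈ univ.erase (0 : ZMod r),
      (if W p = w then ∏ q ∈ (univ.erase (0 : ZMod r)).erase p, x (W q) else 0) := by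
    simp only [mul_sum]
    rw [sum_comm]
    refine sum_congr rfl fun W _ => ?_
    rw [sum_comm, card_filter, Nat.cast_sum, mul_sum]
    refine sum_congr rfl fun p hp => ?_
    have e2 : ∀ w ∈ B, x w * (if W p = w then
        ∏ q ∈ (univ.erase (0 : ZMod r)).erase p, x (W q) else 0) =
        if W p = w then ∏ q ∈ univ.erase (0 : ZMod r), x (W q) else 0 := by
      intro w _
      split_ifs with h1
      · rw [← h1]
        exact mul_prod_erase (univ.erase (0 : ZMod r)) (fun q => x (W q)) hp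
      · rw [mul_zero]
    rw [sum_congr rfl e2, sum_ite_eq]
    split_ifs <;> simp
  rw [e1]
  unfold wS
  rw [sum_mul]
  exact sum_le_sum fun w _ => mul_le_mul_of_nonneg_left (hw w) (hx w)

end Pool.Agent.CycSh
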