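import Pool.Agent.W_1bfdb5sh_h41.EbW
import Pool.Agent.W_1bfdb5sh_h41.AiW
import Pool.Agent.W_1bfdb5sh_h41.TnR

/-!
# The terms with `i ≥ 1`
-/

namespace Pool.Agent.CycSh

open Finset Pool.Agent.CycGT Pool.Agent.CycFD
open scoped Classical

variable {V : Type} [Fintype V] {G : SimpleGraph V} {x : V → ℝ}

private theorem eew_nn (hx : ∀ v, 0 < x v) (e : ℕ) {r : ℕ} [NeZero r] (W : ZMod r → V) :
    0 ≤ EEw G x e W := by
  unfold EEw eew
  refine sum_nonneg fun s _ => sum_nonneg fun y _ => sum_nonneg fun z _ => ?_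
  split_ifs
  · exact mul_nonneg (hx y).le (hx z).le
  · exact le_rfl

omit [Fintype V] in
private theorem wP_nn (hx : ∀ v, 0 < x v) {r : ℕ} [NeZero r] (W : ZMod r → V) :
    0 ≤ wP x W := prod_nonneg fun _ _ => (hx _).le

private theorem num_hi {m j i s K X E : ℝ} (hi : 1 ≤ i) (hj : s + i = j) (hs : 0 ≤ s)
    (hK : 1 ≤ K) (hm : 10 ^ 8 * K ^ 4 * (j + 1) ^ 2 ≤ m) (hX : 0 ≤ X)
    (hE : E ≤ m + 2 * (1 + K) * X) (r : ℝ) (hr : r = m + 2 * i) :
    E + 4 * s * K ^ 2 ≤ m * Real.exp ((2 * (1 + K) * X + 4 * s * K ^ 2) / m) ∧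
    s * ((2 * (1 + K) * X + 4 * s * K ^ 2) / m) ≤ (1 - (2 * i + 3) / r) * X + 1 / 4 := by
  have hj1 : 1 ≤ j := by linarith
  have hK2 : 1 ≤ K ^ 2 := one_le_pow₀ hK
  have hKK : K ≤ K ^ 2 := by nlinarith
  have hK4 : K ^ 2 ≤ K ^ 4 := pow_le_pow_right₀ hK (by norm_num)
  have hjj : (j + 1) ≤ (j + 1) ^ 2 := by nlinarith
  have h1 : 10 ^ 8 * K ^ 2 * (j + 1) ^ 2 ≤ m := by
    refine le_trans ?_ hm
    have : 0 ≤ (j + 1) ^ 2 := by positivity
    nlinarith [mul_le_mul_of_nonneg_right hK4 this]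
  have h2 : 10 ^ 8 * K * (j + 1) ≤ m := by
    refine le_trans ?_ h1
    have ha : K * (j + 1) ≤ K ^ 2 * (j + 1) ^ 2 := by
      apply mul_le_mul hKK hjj (by linarith) (by positivity)
    nlinarith
  have h3 : 10 ^ 8 * (j + 1) ≤ m := by
    refine le_trans ?_ h2
    nlinarith
  have hm0 : 0 < m := by nlinarith
  constructor
  · have h := Real.add_one_le_exp ((2 * (1 + K) * X + 4 * s * K ^ 2) / m)
    have h4 := mul_le_mul_of_nonneg_left h hm0.le
    have h5 : m * ((2 * (1 + K) * X + 4 * s * K ^ 2) / m + 1) =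
        2 * (1 + K) * X + 4 * s * K ^ 2 + m := by field_simp
    linarith
  · have hr0 : 0 < r := by linarith
    have hsj : s ≤ j := by linarith
    have e1 : (2 * i + 3) / r ≤ 1 / 2 := by
      rw [div_le_div_iff₀ hr0 (by norm_num)]
      nlinarith
    have e2 : s * (2 * (1 + K)) / m ≤ 1 / 2 := by
      rw [div_le_div_iff₀ hm0 (by norm_num)]
      have : s * (2 * (1 + K)) ≤ (j + 1) * (4 * K) := by
        apply mul_le_mul (by linarith) (by linarith) (by positivity) (by linarith)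
      nlinarith
    have e3 : s * (4 * s * K ^ 2) / m ≤ 1 / 4 := by
      rw [div_le_div_iff₀ hm0 (by norm_num)]
      have h6 : s * s ≤ (j + 1) ^ 2 := by nlinarith
      have h7 : s * s * K ^ 2 ≤ (j + 1) ^ 2 * K ^ 2 :=
        mul_le_mul_of_nonneg_right h6 (by positivity)
      nlinarith
    have e4 : s * ((2 * (1 + K) * X + 4 * s * K ^ 2) / m) =
        s * (2 * (1 + K)) / m * X + s * (4 * s * K ^ 2) / m := by ring
    rw [e4]
    have e5 : s * (2 * (1 + K)) / m * X ≤ 1 / 2 * X := mul_le_mul_of_nonneg_right e2 hX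
    have e6 : (2 * i + 3) / r * X ≤ 1 / 2 * X := mul_le_mul_of_nonneg_right e1 hX
    linarith

theorem c7_hi {m j i s : ℕ} [NeZero m] (ho : Odd m) (hG : OddFree G m) (hx : ∀ v, 0 < x v)
    (hs : ∑ v, x v = m) {K : ℝ} (hK : 1 ≤ K) (hD : ∀ v, dg G x v ≤ K)
    (hm : 10 ^ 8 * K ^ 4 * ((j : ℝ) + 1) ^ 2 ≤ m) (hi : 1 ≤ i) (hj : s + i = j) :
    1 / (s.factorial : ℝ) * (((m : ℝ) + 2 * j) / (m + 2 * i)) *
        ∑ k ∈ AI G (m + 2 * i), wP x k * (EEw G x i k + 4 * s * K ^ 2) ^ s ≤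
      2 * K ^ 2 * (K ^ 2 * j / m) ^ i * Tn m j := by
  have hK4 : 1 ≤ K ^ 4 := one_le_pow₀ hK
  have hjR : (0 : ℝ) ≤ j := Nat.cast_nonneg j
  have hjm : (10 : ℝ) ^ 8 * (j + 1) ≤ m := by
    refine le_trans ?_ hm
    have : ((j : ℝ) + 1) ≤ ((j : ℝ) + 1) ^ 2 := by nlinarith
    have h2 : (1 : ℝ) * ((j : ℝ) + 1) ≤ K ^ 4 * ((j : ℝ) + 1) ^ 2 :=
      mul_le_mul hK4 this (by linarith) (by linarith)
    nlinarith
  have hm0 : (0 : ℝ) < m := by nlinarith
  have hij : i ≤ j := by omega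
  have hiR : (i : ℝ) ≤ j := by exact_mod_cast hij
  have h6 : 6 * i + 6 < m + 2 * i := by
    have : (6 * (i : ℝ) + 6) < m + 2 * i := by nlinarith
    exact_mod_cast this
  have hsj : (s : ℝ) + i = j := by exact_mod_cast hj
  have hi1 : (1 : ℝ) ≤ i := by exact_mod_cast hi
  have hs0 : (0 : ℝ) ≤ s := Nat.cast_nonneg s
  have key : ∑ k ∈ AI G (m + 2 * i), wP x k * (EEw G x i k + 4 * s * K ^ 2) ^ s ≤
      (m : ℝ) ^ s * Real.exp (1 / 4) * (m * K ^ (2 * i + 2)) := by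
    have ha := aiw (G := G) (r := m + 2 * i) i h6 hx (m := (m : ℝ)) (K := K) hm0 hs
      (by linarith) hD
    refine le_trans ?_ (mul_le_mul_of_nonneg_left ha (by positivity))
    rw [mul_sum]
    refine sum_le_sum fun k hk => ?_
    have hX := Xw_nonneg (m := m) (r := m + 2 * i) rfl ho hG h6 hx hs hk
    have hE := EEw_le (m := m) (r := m + 2 * i) rfl ho hG h6 hx hs hK hD hk
    obtain ⟨n1, n2⟩ := num_hi (m := (m : ℝ)) (j := (j : ℝ)) (i := (i : ℝ)) (s := (s : ℝ)) hi1 hsj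
      hs0 hK hm hX hE (m + 2 * i) rfl
    have hb : (EEw G x i k + 4 * s * K ^ 2) ^ s ≤
        (m : ℝ) ^ s * Real.exp (1 / 4) *
          Real.exp ((1 - (2 * (i : ℝ) + 3) / ((m + 2 * i : ℕ) : ℝ)) * Xw G x i k) := by
      have h0 : 0 ≤ EEw G x i k + 4 * s * K ^ 2 := by
        have := eew_nn (G := G) hx i k
        positivity
      calc (EEw G x i k + 4 * s * K ^ 2) ^ s
          ≤ (m * Real.exp ((2 * (1 + K) * Xw G x i k + 4 * s * K ^ 2) / m)) ^ s :=
            pow_le_pow_left₀ h0 n1 s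
        _ = (m : ℝ) ^ s * Real.exp (s * ((2 * (1 + K) * Xw G x i k + 4 * s * K ^ 2) / m)) := by
            rw [mul_pow, ← Real.exp_nat_mul]
        _ ≤ (m : ℝ) ^ s * Real.exp ((1 - (2 * (i : ℝ) + 3) / (m + 2 * i)) * Xw G x i k + 1 / 4) := by
            gcongr
        _ = _ := by
            rw [Real.exp_add]
            push_cast
            ring
    calc wP x k * (EEw G x i k + 4 * s * K ^ 2) ^ s
        ≤ wP x k * ((m : ℝ) ^ s * Real.exp (1 / 4) *
          Real.exp ((1 - (2 * (i : ℝ) + 3) / ((m + 2 * i : ℕ) : ℝ)) * Xw G x i k)) :=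
          mul_le_mul_of_nonneg_left hb (wP_nn hx k)
      _ = _ := by ring
  have hT := Tn_ge m j
  have hfac : (j.factorial : ℝ) ≤ (s.factorial : ℝ) * (j : ℝ) ^ i := by
    have h := Nat.factorial_mul_pow_sub_le_factorial (n := s) (m := j) (by omega)
    have h1 : j.factorial = s.factorial * j.descFactorial i := by
      have := Nat.factorial_mul_descFactorial (n := j) (k := i) hij
      rw [← this]
      congr 2
      omega
    have h2 : j.descFactorial i ≤ j ^ i := Nat.descFactorial_le_pow j i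
    calc (j.factorial : ℝ) = (s.factorial : ℝ) * (j.descFactorial i : ℝ) := by
          exact_mod_cast h1
      _ ≤ (s.factorial : ℝ) * (j : ℝ) ^ i := by
          gcongr
          exact_mod_cast h2
  have hsf : (0 : ℝ) < s.factorial := by exact_mod_cast Nat.factorial_pos s
  have hjf : (0 : ℝ) < j.factorial := by exact_mod_cast Nat.factorial_pos j
  have hTj : 2 * (m : ℝ) * (m : ℝ) ^ j ≤ (s.factorial : ℝ) * ((j : ℝ) ^ i * Tn m j) := by
    refine hT.trans ?_
    have := mul_le_mul_of_nonneg_right hfac (Tn_nonneg m j)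
    linarith
  have hratio : ((m : ℝ) + 2 * j) / (m + 2 * i) ≤ 1 + 1 / 4 := by
    rw [div_le_iff₀ (by positivity)]
    nlinarith
  have hexp : Real.exp (1 / 4) ≤ 3 / 2 := by
    have h := Real.exp_bound' (x := 1 / 4) (by norm_num) (by norm_num) (n := 2) (by norm_num)
    refine h.trans ?_
    norm_num [Finset.sum_range_succ, Nat.factorial]
  have hmj : (m : ℝ) ^ j = (m : ℝ) ^ s * (m : ℝ) ^ i := by rw [← pow_add, hj]
  calc 1 / (s.factorial : ℝ) * (((m : ℝ) + 2 * j) / (m + 2 * i)) *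
        ∑ k ∈ AI G (m + 2 * i), wP x k * (EEw G x i k + 4 * s * K ^ 2) ^ s
      ≤ 1 / (s.factorial : ℝ) * (1 + 1 / 4) *
        ((m : ℝ) ^ s * (3 / 2) * (m * K ^ (2 * i + 2))) := by
        refine mul_le_mul ?_ (key.trans ?_) ?_ (by positivity)
        · gcongr
        · gcongr
        · refine sum_nonneg fun k _ => mul_nonneg (wP_nn hx k) (pow_nonneg ?_ s)
          have := eew_nn (G := G) hx i k
          positivity
    _ ≤ 1 / (s.factorial : ℝ) * 2 * ((m : ℝ) ^ s * (m * K ^ (2 * i + 2))) := by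
        have : (0 : ℝ) ≤ 1 / (s.factorial : ℝ) * ((m : ℝ) ^ s * (m * K ^ (2 * i + 2))) := by
          positivity
        nlinarith
    _ = K ^ 2 * (K ^ 2 / m) ^ i * (1 / (s.factorial : ℝ)) * (2 * (m : ℝ) * (m : ℝ) ^ j) := by
        rw [hmj, div_pow, pow_add, pow_mul]
        field_simp
    _ ≤ K ^ 2 * (K ^ 2 / m) ^ i * (1 / (s.factorial : ℝ)) *
          ((s.factorial : ℝ) * ((j : ℝ) ^ i * Tn m j)) := by
        gcongr
    _ = K ^ 2 * (K ^ 2 * j / m) ^ i * Tn m j := by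
        rw [mul_div_right_comm, mul_pow]
        field_simp
    _ ≤ 2 * K ^ 2 * (K ^ 2 * j / m) ^ i * Tn m j := by
        have : 0 ≤ K ^ 2 * (K ^ 2 * j / m) ^ i * Tn m j := by
          have := Tn_nonneg m j
          positivity
        nlinarith

end Pool.Agent.CycSh
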