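import Pool.Agent.W_1bfdb5sh_h41.Df
import Pool.Agent.W_1bfdb5fd_h19.As

/-!
# The deficit of a shortest odd closed walk

Compare `AA_disj`, `AA_sum`, `AA_self` in `W_1bfdb5fd_h19/AsA.lean`, `JpA.lean`.
-/

namespace Pool.Agent.CycSh

open Finset Pool.Agent.CycGT Pool.Agent.CycFD
open scoped Classical

variable {V : Type} [Fintype V] {G : SimpleGraph V} {x : V → ℝ} {m : ℕ} [NeZero m]

theorem AA_wsum (hm : 13 ≤ m) (ho : Odd m) (hG : OddFree G m) {c : ZMod m → V}
    (hc : IsCl G m c) (x : V → ℝ) : ∑ t, wS x (AA G c t) + wS x (BB G c) = ∑ v, x v := by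
  have h1 : ∀ S : Finset V, wS x S = ∑ v, if v ∈ S then x v else 0 := by
    intro S
    rw [wS, ← Finset.sum_filter]
    congr 1
    ext v
    simp
  rw [h1, Finset.sum_congr rfl fun t _ => h1 (AA G c t), Finset.sum_comm,
    ← Finset.sum_add_distrib]
  refine Finset.sum_congr rfl fun v _ => ?_
  by_cases hv : ∃ t, v ∈ AA G c t
  · obtain ⟨t0, ht0⟩ := hv
    rw [Finset.sum_eq_single t0, if_pos ht0, if_neg fun h => mem_BB.1 h t0 ht0, add_zero]
    · intro t _ ht
      exact if_neg fun h => ht (AA_disj hm ho hG hc h ht0)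
    · intro h
      exact absurd (mem_univ t0) h
  · rw [not_exists] at hv
    rw [if_pos (mem_BB.2 hv), Finset.sum_eq_zero fun t _ => if_neg (hv t), zero_add]

theorem Phw_eq (hm : 13 ≤ m) (ho : Odd m) (hG : OddFree G m) {c : ZMod m → V}
    (hc : IsCl G m c) (hs : ∑ v, x v = m) :
    Phw G x c = ∑ t, (wS x (AA G c t) - 1 - Real.log (wS x (AA G c t))) := by
  have h := AA_wsum hm ho hG hc x
  rw [hs] at h
  rw [Finset.sum_sub_distrib, Finset.sum_sub_distrib]
  have e2 : ∑ _t : ZMod m, (1 : ℝ) = m := by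
    rw [sum_const, card_univ, ZMod.card, nsmul_eq_mul, mul_one]
  rw [e2, Phw]
  linarith

theorem Phw_nonneg (hm : 13 ≤ m) (ho : Odd m) (hG : OddFree G m) {c : ZMod m → V}
    (hc : IsCl G m c) (hx : ∀ v, 0 < x v) (hs : ∑ v, x v = m) : 0 ≤ Phw G x c := by
  rw [Phw_eq hm ho hG hc hs]
  refine Finset.sum_nonneg fun t _ => ?_
  have h1 : 0 < wS x (AA G c t) := Finset.sum_pos (fun v _ => hx v) ⟨c t, AA_self hc t⟩
  have h2 := Real.log_le_sub_one_of_pos h1
  linarith

theorem Dw_nonneg (hm : 13 ≤ m) (ho : Odd m) (hG : OddFree G m) {c : ZMod m → V}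
    (hc : IsCl G m c) (hx : ∀ v, 0 < x v) (hs : ∑ v, x v = m) : 0 ≤ Dw G x c := by
  have h := Phw_nonneg hm ho hG hc hx hs
  have hm' : (13 : ℝ) ≤ m := by exact_mod_cast hm
  have h1 : 0 ≤ ((m : ℝ) - 4) / (2 * m) * wS x (BB G c) :=
    mul_nonneg (div_nonneg (by linarith) (by linarith)) (wS_nonneg (fun v => (hx v).le) _)
  rw [Dw]
  linarith

end Pool.Agent.CycSh
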