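import Pool.Agent.W_1bfdb5sh_h41.Df
import Pool.Agent.W_1bfdb5fd_h19.As
import Pool.Agent.W_1bfdb5sh_h41.DeA

/-!
# The deficit of a shortest odd closed walk

Compare `AA_disj`, `AA_sum`, `AA_self` in `W_1bfdb5fd_h19/AsA.lean`, `JpA.lean`.
-/

namespace Pool.Agent.CycSh

open Finset Pool.Agent.CycGT Pool.Agent.CycFD
open scoped Classical

variable {V : Type} [Fintype V] {G : SimpleGraph V} {x : V → ℝ} {m : ℕ} [NeZero m]

theorem Xw_le (hm : 20 ≤ m) (ho : Odd m) (hG : OddFree G m) {c : ZMod m → V}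
    (hc : IsCl G m c) (hx : ∀ v, 0 < x v) (hs : ∑ v, x v = m) :
    Xw G x 0 c ≤ 5 / 2 * Dw G x c := by
  have hx0 : ∀ v, 0 ≤ x v := fun v => (hx v).le
  have hmR : (20 : ℝ) ≤ m := by exact_mod_cast hm
  have hpos : ∀ t, 0 < wS x (AA G c t) := by
    intro t
    unfold wS
    exact sum_pos (fun w _ => hx w) ⟨c t, AA_self hc t⟩
  have hsub : ∀ t, AA G c (t + 1) ⊆ FS G 0 c t := by
    intro t w hw
    rw [mem_AA] at hw
    have e1 : t + 1 - 1 = t := by ring
    rw [e1] at hw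
    rw [mem_FS]
    refine ⟨hw.1, fun s hs h1 => ?_⟩
    have hs1 : s = 1 := by
      rw [mem_Icc] at hs
      omega
    subst hs1
    refine CComb_no4 (by omega) ho hG hc h1 hw.2 ?_
    push_cast
    ring
  have h1 : ∑ t, Real.log (wS x (AA G c t)) ≤ ∑ t, Real.log (wS x (FS G 0 c t)) := by
    have h2 : ∑ t, Real.log (wS x (AA G c t)) = ∑ t, Real.log (wS x (AA G c (t + 1))) :=
      (Equiv.sum_comp (Equiv.addRight (1 : ZMod m)) fun t => Real.log (wS x (AA G c t))).symm
    rw [h2]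
    exact sum_le_sum fun t _ => Real.log_le_log (hpos _) (wS_mono hx0 (hsub t))
  have hB : 0 ≤ wS x (BB G c) := wS_nonneg hx0 _
  have h3 : wS x (BB G c) ≤ 5 / 2 * (((m : ℝ) - 4) / (2 * m) * wS x (BB G c)) := by
    have h4 : 1 ≤ 5 / 2 * (((m : ℝ) - 4) / (2 * m)) := by
      rw [← mul_div_assoc, le_div_iff₀ (by linarith)]
      linarith
    calc wS x (BB G c) = 1 * wS x (BB G c) := by ring
      _ ≤ (5 / 2 * (((m : ℝ) - 4) / (2 * m))) * wS x (BB G c) :=
          mul_le_mul_of_nonneg_right h4 hB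
      _ = _ := by ring
  unfold Xw Dw Phw
  linarith

/-- Closed walks of length `m` have no chords. -/
theorem AI_m (hm : 3 ≤ m) (ho : Odd m) (hG : OddFree G m) : AI G m = clos G m := by
  unfold AI
  rw [filter_eq_self]
  intro k hk p q hpq
  rw [mem_clos] at hk
  obtain ⟨e, he1, he2, he3⟩ := arc (M := m) (h := 0) (by omega) ho hG hk (r := 1) (wk_one.2 hpq)
  have he : e = 1 := by omega
  subst he
  rcases he3 with h3 | h3
  · left
    simpa using h3
  · right
    simpa using h3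

end Pool.Agent.CycSh
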