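import Pool.Agent.W_1bfdb5sh_h41.BlU
import Pool.Agent.W_1bfdb5fd_h19.JpC

/-!
# The process by pairs, weighted

From `pair_sum` (W_1bfdb5fd_h19/JpC.lean) for the blow-ups with weights `⌈N x⌉`, `N → ∞`.
-/

namespace Pool.Agent.CycSh

open Finset Pool.Agent.CycGT Pool.Agent.CycFD
open scoped Classical

variable {V : Type} [Fintype V] {G : SimpleGraph V} {x : V → ℝ}

/-- The deficit, normalised by the total weight. -/
private noncomputable def EP (G : SimpleGraph V) (y : V → ℝ) {r : ℕ} [NeZero r]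
    (c : ZMod r → V) : ℝ :=
  ((r : ℝ) - 4) / 2 * (wS y (BB G c) / ∑ v, y v) +
    2 / 5 * (-((r : ℝ) * wS y (BB G c) / ∑ v, y v) -
      ∑ t, Real.log (wS y (AA G c t) * r / ∑ v, y v))

private theorem prw_BB (b : V → ℕ) {r : ℕ} (W : ZMod r → Σ v, Fin (b v)) :
    (#(BB (Gb G b) W) : ℝ) = wS (fun v => (b v : ℝ)) (BB G fun p => (W p).1) := by
  rw [← Gb_pre]
  congr 2
  ext z
  simp only [mem_BB, mem_AA, mem_filter, mem_univ, true_and, Gb, SimpleGraph.comap_adj]

private theorem prw_AA (b : V → ℕ) {r : ℕ} (W : ZMod r → Σ v, Fin (b v)) (t : ZMod r) :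
    (#(AA (Gb G b) W t) : ℝ) = wS (fun v => (b v : ℝ)) (AA G (fun p => (W p).1) t) := by
  rw [← Gb_pre]
  congr 2
  ext z
  simp only [mem_AA, mem_filter, mem_univ, true_and, Gb, SimpleGraph.comap_adj]

private theorem prw_Dp (b : V → ℕ) {r : ℕ} [NeZero r] (W : ZMod r → Σ v, Fin (b v)) :
    Dp (Gb G b) W = EP G (fun v => (b v : ℝ)) (fun p => (W p).1) := by
  unfold Dp Phi EP
  rw [Gb_card, prw_BB]
  simp only [prw_AA]

private theorem prw_int {m : ℕ} [NeZero m] (hm : 13 ≤ m) (ho : Odd m) (hG : OddFree G m)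
    (b : V → ℕ) :
    ∑ c ∈ clos G m, wP (fun v => (b v : ℝ)) c * Real.exp (EP G (fun v => (b v : ℝ)) c) ≤
      2 * m * ((∑ v, (b v : ℝ)) / m) ^ m := by
  have h := pair_sum (G := Gb G b) hm ho (Gb_odd hG b)
  rw [Gb_card] at h
  rw [← Gb_sum G b m (fun c => Real.exp (EP G (fun v => (b v : ℝ)) c))]
  simp only [prw_Dp] at h
  exact h

private theorem EP_scale (y : V → ℝ) {a : ℝ} (ha : a ≠ 0) {r : ℕ} [NeZero r]
    (c : ZMod r → V) : EP G (fun v => y v / a) c = EP G y c := by
  have h1 : ∀ S : Finset V, wS (fun v => y v / a) S = wS y S / a := by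
    intro S
    unfold wS
    rw [sum_div]
  have h2 : ∑ v, y v / a = (∑ v, y v) / a := by rw [sum_div]
  unfold EP
  simp only [h1, h2]
  have h3 : ∀ s t : ℝ, s / a / (t / a) = s / t := fun s t => div_div_div_cancel_right₀ ha s t
  have h4 : ∀ s t : ℝ, s / a * r / (t / a) = s * r / t := by
    intro s t
    rw [div_mul_eq_mul_div]
    exact h3 _ _
  have h5 : ∀ s t : ℝ, (r : ℝ) * (s / a) / (t / a) = r * s / t := by
    intro s t
    rw [mul_div_assoc', h3]
  simp only [h3, h4, h5]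

private theorem wP_scale (y : V → ℝ) (a : ℝ) {r : ℕ} [NeZero r]
    (c : ZMod r → V) : wP (fun v => y v / a) c = wP y c / a ^ r := by
  unfold wP
  rw [prod_div_distrib, prod_const, card_univ, ZMod.card]

private theorem prw_rat {m : ℕ} [NeZero m] (hm : 13 ≤ m) (ho : Odd m) (hG : OddFree G m)
    (b : V → ℕ) {a : ℝ} (ha : 0 < a) :
    ∑ c ∈ clos G m, wP (fun v => (b v : ℝ) / a) c * Real.exp (EP G (fun v => (b v : ℝ) / a) c) ≤
      2 * m * ((∑ v, (b v : ℝ) / a) / m) ^ m := by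
  have h := prw_int hm ho hG b
  have h1 : ∀ c ∈ clos G m, wP (fun v => (b v : ℝ) / a) c *
      Real.exp (EP G (fun v => (b v : ℝ) / a) c) =
      (wP (fun v => (b v : ℝ)) c * Real.exp (EP G (fun v => (b v : ℝ)) c)) / a ^ m := by
    intro c _
    rw [EP_scale (fun v => (b v : ℝ)) ha.ne', wP_scale (fun v => (b v : ℝ)) a]
    ring
  rw [sum_congr rfl h1, ← sum_div, div_le_iff₀ (by positivity)]
  refine h.trans (le_of_eq ?_)
  rw [← sum_div, mul_assoc (2 * (m : ℝ)), ← mul_pow]
  congr 2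
  field_simp

theorem prw {m : ℕ} [NeZero m] (hm : 13 ≤ m) (ho : Odd m) (hG : OddFree G m)
    (hx : ∀ v, 0 < x v) (hs : ∑ v, x v = m) :
    ∑ c ∈ clos G m, wP x c * Real.exp (Dw G x c) ≤ 2 * m := by
  have hm0 : (0 : ℝ) < m := by
    have : 0 < m := by omega
    exact_mod_cast this
  set b : ℕ → V → ℕ := fun N v => ⌈(N : ℝ) * x v⌉₊ with hb
  set y : ℕ → V → ℝ := fun N v => (b N v : ℝ) / N with hy
  have hyl : ∀ v, Filter.Tendsto (fun N => y N v) Filter.atTop (nhds (x v)) :=
    fun v => ceil_tendsto hx v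
  have hyS : ∀ S : Finset V, Filter.Tendsto (fun N => wS (y N) S) Filter.atTop
      (nhds (wS x S)) := fun S => tendsto_finsetSum _ fun v _ => hyl v
  have hys : Filter.Tendsto (fun N => ∑ v, y N v) Filter.atTop (nhds (m : ℝ)) := by
    rw [← hs]
    exact tendsto_finsetSum _ fun v _ => hyl v
  have hyP : ∀ c : ZMod m → V, Filter.Tendsto (fun N => wP (y N) c) Filter.atTop
      (nhds (wP x c)) := fun c => tendsto_finsetProd _ fun p _ => hyl (c p)
  have hE : ∀ c ∈ clos G m, Filter.Tendsto (fun N => EP G (y N) c) Filter.atTop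
      (nhds (Dw G x c)) := by
    intro c hc
    have hc' := mem_clos.1 hc
    have hD : Dw G x c = ((m : ℝ) - 4) / 2 * (wS x (BB G c) / m) +
        2 / 5 * (-((m : ℝ) * wS x (BB G c) / m) -
          ∑ t, Real.log (wS x (AA G c t) * m / m)) := by
      unfold Dw Phw
      have h1 : ∀ s : ℝ, s * m / m = s := fun s => mul_div_cancel_right₀ s hm0.ne'
      have h2 : ∀ s : ℝ, (m : ℝ) * s / m = s := fun s => by field_simp
      simp only [h1, h2]
      congr 1
      field_simp
    rw [hD]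
    unfold EP
    refine ((hyS _).div hys hm0.ne').const_mul _ |>.add (Filter.Tendsto.const_mul _ ?_)
    refine (((hyS _).const_mul _).div hys hm0.ne').neg.sub (tendsto_finsetSum _ fun t _ => ?_)
    refine Filter.Tendsto.log (((hyS _).mul_const _).div hys hm0.ne') ?_
    have h1 : 0 < wS x (AA G c t) := by
      refine sum_pos (fun v _ => hx v) ⟨c t, mem_AA.2 ⟨?_, hc' t⟩⟩
      have h2 := hc' (t - 1)
      rw [sub_add_cancel] at h2
      exact h2.symm
    positivity
  have hL : Filter.Tendsto (fun N => ∑ c ∈ clos G m, wP (y N) c * Real.exp (EP G (y N) c))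
      Filter.atTop (nhds (∑ c ∈ clos G m, wP x c * Real.exp (Dw G x c))) :=
    tendsto_finsetSum _ fun c hc =>
      (hyP c).mul ((Real.continuous_exp.tendsto _).comp (hE c hc))
  have hR : Filter.Tendsto (fun N => 2 * (m : ℝ) * ((∑ v, y N v) / m) ^ m)
      Filter.atTop (nhds (2 * (m : ℝ) * ((m : ℝ) / m) ^ m)) :=
    ((hys.div_const _).pow m).const_mul _
  rw [div_self hm0.ne', one_pow, mul_one] at hR
  refine le_of_tendsto_of_tendsto hL hR ?_
  filter_upwards [Filter.eventually_gt_atTop 0] with N hN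
  exact prw_rat hm ho hG (b N) (by exact_mod_cast hN)

end Pool.Agent.CycSh
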