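import Pool.Agent.W_1bfdb5sh_h41.EbW
import Pool.Agent.W_1bfdb5sh_h41.PrW
import Pool.Agent.W_1bfdb5sh_h41.DwE
import Pool.Agent.W_1bfdb5sh_h41.TnR

/-!
# The term with `i = 0`
-/

namespace Pool.Agent.CycSh

open Finset Pool.Agent.CycGT Pool.Agent.CycFD
open scoped Classical

variable {V : Type} [Fintype V] {G : SimpleGraph V} {x : V → ℝ}

/-- The pointwise estimate. -/
private lemma C7B_pt {m K j E X D D0 : ℝ} (hm0 : 0 < m) (hK : 1 ≤ K) (hj : 0 ≤ j)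
    (h20 : 20 * K * j ≤ m) (hE : E ≤ m + 2 * (1 + K) * X) (hX : X ≤ 5 / 2 * D)
    (hD : 0 ≤ D) (hD0 : D0 ≤ D) :
    j * ((E + 4 * j * K ^ 2) / m - 1) ≤ 4 * j ^ 2 * K ^ 2 / m + (-D0 / 2 + D) := by
  have h1 : E + 4 * j * K ^ 2 - m ≤ 5 * (1 + K) * D + 4 * j * K ^ 2 := by
    have h2 : 2 * (1 + K) * X ≤ 2 * (1 + K) * (5 / 2 * D) :=
      mul_le_mul_of_nonneg_left hX (by linarith)
    linarith
  have h3 : (E + 4 * j * K ^ 2) / m - 1 = (E + 4 * j * K ^ 2 - m) / m := by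
    field_simp
  have h4 : j * ((E + 4 * j * K ^ 2 - m) / m) ≤ j * ((5 * (1 + K) * D + 4 * j * K ^ 2) / m) := by
    gcongr
  have h5 : j * ((5 * (1 + K) * D + 4 * j * K ^ 2) / m) =
      4 * j ^ 2 * K ^ 2 / m + (5 * j * (1 + K) / m) * D := by
    field_simp
    ring
  have h6 : 5 * j * (1 + K) / m ≤ 1 / 2 := by
    rw [div_le_div_iff₀ hm0 (by norm_num)]
    nlinarith
  have h7 : (5 * j * (1 + K) / m) * D ≤ 1 / 2 * D := mul_le_mul_of_nonneg_right h6 hD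
  rw [h3]
  linarith

theorem c7_lo {m j : ℕ} [NeZero m] (ho : Odd m) (hG : OddFree G m) (hx : ∀ v, 0 < x v)
    (hs : ∑ v, x v = m) {K : ℝ} (hK : 1 ≤ K) (hD : ∀ v, dg G x v ≤ K)
    (hm : 10 ^ 8 * K ^ 4 * ((j : ℝ) + 1) ^ 2 ≤ m) {D0 : ℝ} (hD0 : 0 ≤ D0)
    (hc : ∀ c ∈ clos G m, D0 ≤ Dw G x c) :
    1 / (j.factorial : ℝ) * (((m : ℝ) + 2 * j) / m) *
        ∑ c ∈ clos G m, wP x c * (EEw G x 0 c + 4 * j * K ^ 2) ^ j ≤
      (1 + 2 * j / m) * Real.exp (4 * (j : ℝ) ^ 2 * K ^ 2 / m) * Real.exp (-D0 / 2) *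
        Tn m j := by
  have hx0 : ∀ v, 0 ≤ x v := fun v => (hx v).le
  have hj0 : (0 : ℝ) ≤ j := Nat.cast_nonneg j
  have hK4 : 1 ≤ K ^ 4 := one_le_pow₀ hK
  have hj1 : 1 ≤ ((j : ℝ) + 1) ^ 2 := one_le_pow₀ (by linarith)
  have hm8 : (10 : ℝ) ^ 8 ≤ m := by
    calc (10 : ℝ) ^ 8 = 10 ^ 8 * 1 * 1 := by ring
      _ ≤ 10 ^ 8 * K ^ 4 * ((j : ℝ) + 1) ^ 2 := by gcongr
      _ ≤ m := hm
  have hm8' : 10 ^ 8 ≤ m := by exact_mod_cast hm8
  have hm0 : (0 : ℝ) < m := by linarith [show (0 : ℝ) < 10 ^ 8 by norm_num]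
  have h20 : 20 * K * (j : ℝ) ≤ m := by
    have h1 : K ≤ K ^ 4 := le_self_pow₀ hK (by norm_num)
    have h2 : (j : ℝ) ≤ ((j : ℝ) + 1) ^ 2 := by nlinarith
    calc 20 * K * (j : ℝ) ≤ 10 ^ 8 * K ^ 4 * ((j : ℝ) + 1) ^ 2 := by
          have h3 : (0 : ℝ) ≤ K := by linarith
          gcongr
          norm_num
      _ ≤ m := hm
  have hpt : ∀ c ∈ clos G m, wP x c * (EEw G x 0 c + 4 * j * K ^ 2) ^ j ≤
      (m : ℝ) ^ j * (Real.exp (4 * (j : ℝ) ^ 2 * K ^ 2 / m) * Real.exp (-D0 / 2)) *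
        (wP x c * Real.exp (Dw G x c)) := by
    intro c hcc
    have hcl : IsCl G m c := mem_clos.1 hcc
    have hAI : c ∈ AI G m := by
      rw [AI_m (by omega) ho hG]; exact hcc
    have hE0 : 0 ≤ EEw G x 0 c := sum_nonneg fun s _ => eew_nonneg hx0 0 c s
    have hE := EEw_le (m := m) (i := 0) (r := m) (by omega) ho hG (by omega) hx hs hK hD hAI
    have hX := Xw_le (by omega) ho hG hcl hx hs
    have hDn := Dw_nonneg (by omega) ho hG hcl hx hs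
    have hpt := C7B_pt hm0 hK hj0 h20 hE hX hDn (hc c hcc)
    obtain ⟨B, hB⟩ : ∃ B, B = EEw G x 0 c + 4 * j * K ^ 2 := ⟨_, rfl⟩
    have hB0 : 0 ≤ B := by rw [hB]; positivity
    rw [← hB] at hpt ⊢
    have h1 : B ≤ m * Real.exp (B / m - 1) := by
      have h2 := Real.add_one_le_exp (B / m - 1)
      have h3 : B / m ≤ Real.exp (B / m - 1) := by linarith
      have h4 : B = m * (B / m) := by field_simp
      conv_lhs => rw [h4]
      exact mul_le_mul_of_nonneg_left h3 hm0.le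
    have h5 : B ^ j ≤ (m : ℝ) ^ j * Real.exp ((j : ℝ) * (B / m - 1)) := by
      calc B ^ j ≤ (m * Real.exp (B / m - 1)) ^ j := pow_le_pow_left₀ hB0 h1 j
        _ = (m : ℝ) ^ j * Real.exp ((j : ℝ) * (B / m - 1)) := by
          rw [mul_pow, ← Real.exp_nat_mul]
    have h6 : B ^ j ≤ (m : ℝ) ^ j * (Real.exp (4 * (j : ℝ) ^ 2 * K ^ 2 / m) *
        (Real.exp (-D0 / 2) * Real.exp (Dw G x c))) := by
      refine h5.trans ?_
      rw [← Real.exp_add, ← Real.exp_add]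
      exact mul_le_mul_of_nonneg_left (Real.exp_le_exp.2 hpt) (by positivity)
    have hw : 0 ≤ wP x c := prod_nonneg fun p _ => hx0 _
    calc wP x c * B ^ j ≤ wP x c * ((m : ℝ) ^ j * (Real.exp (4 * (j : ℝ) ^ 2 * K ^ 2 / m) *
        (Real.exp (-D0 / 2) * Real.exp (Dw G x c)))) := mul_le_mul_of_nonneg_left h6 hw
      _ = _ := by ring
  have hsum : ∑ c ∈ clos G m, wP x c * (EEw G x 0 c + 4 * j * K ^ 2) ^ j ≤
      (m : ℝ) ^ j * (Real.exp (4 * (j : ℝ) ^ 2 * K ^ 2 / m) * Real.exp (-D0 / 2)) * (2 * m) := by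
    refine (sum_le_sum hpt).trans ?_
    rw [← mul_sum]
    exact mul_le_mul_of_nonneg_left (prw (by omega) ho hG hx hs) (by positivity)
  have hf : (0 : ℝ) < (j.factorial : ℝ) := by exact_mod_cast j.factorial_pos
  have hT := Tn_ge m j
  have hT' : 1 / (j.factorial : ℝ) * (2 * (m : ℝ) * (m : ℝ) ^ j) ≤ Tn m j := by
    rw [one_div, ← div_eq_inv_mul, div_le_iff₀ hf]
    linarith
  have hq : ((m : ℝ) + 2 * j) / m = 1 + 2 * j / m := by
    field_simp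
  rw [hq]
  have hq0 : 0 ≤ 1 + 2 * (j : ℝ) / m := by positivity
  calc 1 / (j.factorial : ℝ) * (1 + 2 * (j : ℝ) / m) *
        ∑ c ∈ clos G m, wP x c * (EEw G x 0 c + 4 * j * K ^ 2) ^ j ≤
      1 / (j.factorial : ℝ) * (1 + 2 * (j : ℝ) / m) *
        ((m : ℝ) ^ j * (Real.exp (4 * (j : ℝ) ^ 2 * K ^ 2 / m) * Real.exp (-D0 / 2)) * (2 * m)) :=
        mul_le_mul_of_nonneg_left hsum (by positivity)
    _ = (1 + 2 * (j : ℝ) / m) * Real.exp (4 * (j : ℝ) ^ 2 * K ^ 2 / m) * Real.exp (-D0 / 2) *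
        (1 / (j.factorial : ℝ) * (2 * (m : ℝ) * (m : ℝ) ^ j)) := by ring
    _ ≤ _ := mul_le_mul_of_nonneg_left hT' (by positivity)

end Pool.Agent.CycSh
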