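import Pool.Agent.W_1bfdb5sh_h41.Vis

/-!
# Closing a walk between two visits
-/

namespace Pool.Agent.CycSh

open Finset Pool.Agent.CycGT Pool.Agent.CycFD
open scoped Classical

variable {V : Type} [Fintype V] {G : SimpleGraph V} {x y : V → ℝ} {Z : Finset V} {κ : ℝ}

omit [Fintype V] in
private lemma Clo_off (hx : ∀ v, 0 ≤ x v) (hy : ∀ v, 0 ≤ y v) (hoff : ∀ u, u ∉ Z → x u ≤ y u)
    (w : V) : off x Z w ≤ y w := by
  unfold off
  split_ifs with h
  · exact hy w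
  · exact hoff w h

private lemma Clo_Q (hx : ∀ v, 0 ≤ x v) (hy : ∀ v, 0 ≤ y v) (hoff : ∀ u, u ∉ Z → x u ≤ y u)
    (hZ : ∀ u ∈ Z, x u ≤ κ * y u) {L : ℕ} (hL : 1 ≤ L) (s : V)
    {s' : V} (hs : s' ∈ Z) : Qn G x Z L s s' ≤ κ * Bn G y L s s' := by
  obtain ⟨l, rfl⟩ : ∃ l, L = l + 1 := ⟨L - 1, by omega⟩
  unfold Qn
  rw [Bn_succ', mul_sum, Nat.add_sub_cancel]
  refine sum_le_sum fun z _ => ?_
  have h1 : Bn G (off x Z) l s z ≤ Bn G y l s z :=
    Bn_mono (off_nonneg hx) (Clo_off hx hy hoff) l s z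
  have h0 : 0 ≤ Bn G y l s z := Bn_nonneg hy l s z
  split_ifs
  · calc Bn G (off x Z) l s z * x s' ≤ Bn G y l s z * x s' :=
          mul_le_mul_of_nonneg_right h1 (hx s')
      _ ≤ Bn G y l s z * (κ * y s') := mul_le_mul_of_nonneg_left (hZ s' hs) h0
      _ = κ * (Bn G y l s z * y s') := by ring
  · simp

private lemma Clo_end (hy : ∀ v, 0 ≤ y v) {c : V} (hc : 1 ≤ y c) (L : ℕ) (s : V) :
    ∑ s' ∈ Z.filter (fun s => G.Adj c s), Bn G y L s s' ≤ Bn G y (L + 1) s c := by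
  rw [Bn_succ']
  calc ∑ s' ∈ Z.filter (fun s => G.Adj c s), Bn G y L s s'
      ≤ ∑ s' ∈ Z.filter (fun s => G.Adj c s), Bn G y L s s' * (if G.Adj s' c then y c else 0) := by
        refine sum_le_sum fun z hz => ?_
        rw [if_pos (mem_filter.1 hz).2.symm]
        exact le_mul_of_one_le_right (Bn_nonneg hy L s z) hc
    _ ≤ ∑ z, Bn G y L s z * (if G.Adj z c then y c else 0) := by
        refine sum_le_sum_of_subset_of_nonneg (subset_univ _) fun z _ _ => ?_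
        refine mul_nonneg (Bn_nonneg hy L s z) ?_
        split_ifs
        · exact hy c
        · exact le_rfl

private lemma Clo_main (hx : ∀ v, 0 ≤ x v) (hy : ∀ v, 0 ≤ y v) (hoff : ∀ u, u ∉ Z → x u ≤ y u)
    (hκ : 0 ≤ κ) (hZ : ∀ u ∈ Z, x u ≤ κ * y u) {c c' : V} (hc' : 1 ≤ y c') {L : ℕ} (hL : 1 ≤ L) :
    ∑ s ∈ Z.filter (fun s => G.Adj c s), ∑ s' ∈ Z.filter (fun s => G.Adj c' s),
      x s * Qn G x Z L s s' ≤
    κ ^ 2 * ∑ s ∈ Z.filter (fun s => G.Adj c s), y s * Bn G y (L + 1) s c' := by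
  rw [mul_sum]
  refine sum_le_sum fun s hs => ?_
  rw [← mul_sum]
  have h1 : ∑ s' ∈ Z.filter (fun s => G.Adj c' s), Qn G x Z L s s' ≤
      κ * Bn G y (L + 1) s c' := by
    calc ∑ s' ∈ Z.filter (fun s => G.Adj c' s), Qn G x Z L s s'
        ≤ ∑ s' ∈ Z.filter (fun s => G.Adj c' s), κ * Bn G y L s s' :=
          sum_le_sum fun s' hs' => Clo_Q hx hy hoff hZ hL s (mem_filter.1 hs').1
      _ = κ * ∑ s' ∈ Z.filter (fun s => G.Adj c' s), Bn G y L s s' := by rw [mul_sum]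
      _ ≤ κ * Bn G y (L + 1) s c' := mul_le_mul_of_nonneg_left (Clo_end hy hc' L s) hκ
  have h2 : 0 ≤ κ * Bn G y (L + 1) s c' := mul_nonneg hκ (Bn_nonneg hy _ _ _)
  calc x s * ∑ s' ∈ Z.filter (fun s => G.Adj c' s), Qn G x Z L s s'
      ≤ x s * (κ * Bn G y (L + 1) s c') := mul_le_mul_of_nonneg_left h1 (hx s)
    _ ≤ (κ * y s) * (κ * Bn G y (L + 1) s c') :=
        mul_le_mul_of_nonneg_right (hZ s (mem_filter.1 hs).1) h2
    _ = κ ^ 2 * (y s * Bn G y (L + 1) s c') := by ring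

private lemma Clo_first (hy : ∀ v, 0 ≤ y v) (c : V) {f : V → ℝ} (hf : ∀ s, 0 ≤ f s) :
    ∑ s ∈ Z.filter (fun s => G.Adj c s), y s * f s ≤
      ∑ z, (if G.Adj c z then y z else 0) * f z := by
  calc ∑ s ∈ Z.filter (fun s => G.Adj c s), y s * f s
      = ∑ s ∈ Z.filter (fun s => G.Adj c s), (if G.Adj c s then y s else 0) * f s := by
        refine sum_congr rfl fun s hs => ?_
        rw [if_pos (mem_filter.1 hs).2]
    _ ≤ ∑ z, (if G.Adj c z then y z else 0) * f z := by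
        refine sum_le_sum_of_subset_of_nonneg (subset_univ _) fun z _ _ => ?_
        refine mul_nonneg ?_ (hf z)
        split_ifs
        · exact hy z
        · exact le_rfl

/-- Close up through one vertex. -/
theorem close_one (hx : ∀ v, 0 ≤ x v) (hy : ∀ v, 0 ≤ y v) (hoff : ∀ u, u ∉ Z → x u ≤ y u)
    (hκ : 0 ≤ κ) (hZ : ∀ u ∈ Z, x u ≤ κ * y u) {c : V} (hc : 1 ≤ y c) {L : ℕ} (hL : 1 ≤ L) :
    ∑ s ∈ Z.filter (fun s => G.Adj c s), ∑ s' ∈ Z.filter (fun s => G.Adj c s),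
      x s * Qn G x Z L s s' ≤ κ ^ 2 * Bn G y (L + 2) c c := by
  refine (Clo_main hx hy hoff hκ hZ hc hL).trans ?_
  refine mul_le_mul_of_nonneg_left ?_ (by positivity)
  rw [show L + 2 = (L + 1) + 1 from rfl, Bn_succ]
  exact Clo_first hy c fun s => Bn_nonneg hy _ _ _

/-- Close up through an edge. -/
theorem close_two (hx : ∀ v, 0 ≤ x v) (hy : ∀ v, 0 ≤ y v) (hoff : ∀ u, u ∉ Z → x u ≤ y u)
    (hκ : 0 ≤ κ) (hZ : ∀ u ∈ Z, x u ≤ κ * y u) {c c' : V} (hcc : G.Adj c' c) (hc : 1 ≤ y c)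
    (hc' : 1 ≤ y c') {L : ℕ} (hL : 1 ≤ L) :
    ∑ s ∈ Z.filter (fun s => G.Adj c s), ∑ s' ∈ Z.filter (fun s => G.Adj c' s),
      x s * Qn G x Z L s s' ≤ κ ^ 2 * Bn G y (L + 3) c c := by
  refine (Clo_main hx hy hoff hκ hZ hc' hL).trans ?_
  refine mul_le_mul_of_nonneg_left ?_ (by positivity)
  have h1 : ∀ s, Bn G y (L + 1) s c' ≤ Bn G y (L + 2) s c := by
    intro s
    rw [show L + 2 = (L + 1) + 1 from rfl, Bn_succ' (L + 1) s c]
    calc Bn G y (L + 1) s c' ≤ Bn G y (L + 1) s c' * (if G.Adj c' c then y c else 0) := by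
          rw [if_pos hcc]
          exact le_mul_of_one_le_right (Bn_nonneg hy _ _ _) hc
      _ ≤ _ := by
          refine single_le_sum (f := fun z => Bn G y (L + 1) s z * (if G.Adj z c then y c else 0))
            (fun z _ => ?_) (mem_univ c')
          refine mul_nonneg (Bn_nonneg hy _ _ _) ?_
          split_ifs
          · exact hy c
          · exact le_rfl
  rw [show L + 3 = (L + 2) + 1 from rfl, Bn_succ]
  calc ∑ s ∈ Z.filter (fun s => G.Adj c s), y s * Bn G y (L + 1) s c'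
      ≤ ∑ s ∈ Z.filter (fun s => G.Adj c s), y s * Bn G y (L + 2) s c :=
        sum_le_sum fun s _ => mul_le_mul_of_nonneg_left (h1 s) (hy s)
    _ ≤ _ := Clo_first hy c fun s => Bn_nonneg hy _ _ _

end Pool.Agent.CycSh
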