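import Pool.Agent.W_1bfdb5sh_h41.Pl
import Pool.Agent.W_1bfdb5fd_h19.Cut

/-!
# Cutting chords, weighted

Compare `W_1bfdb5fd_h19/CutA.lean`, `CutB.lean`, `CutC.lean` (`rot_sum`, `rot_avg`).
-/

namespace Pool.Agent.CycSh

open Finset Pool.Agent.CycGT Pool.Agent.CycFD
open scoped Classical

variable {V : Type} [Fintype V] {G : SimpleGraph V} {x : V → ℝ}

/-- A product over `ZMod n` as a product over `range n`. -/
theorem cwA_prod_range {n : ℕ} [NeZero n] (f : ZMod n → ℝ) :
    ∏ p, f p = ∏ i ∈ range n, f ((i : ℕ) : ZMod n) := by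
  refine Finset.prod_nbij' (fun p : ZMod n => p.val) (fun i : ℕ => ((i : ℕ) : ZMod n)) ?_ ?_ ?_ ?_ ?_
  · intro p _
    exact mem_range.2 (ZMod.val_lt p)
  · intro i _
    exact mem_univ _
  · intro p _
    exact ZMod.natCast_zmod_val p
  · intro i hi
    exact ZMod.val_cast_of_lt (mem_range.1 hi)
  · intro p _
    show f p = f ((p.val : ℕ) : ZMod n)
    rw [ZMod.natCast_zmod_val]

/-- The weight of a closed walk, split at a chord. -/
theorem wP_cut {a r : ℕ} [NeZero r] [NeZero (r + a)] (x : V → ℝ) (W : ZMod (r + a) → V) :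
    wP x W = wP x (cut a W) * ∏ i : Fin a, x (W ((i.val + 1 : ℕ) : ZMod (r + a))) := by
  unfold wP
  rw [cwA_prod_range, cwA_prod_range]
  obtain ⟨s, hs⟩ : ∃ s, r = s + 1 := ⟨r - 1, by have := NeZero.ne r; omega⟩
  have h1 : ∏ i ∈ range (r + a), x (W ((i : ℕ) : ZMod (r + a))) =
      x (W 0) * (∏ i ∈ range a, x (W ((i + 1 : ℕ) : ZMod (r + a)))) *
        ∏ i ∈ range s, x (W ((i + 1 + a : ℕ) : ZMod (r + a))) := by
    have e : range (r + a) = range ((a + 1) + s) := by rw [hs]; congr 1; omega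
    rw [e, prod_range_add, prod_range_succ']
    have h0 : x (W ((0 : ℕ) : ZMod (r + a))) = x (W 0) := by rw [Nat.cast_zero]
    rw [h0, mul_comm (∏ i ∈ range a, x (W ((i + 1 : ℕ) : ZMod (r + a)))) (x (W 0))]
    congr 1
    refine prod_congr rfl fun i _ => ?_
    have : a + 1 + i = i + 1 + a := by omega
    rw [this]
  have h2 : ∏ i ∈ range r, x (cut a W ((i : ℕ) : ZMod r)) =
      x (W 0) * ∏ i ∈ range s, x (W ((i + 1 + a : ℕ) : ZMod (r + a))) := by
    have e : range r = range (s + 1) := by rw [hs]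
    rw [e, prod_range_succ', mul_comm]
    congr 1
    · have : cut a W ((0 : ℕ) : ZMod r) = W 0 := by
        unfold cut
        rw [if_pos (Nat.cast_zero)]
      rw [this]
    · refine prod_congr rfl fun i hi => ?_
      have hi' : i + 1 < r := by
        have := mem_range.1 hi
        omega
      have hv : ((i + 1 : ℕ) : ZMod r).val = i + 1 := ZMod.val_cast_of_lt hi'
      have hne : ((i + 1 : ℕ) : ZMod r) ≠ 0 := by
        intro h
        rw [h, ZMod.val_zero] at hv
        omega
      have : cut a W ((i + 1 : ℕ) : ZMod r) = W ((i + 1 + a : ℕ) : ZMod (r + a)) := by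
        unfold cut
        rw [if_neg hne, hv]
      rw [this]
  rw [h1, h2, ← Fin.prod_univ_eq_prod_range (fun i => x (W ((i + 1 : ℕ) : ZMod (r + a)))) a]
  ring

/-- Walks of length `a` starting at `v`, without the first vertex. -/
noncomputable def cutSeqW (G : SimpleGraph V) (a : ℕ) (v : V) : Finset (Fin a → V) :=
  univ.filter (fun f => ∀ i : Fin a,
    G.Adj ((Fin.cons v f : Fin (a + 1) → V) i.castSucc) (f i))

theorem cutSeqW_sum (hx : ∀ v, 0 ≤ x v) {D : ℝ} (hD : ∀ v, dg G x v ≤ D) (a : ℕ) :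
    ∀ v : V, ∑ f ∈ cutSeqW G a v, ∏ i, x (f i) ≤ D ^ a := by
  induction a with
  | zero =>
    intro v
    calc ∑ f ∈ cutSeqW G 0 v, ∏ i, x (f i)
        ≤ ∑ f ∈ (univ : Finset (Fin 0 → V)), ∏ i, x (f i) :=
          sum_le_sum_of_subset_of_nonneg (filter_subset _ _)
            fun f _ _ => prod_nonneg fun i _ => hx _
      _ = D ^ 0 := by simp
  | succ a ih =>
    intro v
    have hD0 : 0 ≤ D := le_trans (wS_nonneg hx _) (hD v)
    let Φ : (Fin (a + 1) → V) → (_ : V) × (Fin a → V) := fun f => ⟨f 0, Fin.tail f⟩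
    have hinj : Set.InjOn Φ (cutSeqW G (a + 1) v) := by
      intro f _ g _ hfg
      have h0 : f 0 = g 0 := (Sigma.mk.inj hfg).1
      have h1 : Fin.tail f = Fin.tail g := eq_of_heq (Sigma.mk.inj hfg).2
      rw [← Fin.cons_self_tail f, ← Fin.cons_self_tail g, h0, h1]
    have hmap : ∀ f ∈ cutSeqW G (a + 1) v, Φ f ∈ (Nb G v).sigma (fun y => cutSeqW G a y) := by
      intro f hf
      have hf' : ∀ i : Fin (a + 1),
          G.Adj ((Fin.cons v f : Fin (a + 2) → V) i.castSucc) (f i) := by
        have := hf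
        rw [cutSeqW, mem_filter] at this
        exact this.2
      rw [mem_sigma]
      refine ⟨?_, ?_⟩
      · rw [mem_Nb]
        have := hf' 0
        rw [Fin.castSucc_zero, Fin.cons_zero] at this
        exact this.symm
      · show Fin.tail f ∈ cutSeqW G a (f 0)
        rw [cutSeqW, mem_filter]
        refine ⟨mem_univ _, fun i => ?_⟩
        have := hf' i.succ
        rw [← Fin.succ_castSucc, Fin.cons_succ] at this
        rw [Fin.cons_self_tail]
        exact this
    let h : ((_ : V) × (Fin a → V)) → ℝ := fun z => x z.1 * ∏ i, x (z.2 i)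
    have hh : ∀ z, 0 ≤ h z := fun z => mul_nonneg (hx _) (prod_nonneg fun i _ => hx _)
    calc ∑ f ∈ cutSeqW G (a + 1) v, ∏ i, x (f i)
        = ∑ f ∈ cutSeqW G (a + 1) v, h (Φ f) := by
          refine sum_congr rfl fun f _ => ?_
          rw [Fin.prod_univ_succ]
          rfl
      _ = ∑ z ∈ (cutSeqW G (a + 1) v).image Φ, h z := by rw [sum_image hinj]
      _ ≤ ∑ z ∈ (Nb G v).sigma (fun y => cutSeqW G a y), h z := by
          refine sum_le_sum_of_subset_of_nonneg ?_ (fun z _ _ => hh z)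
          intro z hz
          rw [mem_image] at hz
          obtain ⟨f, hf, rfl⟩ := hz
          exact hmap f hf
      _ = ∑ y ∈ Nb G v, x y * ∑ f ∈ cutSeqW G a y, ∏ i, x (f i) := by
          rw [sum_sigma]
          refine sum_congr rfl fun y _ => ?_
          rw [mul_sum]
      _ ≤ ∑ y ∈ Nb G v, x y * D ^ a :=
          sum_le_sum fun y _ => mul_le_mul_of_nonneg_left (ih y) (hx y)
      _ = dg G x v * D ^ a := by rw [← sum_mul]; rfl
      _ ≤ D * D ^ a := mul_le_mul_of_nonneg_right (hD v) (pow_nonneg hD0 a)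
      _ = D ^ (a + 1) := by ring

theorem cutw {a r : ℕ} [NeZero r] [NeZero (r + a)] (hr : 2 ≤ r) (hx : ∀ v, 0 ≤ x v) {D : ℝ}
    (hD : ∀ v, dg G x v ≤ D) (g : (ZMod r → V) → ℝ) (hg : ∀ W, 0 ≤ g W) :
    ∑ W ∈ (clos G (r + a)).filter (fun W => G.Adj (W 0) (W ((a + 1 : ℕ) : ZMod (r + a)))),
      wP x W * g (cut a W) ≤ D ^ a * ∑ W ∈ clos G r, wP x W * g W := by
  set F := (clos G (r + a)).filter (fun W => G.Adj (W 0) (W ((a + 1 : ℕ) : ZMod (r + a)))) with hF
  have hcast : ∀ j : ZMod (r + a), ((j.val : ℕ) : ZMod (r + a)) = j :=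
    fun j => ZMod.natCast_zmod_val j
  -- the map
  let Φ : (ZMod (r + a) → V) → (_ : ZMod r → V) × (Fin a → V) :=
    fun W => ⟨cut a W, fun i => W ((i.val + 1 : ℕ) : ZMod (r + a))⟩
  have hinj : Set.InjOn Φ F := by
    intro W _ W' _ h
    have h0 : cut a W = cut a W' := (Sigma.mk.inj h).1
    have h1 : (fun i : Fin a => W ((i.val + 1 : ℕ) : ZMod (r + a))) =
        fun i : Fin a => W' ((i.val + 1 : ℕ) : ZMod (r + a)) := eq_of_heq (Sigma.mk.inj h).2
    funext j
    have hj : j.val < r + a := ZMod.val_lt j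
    by_cases hj0 : j.val = 0
    · have : j = 0 := by rw [← hcast j, hj0, Nat.cast_zero]
      rw [this]
      have := congrFun h0 0
      simpa [cut] using this
    · by_cases hja : j.val ≤ a
      · have := congrFun h1 ⟨j.val - 1, by omega⟩
        simp only at this
        have e : j.val - 1 + 1 = j.val := by omega
        rw [e, hcast] at this
        exact this
      · have hlt : j.val - a < r := by omega
        have hv : (((j.val - a : ℕ) : ZMod r)).val = j.val - a := ZMod.val_cast_of_lt hlt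
        have hne : ((j.val - a : ℕ) : ZMod r) ≠ 0 := by
          intro h2
          rw [h2, ZMod.val_zero] at hv
          omega
        have := congrFun h0 ((j.val - a : ℕ) : ZMod r)
        unfold cut at this
        rw [if_neg hne, if_neg hne, hv] at this
        have e : j.val - a + a = j.val := by omega
        rw [e, hcast] at this
        exact this
  have hmap : ∀ W ∈ F, Φ W ∈ (clos G r).sigma (fun c => cutSeqW G a (c 0)) := by
    intro W hW
    rw [hF, mem_filter, mem_clos] at hW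
    rw [mem_sigma]
    refine ⟨mem_clos.2 (cut_cl hr hW.1 hW.2), ?_⟩
    show (fun i : Fin a => W ((i.val + 1 : ℕ) : ZMod (r + a))) ∈ cutSeqW G a (cut a W 0)
    rw [cutSeqW, mem_filter]
    refine ⟨mem_univ _, fun i => ?_⟩
    have hc0 : cut a W 0 = W 0 := by unfold cut; rw [if_pos rfl]
    rw [hc0]
    have hw := hW.1 ((i.val : ℕ) : ZMod (r + a))
    have e : ((i.val : ℕ) : ZMod (r + a)) + 1 = ((i.val + 1 : ℕ) : ZMod (r + a)) := by
      push_cast
      ring
    rw [e] at hw
    have hcons : (Fin.cons (W 0) (fun i : Fin a => W ((i.val + 1 : ℕ) : ZMod (r + a))) :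
        Fin (a + 1) → V) i.castSucc = W ((i.val : ℕ) : ZMod (r + a)) := by
      obtain ⟨i, hi⟩ := i
      cases i with
      | zero =>
        have : (Fin.castSucc ⟨0, hi⟩ : Fin (a + 1)) = 0 := rfl
        rw [this, Fin.cons_zero]
        simp
      | succ i =>
        have : (Fin.castSucc ⟨i + 1, hi⟩ : Fin (a + 1)) = Fin.succ ⟨i, by omega⟩ := rfl
        rw [this, Fin.cons_succ]
    rw [hcons]
    exact hw
  let h : ((_ : ZMod r → V) × (Fin a → V)) → ℝ := fun z => wP x z.1 * g z.1 * ∏ i, x (z.2 i)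
  have hh : ∀ z, 0 ≤ h z := fun z =>
    mul_nonneg (mul_nonneg (wP_nonneg hx _) (hg _)) (prod_nonneg fun i _ => hx _)
  calc ∑ W ∈ F, wP x W * g (cut a W) = ∑ W ∈ F, h (Φ W) := by
        refine sum_congr rfl fun W _ => ?_
        rw [wP_cut (r := r) (a := a) x W]
        show wP x (cut a W) * (∏ i : Fin a, x (W ((i.val + 1 : ℕ) : ZMod (r + a)))) * g (cut a W) =
          wP x (cut a W) * g (cut a W) * ∏ i : Fin a, x (W ((i.val + 1 : ℕ) : ZMod (r + a)))
        ring
    _ = ∑ z ∈ F.image Φ, h z := by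
        rw [sum_image hinj]
    _ ≤ ∑ z ∈ (clos G r).sigma (fun c => cutSeqW G a (c 0)), h z := by
        refine sum_le_sum_of_subset_of_nonneg ?_ (fun z _ _ => hh z)
        intro z hz
        rw [mem_image] at hz
        obtain ⟨W, hW, rfl⟩ := hz
        exact hmap W hW
    _ = ∑ c ∈ clos G r, wP x c * g c * ∑ f ∈ cutSeqW G a (c 0), ∏ i, x (f i) := by
        rw [sum_sigma]
        refine sum_congr rfl fun c _ => ?_
        rw [mul_sum]
    _ ≤ ∑ c ∈ clos G r, wP x c * g c * D ^ a :=
        sum_le_sum (fun c _ => mul_le_mul_of_nonneg_left (cutSeqW_sum hx hD a (c 0))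
          (mul_nonneg (wP_nonneg hx _) (hg c)))
    _ = D ^ a * ∑ W ∈ clos G r, wP x W * g W := by rw [← sum_mul, mul_comm]

end Pool.Agent.CycSh
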