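import Pool.Agent.W_1bfdb5sh_h41.Pl
import Pool.Agent.W_1bfdb5fd_h19.Cut
import Pool.Agent.W_1bfdb5sh_h41.CwA

/-!
# Cutting chords, weighted

Compare `W_1bfdb5fd_h19/CutA.lean`, `CutB.lean`, `CutC.lean` (`rot_sum`, `rot_avg`).
-/

namespace Pool.Agent.CycSh

open Finset Pool.Agent.CycGT Pool.Agent.CycFD
open scoped Classical

variable {V : Type} [Fintype V] {G : SimpleGraph V} {x : V → ℝ}

/-- Sum over the pairs (closed walk, chord of length `a + 1`). -/
theorem chordw {a r : ℕ} [NeZero r] [NeZero (r + a)] (hr : 2 ≤ r) (hx : ∀ v, 0 ≤ x v) {D : ℝ}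
    (hD : ∀ v, dg G x v ≤ D) (g : (ZMod r → V) → ℝ) (hg : ∀ W, 0 ≤ g W) :
    ∑ W ∈ clos G (r + a), ∑ p, (if G.Adj (W p) (W (p + ((a + 1 : ℕ) : ZMod (r + a)))) then
      wP x W * g (cut a (rot W p)) else 0) ≤
      ((r + a : ℕ) : ℝ) * (D ^ a * ∑ W ∈ clos G r, wP x W * g W) := by
  have h1 : ∀ W ∈ clos G (r + a), ∑ p, (if G.Adj (W p) (W (p + ((a + 1 : ℕ) : ZMod (r + a)))) then
      wP x W * g (cut a (rot W p)) else 0) = ∑ p, (fun W' : ZMod (r + a) → V =>
        if G.Adj (W' 0) (W' ((a + 1 : ℕ) : ZMod (r + a))) then wP x W' * g (cut a W') else 0)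
          (rot W p) := by
    intro W _
    refine Finset.sum_congr rfl fun p _ => ?_
    have e : rot W p 0 = W p := by
      show W (p + 0) = W p
      rw [add_zero]
    show _ = (if G.Adj (rot W p 0) (rot W p ((a + 1 : ℕ) : ZMod (r + a))) then
      wP x (rot W p) * g (cut a (rot W p)) else 0)
    rw [e, wP_rot]
    rfl
  rw [Finset.sum_congr rfl h1, ← rot_avg (G := G) (fun W' : ZMod (r + a) → V =>
        if G.Adj (W' 0) (W' ((a + 1 : ℕ) : ZMod (r + a))) then wP x W' * g (cut a W') else 0),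
    ← Finset.sum_filter]
  exact mul_le_mul_of_nonneg_left (cutw hr hx hD g hg) (Nat.cast_nonneg _)

end Pool.Agent.CycSh
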