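import Pool.Agent.W_1bfdb5sh_h41.Bs
import Pool.Agent.W_1bfdb5fd_h19.As
import Pool.Agent.W_1bfdb5fd_h19.Gp

/-!
# The cycle `C_m` and the classes
-/

namespace Pool.Agent.CycSh

open Finset Pool.Agent.CycGT Pool.Agent.CycFD
open scoped Classical

private lemma CyA_one {m : ℕ} (hm : 3 ≤ m) : (1 : ZMod m) ≠ 0 := by
  intro h1
  have h2 : ((1 : ℕ) : ZMod m) = 0 := by
    rw [Nat.cast_one]
    exact h1
  rw [ZMod.natCast_eq_zero_iff] at h2
  have h3 := Nat.le_of_dvd one_pos h2
  omega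

private lemma CyA_two {m : ℕ} (hm : 3 ≤ m) : (2 : ZMod m) ≠ 0 := by
  intro h1
  have h2 : ((2 : ℕ) : ZMod m) = 0 := by
    rw [Nat.cast_ofNat]
    exact h1
  rw [ZMod.natCast_eq_zero_iff] at h2
  have h3 := Nat.le_of_dvd two_pos h2
  omega

theorem Cy_adj {m : ℕ} (hm : 3 ≤ m) (s t : ZMod m) :
    (Cy m).Adj s t ↔ t = s + 1 ∨ s = t + 1 := by
  unfold Cy
  rw [NegA_adj]
  simp only [id]
  refine and_iff_right_of_imp ?_
  rintro (h | h) h'
  · rw [h'] at h
    exact CyA_one hm (left_eq_add.1 h)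
  · rw [h'] at h
    exact CyA_one hm (left_eq_add.1 h)

theorem Cy_odd {m : ℕ} (ho : Odd m) : OddFree (Cy m) m := cls_odd ho _

theorem Cy_clos {m : ℕ} [NeZero m] (hm : 3 ≤ m) (r : ℕ) [NeZero r] :
    clos (Cy m) r = pats r m := by
  ext p
  simp only [clos, pats, IsCl, mem_filter, mem_univ, true_and]
  refine forall_congr' fun i => ?_
  rw [Cy_adj hm]

theorem Cy_dg {m : ℕ} [NeZero m] (hm : 3 ≤ m) (v : ZMod m → ℝ) (t : ZMod m) :
    dg (Cy m) v t = v (t - 1) + v (t + 1) := by
  have hne : t - 1 ≠ t + 1 := by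
    intro h
    apply CyA_two hm
    have h2 : t + 1 - (t - 1) = 2 := by ring
    rw [← h, sub_self] at h2
    exact h2.symm
  have h : Nb (Cy m) t = {t - 1, t + 1} := by
    ext w
    rw [mem_Nb, mem_insert, mem_singleton, Cy_adj hm]
    constructor
    · rintro (h | h)
      · left
        rw [h]
        ring
      · right
        exact h
    · rintro (h | h)
      · left
        rw [h]
        ring
      · right
        exact h
  unfold dg wS
  rw [h, sum_pair hne]

end Pool.Agent.CycSh
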