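import Pool.Agent.W_1bfdb5sh_h41.Bs
import Pool.Agent.W_1bfdb5fd_h19.As
import Pool.Agent.W_1bfdb5fd_h19.Gp
import Pool.Agent.W_1bfdb5sh_h41.CyA

/-!
# The cycle `C_m` and the classes
-/

namespace Pool.Agent.CycSh

open Finset Pool.Agent.CycGT Pool.Agent.CycFD
open scoped Classical

/-- Weights of a graph with a homomorphism to the cycle. -/
theorem hom_w {V : Type} [Fintype V] {G : SimpleGraph V} {x : V → ℝ} {m : ℕ} [NeZero m]
    (hm : 3 ≤ m) (r : ℕ) [NeZero r] (hx : ∀ v, 0 ≤ x v) (h : V → ZMod m)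
    (hh : ∀ v w, G.Adj v w → h w = h v + 1 ∨ h v = h w + 1) :
    Fw G r x ≤ Fw (Cy m) r (fun t => wS x (univ.filter (fun v => h v = t))) := by
  have h1 : ∀ k : ZMod r → ZMod m, ∏ p, wS x (univ.filter (fun v => h v = k p)) =
      ∑ W ∈ univ.filter (fun W : ZMod r → V => (fun p => h (W p)) = k), ∏ p, x (W p) := by
    intro k
    unfold wS
    rw [Finset.prod_univ_sum]
    refine Finset.sum_congr ?_ fun _ _ => rfl
    ext W
    simp only [Fintype.mem_piFinset, mem_filter, mem_univ, true_and, funext_iff]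
  have h2 : ∀ W ∈ clos G r, (fun p => h (W p)) ∈ clos (Cy m) r := by
    intro W hW
    simp only [clos, mem_filter, mem_univ, true_and, IsCl] at hW ⊢
    intro i
    rw [Cy_adj hm]
    exact hh _ _ (hW i)
  unfold Fw
  rw [← Finset.sum_fiberwise_of_maps_to h2]
  refine Finset.sum_le_sum fun k _ => ?_
  have h3 : wP (fun t => wS x (univ.filter (fun v => h v = t))) k =
      ∑ W ∈ univ.filter (fun W : ZMod r → V => (fun p => h (W p)) = k), ∏ p, x (W p) := h1 k
  rw [h3]
  unfold wP
  refine Finset.sum_le_sum_of_subset_of_nonneg ?_ fun W _ _ => ?_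
  · intro W hW
    rw [mem_filter] at hW
    rw [mem_filter]
    exact ⟨mem_univ _, hW.2⟩
  · exact Finset.prod_nonneg fun p _ => hx _

end Pool.Agent.CycSh
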