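import Pool.Agent.W_1bfdb5sh_h41.Bs
import Pool.Agent.W_1bfdb5fd_h19.As
import Pool.Agent.W_1bfdb5fd_h19.Gp
import Pool.Agent.W_1bfdb5sh_h41.CyA

/-!
# The cycle `C_m` and the classes
-/

namespace Pool.Agent.CycSh

open Finset Pool.Agent.CycGT Pool.Agent.CycFD
open scoped Classical

/-- Neighbouring classes. -/
private lemma cls_step {V : Type} [Fintype V] {G : SimpleGraph V} {m : ℕ} [NeZero m]
    (hm : 13 ≤ m) (ho : Odd m) (hG : OddFree G m) {c : ZMod m → V} (hc : IsCl G m c)
    {t t' : ZMod m} {u z : V} (hu : u ∈ AA G c t) (hz : z ∈ AA G c t') (h : G.Adj u z) :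
    (Cy m).Adj t t' := by
  obtain ⟨e, h1, h2, ⟨q, hq⟩, h3⟩ := gap hm ho hG hc (r := 1) (by omega) hu hz (wk_one.2 h)
  have he : e = 1 ∨ e = -1 := by
    push_cast at h1 h2 hq
    omega
  rw [Cy_adj (by omega)]
  rcases he with rfl | rfl
  · left
    rw [h3]
    push_cast
    ring
  · right
    rw [h3]
    push_cast
    ring

/-- Walks without bad vertices, seen in the classes. -/
theorem cls_walk {V : Type} [Fintype V] {G : SimpleGraph V} {x : V → ℝ} {m : ℕ} [NeZero m]
    (hm : 13 ≤ m) (ho : Odd m) (hG : OddFree G m) {c : ZMod m → V} (hc : IsCl G m c)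
    (hx : ∀ v, 0 ≤ x v) (n : ℕ) {t t' : ZMod m} {u : V} (hu : u ∈ AA G c t) :
    ∑ u' ∈ AA G c t', Bn G (off x (BB G c)) n u u' ≤
      Bn (Cy m) (fun t => wS x (AA G c t)) n t t' := by
  have ha : ∀ t, 0 ≤ wS x (AA G c t) := fun t => wS_nonneg hx _
  induction n generalizing t u with
  | zero =>
    simp only [Bn_zero]
    by_cases h : u ∈ AA G c t'
    · have e := AA_disj hm ho hG hc hu h
      rw [if_pos e, sum_ite_eq, if_pos h]
    · rw [sum_ite_eq, if_neg h]
      split_ifs <;> norm_num
  | succ n ih =>
    have h1 : ∑ u' ∈ AA G c t', Bn G (off x (BB G c)) (n + 1) u u' =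
        ∑ z, (if G.Adj u z then off x (BB G c) z else 0) *
          ∑ u' ∈ AA G c t', Bn G (off x (BB G c)) n z u' := by
      simp only [Bn_succ, mul_sum]
      rw [sum_comm]
    rw [h1, Bn_succ]
    have hB : ∀ s, 0 ≤ Bn (Cy m) (fun t => wS x (AA G c t)) n s t' :=
      fun s => Bn_nonneg ha n s t'
    have h2 : ∀ z : V, (if G.Adj u z then off x (BB G c) z else 0) *
          ∑ u' ∈ AA G c t', Bn G (off x (BB G c)) n z u' ≤
        ∑ s : ZMod m, if z ∈ AA G c s then (if (Cy m).Adj t s then
          x z * Bn (Cy m) (fun t => wS x (AA G c t)) n s t' else 0) else 0 := by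
      intro z
      have hnn : ∀ s : ZMod m, 0 ≤ if z ∈ AA G c s then (if (Cy m).Adj t s then
          x z * Bn (Cy m) (fun t => wS x (AA G c t)) n s t' else 0) else 0 := by
        intro s
        split_ifs
        · exact mul_nonneg (hx z) (hB s)
        · exact le_refl _
        · exact le_refl _
      by_cases hz : G.Adj u z ∧ z ∉ BB G c
      · obtain ⟨s, hs⟩ : ∃ s, z ∈ AA G c s := by
          by_contra hcon
          push Not at hcon
          exact hz.2 (mem_BB.2 hcon)
        have hadj := cls_step hm ho hG hc hu hs hz.1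
        refine le_trans ?_ (single_le_sum (fun s _ => hnn s) (mem_univ s))
        rw [if_pos hz.1, if_pos hs, if_pos hadj]
        have : off x (BB G c) z = x z := if_neg hz.2
        rw [this]
        exact mul_le_mul_of_nonneg_left (ih hs) (hx z)
      · have h0 : (if G.Adj u z then off x (BB G c) z else 0) = 0 := by
          by_cases hadj : G.Adj u z
          · rw [if_pos hadj]
            have hzB : z ∈ BB G c := by
              by_contra hcon
              exact hz ⟨hadj, hcon⟩
            exact if_pos hzB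
          · exact if_neg hadj
        rw [h0, zero_mul]
        exact sum_nonneg fun s _ => hnn s
    refine le_trans (sum_le_sum fun z _ => h2 z) ?_
    rw [sum_comm]
    refine sum_le_sum fun s _ => ?_
    by_cases hadj : (Cy m).Adj t s
    · rw [if_pos hadj]
      simp only [if_pos hadj]
      rw [← sum_filter, show (univ.filter fun z => z ∈ AA G c s) = AA G c s by ext; simp]
      unfold wS
      rw [sum_mul]
    · simp [if_neg hadj]

end Pool.Agent.CycSh
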