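import Pool.Agent.W_1bfdb5sh_h41.Pl
import Pool.Agent.W_1bfdb5fd_h19.Cut

/-!
# The number of insertions

Compare `W_1bfdb5fd_h19/PsA.lean` (`ee_le`, `ee_cut`, `ee_rot`).
-/

namespace Pool.Agent.CycSh

open Finset Pool.Agent.CycGT Pool.Agent.CycFD
open scoped Classical

variable {V : Type} [Fintype V] {G : SimpleGraph V} {x : V → ℝ}

theorem eew_nonneg (hx : ∀ v, 0 ≤ x v) (e : ℕ) {r : ℕ} (W : ZMod r → V) (s : ZMod r) :
    0 ≤ eew G x e W s := by
  unfold eew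
  refine sum_nonneg fun y _ => sum_nonneg fun z _ => ?_
  split_ifs
  · exact mul_nonneg (hx _) (hx _)
  · exact le_rfl

/-- Not more than the product of the two weights. -/
theorem eew_prod (hx : ∀ v, 0 ≤ x v) (e : ℕ) {r : ℕ} (W : ZMod r → V) (s : ZMod r) :
    eew G x e W s ≤ wS x (FS G e W s) * wS x (FS G e W (s + 1)) := by
  unfold eew wS
  rw [sum_mul_sum]
  refine sum_le_sum fun y _ => sum_le_sum fun z _ => ?_
  split_ifs
  · exact le_rfl
  · exact mul_nonneg (hx _) (hx _)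

theorem FS_dg (hx : ∀ v, 0 ≤ x v) {D : ℝ} (hD : ∀ v, dg G x v ≤ D) (e : ℕ) {r : ℕ}
    (W : ZMod r → V) (s : ZMod r) : wS x (FS G e W s) ≤ D :=
  (wS_mono hx fun _ hw => mem_Nb.2 (mem_FS.1 hw).1).trans (hD (W s))

theorem eew_le (hx : ∀ v, 0 ≤ x v) {D : ℝ} (hD : ∀ v, dg G x v ≤ D) (e : ℕ) {r : ℕ}
    (W : ZMod r → V) (s : ZMod r) : eew G x e W s ≤ D ^ 2 := by
  have h2 := FS_dg hx hD e W s
  have h3 := FS_dg hx hD e W (s + 1)
  have h4 := wS_nonneg hx (FS G e W s)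
  have h5 := wS_nonneg hx (FS G e W (s + 1))
  calc eew G x e W s ≤ _ := eew_prod hx e W s
    _ ≤ D * D := mul_le_mul h2 h3 h5 (h4.trans h2)
    _ = D ^ 2 := by ring

private lemma FS_rot (e : ℕ) {r : ℕ} (W : ZMod r → V) (p s : ZMod r) :
    FS G e (rot W p) s = FS G e W (p + s) := by
  ext w
  rw [mem_FS, mem_FS]
  unfold rot
  refine and_congr Iff.rfl (forall₂_congr fun a _ => ?_)
  rw [add_sub_assoc]

theorem eew_rot (e : ℕ) {r : ℕ} (W : ZMod r → V) (p s : ZMod r) :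
    eew G x e (rot W p) s = eew G x e W (p + s) := by
  unfold eew
  rw [FS_rot, FS_rot, add_assoc]

theorem EEw_rot (e : ℕ) {r : ℕ} [NeZero r] (W : ZMod r → V) (p : ZMod r) :
    EEw G x e (rot W p) = EEw G x e W := by
  unfold EEw
  refine Fintype.sum_equiv (Equiv.addLeft p) _ _ fun s => ?_
  rw [eew_rot, Equiv.coe_addLeft]

end Pool.Agent.CycSh
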