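import Pool.Agent.W_1bfdb5sh_h41.Pl
import Pool.Agent.W_1bfdb5fd_h19.Cut
import Pool.Agent.W_1bfdb5sh_h41.EeA

/-!
# The number of insertions

Compare `W_1bfdb5fd_h19/PsA.lean` (`ee_le`, `ee_cut`, `ee_rot`).
-/

namespace Pool.Agent.CycSh

open Finset Pool.Agent.CycGT Pool.Agent.CycFD
open scoped Classical

variable {V : Type} [Fintype V] {G : SimpleGraph V} {x : V → ℝ}

private lemma ws_range {n : ℕ} [NeZero n] (f : ZMod n → ℝ) :
    ∑ s, f s = ∑ i ∈ range n, f (i : ZMod n) := by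
  refine Finset.sum_nbij' (fun s : ZMod n => s.val) (fun i : ℕ => (i : ZMod n)) ?_ ?_ ?_ ?_ ?_
  · intro s _
    exact mem_range.2 (ZMod.val_lt s)
  · intro i _
    exact mem_univ _
  · intro s _
    exact ZMod.natCast_zmod_val s
  · intro i hi
    exact ZMod.val_natCast_of_lt (mem_range.1 hi)
  · intro s _
    rw [ZMod.natCast_zmod_val]

omit [Fintype V] in
private lemma ws_cut {r : ℕ} [NeZero r] (W : ZMod (r + 2) → V) {j : ℕ} (h1 : 1 ≤ j)
    (h2 : j ≤ r) : cut 2 W (j : ZMod r) = W ((j + 2 : ℕ) : ZMod (r + 2)) := by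
  rcases Nat.lt_or_ge j r with h | h
  · have hv : ((j : ℕ) : ZMod r).val = j := ZMod.val_natCast_of_lt h
    have h0 : ((j : ℕ) : ZMod r) ≠ 0 := by
      intro h0
      rw [h0, ZMod.val_zero] at hv
      omega
    unfold cut
    rw [if_neg h0, hv]
  · have hj : j = r := le_antisymm h2 h
    subst hj
    unfold cut
    rw [if_pos (ZMod.natCast_self j), ZMod.natCast_self (j + 2)]

private lemma ws_sub {e r : ℕ} [NeZero r] (hr : 2 * e + 3 ≤ r) (W : ZMod (r + 2) → V) {j : ℕ}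
    (h1 : 1 ≤ j) (h2 : j ≤ r) :
    FS G (e + 1) W ((j + 2 : ℕ) : ZMod (r + 2)) ⊆ FS G e (cut 2 W) (j : ZMod r) := by
  intro w hw
  rw [mem_FS] at hw ⊢
  refine ⟨by rw [ws_cut W h1 h2]; exact hw.1, fun a ha => ?_⟩
  rw [mem_Icc] at ha
  rcases Nat.lt_or_ge (2 * a) j with h | h
  · have e1 : (j : ZMod r) - 2 * (a : ZMod r) = ((j - 2 * a : ℕ) : ZMod r) := by
      rw [Nat.cast_sub h.le]
      push_cast
      ring
    have e2 : ((j - 2 * a + 2 : ℕ) : ZMod (r + 2)) =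
        ((j + 2 : ℕ) : ZMod (r + 2)) - 2 * (a : ZMod (r + 2)) := by
      have : j - 2 * a + 2 = (j + 2) - 2 * a := by omega
      rw [this, Nat.cast_sub (by omega)]
      push_cast
      ring
    rw [e1, ws_cut W (by omega) (by omega), e2]
    exact hw.2 a (mem_Icc.2 ⟨ha.1, by omega⟩)
  · have e1 : (j : ZMod r) - 2 * (a : ZMod r) = ((j + r - 2 * a : ℕ) : ZMod r) := by
      rw [Nat.cast_sub (by omega)]
      push_cast
      rw [ZMod.natCast_self]
      ring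
    have e2 : ((j + r - 2 * a + 2 : ℕ) : ZMod (r + 2)) =
        ((j + 2 : ℕ) : ZMod (r + 2)) - 2 * ((a + 1 : ℕ) : ZMod (r + 2)) := by
      have e3 : j + r - 2 * a + 2 = (j + 2 + (r + 2)) - 2 * (a + 1) := by omega
      have e4 : ((r + 2 : ℕ) : ZMod (r + 2)) = 0 := ZMod.natCast_self _
      rw [e3, Nat.cast_sub (by omega), Nat.cast_add, e4]
      push_cast
      ring
    rw [e1, ws_cut W (by omega) (by omega), e2]
    exact hw.2 (a + 1) (mem_Icc.2 ⟨by omega, by omega⟩)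

/-- Larger windows after the cut are contained in the old ones. -/
theorem FS_cut {e r : ℕ} [NeZero r] (hr : 2 * e + 10 ≤ r) (W : ZMod (r + 2) → V) {s : ℕ}
    (h1 : 1 ≤ s) (h2 : s ≤ r) : FS G (e + 1) W ((s + 2 : ℕ) : ZMod (r + 2)) ⊆
      FS G e (cut 2 W) ((s : ℕ) : ZMod r) := ws_sub (by omega) W h1 h2

theorem EEw_cut {e r : ℕ} [NeZero r] (hr : 2 * e + 10 ≤ r) (hx : ∀ v, 0 ≤ x v) {D : ℝ}
    (hD : ∀ v, dg G x v ≤ D) (W : ZMod (r + 2) → V) :
    EEw G x (e + 1) W ≤ EEw G x e (cut 2 W) + 4 * D ^ 2 := by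
  unfold EEw
  rw [ws_range (fun s : ZMod (r + 2) => eew G x (e + 1) W s),
    ws_range (fun s : ZMod r => eew G x e (cut 2 W) s)]
  obtain ⟨k, rfl⟩ : ∃ k, r = k + 1 := ⟨r - 1, by omega⟩
  have s1 : ∑ i ∈ range (k + 1 + 2), eew G x (e + 1) W (i : ZMod (k + 1 + 2)) =
      ∑ i ∈ range 3, eew G x (e + 1) W (i : ZMod (k + 1 + 2)) +
      ∑ i ∈ range k, eew G x (e + 1) W ((3 + i : ℕ) : ZMod (k + 1 + 2)) := by
    rw [← Finset.sum_range_add (fun i : ℕ => eew G x (e + 1) W (i : ZMod (k + 1 + 2))) 3 k]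
    rw [show range (k + 1 + 2) = range (3 + k) by congr 1; omega]
  have s2 : ∑ i ∈ range (k + 1), eew G x e (cut 2 W) (i : ZMod (k + 1)) =
      ∑ i ∈ range 1, eew G x e (cut 2 W) (i : ZMod (k + 1)) +
      ∑ i ∈ range k, eew G x e (cut 2 W) ((1 + i : ℕ) : ZMod (k + 1)) := by
    rw [← Finset.sum_range_add (fun i : ℕ => eew G x e (cut 2 W) (i : ZMod (k + 1))) 1 k]
    rw [show range (k + 1) = range (1 + k) by congr 1; omega]
  rw [s1, s2]
  have t1 : ∑ i ∈ range 3, eew G x (e + 1) W (i : ZMod (k + 1 + 2)) ≤ 3 * D ^ 2 := by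
    calc ∑ i ∈ range 3, eew G x (e + 1) W (i : ZMod (k + 1 + 2)) ≤ ∑ i ∈ range 3, D ^ 2 :=
          Finset.sum_le_sum (fun i _ => eew_le hx hD _ W _)
      _ = 3 * D ^ 2 := by
          rw [Finset.sum_const, card_range, nsmul_eq_mul]
          push_cast
          ring
  have t2 : (0 : ℝ) ≤ ∑ i ∈ range 1, eew G x e (cut 2 W) (i : ZMod (k + 1)) :=
    Finset.sum_nonneg (fun i _ => eew_nonneg hx _ _ _)
  have t3 : ∑ i ∈ range k, eew G x (e + 1) W ((3 + i : ℕ) : ZMod (k + 1 + 2)) ≤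
      ∑ i ∈ range k, eew G x e (cut 2 W) ((1 + i : ℕ) : ZMod (k + 1)) := by
    refine Finset.sum_le_sum fun i hi => ?_
    have hi' := mem_range.1 hi
    have a1 := ws_sub (G := G) (e := e) (by omega) W (j := 1 + i) (by omega) (by omega)
    have a2 := ws_sub (G := G) (e := e) (by omega) W (j := 1 + i + 1) (by omega) (by omega)
    have b1 : ((1 + i + 2 : ℕ) : ZMod (k + 1 + 2)) = ((3 + i : ℕ) : ZMod (k + 1 + 2)) := by
      congr 1
      omega
    have b2 : ((1 + i + 1 + 2 : ℕ) : ZMod (k + 1 + 2)) =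
        ((3 + i : ℕ) : ZMod (k + 1 + 2)) + 1 := by
      push_cast
      ring
    have b3 : ((1 + i + 1 : ℕ) : ZMod (k + 1)) = ((1 + i : ℕ) : ZMod (k + 1)) + 1 := by
      push_cast
      ring
    rw [b1] at a1
    rw [b2, b3] at a2
    unfold eew
    have h0 : ∀ y z, 0 ≤ (if G.Adj y z then x y * x z else 0) := by
      intro y z
      split_ifs
      · exact mul_nonneg (hx _) (hx _)
      · exact le_rfl
    refine (sum_le_sum_of_subset_of_nonneg a1 fun y _ _ => sum_nonneg fun z _ => h0 y z).trans ?_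
    exact sum_le_sum fun y _ => sum_le_sum_of_subset_of_nonneg a2 fun z _ _ => h0 y z
  have hD2 : 0 ≤ D ^ 2 := sq_nonneg D
  linarith

end Pool.Agent.CycSh
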