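import Pool.Agent.W_1bfdb5sh_h41.FcW
import Pool.Agent.W_1bfdb5sh_h41.EeW
import Pool.Agent.W_1bfdb5fd_h19.PsB

/-!
# The upper bound for the weighted number of reductions

Compare `W_1bfdb5fd_h19/PsB.lean`.
-/

namespace Pool.Agent.CycSh

open Finset Pool.Agent.CycGT Pool.Agent.CycFD
open scoped Classical

variable {V : Type} [Fintype V] {G : SimpleGraph V} {x : V → ℝ} {m : ℕ} [NeZero m]

section

variable {e : ℕ}

omit [Fintype V] in
lemma FCe_rot {e r : ℕ} (W : ZMod r → V) (p q : ZMod r) :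
    FCe G e (rot W p) q ↔ FCe G e W (p + q) := by
  unfold FCe rot
  have e1 : p + (q + 3) = p + q + 3 := by ring
  have e2 : p + (q + 1) = p + q + 1 := by ring
  have e3 : p + (q + 2) = p + q + 2 := by ring
  rw [e1, e2, e3]
  refine and_congr Iff.rfl (forall₂_congr fun a _ => ?_)
  have e4 : p + (q - 2 * (a : ZMod r)) = p + q - 2 * (a : ZMod r) := by ring
  have e5 : p + (q + 1 - 2 * (a : ZMod r)) = p + q + 1 - 2 * (a : ZMod r) := by ring
  rw [e4, e5]

lemma psw_succ_def (F : (ZMod m → V) → ℝ) (i : ℕ) (W : ZMod (m + 2 * i + 2) → V) :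
    Psw G m e F (i + 1) W = ∑ p : ZMod (m + 2 * i + 2), if FCe G (e + i) W p then
      Psw G m e F i (cut 2 (rot W p)) else 0 := rfl

lemma psw_nn (F : (ZMod m → V) → ℝ) (hF : ∀ c, 0 ≤ F c) (i : ℕ)
    (W : ZMod (m + 2 * i) → V) : 0 ≤ Psw G m e F i W := by
  induction i with
  | zero => exact hF W
  | succ i ih =>
    show 0 ≤ ∑ p : ZMod (m + 2 * i + 2), if FCe G (e + i) W p then
      Psw G m e F i (cut 2 (rot (M := m + 2 * i + 2) W p)) else 0
    refine sum_nonneg fun p _ => ?_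
    split_ifs
    · exact ih _
    · exact le_rfl

lemma psw_rt (F : (ZMod m → V) → ℝ) (hF : ∀ c p, F (rot c p) = F c) (i : ℕ)
    (W : ZMod (m + 2 * i) → V) (p : ZMod (m + 2 * i)) :
    Psw G m e F i (rot W p) = Psw G m e F i W := by
  cases i with
  | zero => exact hF W p
  | succ i =>
    have key : ∀ (W : ZMod (m + 2 * i + 2) → V) (p : ZMod (m + 2 * i + 2)),
        Psw G m e F (i + 1) (rot W p) = Psw G m e F (i + 1) W := by
      intro W p
      rw [psw_succ_def, psw_succ_def]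
      have h1 := Equiv.sum_comp (Equiv.addLeft p) (fun q : ZMod (m + 2 * i + 2) =>
        if FCe G (e + i) W q then Psw G m e F i (cut 2 (rot W q)) else 0)
      rw [← h1]
      refine sum_congr rfl fun q _ => ?_
      rw [Equiv.coe_addLeft, psb_rot_rot]
      simp only [FCe_rot]
    exact key W p

end

theorem psw_nonneg (e : ℕ) (F : (ZMod m → V) → ℝ) (hF : ∀ c, 0 ≤ F c) (i : ℕ)
    (W : ZMod (m + 2 * i) → V) : 0 ≤ Psw G m e F i W := psw_nn F hF i W

theorem psw_rot (e : ℕ) (F : (ZMod m → V) → ℝ) (hF : ∀ c p, F (rot c p) = F c) (i : ℕ)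
    (W : ZMod (m + 2 * i) → V) (p : ZMod (m + 2 * i)) :
    Psw G m e F i (rot W p) = Psw G m e F i W := psw_rt F hF i W p

end Pool.Agent.CycSh
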