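import Pool.Agent.W_1bfdb5sh_h41.FcW
import Pool.Agent.W_1bfdb5sh_h41.EeW
import Pool.Agent.W_1bfdb5sh_h41.PwA

/-!
# The upper bound for the weighted number of reductions

Compare `W_1bfdb5fd_h19/PsB.lean`.
-/

namespace Pool.Agent.CycSh

open Finset Pool.Agent.CycGT Pool.Agent.CycFD
open scoped Classical

variable {V : Type} [Fintype V] {G : SimpleGraph V} {x : V → ℝ} {m : ℕ} [NeZero m]

section

variable {e : ℕ}

lemma psw_add (F F' : (ZMod m → V) → ℝ) (i : ℕ) (W : ZMod (m + 2 * i) → V) :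
    Psw G m e (fun c => F c + F' c) i W = Psw G m e F i W + Psw G m e F' i W := by
  induction i with
  | zero => rfl
  | succ i ih =>
    show (∑ p : ZMod (m + 2 * i + 2), if FCe G (e + i) W p then
      Psw G m e (fun c => F c + F' c) i (cut 2 (rot (M := m + 2 * i + 2) W p)) else 0) =
      (∑ p : ZMod (m + 2 * i + 2), if FCe G (e + i) W p then
      Psw G m e F i (cut 2 (rot (M := m + 2 * i + 2) W p)) else 0) +
      ∑ p : ZMod (m + 2 * i + 2), if FCe G (e + i) W p then
      Psw G m e F' i (cut 2 (rot (M := m + 2 * i + 2) W p)) else 0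
    rw [← sum_add_distrib]
    refine sum_congr rfl fun p _ => ?_
    split_ifs
    · exact ih _
    · rw [add_zero]

lemma psw_smul (F : (ZMod m → V) → ℝ) (y : ℝ) (i : ℕ) (W : ZMod (m + 2 * i) → V) :
    Psw G m e (fun c => F c * y) i W = Psw G m e F i W * y := by
  induction i with
  | zero => rfl
  | succ i ih =>
    show (∑ p : ZMod (m + 2 * i + 2), if FCe G (e + i) W p then
      Psw G m e (fun c => F c * y) i (cut 2 (rot (M := m + 2 * i + 2) W p)) else 0) =
      (∑ p : ZMod (m + 2 * i + 2), if FCe G (e + i) W p then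
      Psw G m e F i (cut 2 (rot (M := m + 2 * i + 2) W p)) else 0) * y
    rw [sum_mul]
    refine sum_congr rfl fun p _ => ?_
    split_ifs
    · exact ih _
    · rw [zero_mul]

lemma psw_ml (hx : ∀ v, 0 ≤ x v) {D : ℝ} (hD : ∀ v, dg G x v ≤ D)
    (F : (ZMod m → V) → ℝ) (hF : ∀ c, 0 ≤ F c) (i : ℕ) (hm : 2 * (e + i) + 10 ≤ m)
    (W : ZMod (m + 2 * i) → V) :
    EEw G x (e + i) W * Psw G m e F i W ≤
      Psw G m e (fun c => F c * (EEw G x e c + 4 * i * D ^ 2)) i W := by
  induction i with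
  | zero =>
    show EEw G x (e + 0) W * F W ≤ F W * (EEw G x e W + 4 * ((0 : ℕ) : ℝ) * D ^ 2)
    refine le_of_eq ?_
    push_cast
    rw [add_zero]
    ring
  | succ i ih =>
    have key : ∀ (W : ZMod (m + 2 * i + 2) → V), EEw G x (e + i + 1) W * Psw G m e F (i + 1) W ≤
        Psw G m e (fun c => F c * (EEw G x e c + 4 * ((i + 1 : ℕ) : ℝ) * D ^ 2)) (i + 1) W := by
      intro W
      rw [psw_succ_def, psw_succ_def, mul_sum]
      refine sum_le_sum fun p _ => ?_
      split_ifs
      swap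
      · rw [mul_zero]
      have h1 : EEw G x (e + i + 1) W ≤ EEw G x (e + i) (cut 2 (rot W p)) + 4 * D ^ 2 := by
        have := EEw_cut (e := e + i) (r := m + 2 * i) (by omega) hx hD (rot W p)
        rwa [EEw_rot] at this
      have h2 := psw_nn (G := G) (e := e) F hF i (cut 2 (rot W p))
      have h3 : Psw G m e (fun c => F c * (EEw G x e c + 4 * ((i + 1 : ℕ) : ℝ) * D ^ 2)) i
          (cut 2 (rot W p)) =
          Psw G m e (fun c => F c * (EEw G x e c + 4 * i * D ^ 2)) i (cut 2 (rot W p)) +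
          Psw G m e F i (cut 2 (rot W p)) * (4 * D ^ 2) := by
        rw [← psw_smul, ← psw_add]
        congr 1
        funext c
        push_cast
        ring
      rw [h3]
      calc _ ≤ (EEw G x (e + i) (cut 2 (rot W p)) + 4 * D ^ 2) *
            Psw G m e F i (cut 2 (rot W p)) := mul_le_mul_of_nonneg_right h1 h2
        _ = EEw G x (e + i) (cut 2 (rot W p)) * Psw G m e F i (cut 2 (rot W p)) +
            Psw G m e F i (cut 2 (rot W p)) * (4 * D ^ 2) := by ring
        _ ≤ _ := by
            have := ih (by omega) (cut 2 (rot W p))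
            linarith
    exact key W

end

theorem psw_mul (e i : ℕ) (hm : 2 * (e + i) + 10 ≤ m) (hx : ∀ v, 0 ≤ x v) {D : ℝ}
    (hD : ∀ v, dg G x v ≤ D) (F : (ZMod m → V) → ℝ) (hF : ∀ c, 0 ≤ F c)
    (W : ZMod (m + 2 * i) → V) : EEw G x (e + i) W * Psw G m e F i W ≤
      Psw G m e (fun c => F c * (EEw G x e c + 4 * i * D ^ 2)) i W := psw_ml hx hD F hF i hm W

end Pool.Agent.CycSh
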