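import Pool.Agent.W_1bfdb5sh_h41.FcW
import Pool.Agent.W_1bfdb5sh_h41.EeW
import Pool.Agent.W_1bfdb5sh_h41.PwB

/-!
# The upper bound for the weighted number of reductions

Compare `W_1bfdb5fd_h19/PsB.lean`.
-/

namespace Pool.Agent.CycSh

open Finset Pool.Agent.CycGT Pool.Agent.CycFD
open scoped Classical

variable {V : Type} [Fintype V] {G : SimpleGraph V} {x : V → ℝ} {m : ℕ} [NeZero m]

section

variable {e : ℕ}

lemma psw_sc (hx : ∀ v, 0 ≤ x v) (F : (ZMod m → V) → ℝ)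
    (hF : ∀ c, 0 ≤ F c) (hR : ∀ c p, F (rot c p) = F c) (i : ℕ) (hm : 2 * (e + i) + 10 ≤ m) :
    ∑ W ∈ clos G (m + 2 * (i + 1)), wP x W * Psw G m e F (i + 1) W ≤
      (((m : ℝ) + 2 * i + 2) / (m + 2 * i)) *
        ∑ W ∈ clos G (m + 2 * i), wP x W * (EEw G x (e + i) W * Psw G m e F i W) := by
  have hr0 : (0 : ℝ) < (m : ℝ) + 2 * i := by
    have : (0 : ℝ) < m := by exact_mod_cast (by omega : 0 < m)
    positivity
  show ∑ W ∈ clos G (m + 2 * i + 2), wP x W * Psw G m e F (i + 1) W ≤ _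
  have h1 : ∑ W ∈ clos G (m + 2 * i + 2), wP x W * Psw G m e F (i + 1) W =
      ∑ p : ZMod (m + 2 * i + 2), ∑ W ∈ clos G (m + 2 * i + 2),
        (fun W : ZMod (m + 2 * i + 2) → V => if FCe G (e + i) W 0 then
          wP x W * Psw G m e F i (cut 2 W) else 0) (rot W p) := by
    rw [sum_comm]
    refine sum_congr rfl fun W _ => ?_
    rw [psw_succ_def, mul_sum]
    refine sum_congr rfl fun p _ => ?_
    beta_reduce
    simp only [FCe_rot, add_zero, wP_rot, mul_ite, mul_zero]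
  have h2 : ∑ p : ZMod (m + 2 * i + 2), ∑ W ∈ clos G (m + 2 * i + 2),
        (fun W : ZMod (m + 2 * i + 2) → V => if FCe G (e + i) W 0 then
          wP x W * Psw G m e F i (cut 2 W) else 0) (rot W p) =
      ((m : ℝ) + 2 * i + 2) * ∑ W ∈ (clos G (m + 2 * i + 2)).filter (fun W => FCe G (e + i) W 0),
        wP x W * Psw G m e F i (cut 2 W) := by
    rw [sum_congr rfl fun p _ => rot_sum (G := G) (fun W : ZMod (m + 2 * i + 2) → V =>
      if FCe G (e + i) W 0 then wP x W * Psw G m e F i (cut 2 W) else 0) p, sum_const,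
      Finset.card_univ, ZMod.card, nsmul_eq_mul, sum_filter]
    push_cast
    ring
  rw [h1, h2]
  have h3 := fc_cut_sum (G := G) (x := x) (e := e + i) (r := m + 2 * i) (by omega) hx
    (Psw G m e F i) (psw_nn (G := G) F hF i)
  have h4 := rot_avg (G := G) (r := m + 2 * i)
    (fun W => wP x W * (Psw G m e F i W * eew G x (e + i) W 0))
  have h5 : ∑ W ∈ clos G (m + 2 * i), ∑ p,
      (fun W => wP x W * (Psw G m e F i W * eew G x (e + i) W 0)) (rot W p) =
      ∑ W ∈ clos G (m + 2 * i), wP x W * (EEw G x (e + i) W * Psw G m e F i W) := by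
    refine sum_congr rfl fun W _ => ?_
    unfold EEw
    rw [sum_mul, mul_sum]
    refine sum_congr rfl fun p _ => ?_
    beta_reduce
    rw [psw_rt F hR, eew_rot, add_zero, wP_rot, mul_comm (eew G x (e + i) W p)]
  rw [h5] at h4
  have h6 : ∑ W ∈ clos G (m + 2 * i), wP x W * (Psw G m e F i W * eew G x (e + i) W 0) =
      (∑ W ∈ clos G (m + 2 * i), wP x W * (EEw G x (e + i) W * Psw G m e F i W)) /
        ((m : ℝ) + 2 * i) := by
    rw [eq_div_iff hr0.ne', ← h4]
    push_cast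
    ring
  calc _ ≤ ((m : ℝ) + 2 * i + 2) *
        ∑ W ∈ clos G (m + 2 * i), wP x W * (Psw G m e F i W * eew G x (e + i) W 0) :=
        mul_le_mul_of_nonneg_left h3 (by positivity)
    _ = _ := by
        rw [h6]
        ring

lemma psw_tt (hx : ∀ v, 0 ≤ x v) {D : ℝ} (hD : ∀ v, dg G x v ≤ D) (i : ℕ)
    (hm : 2 * (e + i) + 10 ≤ m) :
    ∀ (F : (ZMod m → V) → ℝ), (∀ c, 0 ≤ F c) → (∀ c p, F (rot c p) = F c) →
    ∑ W ∈ clos G (m + 2 * i), wP x W * Psw G m e F i W ≤
      (((m : ℝ) + 2 * i) / m) *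
        ∑ c ∈ clos G m, wP x c * (F c * (EEw G x e c + 4 * i * D ^ 2) ^ i) := by
  have hm0 : (0 : ℝ) < m := by exact_mod_cast (by omega : 0 < m)
  have hE0 : ∀ c : ZMod m → V, 0 ≤ EEw G x e c :=
    fun c => sum_nonneg fun _ _ => eew_nonneg hx _ _ _
  induction i with
  | zero =>
    intro F _ _
    refine le_of_eq ?_
    show ∑ W ∈ clos G m, wP x W * F W = _
    rw [Nat.cast_zero, mul_zero, add_zero, div_self hm0.ne', one_mul]
    refine sum_congr rfl fun c _ => ?_
    rw [pow_zero, mul_one]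
  | succ i ih =>
    intro F hF hR
    have h1 := psw_sc (G := G) (e := e) hx F hF hR i (by omega)
    have h2 : ∑ W ∈ clos G (m + 2 * i), wP x W * (EEw G x (e + i) W * Psw G m e F i W) ≤
        ∑ W ∈ clos G (m + 2 * i), wP x W *
          Psw G m e (fun c => F c * (EEw G x e c + 4 * i * D ^ 2)) i W :=
      sum_le_sum fun W _ => mul_le_mul_of_nonneg_left (psw_ml hx hD F hF i (by omega) W)
        (wP_nonneg hx W)
    have h3 := ih (by omega) (fun c => F c * (EEw G x e c + 4 * i * D ^ 2))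
      (fun c => mul_nonneg (hF c) (add_nonneg (hE0 c) (by positivity)))
      (fun c p => by rw [hR, EEw_rot])
    have hr0 : (0 : ℝ) < (m : ℝ) + 2 * i := by positivity
    have h4 : ∑ c ∈ clos G m, wP x c * ((F c * (EEw G x e c + 4 * i * D ^ 2)) *
          (EEw G x e c + 4 * i * D ^ 2) ^ i) ≤
        ∑ c ∈ clos G m, wP x c *
          (F c * (EEw G x e c + 4 * ((i + 1 : ℕ) : ℝ) * D ^ 2) ^ (i + 1)) := by
      refine sum_le_sum fun c _ => ?_
      refine mul_le_mul_of_nonneg_left ?_ (wP_nonneg hx c)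
      rw [mul_assoc, ← pow_succ']
      refine mul_le_mul_of_nonneg_left ?_ (hF c)
      refine pow_le_pow_left₀ (add_nonneg (hE0 c) (by positivity)) ?_ _
      have : (0 : ℝ) ≤ D ^ 2 := by positivity
      push_cast
      linarith
    calc _ ≤ _ := h1
      _ ≤ (((m : ℝ) + 2 * i + 2) / (m + 2 * i)) * ((((m : ℝ) + 2 * i) / m) *
          ∑ c ∈ clos G m, wP x c *
            (F c * (EEw G x e c + 4 * ((i + 1 : ℕ) : ℝ) * D ^ 2) ^ (i + 1))) := by
          refine mul_le_mul_of_nonneg_left ?_ (by positivity)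
          refine h2.trans (h3.trans ?_)
          exact mul_le_mul_of_nonneg_left h4 (by positivity)
      _ = _ := by
          push_cast
          field_simp
          ring

end

theorem psw_succ (e i : ℕ) (hm : 2 * (e + i) + 10 ≤ m) (hx : ∀ v, 0 ≤ x v)
    (F : (ZMod m → V) → ℝ) (hF : ∀ c, 0 ≤ F c) (hR : ∀ c p, F (rot c p) = F c) :
    ∑ W ∈ clos G (m + 2 * (i + 1)), wP x W * Psw G m e F (i + 1) W ≤
      (((m : ℝ) + 2 * i + 2) / (m + 2 * i)) *
        ∑ W ∈ clos G (m + 2 * i), wP x W * (EEw G x (e + i) W * Psw G m e F i W) :=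
  psw_sc hx F hF hR i hm

theorem psw_total (e i : ℕ) (hm : 2 * (e + i) + 10 ≤ m) (hx : ∀ v, 0 ≤ x v) {D : ℝ}
    (hD : ∀ v, dg G x v ≤ D) : ∀ (F : (ZMod m → V) → ℝ), (∀ c, 0 ≤ F c) →
    (∀ c p, F (rot c p) = F c) →
    ∑ W ∈ clos G (m + 2 * i), wP x W * Psw G m e F i W ≤
      (((m : ℝ) + 2 * i) / m) *
        ∑ c ∈ clos G m, wP x c * (F c * (EEw G x e c + 4 * i * D ^ 2) ^ i) :=
  psw_tt hx hD i hm

end Pool.Agent.CycSh
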