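import Pool.Agent.W_1bfdb5sh_h41.NiB
import Pool.Agent.W_1bfdb5sh_h41.PsW

/-!
# The lower bound for the number of reductions

Compare `W_1bfdb5fd_h19/PsC.lean`.
-/

namespace Pool.Agent.CycSh

open Finset Pool.Agent.CycGT Pool.Agent.CycFD
open scoped Classical

variable {V : Type} [Fintype V] {G : SimpleGraph V} {m : ℕ} [NeZero m]

private lemma nka_aux (e i : ℕ) (hm : 2 * (e + i) + 20 ≤ m) : ∀ W : ZMod (m + 2 * i) → V,
    W ∈ clos G (m + 2 * i) → ∀ J : Finset (ZMod (m + 2 * i)), #J = i → Nice G W J →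
    (i.factorial : ℝ) ≤ Psw G m e (fun c => if c ∈ AI G m then 1 else 0) i W := by
  induction i with
  | zero =>
    intro W hW J hJ h
    rw [card_eq_zero] at hJ
    subst hJ
    show ((0 : ℕ).factorial : ℝ) ≤ if W ∈ AI G m then 1 else 0
    have h1 : W ∈ AI G m := nice_zero hW h
    rw [if_pos h1, Nat.factorial_zero, Nat.cast_one]
  | succ s ih =>
    have key : ∀ W : ZMod (m + 2 * s + 2) → V, W ∈ clos G (m + 2 * s + 2) →
        ∀ J : Finset (ZMod (m + 2 * s + 2)), #J = s + 1 → Nice G W J →
        ((s + 1).factorial : ℝ) ≤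
          Psw G m e (fun c => if c ∈ AI G m then 1 else 0) (s + 1) W := by
      intro W hW J hJ h
      rw [psw_succ_def]
      have h1 : ∀ p : ZMod (m + 2 * s + 2), 0 ≤ (if FCe G (e + s) W p then
          Psw G m e (fun c => if c ∈ AI G m then (1 : ℝ) else 0) s (cut 2 (rot W p)) else 0) := by
        intro p
        split_ifs
        · exact psw_nonneg _ _ (fun c => by split_ifs <;> norm_num) _ _
        · exact le_rfl
      refine le_trans ?_ (sum_le_sum_of_subset_of_nonneg (subset_univ J) fun p _ _ => h1 p)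
      have h2 : ∀ p ∈ J, (s.factorial : ℝ) ≤ (if FCe G (e + s) W p then
          Psw G m e (fun c => if c ∈ AI G m then (1 : ℝ) else 0) s (cut 2 (rot W p)) else 0) := by
        intro p hp
        have hfc : FCe G (e + s) W p := nice_fc (by omega) h hp
        rw [if_pos hfc]
        obtain ⟨J', hJ', hN⟩ := nice_cut (r := m + 2 * s) (by omega) h hp
        refine ih (by omega) _ ?_ J' (by omega) hN
        rw [mem_clos]
        refine cut_cl (r := m + 2 * s) (by omega) (mem_clos.1 (rot_mem hW p)) ?_
        have h3 := hfc.1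
        show G.Adj (W (p + 0)) (W (p + ((2 + 1 : ℕ) : ZMod (m + 2 * s + 2))))
        have e1 : p + ((2 + 1 : ℕ) : ZMod (m + 2 * s + 2)) = p + 3 := by
          push_cast
          ring
        rw [e1, add_zero]
        exact h3
      calc ((s + 1).factorial : ℝ) = ∑ _p ∈ J, (s.factorial : ℝ) := by
            rw [sum_const, hJ, nsmul_eq_mul, Nat.factorial_succ]
            push_cast
            ring
        _ ≤ _ := sum_le_sum h2
    exact key

theorem nice_lower (e i : ℕ) (hm : 2 * (e + i) + 20 ≤ m) (W : ZMod (m + 2 * i) → V)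
    (hW : W ∈ clos G (m + 2 * i)) {J : Finset (ZMod (m + 2 * i))} (hJ : #J = i)
    (h : Nice G W J) :
    (i.factorial : ℝ) ≤ Psw G m e (fun c => if c ∈ AI G m then 1 else 0) i W :=
  nka_aux e i hm W hW J hJ h

end Pool.Agent.CycSh
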