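import Pool.Agent.W_1bfdb5sh_h41.NiB
import Pool.Agent.W_1bfdb5sh_h41.PsW
import Pool.Agent.W_1bfdb5sh_h41.NkA

/-!
# The lower bound for the number of reductions

Compare `W_1bfdb5fd_h19/PsC.lean`.
-/

namespace Pool.Agent.CycSh

open Finset Pool.Agent.CycGT Pool.Agent.CycFD
open scoped Classical

variable {V : Type} [Fintype V] {G : SimpleGraph V} {m : ℕ} [NeZero m]

/-- The set of the chordless closed walks is rotation invariant. -/
theorem AI_rot {r : ℕ} [NeZero r] (c : ZMod r → V) (p : ZMod r) :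
    rot c p ∈ AI G r ↔ c ∈ AI G r := by
  have h1 : ∀ (c : ZMod r → V) (p : ZMod r), c ∈ AI G r → rot c p ∈ AI G r := by
    intro c p h
    rw [mem_AI] at h ⊢
    refine ⟨mem_clos.1 (rot_mem (mem_clos.2 h.1) p), fun a b hab => ?_⟩
    rcases h.2 (p + a) (p + b) hab with e | e
    · exact Or.inl (by linear_combination e)
    · exact Or.inr (by linear_combination e)
  refine ⟨fun h => ?_, h1 c p⟩
  have h2 := h1 _ (-p) h
  rw [psb_rot_rot] at h2
  have e : rot c (p + -p) = c := by
    funext i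
    unfold rot
    congr 1
    ring
  rwa [e] at h2

/-- Nice closed walks with `i` clusters. -/
theorem nice_sum (e i : ℕ) (hm : 2 * (e + i) + 20 ≤ m) {x : V → ℝ} (hx : ∀ v, 0 ≤ x v) {D : ℝ}
    (hD : ∀ v, dg G x v ≤ D) :
    (i.factorial : ℝ) * ∑ W ∈ (clos G (m + 2 * i)).filter (fun W => ∃ J, #J = i ∧ Nice G W J),
      wP x W ≤ (((m : ℝ) + 2 * i) / m) *
        ∑ c ∈ AI G m, wP x c * (EEw G x e c + 4 * i * D ^ 2) ^ i := by
  have h1 := psw_total (G := G) (m := m) e i (by omega) hx hD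
    (fun c => if c ∈ AI G m then (1 : ℝ) else 0) (fun c => by split_ifs <;> norm_num)
    (fun c p => by simp only [AI_rot])
  have h2 : (i.factorial : ℝ) * ∑ W ∈ (clos G (m + 2 * i)).filter
      (fun W => ∃ J, #J = i ∧ Nice G W J), wP x W ≤
      ∑ W ∈ clos G (m + 2 * i), wP x W *
        Psw G m e (fun c => if c ∈ AI G m then (1 : ℝ) else 0) i W := by
    rw [mul_sum]
    refine (sum_le_sum fun W hW => ?_).trans
      (sum_le_sum_of_subset_of_nonneg (filter_subset _ _) fun W _ _ =>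
        mul_nonneg (wP_nonneg hx W) (psw_nonneg _ _ (fun c => by split_ifs <;> norm_num) _ _))
    obtain ⟨hW1, J, hJ, hN⟩ := mem_filter.1 hW
    rw [mul_comm]
    exact mul_le_mul_of_nonneg_left (nice_lower e i hm W hW1 hJ hN) (wP_nonneg hx W)
  refine (h2.trans h1).trans (le_of_eq ?_)
  congr 1
  have h3 : AI G m = (clos G m).filter (fun c => c ∈ AI G m) := by
    ext c
    rw [mem_filter]
    refine ⟨fun h => ⟨mem_clos.2 (mem_AI.1 h).1, h⟩, fun h => h.2⟩
  conv_rhs => rw [h3, sum_filter]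
  refine sum_congr rfl fun c _ => ?_
  split_ifs
  · rw [one_mul]
  · rw [zero_mul, mul_zero]

end Pool.Agent.CycSh
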