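import Pool.Agent.W_1bfdb5sh_h41.NiA
import Pool.Agent.W_1bfdb5sh_h41.NiC

/-!
# Decomposition of the weighted count
-/

namespace Pool.Agent.CycSh

open Finset Pool.Agent.CycGT Pool.Agent.CycFD
open scoped Classical

variable {V : Type} [Fintype V] {G : SimpleGraph V} {x : V → ℝ}

private noncomputable def Dec_N (G : SimpleGraph V) (x : V → ℝ) (s r : ℕ) [NeZero r] : ℝ :=
  ∑ W ∈ (clos G r).filter (fun W => ∃ J, #J = s ∧ Nice G W J), wP x W

private lemma Dec_tr (s : ℕ) {r r' : ℕ} [h1 : NeZero r] [h2 : NeZero r'] (h : r = r') :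
    Dec_N G x s r = Dec_N G x s r' := by
  subst h
  rfl

private lemma Dec_nice {m j s : ℕ} [NeZero m] (hm : 10 * j + 40 ≤ m) (hs : s ≤ j)
    (hx : ∀ v, 0 ≤ x v) {D : ℝ} (hD : ∀ v, dg G x v ≤ D) :
    Dec_N G x s (m + 2 * j) ≤
      1 / (s.factorial : ℝ) * (((m : ℝ) + 2 * j) / (m + 2 * (j - s : ℕ))) *
        ∑ k ∈ AI G (m + 2 * (j - s)), wP x k * (EEw G x (j - s) k + 4 * s * D ^ 2) ^ s := by
  have h1 := nice_sum (G := G) (m := m + 2 * (j - s)) (j - s) s (by omega) hx hD
  have h2 : Dec_N G x s (m + 2 * j) = Dec_N G x s (m + 2 * (j - s) + 2 * s) :=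
    Dec_tr s (by omega)
  rw [h2]
  have hf : (0 : ℝ) < (s.factorial : ℝ) := by exact_mod_cast s.factorial_pos
  have h3 : (((m + 2 * (j - s) : ℕ) : ℝ) + 2 * s) / ((m + 2 * (j - s) : ℕ) : ℝ) =
      ((m : ℝ) + 2 * j) / (m + 2 * (j - s : ℕ)) := by
    have h4 : (((j - s : ℕ) : ℝ)) = (j : ℝ) - s := by rw [Nat.cast_sub hs]
    push_cast [h4]
    congr 1
    ring
  rw [h3] at h1
  change (s.factorial : ℝ) * Dec_N G x s (m + 2 * (j - s) + 2 * s) ≤ _ at h1
  rw [mul_assoc (1 / (s.factorial : ℝ)), one_div, ← div_eq_inv_mul, le_div_iff₀ hf]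
  linarith

theorem dec {m j : ℕ} [NeZero m] (hm : 10 * j + 40 ≤ m) (ho : Odd m) (hG : OddFree G m)
    (hx : ∀ v, 0 ≤ x v) {D : ℝ} (hD0 : 0 ≤ D) (hD : ∀ v, dg G x v ≤ D) :
    Fw G (m + 2 * j) x ≤
      ∑ l ∈ Icc 2 j, ((m : ℝ) + 2 * j) * (D ^ (2 * l) * Fw G (m + 2 * (j - l)) x) +
      3 * ((m : ℝ) + 2 * j) * (D ^ 4 * (if 2 ≤ j then Fw G (m + 2 * (j - 2)) x else 0)) +
      ∑ s ∈ range (j + 1), 1 / (s.factorial : ℝ) * (((m : ℝ) + 2 * j) / (m + 2 * (j - s : ℕ))) *
        ∑ k ∈ AI G (m + 2 * (j - s)), wP x k * (EEw G x (j - s) k + 4 * s * D ^ 2) ^ s := by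
  have hw : ∀ W : ZMod (m + 2 * j) → V, 0 ≤ wP x W := fun W => prod_nonneg fun p _ => hx _
  -- the union bound
  have hU : Fw G (m + 2 * j) x ≤
      ∑ W ∈ (clos G (m + 2 * j)).filter (fun W => LongC G j W), wP x W +
      ∑ W ∈ (clos G (m + 2 * j)).filter (fun W => CloseC G W), wP x W +
      ∑ s ∈ range (j + 1), Dec_N G x s (m + 2 * j) := by
    unfold Fw Dec_N
    simp only [sum_filter]
    rw [sum_comm, ← sum_add_distrib, ← sum_add_distrib]
    refine sum_le_sum fun W hW => ?_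
    have h3 : 0 ≤ ∑ s ∈ range (j + 1), (if ∃ J, #J = s ∧ Nice G W J then wP x W else 0) := by
      refine sum_nonneg fun s _ => ?_
      split_ifs
      · exact hw W
      · exact le_rfl
    have h1 : 0 ≤ (if LongC G j W then wP x W else 0) := by
      split_ifs
      · exact hw W
      · exact le_rfl
    have h2 : 0 ≤ (if CloseC G W then wP x W else 0) := by
      split_ifs
      · exact hw W
      · exact le_rfl
    rcases nice_or (by omega) ho hG hW with h | h | ⟨J, hJ, h⟩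
    · rw [if_pos h]
      linarith
    · rw [if_pos h]
      linarith
    · have h4 : wP x W ≤ ∑ s ∈ range (j + 1), (if ∃ J, #J = s ∧ Nice G W J then wP x W else 0) := by
        have h5 : (if ∃ J', #J' = #J ∧ Nice G W J' then wP x W else 0) ≤
            ∑ s ∈ range (j + 1), (if ∃ J, #J = s ∧ Nice G W J then wP x W else 0) := by
          refine single_le_sum (f := fun s => if ∃ J, #J = s ∧ Nice G W J then wP x W else 0)
            ?_ (mem_range.2 (by omega))
          intro s _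
          split_ifs
          · exact hw W
          · exact le_rfl
        rw [if_pos ⟨J, rfl, h⟩] at h5
        exact h5
      linarith
  refine hU.trans ?_
  refine add_le_add (add_le_add ?_ ?_) ?_
  · exact sum_b (by omega) hx hD
  · rcases Nat.lt_or_ge j 2 with h | h
    · rw [if_neg (by omega), mul_zero, mul_zero]
      refine le_of_eq (sum_eq_zero fun W hW => ?_)
      rw [mem_filter] at hW
      exact absurd hW.2 (no_close (by omega) ho hG (by omega) hW.1)
    · obtain ⟨i, rfl⟩ : ∃ i, j = i + 2 := ⟨j - 2, by omega⟩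
      rw [if_pos h]
      have h1 := sum_b' (G := G) (m := m) (j := i) (by omega) hx hD
      have h2 : (((i + 2 : ℕ) : ℝ)) = (i : ℝ) + 2 := by push_cast; ring
      rw [h2]
      exact h1
  · exact sum_le_sum fun s hs => Dec_nice hm (by rw [mem_range] at hs; omega) hx hD

end Pool.Agent.CycSh
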