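import Pool.Agent.W_1bfdb5fd_h19.Df
import Pool.Agent.W_1bfdb5_h19.Arc

/-!
# The sharp threshold: definitions

Weighted graphs: `x : V → ℝ`.  `m` is odd, `M = m + 2 j`.  Closed walks of length `r` are functions
`ZMod r → V` (`clos G r`, `IsCl`).  See `W_1bfdb5_h19/Defs.lean` for `Wk`, `OddFree`, `clos`, `Nb`,
`rot`; `W_1bfdb5_h19/Arc.lean` for `arc`; `W_1bfdb5_h19/NegA.lean` for `CG`, `pats`;
`W_1bfdb5fd_h19/Df.lean` for `AI`, `FS`, `cut`, `Sep`, `AA`, `BB`, `nz2`.
-/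

namespace Pool.Agent.CycSh

open Finset Pool.Agent.CycGT Pool.Agent.CycFD
open scoped Classical

variable {V : Type} [Fintype V]

/-- Weight of a set of vertices. -/
noncomputable def wS (x : V → ℝ) (S : Finset V) : ℝ := ∑ w ∈ S, x w

/-- Weight of a closed walk. -/
noncomputable def wP {r : ℕ} [NeZero r] (x : V → ℝ) (W : ZMod r → V) : ℝ := ∏ p, x (W p)

/-- Weighted number of closed walks of length `r`. -/
noncomputable def Fw (G : SimpleGraph V) (r : ℕ) [NeZero r] (x : V → ℝ) : ℝ :=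
  ∑ W ∈ clos G r, wP x W

/-- Weighted number of closed walks with `W 0 = v`, without the weight of the position 0. -/
noncomputable def dw (G : SimpleGraph V) (r : ℕ) [NeZero r] (x : V → ℝ) (v : V) : ℝ :=
  ∑ W ∈ (clos G r).filter (fun W => W 0 = v), ∏ p ∈ univ.erase (0 : ZMod r), x (W p)

/-- Weighted degree. -/
noncomputable def dg (G : SimpleGraph V) (x : V → ℝ) (v : V) : ℝ := wS x (Nb G v)

/-- The matrix `[u ~ w] x w`. -/
noncomputable def Bm (G : SimpleGraph V) (x : V → ℝ) : Matrix V V ℝ :=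
  Matrix.of fun u w => if G.Adj u w then x w else 0

/-- Weight of the walks of `n` steps from `u` to `w`, without the weight of `u`. -/
noncomputable def Bn (G : SimpleGraph V) (x : V → ℝ) (n : ℕ) (u w : V) : ℝ := (Bm G x ^ n) u w

/-- Weights set to zero on `Z`. -/
noncomputable def off (x : V → ℝ) (Z : Finset V) : V → ℝ := fun w => if w ∈ Z then 0 else x w

/-- Weight of the walks of `n` steps (`1 ≤ n`) from `u` to `w` whose inner vertices are not in `Z`. -/
noncomputable def Qn (G : SimpleGraph V) (x : V → ℝ) (Z : Finset V) (n : ℕ) (u w : V) : ℝ :=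
  ∑ z, Bn G (off x Z) (n - 1) u z * (if G.Adj z w then x w else 0)

/-- Weight `s` added at `v`. -/
noncomputable def ad (x : V → ℝ) (v : V) (s : ℝ) : V → ℝ := fun w => x w + if w = v then s else 0

/-- The weights of the pair lemma: scaled on `Z`, one more at `v` and `w`. -/
noncomputable def yz (x : V → ℝ) (Z : Finset V) (v w : V) : V → ℝ :=
  ad (ad (fun u => if u ∈ Z then 2 / wS x Z * x u else x u) v 1) w 1

/-- Number of closed walks of length `m + 2 i` in `C_m`. -/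
noncomputable def Tn (m i : ℕ) : ℝ := 2 * m * ((m + 2 * i).choose i : ℝ)

/-- The weighted theorem for closed walks of length `m + 2 i`. -/
def Clm (m i : ℕ) : Prop := ∀ (_ : NeZero m) (V : Type) (_ : Fintype V) (G : SimpleGraph V),
  OddFree G m → ∀ x : V → ℝ, (∀ v, 0 ≤ x v) →
    Fw G (m + 2 * i) x ≤ Tn m i * ((∑ v, x v) / m) ^ (m + 2 * i)

/-- `x` is a positive maximiser violating the claim for `j`, the claim holds for `i < j`. -/
structure Mx (G : SimpleGraph V) (m j : ℕ) [NeZero m] (x : V → ℝ) : Prop where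
  ho : Odd m
  of : OddFree G m
  pos : ∀ v, 0 < x v
  sum : ∑ v, x v = m
  big : Tn m j < Fw G (m + 2 * j) x
  opt : ∀ y : V → ℝ, (∀ v, 0 ≤ y v) →
    Fw G (m + 2 * j) y ≤ Fw G (m + 2 * j) x * ((∑ v, y v) / m) ^ (m + 2 * j)
  deg : ∀ v, dw G (m + 2 * j) x v = Fw G (m + 2 * j) x / m
  cl : ∀ i, i < j → Clm m i

/-- The deficit of a closed walk (`∑ x = m`). -/
noncomputable def Xw (G : SimpleGraph V) (x : V → ℝ) (i : ℕ) {r : ℕ} [NeZero r]
    (k : ZMod r → V) : ℝ := -∑ t, Real.log (wS x (FS G i k t))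

/-- `∑ (a_t - 1 - log a_t)`, `a_t` the weight of the class `AA G c t` (`∑ x = r`). -/
noncomputable def Phw (G : SimpleGraph V) (x : V → ℝ) {r : ℕ} [NeZero r] (c : ZMod r → V) : ℝ :=
  -wS x (BB G c) - ∑ t, Real.log (wS x (AA G c t))

/-- The deficit of a shortest odd closed walk (`∑ x = r`). -/
noncomputable def Dw (G : SimpleGraph V) (x : V → ℝ) {r : ℕ} [NeZero r] (c : ZMod r → V) : ℝ :=
  ((r : ℝ) - 4) / (2 * r) * wS x (BB G c) + 2 / 5 * Phw G x c

/-- `p` is a chord of length 3, first in its cluster (window `e`). -/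
def FCe (G : SimpleGraph V) (e : ℕ) {r : ℕ} (W : ZMod r → V) (p : ZMod r) : Prop :=
  G.Adj (W p) (W (p + 3)) ∧ ∀ s ∈ Icc 1 (e + 1),
    ¬ G.Adj (W (p + 1)) (W (p - 2 * (s : ZMod r))) ∧
    ¬ G.Adj (W (p + 2)) (W (p + 1 - 2 * (s : ZMod r)))

/-- Weighted number of ways to insert a pair after position `s` (window `e`). -/
noncomputable def eew (G : SimpleGraph V) (x : V → ℝ) (e : ℕ) {r : ℕ} (W : ZMod r → V)
    (s : ZMod r) : ℝ :=
  ∑ y ∈ FS G e W s, ∑ z ∈ FS G e W (s + 1), if G.Adj y z then x y * x z else 0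

/-- All these insertions. -/
noncomputable def EEw (G : SimpleGraph V) (x : V → ℝ) (e : ℕ) {r : ℕ} [NeZero r]
    (W : ZMod r → V) : ℝ := ∑ s, eew G x e W s

/-- Number of ways to reduce `W` to a closed walk of length `m` by cutting first chords,
weighted by `F`; the windows are `e`, `e + 1`, ... -/
noncomputable def Psw (G : SimpleGraph V) (m e : ℕ) [NeZero m] (F : (ZMod m → V) → ℝ) :
    (i : ℕ) → (ZMod (m + 2 * i) → V) → ℝ
  | 0, W => F W
  | i + 1, W => ∑ p : ZMod (m + 2 * i + 2), if FCe G (e + i) W p then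
      Psw G m e F i (cut 2 (rot (M := m + 2 * i + 2) W p)) else 0

/-- All adjacencies are at distance 1 or 3, the chords of length 3 form clusters with the first
elements `J`. -/
structure Nice (G : SimpleGraph V) {r : ℕ} (W : ZMod r → V) (J : Finset (ZMod r)) : Prop where
  adj : ∀ p q, G.Adj (W p) (W q) → q = p + 1 ∨ q = p - 1 ∨ q = p + 3 ∨ q = p - 3
  sep : Sep 6 J
  ch : ∀ p ∈ J, G.Adj (W p) (W (p + 3))
  cov : ∀ p, G.Adj (W p) (W (p + 3)) → p ∈ J ∨ p - 1 ∈ J ∨ p - 2 ∈ J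

/-- `Λ`. -/
def Lb (G : SimpleGraph V) (x : V → ℝ) (L : ℝ) : Prop :=
  1 ≤ L ∧ ∀ u w, G.Adj u w → dg G x u * dg G x w ≤ L ^ 2

/-- A chord of length `2 l + 1`, `2 ≤ l ≤ j`. -/
def LongC (G : SimpleGraph V) (j : ℕ) {r : ℕ} (W : ZMod r → V) : Prop :=
  ∃ l ∈ Icc 2 j, ∃ p, G.Adj (W p) (W (p + ((2 * l + 1 : ℕ) : ZMod r)))

/-- Two chords of length 3 at distance 3, 4 or 5. -/
def CloseC (G : SimpleGraph V) {r : ℕ} (W : ZMod r → V) : Prop :=
  ∃ p, ∃ d ∈ Icc 3 5, G.Adj (W p) (W (p + 3)) ∧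
    G.Adj (W (p + ((d : ℕ) : ZMod r))) (W (p + ((d : ℕ) : ZMod r) + 3))

/-- Number of visits. -/
noncomputable def NV {r : ℕ} [NeZero r] (W : ZMod r → V) (v : V) : ℕ :=
  #(univ.filter (fun p => W p = v))

/-- The blow-up with `b v` copies of the vertex `v`. -/
def Gb (G : SimpleGraph V) (b : V → ℕ) : SimpleGraph (Σ v, Fin (b v)) := G.comap Sigma.fst

/-- The cycle `C_m`. -/
def Cy (m : ℕ) : SimpleGraph (ZMod m) := CG (id : ZMod m → ZMod m)

theorem wS_nonneg {x : V → ℝ} (hx : ∀ v, 0 ≤ x v) (S : Finset V) : 0 ≤ wS x S :=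
  sum_nonneg fun w _ => hx w

theorem wS_mono {x : V → ℝ} (hx : ∀ v, 0 ≤ x v) {S T : Finset V} (h : S ⊆ T) :
    wS x S ≤ wS x T := sum_le_sum_of_subset_of_nonneg h fun w _ _ => hx w

theorem wS_univ (x : V → ℝ) : wS x univ = ∑ v, x v := rfl

theorem Bm_apply (G : SimpleGraph V) (x : V → ℝ) (u w : V) :
    Bm G x u w = if G.Adj u w then x w else 0 := rfl

theorem Tn_nonneg (m i : ℕ) : 0 ≤ Tn m i := by unfold Tn; positivity

end Pool.Agent.CycSh
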