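import Pool.Agent.W_1bfdb5sh_h41.EeW
import Pool.Agent.W_1bfdb5fd_h19.Eb
import Pool.Agent.W_1bfdb5fd_h19.AiP

/-!
# The number of insertions and the deficit
-/

namespace Pool.Agent.CycSh

open Finset Pool.Agent.CycGT Pool.Agent.CycFD
open scoped Classical

variable {V : Type} [Fintype V] {G : SimpleGraph V} {x : V → ℝ} {m i r : ℕ} [NeZero r]

omit [Fintype V] [NeZero r] in
private lemma ewa_two (hr : r = m + 2 * i) (ho : Odd m) (hG : OddFree G m) {k : ZMod r → V}
    (hk : IsCl G r k) {w : V} {t t' : ZMod r} (h : G.Adj w (k t)) (h' : G.Adj w (k t')) :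
    ∃ s : ℕ, s ≤ i + 1 ∧ (t' = t + 2 * (s : ZMod r) ∨ t' = t - 2 * (s : ZMod r)) := by
  have hw : Wk G 2 (k t) (k t') := wk_two.2 ⟨w, h.symm, h'⟩
  obtain ⟨e, he, hp, hor⟩ := arc hr ho hG hk hw
  obtain ⟨s, rfl⟩ : ∃ s, e = 2 * s := ⟨e / 2, by omega⟩
  refine ⟨s, by omega, ?_⟩
  push_cast at hor
  exact hor

omit [NeZero r] in
private lemma ewa_uniq (hr : r = m + 2 * i) (ho : Odd m) (hG : OddFree G m) {k : ZMod r → V}
    (hk : IsCl G r k) {w : V} {t t' : ZMod r} (h : w ∈ FS G i k t) (h' : w ∈ FS G i k t') :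
    t = t' := by
  rw [mem_FS] at h h'
  obtain ⟨s, hs, hor⟩ := ewa_two hr ho hG hk h.1 h'.1
  rcases Nat.eq_zero_or_pos s with h0 | h0
  · subst h0
    rcases hor with e | e
    · rw [e]; simp
    · rw [e]; simp
  · exfalso
    have hmem : s ∈ Icc 1 (i + 1) := mem_Icc.2 ⟨h0, hs⟩
    rcases hor with e | e
    · have h1 := h'.2 s hmem
      have e2 : t' - 2 * (s : ZMod r) = t := by rw [e]; ring
      rw [e2] at h1
      exact h1 h.1
    · have h1 := h.2 s hmem
      rw [← e] at h1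
      exact h1 h'.1

/-- The sets `FS G i k t` are disjoint (compare `fs_uniq`, `fs_sum` in
`W_1bfdb5fd_h19/Fs.lean`). -/
theorem fs_wsum (hr : r = m + 2 * i) (ho : Odd m) (hG : OddFree G m) {k : ZMod r → V}
    (hk : IsCl G r k) (h6 : 6 * i + 6 < r) (hx : ∀ v, 0 ≤ x v) :
    ∑ t, wS x (FS G i k t) ≤ ∑ v, x v := by
  have _ := h6
  have hd : ∑ t, wS x (FS G i k t) =
      ∑ w ∈ (univ : Finset (ZMod r)).biUnion (fun t => FS G i k t), x w := by
    symm
    apply Finset.sum_biUnion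
    intro a _ b _ hab
    refine Finset.disjoint_left.2 ?_
    intro w ha hb
    exact hab (ewa_uniq hr ho hG hk ha hb)
  rw [hd]
  exact sum_le_sum_of_subset_of_nonneg (subset_univ _) fun w _ _ => hx w

end Pool.Agent.CycSh
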