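import Pool.Agent.W_1bfdb5sh_h41.EeW
import Pool.Agent.W_1bfdb5fd_h19.Eb
import Pool.Agent.W_1bfdb5fd_h19.AiP
import Pool.Agent.W_1bfdb5sh_h41.EwA

/-!
# The number of insertions and the deficit
-/

namespace Pool.Agent.CycSh

open Finset Pool.Agent.CycGT Pool.Agent.CycFD
open scoped Classical

variable {V : Type} [Fintype V] {G : SimpleGraph V} {x : V → ℝ} {m i r : ℕ} [NeZero r]

private lemma ewB_pos (h6 : 6 * i + 6 < r) (hx : ∀ v, 0 < x v) {k : ZMod r → V}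
    (hk : k ∈ AI G r) (t : ZMod r) : 0 < wS x (FS G i k t) :=
  sum_pos (fun v _ => hx v) (card_pos.1 (fs_pos h6 hk t))

private lemma ewB_sum (hr : r = m + 2 * i) (ho : Odd m) (hG : OddFree G m) (h6 : 6 * i + 6 < r)
    (hx : ∀ v, 0 < x v) (hs : ∑ v, x v = m) {k : ZMod r → V} (hk : k ∈ AI G r) :
    ∑ t, wS x (FS G i k t) ≤ m := by
  have hk' : IsCl G r k := by
    have h := hk
    unfold AI at h
    rw [mem_filter] at h
    have h' := h.1
    unfold clos at h'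
    exact (mem_filter.1 h').2
  rw [← hs]
  exact fs_wsum hr ho hG hk' h6 fun v => (hx v).le

theorem Xw_nonneg (hr : r = m + 2 * i) (ho : Odd m) (hG : OddFree G m) (h6 : 6 * i + 6 < r)
    (hx : ∀ v, 0 < x v) (hs : ∑ v, x v = m) {k : ZMod r → V} (hk : k ∈ AI G r) :
    0 ≤ Xw G x i k := by
  have h1 := ewB_sum hr ho hG h6 hx hs hk
  have h2 : (m : ℝ) ≤ r := by rw [hr]; exact_mod_cast Nat.le_add_right m (2 * i)
  have h3 : ∑ t, Real.log (wS x (FS G i k t)) ≤ ∑ t, (wS x (FS G i k t) - 1) :=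
    sum_le_sum fun t _ => Real.log_le_sub_one_of_pos (ewB_pos h6 hx hk t)
  rw [sum_sub_distrib, sum_const, card_univ, ZMod.card, nsmul_eq_mul, mul_one] at h3
  unfold Xw
  linarith

theorem EEw_le (hr : r = m + 2 * i) (ho : Odd m) (hG : OddFree G m) (h6 : 6 * i + 6 < r)
    (hx : ∀ v, 0 < x v) (hs : ∑ v, x v = m) {K : ℝ} (hK : 1 ≤ K) (hD : ∀ v, dg G x v ≤ K)
    {k : ZMod r → V} (hk : k ∈ AI G r) : EEw G x i k ≤ m + 2 * (1 + K) * Xw G x i k := by
  have h1 := ewB_sum hr ho hG h6 hx hs hk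
  have h2 : (m : ℝ) ≤ r := by rw [hr]; exact_mod_cast Nat.le_add_right m (2 * i)
  have hx' : ∀ v, 0 ≤ x v := fun v => (hx v).le
  have h3 : EEw G x i k ≤ ∑ t, wS x (FS G i k t) ^ 2 := by
    have e1 : EEw G x i k ≤ ∑ t, wS x (FS G i k t) * wS x (FS G i k (t + 1)) :=
      sum_le_sum fun t _ => eew_prod hx' i k t
    have e2 : ∑ t, wS x (FS G i k t) * wS x (FS G i k (t + 1)) ≤
        ∑ t, (wS x (FS G i k t) ^ 2 / 2 + wS x (FS G i k (t + 1)) ^ 2 / 2) :=
      sum_le_sum fun t _ => by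
        nlinarith [sq_nonneg (wS x (FS G i k t) - wS x (FS G i k (t + 1)))]
    have e3 : ∑ t, wS x (FS G i k (t + 1)) ^ 2 / 2 = ∑ t, wS x (FS G i k t) ^ 2 / 2 :=
      Fintype.sum_equiv (Equiv.addRight (1 : ZMod r)) _ _ fun t => rfl
    rw [sum_add_distrib, e3, ← sum_div] at e2
    linarith
  have h4 : ∑ t, (wS x (FS G i k t) - 1) ^ 2 ≤
      ∑ t, 2 * (1 + K) * (wS x (FS G i k t) - 1 - Real.log (wS x (FS G i k t))) :=
    sum_le_sum fun t _ => sq_le_phi hK (ewB_pos h6 hx hk t) (FS_dg hx' hD i k t)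
  have h5 : ∑ t, wS x (FS G i k t) ^ 2 = ∑ t, (wS x (FS G i k t) - 1) ^ 2 +
      2 * ∑ t, wS x (FS G i k t) - r := by
    have e : ∀ t : ZMod r, wS x (FS G i k t) ^ 2 = (wS x (FS G i k t) - 1) ^ 2 +
      2 * wS x (FS G i k t) - 1 := fun t => by ring
    rw [sum_congr rfl fun t _ => e t, sum_sub_distrib, sum_add_distrib, sum_const, card_univ,
      ZMod.card, nsmul_eq_mul, mul_one, mul_sum]
  have h6' : ∑ t, 2 * (1 + K) * (wS x (FS G i k t) - 1 - Real.log (wS x (FS G i k t))) =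
      2 * (1 + K) * (∑ t, wS x (FS G i k t) - r + Xw G x i k) := by
    rw [← mul_sum, sum_sub_distrib, sum_sub_distrib, sum_const, card_univ, ZMod.card,
      nsmul_eq_mul, mul_one]
    unfold Xw
    ring
  rw [h6'] at h4
  have h7 : 2 * (1 + K) * (∑ t, wS x (FS G i k t) - r + Xw G x i k) ≤
      2 * (1 + K) * Xw G x i k :=
    mul_le_mul_of_nonneg_left (by linarith) (by linarith)
  linarith

end Pool.Agent.CycSh
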