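import Mathlib

/-!
# The entropy inequality
-/

namespace Pool.Agent.CycSh

open Finset

/-- The sign of `1 - t - exp (-3 t)`. -/
theorem ent_sign {τ : ℝ} (h0 : 0 < τ) (h1 : τ < 1) (hτ : 1 - τ = Real.exp (-3 * τ)) {t : ℝ}
    (ht0 : 0 < t) (ht1 : t < 1) : (t ≤ τ → Real.exp (-3 * t) ≤ 1 - t) ∧
      (τ ≤ t → 1 - t ≤ Real.exp (-3 * t)) := by
  have hc := convexOn_exp.2
  constructor
  · intro h
    have hq0 : 0 ≤ t / τ := by positivity
    have hq1 : t / τ ≤ 1 := (div_le_one h0).2 h
    have h2 := hc (Set.mem_univ 0) (Set.mem_univ (-3 * τ)) (a := 1 - t / τ) (b := t / τ)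
      (by linarith) hq0 (by ring)
    simp only [smul_eq_mul, mul_zero, zero_add, Real.exp_zero, mul_one] at h2
    rw [← hτ] at h2
    have h3 : t / τ * (-3 * τ) = -3 * t := by field_simp
    have h4 : t / τ * (1 - τ) = t / τ - t := by field_simp
    rw [h3, h4] at h2
    linarith
  · intro h
    have hq0 : 0 ≤ τ / t := by positivity
    have hq1 : τ / t ≤ 1 := (div_le_one ht0).2 h
    have h2 := hc (Set.mem_univ 0) (Set.mem_univ (-3 * t)) (a := 1 - τ / t) (b := τ / t)
      (by linarith) hq0 (by ring)
    simp only [smul_eq_mul, mul_zero, zero_add, Real.exp_zero, mul_one] at h2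
    have h3 : τ / t * (-3 * t) = -3 * τ := by field_simp
    rw [h3, ← hτ] at h2
    have h5 : τ / t * (1 - Real.exp (-3 * t)) ≤ τ / t * t := by
      have h6 : τ / t * t = τ := by field_simp
      rw [h6]; linarith
    have h7 : 0 < τ / t := by positivity
    have := le_of_mul_le_mul_left h5 h7
    linarith

private noncomputable def EnA_f (c t : ℝ) : ℝ :=
  2 * Real.log t - (1 / t - 1) * Real.log (1 - t) - c

private lemma EnA_deriv (c : ℝ) {t : ℝ} (ht0 : 0 < t) (ht1 : t < 1) :
    HasDerivAt (EnA_f c) ((3 * t + Real.log (1 - t)) / t ^ 2) t := by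
  have h1 : HasDerivAt (fun t : ℝ => 2 * Real.log t) (2 * t⁻¹) t :=
    (Real.hasDerivAt_log ht0.ne').const_mul 2
  have h2 : HasDerivAt (fun t : ℝ => 1 - t) (-1) t := by
    simpa using (hasDerivAt_id t).const_sub 1
  have h3 : HasDerivAt (fun t : ℝ => Real.log (1 - t)) (-1 / (1 - t)) t :=
    h2.log (by linarith)
  have h4 : HasDerivAt (fun t : ℝ => 1 / t - 1) (-(t ^ 2)⁻¹) t := by
    have := (hasDerivAt_inv ht0.ne').sub_const 1
    simpa [one_div] using this
  have h5 := (h1.sub (h4.mul h3)).sub_const c
  refine (h5.congr_deriv ?_).congr_of_eventuallyEq ?_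
  · have h6 : 1 - t ≠ 0 := by linarith
    field_simp
    ring
  · exact Filter.Eventually.of_forall fun s => rfl

theorem ent_f {τ : ℝ} (h0 : 0 < τ) (h1 : τ < 1) (hτ : 1 - τ = Real.exp (-3 * τ)) {t : ℝ}
    (ht0 : 0 < t) (ht1 : t < 1) :
    2 * (t * Real.log t) - (1 - t) * Real.log (1 - t) ≤
      t * (3 + Real.log (τ ^ 2 * (1 - τ))) := by
  have hlog : Real.log (1 - τ) = -3 * τ := by rw [hτ, Real.log_exp]
  have hlog2 : Real.log (τ ^ 2 * (1 - τ)) = 2 * Real.log τ - 3 * τ := by
    rw [Real.log_mul (by positivity) (by linarith), Real.log_pow, hlog]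
    push_cast
    ring
  obtain ⟨c, hc⟩ : ∃ c, c = 3 + Real.log (τ ^ 2 * (1 - τ)) := ⟨_, rfl⟩
  have hfτ : EnA_f c τ = 0 := by
    unfold EnA_f
    rw [hc, hlog2, hlog]
    field_simp
    ring
  have hft : EnA_f c t ≤ 0 := by
    rcases le_total t τ with h | h
    · have hmono : MonotoneOn (EnA_f c) (Set.Icc t τ) := by
        apply monotoneOn_of_deriv_nonneg (convex_Icc t τ)
        · intro s hs
          exact (EnA_deriv c (by linarith [hs.1]) (by linarith [hs.2])).continuousAt.continuousWithinAt
        · intro s hs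
          rw [interior_Icc] at hs
          exact (EnA_deriv c (by linarith [hs.1]) (by linarith [hs.2])).differentiableAt.differentiableWithinAt
        · intro s hs
          rw [interior_Icc] at hs
          have hs0 : 0 < s := by linarith [hs.1]
          have hs1 : s < 1 := by linarith [hs.2]
          rw [(EnA_deriv c hs0 hs1).deriv]
          have h3 := (ent_sign h0 h1 hτ hs0 hs1).1 hs.2.le
          have h4 : -3 * s ≤ Real.log (1 - s) := by
            rw [Real.le_log_iff_exp_le (by linarith)]
            exact h3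
          apply div_nonneg _ (by positivity)
          linarith
      rw [← hfτ]
      exact hmono ⟨le_rfl, h⟩ ⟨h, le_rfl⟩ h
    · have hanti : AntitoneOn (EnA_f c) (Set.Icc τ t) := by
        apply antitoneOn_of_deriv_nonpos (convex_Icc τ t)
        · intro s hs
          exact (EnA_deriv c (by linarith [hs.1]) (by linarith [hs.2])).continuousAt.continuousWithinAt
        · intro s hs
          rw [interior_Icc] at hs
          exact (EnA_deriv c (by linarith [hs.1]) (by linarith [hs.2])).differentiableAt.differentiableWithinAt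
        · intro s hs
          rw [interior_Icc] at hs
          have hs0 : 0 < s := by linarith [hs.1]
          have hs1 : s < 1 := by linarith [hs.2]
          rw [(EnA_deriv c hs0 hs1).deriv]
          have h3 := (ent_sign h0 h1 hτ hs0 hs1).2 hs.1.le
          have h4 : Real.log (1 - s) ≤ -3 * s := by
            rw [Real.log_le_iff_le_exp (by linarith)]
            exact h3
          apply div_nonpos_of_nonpos_of_nonneg _ (by positivity)
          linarith
      rw [← hfτ]
      exact hanti ⟨le_rfl, h⟩ ⟨h, le_rfl⟩ h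
  rw [← hc]
  have h5 : t * EnA_f c t ≤ 0 := mul_nonpos_of_nonneg_of_nonpos ht0.le hft
  have h6 : t * EnA_f c t = 2 * (t * Real.log t) - (1 - t) * Real.log (1 - t) - t * c := by
    unfold EnA_f
    field_simp
  linarith

end Pool.Agent.CycSh
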