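import Mathlib
import Pool.Agent.W_1bfdb5sh_h41.EnA

/-!
# The entropy inequality
-/

namespace Pool.Agent.CycSh

open Finset

theorem fact_le (l : ℕ) (hl : 1 ≤ l) :
    (l.factorial : ℝ) ≤ Real.exp 1 * l * ((l : ℝ) / Real.exp 1) ^ l := by
  induction l, hl using Nat.le_induction with
  | base =>
    have he : Real.exp 1 ≠ 0 := (Real.exp_pos 1).ne'
    simp only [Nat.factorial_one, Nat.cast_one, pow_one, mul_one]
    rw [mul_one_div, div_self he]
  | succ l hl ih =>
    have he : 0 < Real.exp 1 := Real.exp_pos 1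
    have hl0 : (0 : ℝ) < l := by exact_mod_cast hl
    have hl1 : (0 : ℝ) < (l : ℝ) + 1 := by linarith
    -- (l/(l+1))^(l+1) <= exp (-1)
    have h1 : ((l : ℝ) / (l + 1)) ^ (l + 1) ≤ Real.exp (-1) := by
      have h2 : (l : ℝ) / (l + 1) ≤ Real.exp (-(1 / ((l : ℝ) + 1))) := by
        have h3 := Real.add_one_le_exp (-(1 / ((l : ℝ) + 1)))
        have h4 : (l : ℝ) / (l + 1) = -(1 / ((l : ℝ) + 1)) + 1 := by
          field_simp
          ring
        rw [h4]
        exact h3
      calc ((l : ℝ) / (l + 1)) ^ (l + 1) ≤ (Real.exp (-(1 / ((l : ℝ) + 1)))) ^ (l + 1) :=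
            pow_le_pow_left₀ (div_nonneg hl0.le hl1.le) h2 _
        _ = Real.exp (-1) := by
            rw [← Real.exp_nat_mul]
            congr 1
            push_cast
            field_simp
    have h5 : (l : ℝ) * ((l : ℝ) / Real.exp 1) ^ l ≤ (((l : ℝ) + 1) / Real.exp 1) ^ (l + 1) := by
      have h6 : (l : ℝ) ^ (l + 1) * Real.exp 1 ≤ ((l : ℝ) + 1) ^ (l + 1) := by
        rw [div_pow, div_le_iff₀ (pow_pos hl1 _), Real.exp_neg, ← div_eq_inv_mul,
          le_div_iff₀ he] at h1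
        exact h1
      rw [div_pow, div_pow, mul_div_assoc', div_le_div_iff₀ (pow_pos he _) (pow_pos he _)]
      calc (l : ℝ) * (l : ℝ) ^ l * Real.exp 1 ^ (l + 1)
          = ((l : ℝ) ^ (l + 1) * Real.exp 1) * Real.exp 1 ^ l := by ring
        _ ≤ ((l : ℝ) + 1) ^ (l + 1) * Real.exp 1 ^ l :=
            mul_le_mul_of_nonneg_right h6 (pow_nonneg he.le _)
    rw [Nat.factorial_succ]
    push_cast
    calc ((l : ℝ) + 1) * (l.factorial : ℝ)
        ≤ ((l : ℝ) + 1) * (Real.exp 1 * l * ((l : ℝ) / Real.exp 1) ^ l) :=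
          mul_le_mul_of_nonneg_left ih hl1.le
      _ = Real.exp 1 * ((l : ℝ) + 1) * ((l : ℝ) * ((l : ℝ) / Real.exp 1) ^ l) := by ring
      _ ≤ Real.exp 1 * ((l : ℝ) + 1) * (((l : ℝ) + 1) / Real.exp 1) ^ (l + 1) :=
          mul_le_mul_of_nonneg_left h5 (mul_nonneg he.le hl1.le)

private theorem EnB_f {τ : ℝ} (h0 : 0 < τ) (h1 : τ < 1) (hτ : 1 - τ = Real.exp (-3 * τ)) {t : ℝ}
    (ht0 : 0 < t) (ht1 : t ≤ 1) :
    2 * (t * Real.log t) - (1 - t) * Real.log (1 - t) ≤
      t * (3 + Real.log (τ ^ 2 * (1 - τ))) := by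
  rcases lt_or_eq_of_le ht1 with h | rfl
  · exact ent_f h0 h1 hτ ht0 h
  · have hc1 : Continuous (fun t : ℝ => 2 * (t * Real.log t) - (1 - t) * Real.log (1 - t)) := by
      have h2 := Real.continuous_mul_log
      exact (continuous_const.mul h2).sub (h2.comp (continuous_const.sub continuous_id))
    have hc2 : Continuous (fun t : ℝ => t * (3 + Real.log (τ ^ 2 * (1 - τ)))) :=
      continuous_id.mul continuous_const
    have hcl : IsClosed {t : ℝ | 2 * (t * Real.log t) - (1 - t) * Real.log (1 - t) ≤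
        t * (3 + Real.log (τ ^ 2 * (1 - τ)))} := isClosed_le hc1 hc2
    have hsub : Set.Ioo (0 : ℝ) 1 ⊆ {t : ℝ | 2 * (t * Real.log t) - (1 - t) * Real.log (1 - t) ≤
        t * (3 + Real.log (τ ^ 2 * (1 - τ)))} := fun t ht => ent_f h0 h1 hτ ht.1 ht.2
    have h3 := closure_minimal hsub hcl
    rw [closure_Ioo (zero_ne_one)] at h3
    exact h3 ⟨zero_le_one, le_rfl⟩

/-- The entropy inequality. -/
theorem ent {τ : ℝ} (h0 : 0 < τ) (h1 : τ < 1) (hτ : 1 - τ = Real.exp (-3 * τ)) {l j : ℕ}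
    (hl : l ≤ j) :
    (l : ℝ) ^ (2 * l) * Real.exp (-(2 * l)) * (j.descFactorial l : ℝ) ≤
      Real.exp 1 * (l + 1) * ((j : ℝ) ^ 3 * (τ ^ 2 * (1 - τ))) ^ l := by
  rcases Nat.eq_zero_or_pos l with rfl | hl1
  · simp only [Nat.cast_zero, mul_zero, pow_zero, neg_zero, Real.exp_zero, Nat.descFactorial_zero,
      Nat.cast_one, mul_one, zero_add]
    exact Real.one_le_exp zero_le_one
  have hj1 : 1 ≤ j := hl1.trans_le hl |>.le |> fun h => by omega
  have hl0 : (0 : ℝ) < l := by exact_mod_cast hl1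
  have hj0 : (0 : ℝ) < j := by exact_mod_cast (by omega : 0 < j)
  have he : 0 < Real.exp 1 := Real.exp_pos 1
  set c : ℝ := τ ^ 2 * (1 - τ) with hc
  have hc0 : 0 < c := by
    rw [hc]
    exact mul_pos (pow_pos h0 2) (by linarith)
  set t : ℝ := (l : ℝ) / j with ht
  have ht0 : 0 < t := div_pos hl0 hj0
  have ht1 : t ≤ 1 := by
    rw [ht, div_le_one hj0]
    exact_mod_cast hl
  have htj : t * j = l := by
    rw [ht]
    field_simp
  -- binomial term
  have hbin : (j.choose l : ℝ) * (t ^ l * (1 - t) ^ (j - l)) ≤ 1 := by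
    have h4 : ∑ m ∈ range (j + 1), t ^ m * (1 - t) ^ (j - m) * (j.choose m : ℝ) = 1 := by
      rw [← add_pow, add_sub_cancel, one_pow]
    have h3 := Finset.single_le_sum (f := fun m => t ^ m * (1 - t) ^ (j - m) * (j.choose m : ℝ))
      (s := range (j + 1)) (fun i _ => by
        have : 0 ≤ 1 - t := by linarith
        positivity) (mem_range.2 (by omega : l < j + 1))
    rw [h4] at h3
    refine le_trans (le_of_eq ?_) h3
    ring
  -- the key estimate
  have hkey : t ^ (2 * l) * Real.exp (-(3 * l)) ≤ c ^ l * (1 - t) ^ (j - l) := by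
    have h2 := EnB_f h0 h1 hτ ht0 ht1
    have h3 : (j : ℝ) * (2 * (t * Real.log t) - (1 - t) * Real.log (1 - t)) ≤
        (j : ℝ) * (t * (3 + Real.log c)) := mul_le_mul_of_nonneg_left h2 hj0.le
    have e1 : (j : ℝ) * (t * (3 + Real.log c)) = 3 * l + l * Real.log c := by
      rw [← htj]; ring
    have hjl : ((j - l : ℕ) : ℝ) = (1 - t) * j := by
      rw [Nat.cast_sub hl, ← htj]
      ring
    have e2 : (j : ℝ) * (2 * (t * Real.log t) - (1 - t) * Real.log (1 - t)) =
        2 * l * Real.log t - ((j - l : ℕ) : ℝ) * Real.log (1 - t) := by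
      rw [hjl, ← htj]; ring
    rw [e1, e2] at h3
    have e3 : t ^ (2 * l) = Real.exp (2 * l * Real.log t) := by
      have : (2 * (l : ℝ)) * Real.log t = ((2 * l : ℕ) : ℝ) * Real.log t := by push_cast; ring
      rw [this, Real.exp_nat_mul, Real.exp_log ht0]
    have e4 : c ^ l = Real.exp (l * Real.log c) := by
      rw [Real.exp_nat_mul, Real.exp_log hc0]
    have e5 : (1 - t) ^ (j - l) = Real.exp (((j - l : ℕ) : ℝ) * Real.log (1 - t)) := by
      rcases lt_or_eq_of_le ht1 with h | h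
      · rw [Real.exp_nat_mul, Real.exp_log (by linarith)]
      · have h7 : j - l = 0 := by
          rw [h, one_mul] at htj
          have : j = l := by exact_mod_cast htj
          omega
        rw [h7]
        simp
    rw [e3, e4, e5, ← Real.exp_add, ← Real.exp_add]
    refine Real.exp_le_exp.2 ?_
    linarith
  have hdf : (j.descFactorial l : ℝ) = (l.factorial : ℝ) * (j.choose l : ℝ) := by
    rw [Nat.descFactorial_eq_factorial_mul_choose]
    push_cast
    ring
  have hf := fact_le l hl1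
  have hch : (0 : ℝ) ≤ (j.choose l : ℝ) := Nat.cast_nonneg _
  have e6 : Real.exp (-(2 * l)) * ((l : ℝ) / Real.exp 1) ^ l = (l : ℝ) ^ l * Real.exp (-(3 * l)) := by
    rw [div_pow, ← Real.exp_nat_mul, mul_one, div_eq_mul_inv, ← Real.exp_neg]
    rw [mul_comm, mul_assoc, ← Real.exp_add]
    congr 2
    ring
  calc (l : ℝ) ^ (2 * l) * Real.exp (-(2 * l)) * (j.descFactorial l : ℝ)
      = ((l : ℝ) ^ (2 * l) * Real.exp (-(2 * l)) * (j.choose l : ℝ)) * (l.factorial : ℝ) := by
        rw [hdf]; ring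
    _ ≤ ((l : ℝ) ^ (2 * l) * Real.exp (-(2 * l)) * (j.choose l : ℝ)) *
        (Real.exp 1 * l * ((l : ℝ) / Real.exp 1) ^ l) :=
        mul_le_mul_of_nonneg_left hf (by positivity)
    _ = Real.exp 1 * l * ((l : ℝ) ^ (2 * l) * (Real.exp (-(2 * l)) *
        ((l : ℝ) / Real.exp 1) ^ l) * (j.choose l : ℝ)) := by ring
    _ = Real.exp 1 * l * ((j : ℝ) ^ (3 * l) * (t ^ (2 * l) * Real.exp (-(3 * l))) *
        (t ^ l * (j.choose l : ℝ))) := by
        rw [e6]
        have e7 : (l : ℝ) ^ (2 * l) * (l : ℝ) ^ l = (j : ℝ) ^ (3 * l) * (t ^ (2 * l) * t ^ l) := by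
          rw [← pow_add, ← pow_add]
          have : 2 * l + l = 3 * l := by ring
          rw [this, ← mul_pow, mul_comm (j : ℝ) t, htj]
        calc Real.exp 1 * l * ((l : ℝ) ^ (2 * l) * ((l : ℝ) ^ l * Real.exp (-(3 * l))) *
              (j.choose l : ℝ))
            = Real.exp 1 * l * (((l : ℝ) ^ (2 * l) * (l : ℝ) ^ l) * Real.exp (-(3 * l)) *
              (j.choose l : ℝ)) := by ring
          _ = _ := by rw [e7]; ring
    _ ≤ Real.exp 1 * l * ((j : ℝ) ^ (3 * l) * (c ^ l * (1 - t) ^ (j - l)) *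
        (t ^ l * (j.choose l : ℝ))) := by
        refine mul_le_mul_of_nonneg_left ?_ (by positivity)
        refine mul_le_mul_of_nonneg_right ?_ (by positivity)
        exact mul_le_mul_of_nonneg_left hkey (by positivity)
    _ = Real.exp 1 * l * ((j : ℝ) ^ (3 * l) * c ^ l) *
        ((j.choose l : ℝ) * (t ^ l * (1 - t) ^ (j - l))) := by ring
    _ ≤ Real.exp 1 * l * ((j : ℝ) ^ (3 * l) * c ^ l) * 1 :=
        mul_le_mul_of_nonneg_left hbin (by positivity)
    _ ≤ Real.exp 1 * (l + 1) * ((j : ℝ) ^ (3 * l) * c ^ l) := by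
        rw [mul_one]
        refine mul_le_mul_of_nonneg_right ?_ (by positivity)
        exact mul_le_mul_of_nonneg_left (by linarith) he.le
    _ = Real.exp 1 * (l + 1) * ((j : ℝ) ^ 3 * c) ^ l := by
        have e8 : ((j : ℝ) ^ 3 * c) ^ l = (j : ℝ) ^ (3 * l) * c ^ l := by
          rw [mul_pow, ← pow_mul]
        rw [e8]

theorem pow_exp_le {y : ℝ} (hy : 0 ≤ y) (l : ℕ) :
    y ^ (2 * l) * Real.exp (-(2 * y)) ≤ (l : ℝ) ^ (2 * l) * Real.exp (-(2 * l)) := by
  rcases Nat.eq_zero_or_pos l with rfl | hl1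
  · simp only [mul_zero, pow_zero, Nat.cast_zero, neg_zero, Real.exp_zero, one_mul]
    refine Real.exp_le_one_iff.2 ?_
    linarith
  have hl0 : (0 : ℝ) < l := by exact_mod_cast hl1
  have h1 : y / l ≤ Real.exp (y / l - 1) := by
    have := Real.add_one_le_exp (y / l - 1)
    linarith
  have h2 : (y / l) ^ (2 * l) ≤ Real.exp (2 * y - 2 * l) := by
    calc (y / l) ^ (2 * l) ≤ (Real.exp (y / l - 1)) ^ (2 * l) :=
          pow_le_pow_left₀ (div_nonneg hy hl0.le) h1 _
      _ = Real.exp (2 * y - 2 * l) := by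
          rw [← Real.exp_nat_mul]
          congr 1
          push_cast
          field_simp
  rw [div_pow, div_le_iff₀ (pow_pos hl0 _)] at h2
  calc y ^ (2 * l) * Real.exp (-(2 * y))
      ≤ (Real.exp (2 * y - 2 * l) * (l : ℝ) ^ (2 * l)) * Real.exp (-(2 * y)) :=
        mul_le_mul_of_nonneg_right h2 (Real.exp_pos _).le
    _ = (l : ℝ) ^ (2 * l) * (Real.exp (2 * y - 2 * l) * Real.exp (-(2 * y))) := by ring
    _ = (l : ℝ) ^ (2 * l) * Real.exp (-(2 * l)) := by
        rw [← Real.exp_add]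
        congr 2
        ring

end Pool.Agent.CycSh
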