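import Pool.Agent.W_1bfdb5sh_h41.Cyc

/-!
# A lower bound for the walks in a weighted cycle

Induction on `n` (Pascal).
-/

namespace Pool.Agent.CycSh

open Finset Pool.Agent.CycGT Pool.Agent.CycFD
open scoped Classical

private theorem fa_step {m : ℕ} [NeZero m] (hm : 3 ≤ m) {ν : ZMod m → ℝ} (hν : ∀ t, 1 ≤ ν t)
    (n : ℕ) (a t : ZMod m) : (Bn (Cy m) ν n a (t - 1) + Bn (Cy m) ν n a (t + 1)) * ν t ≤
      Bn (Cy m) ν (n + 1) a t := by
  have h0 : ∀ t, 0 ≤ ν t := fun t => by linarith [hν t]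
  have hne : t - 1 ≠ t + 1 := by
    intro h
    have h2 : ((2 : ℕ) : ZMod m) = 0 := by
      have : (t + 1) - (t - 1) = 0 := by rw [h, sub_self]
      rw [← this]
      push_cast
      ring
    rw [ZMod.natCast_eq_zero_iff] at h2
    have := Nat.le_of_dvd (by norm_num) h2
    omega
  have h1 : (Cy m).Adj (t - 1) t := (Cy_adj hm _ _).2 (Or.inl (by ring))
  have h2 : (Cy m).Adj (t + 1) t := (Cy_adj hm _ _).2 (Or.inr rfl)
  rw [Bn_succ']
  calc (Bn (Cy m) ν n a (t - 1) + Bn (Cy m) ν n a (t + 1)) * ν t =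
      ∑ z ∈ ({t - 1, t + 1} : Finset (ZMod m)),
        Bn (Cy m) ν n a z * (if (Cy m).Adj z t then ν t else 0) := by
        rw [Finset.sum_pair hne, if_pos h1, if_pos h2]
        ring
    _ ≤ ∑ z, Bn (Cy m) ν n a z * (if (Cy m).Adj z t then ν t else 0) := by
        refine Finset.sum_le_sum_of_subset_of_nonneg (Finset.subset_univ _) fun z _ _ => ?_
        refine mul_nonneg (Bn_nonneg h0 n a z) ?_
        split_ifs
        · exact h0 t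
        · exact le_rfl

private theorem fa_pascal {m : ℕ} [NeZero m] {ν : ZMod m → ℝ} (hν : ∀ t, 1 ≤ ν t)
    (n : ℕ) (a : ZMod m)
    (H : ∀ k : ℕ, (n.choose k : ℝ) ≤
      Bn (Cy m) ν n a (a + (((n : ℤ) - 2 * (k : ℤ) : ℤ) : ZMod m))) (k : ℕ) :
    ((n + 1).choose k : ℝ) ≤
      Bn (Cy m) ν n a (a + ((((n + 1 : ℕ) : ℤ) - 2 * (k : ℤ) : ℤ) : ZMod m) - 1) +
      Bn (Cy m) ν n a (a + ((((n + 1 : ℕ) : ℤ) - 2 * (k : ℤ) : ℤ) : ZMod m) + 1) := by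
  have h0 : ∀ t, 0 ≤ ν t := fun t => by linarith [hν t]
  have e1 : a + ((((n + 1 : ℕ) : ℤ) - 2 * (k : ℤ) : ℤ) : ZMod m) - 1 =
      a + (((n : ℤ) - 2 * (k : ℤ) : ℤ) : ZMod m) := by
    push_cast
    ring
  rw [e1]
  cases k with
  | zero =>
    have h1 := H 0
    have h2 : 0 ≤ Bn (Cy m) ν n a (a + ((((n + 1 : ℕ) : ℤ) - 2 * ((0 : ℕ) : ℤ) : ℤ) : ZMod m) + 1) :=
      Bn_nonneg h0 n _ _
    rw [Nat.choose_zero_right] at h1 ⊢
    linarith
  | succ k =>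
    have h1 := H k
    have h2 := H (k + 1)
    have e2 : a + ((((n + 1 : ℕ) : ℤ) - 2 * ((k + 1 : ℕ) : ℤ) : ℤ) : ZMod m) + 1 =
        a + (((n : ℤ) - 2 * (k : ℤ) : ℤ) : ZMod m) := by
      push_cast
      ring
    rw [e2, Nat.choose_succ_succ]
    push_cast at h1 h2 ⊢
    linarith

theorem Bn_lower {m : ℕ} [NeZero m] (hm : 3 ≤ m) {ν : ZMod m → ℝ} (hν : ∀ t, 1 ≤ ν t) (n k : ℕ)
    (a : ZMod m) : (n.choose k : ℝ) ≤
      Bn (Cy m) ν n a (a + (((n : ℤ) - 2 * (k : ℤ) : ℤ) : ZMod m)) := by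
  have h0 : ∀ t, 0 ≤ ν t := fun t => by linarith [hν t]
  induction n generalizing k with
  | zero =>
    cases k with
    | zero => simp [Bn_zero]
    | succ k =>
      rw [Nat.choose_zero_succ, Nat.cast_zero]
      exact Bn_nonneg h0 _ _ _
  | succ n ih =>
    have h1 := fa_pascal hν n a ih k
    have h2 := fa_step hm hν n a (a + ((((n + 1 : ℕ) : ℤ) - 2 * (k : ℤ) : ℤ) : ZMod m))
    refine le_trans ?_ h2
    refine h1.trans ?_
    refine le_mul_of_one_le_right ?_ (hν _)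
    exact add_nonneg (Bn_nonneg h0 _ _ _) (Bn_nonneg h0 _ _ _)

theorem Bn_lower' {m : ℕ} [NeZero m] (hm : 3 ≤ m) {ν : ZMod m → ℝ} (hν : ∀ t, 1 ≤ ν t) {n : ℕ}
    (hn : 1 ≤ n) (k : ℕ) (a : ZMod m) :
    (n.choose k : ℝ) * ν (a + (((n : ℤ) - 2 * (k : ℤ) : ℤ) : ZMod m)) ≤
      Bn (Cy m) ν n a (a + (((n : ℤ) - 2 * (k : ℤ) : ℤ) : ZMod m)) := by
  have h0 : ∀ t, 0 ≤ ν t := fun t => by linarith [hν t]
  obtain ⟨n, rfl⟩ : ∃ n', n = n' + 1 := ⟨n - 1, by omega⟩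
  have h1 := fa_pascal hν n a (fun k => Bn_lower hm hν n k a) k
  have h2 := fa_step hm hν n a (a + ((((n + 1 : ℕ) : ℤ) - 2 * (k : ℤ) : ℤ) : ZMod m))
  exact (mul_le_mul_of_nonneg_right h1 (h0 _)).trans h2

end Pool.Agent.CycSh
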