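import Pool.Agent.W_1bfdb5sh_h41.Pl
import Pool.Agent.W_1bfdb5fd_h19.Cut

/-!
# Inserting a pair, weighted

Compare `W_1bfdb5fd_h19/CutB.lean`.
-/

namespace Pool.Agent.CycSh

open Finset Pool.Agent.CycGT Pool.Agent.CycFD
open scoped Classical

variable {V : Type} [Fintype V] {G : SimpleGraph V} {x : V → ℝ}

omit [Fintype V] in
/-- The weight of a walk and of the walk without the positions 1 and 2. -/
theorem fcw_wP {r : ℕ} [NeZero r] (x : V → ℝ) (W : ZMod (r + 2) → V) :
    wP x W = wP x (cut 2 W : ZMod r → V) * (x (W 1) * x (W 2)) := by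
  obtain ⟨s, rfl⟩ : ∃ s, r = s + 1 := ⟨r - 1, by have := NeZero.ne r; omega⟩
  unfold wP
  have h1 : ∏ p : ZMod (s + 1 + 2), x (W p) =
      x (W 0) * (x (W 1) * (x (W 2) * ∏ i : Fin s, x (W ((i.val + 3 : ℕ) : ZMod (s + 1 + 2))))) := by
    have e : ∀ f : Fin (s + 3) → ℝ, ∏ p, f p = f 0 * (f 1 * (f 2 * ∏ i : Fin s, f i.succ.succ.succ)) := by
      intro f
      rw [Fin.prod_univ_succ, Fin.prod_univ_succ, Fin.prod_univ_succ]
      rfl
    rw [show (∏ p : ZMod (s + 1 + 2), x (W p)) = ∏ p : Fin (s + 3), x (W p) from rfl, e]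
    have e2 : ∀ i : Fin s, x (W (i.succ.succ.succ : Fin (s + 3))) =
        x (W ((i.val + 3 : ℕ) : ZMod (s + 1 + 2))) := by
      intro i
      have : ((i.val + 3 : ℕ) : ZMod (s + 1 + 2)) = (i.succ.succ.succ : Fin (s + 3)) := by
        apply Fin.ext
        have hv : ((i.val + 3 : ℕ) : ZMod (s + 1 + 2)).val = i.val + 3 :=
          ZMod.val_cast_of_lt (by omega)
        have hi : (i.succ.succ.succ : Fin (s + 3)).val = i.val + 3 := by simp
        rw [hi]
        exact hv
      rw [this]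
    rw [prod_congr rfl fun i _ => e2 i]
    rfl
  have h2 : ∏ p : ZMod (s + 1), x ((cut 2 W : ZMod (s + 1) → V) p) =
      x (W 0) * ∏ i : Fin s, x (W ((i.val + 3 : ℕ) : ZMod (s + 1 + 2))) := by
    rw [show (∏ p : ZMod (s + 1), x ((cut 2 W : ZMod (s + 1) → V) p)) =
      ∏ p : Fin (s + 1), x ((cut 2 W : ZMod (s + 1) → V) p) from rfl, Fin.prod_univ_succ]
    have c0 : (cut 2 W : ZMod (s + 1) → V) (0 : Fin (s + 1)) = W 0 := by
      unfold cut
      exact if_pos rfl
    have ci : ∀ i : Fin s, (cut 2 W : ZMod (s + 1) → V) (i.succ : Fin (s + 1)) =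
        W ((i.val + 3 : ℕ) : ZMod (s + 1 + 2)) := by
      intro i
      have key : ∀ q : ZMod (s + 1), q ≠ 0 → (cut 2 W : ZMod (s + 1) → V) q =
          W ((q.val + 2 : ℕ) : ZMod (s + 1 + 2)) := by
        intro q hq
        unfold cut
        rw [if_neg hq]
      have hne : ((i.succ : Fin (s + 1)) : ZMod (s + 1)) ≠ 0 := by
        intro h
        have : (i.succ : Fin (s + 1)).val = 0 := congrArg (fun z : Fin (s + 1) => z.val) h
        simp at this
      refine (key i.succ hne).trans ?_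
      have hv : (i.succ : Fin (s + 1)).val = i.val + 1 := by simp
      exact congrArg (fun t : ℕ => W ((t + 2 : ℕ) : ZMod (s + 1 + 2))) hv
    rw [c0, prod_congr rfl fun i _ => by rw [ci i]]
  rw [h1, h2]
  ring

theorem fc_cut_sum {e r : ℕ} [NeZero r] (hr : 2 * e + 6 ≤ r) (hx : ∀ v, 0 ≤ x v)
    (g : (ZMod r → V) → ℝ) (hg : ∀ W, 0 ≤ g W) :
    ∑ W ∈ (clos G (r + 2)).filter (fun W => FCe G e W 0), wP x W * g (cut 2 W) ≤
      ∑ W ∈ clos G r, wP x W * (g W * eew G x e W 0) := by
  have hcl : ∀ W ∈ (clos G (r + 2)).filter (fun W => FCe G e W 0), cut 2 W ∈ clos G r := by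
    intro W hW
    rw [mem_filter, mem_clos] at hW
    rw [mem_clos]
    refine cut_cl (by omega) hW.1 ?_
    have h := hW.2.1
    have e : ((2 + 1 : ℕ) : ZMod (r + 2)) = 0 + 3 := by push_cast; ring
    rw [e]
    exact h
  rw [← sum_fiberwise_of_maps_to hcl]
  refine sum_le_sum fun W' _ => ?_
  have h1 : ∑ W ∈ ((clos G (r + 2)).filter (fun W => FCe G e W 0)).filter (fun W => cut 2 W = W'),
      wP x W * g (cut 2 W) = (wP x W' * g W') * ∑ W ∈ ((clos G (r + 2)).filter
        (fun W => FCe G e W 0)).filter (fun W => cut 2 W = W'), x (W 1) * x (W 2) := by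
    rw [mul_sum]
    refine sum_congr rfl fun W hW => ?_
    rw [fcw_wP, (mem_filter.1 hW).2]
    ring
  rw [h1, ← mul_assoc]
  refine mul_le_mul_of_nonneg_left ?_ (mul_nonneg (wP_nonneg hx _) (hg _))
  have h0 : ∀ W : ZMod (r + 2) → V, cut 2 W (0 : ZMod r) = W 0 := by
    intro W
    unfold cut
    rw [if_pos rfl]
  -- values of the cut walk at the positions `- t`, `0 < t < r`
  have hcut : ∀ (W : ZMod (r + 2) → V) (t : ℕ), 0 < t → t < r →
      cut 2 W (-(t : ZMod r)) = W (-(t : ZMod (r + 2))) := by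
    intro W t ht htr
    have hv : (-(t : ZMod r)).val = r - t := by
      have : (-(t : ZMod r)) = ((r - t : ℕ) : ZMod r) := by
        rw [Nat.cast_sub htr.le, ZMod.natCast_self]
        ring
      rw [this]
      exact ZMod.val_cast_of_lt (by omega)
    have hne : ¬ (-(t : ZMod r)) = 0 := by
      intro h
      rw [h, ZMod.val_zero] at hv
      omega
    unfold cut
    rw [if_neg hne, hv]
    congr 1
    rw [show r - t + 2 = r + 2 - t by omega, Nat.cast_sub (by omega), ZMod.natCast_self]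
    ring
  have hval1 : (1 : ZMod r).val = 1 := by
    have : Fact (1 < r) := ⟨by omega⟩
    exact ZMod.val_one r
  have hone : (0 + 1 : ZMod r) ≠ 0 := by
    rw [zero_add]
    intro h
    rw [h, ZMod.val_zero] at hval1
    exact absurd hval1 (by norm_num)
  have hcut1 : ∀ W : ZMod (r + 2) → V, cut 2 W (0 + 1 : ZMod r) = W 3 := by
    intro W
    unfold cut
    rw [if_neg hone, zero_add, hval1]
    norm_num
  have heew : eew G x e W' 0 = ∑ z ∈ ((FS G e W' 0) ×ˢ (FS G e W' (0 + 1))).filter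
      (fun z => G.Adj z.1 z.2), x z.1 * x z.2 := by
    unfold eew
    rw [sum_filter, sum_product]
  rw [heew]
  have hinj : Set.InjOn (fun W : ZMod (r + 2) → V => (W 1, W 2))
      (((clos G (r + 2)).filter (fun W => FCe G e W 0)).filter (fun W => cut 2 W = W')) := by
    intro W hW X hX h
    rw [mem_coe, mem_filter] at hW hX
    have h1 : W 1 = X 1 := congrArg Prod.fst h
    have h2 : W 2 = X 2 := congrArg Prod.snd h
    have hc : cut 2 W = cut 2 X := hW.2.trans hX.2.symm
    funext p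
    have hp : ((p.val : ℕ) : ZMod (r + 2)) = p := ZMod.natCast_zmod_val p
    have hpl : p.val < r + 2 := ZMod.val_lt p
    rcases Nat.lt_or_ge p.val 3 with h3 | h3
    · interval_cases hv : p.val
      · have := congrFun hc 0
        rw [h0, h0] at this
        rw [← hp]
        simpa using this
      · rw [← hp]
        simpa using h1
      · rw [← hp]
        simpa using h2
    · have := congrFun hc ((p.val - 2 : ℕ) : ZMod r)
      have hv : ((p.val - 2 : ℕ) : ZMod r).val = p.val - 2 :=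
        ZMod.val_cast_of_lt (by omega)
      have hne : ((p.val - 2 : ℕ) : ZMod r) ≠ 0 := by
        intro h
        rw [h, ZMod.val_zero] at hv
        omega
      unfold cut at this
      rw [if_neg hne, if_neg hne, hv, show p.val - 2 + 2 = p.val by omega, hp] at this
      exact this
  rw [show (∑ W ∈ ((clos G (r + 2)).filter (fun W => FCe G e W 0)).filter (fun W => cut 2 W = W'),
      x (W 1) * x (W 2)) = ∑ z ∈ (((clos G (r + 2)).filter (fun W => FCe G e W 0)).filter
        (fun W => cut 2 W = W')).image (fun W => (W 1, W 2)), x z.1 * x z.2 from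
    (sum_image (f := fun z : V × V => x z.1 * x z.2) hinj).symm]
  refine sum_le_sum_of_subset_of_nonneg ?_ fun z _ _ => mul_nonneg (hx _) (hx _)
  intro z hz
  rw [mem_image] at hz
  obtain ⟨W, hW, rfl⟩ := hz
  rw [mem_filter, mem_filter, mem_clos] at hW
  obtain ⟨⟨hc, hf1, hf2⟩, hW'⟩ := hW
  rw [mem_filter, mem_product]
  dsimp only
  refine ⟨⟨mem_FS.2 ⟨?_, ?_⟩, mem_FS.2 ⟨?_, ?_⟩⟩, ?_⟩
  · rw [← hW', h0]
    have := hc 0
    rw [zero_add] at this
    exact this.symm
  · intro s hs
    rw [mem_Icc] at hs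
    have h := (hf2 s (mem_Icc.2 hs)).1
    have e1 : (0 : ZMod r) - 2 * (s : ZMod r) = -((2 * s : ℕ) : ZMod r) := by push_cast; ring
    have e2 : (0 : ZMod (r + 2)) - 2 * (s : ZMod (r + 2)) = -((2 * s : ℕ) : ZMod (r + 2)) := by
      push_cast; ring
    rw [e1, ← hW', hcut W (2 * s) (by omega) (by omega)]
    rw [e2, zero_add] at h
    exact h
  · rw [← hW', hcut1]
    have := hc 2
    rwa [show (2 + 1 : ZMod (r + 2)) = 3 by ring] at this
  · intro s hs
    rw [mem_Icc] at hs
    have h := (hf2 s (mem_Icc.2 hs)).2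
    have e1 : (0 + 1 : ZMod r) - 2 * (s : ZMod r) = -((2 * s - 1 : ℕ) : ZMod r) := by
      rw [Nat.cast_sub (by omega)]; push_cast; ring
    have e2 : (0 + 1 : ZMod (r + 2)) - 2 * (s : ZMod (r + 2)) =
        -((2 * s - 1 : ℕ) : ZMod (r + 2)) := by
      rw [Nat.cast_sub (by omega)]; push_cast; ring
    rw [e1, ← hW', hcut W (2 * s - 1) (by omega) (by omega)]
    rw [e2, zero_add] at h
    exact h
  · have := hc 1
    rwa [show (1 + 1 : ZMod (r + 2)) = 2 by ring] at this

end Pool.Agent.CycSh
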