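import Pool.Agent.W_1bfdb5_h19.NegA2
import Pool.Agent.W_1bfdb5sh_h41.FaA
import Pool.Agent.W_1bfdb5sh_h41.Tr

/-!
# Closed walks in the blow-up of the cycle with two large adjacent classes

`HG m s = CG (cl m s)` on `Fin (m + 2 s)` (NegA2.lean): `s + 1` vertices in the classes 0, 1, one in
every other class.  `#clos` is `Fw (Cy m) M ν`, `ν t` the class sizes (`cls_clos`, `Cy_clos`), and
`Fw ≥ Bn M 0 0 ≥ Bn (2 s + 1) 0 1 * Bn (m - 1 + 2 (j - s)) 1 0`,
`Bn (2 s + 1) 0 1 ≥ (s + 1)^(2 s + 1)` (back and forth), `Bn (m - 1 + 2 (j - s)) 1 0 ≥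
(s + 1) * choose` by `Bn_lower'`.
-/

namespace Pool.Agent.CycSh

open Finset Pool.Agent.CycGT
open scoped Classical

/-- the class sizes -/
private noncomputable def FlA_nu (m s : ℕ) (t : ZMod m) : ℝ :=
  (#((univ : Finset (Fin (m + 2 * s))).filter (fun x => cl m s x = t)) : ℝ)

private lemma FlA_one (m s : ℕ) [NeZero m] (hm : 5 ≤ m) (t : ZMod m) : 1 ≤ FlA_nu m s t := by
  have hv := ZMod.val_lt t
  unfold FlA_nu
  have : 1 ≤ #((univ : Finset (Fin (m + 2 * s))).filter (fun x => cl m s x = t)) := by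
    rw [Nat.one_le_iff_ne_zero, Finset.card_ne_zero]
    by_cases h : t.val < 2
    · refine ⟨⟨t.val, by omega⟩, ?_⟩
      rw [mem_filter]
      refine ⟨mem_univ _, ?_⟩
      unfold cl
      have h1 : t.val < 2 * s + 2 := by omega
      have h2 : t.val % 2 = t.val := by omega
      simp only [h1, if_true, h2, ZMod.natCast_zmod_val]
    · refine ⟨⟨t.val + 2 * s, by omega⟩, ?_⟩
      rw [mem_filter]
      refine ⟨mem_univ _, ?_⟩
      unfold cl
      have h1 : ¬ t.val + 2 * s < 2 * s + 2 := by omega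
      have h2 : t.val + 2 * s - 2 * s = t.val := by omega
      simp only [h1, if_false, h2, ZMod.natCast_zmod_val]
  exact_mod_cast this

private lemma FlA_big (m s : ℕ) [NeZero m] (hm : 5 ≤ m) (c : ℕ) (hc : c < 2) :
    (s : ℝ) + 1 ≤ FlA_nu m s (c : ZMod m) := by
  unfold FlA_nu
  have : s + 1 ≤ #((univ : Finset (Fin (m + 2 * s))).filter (fun x => cl m s x = (c : ZMod m))) := by
    have hj : s + 1 = #(univ : Finset (Fin (s + 1))) := by
      rw [card_univ, Fintype.card_fin]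
    rw [hj]
    refine card_le_card_of_injOn
      (fun a : Fin (s + 1) => (⟨2 * a.val + c, by have := a.2; omega⟩ : Fin (m + 2 * s))) ?_ ?_
    · intro a _
      have h2 := a.2
      rw [mem_coe, mem_filter]
      refine ⟨mem_univ _, ?_⟩
      unfold cl
      have h3 : 2 * a.val + c < 2 * s + 2 := by omega
      have h4 : (2 * a.val + c) % 2 = c := by omega
      simp only [h3, if_true, h4]
    · intro a _ b _ hab
      have h3 := congrArg (fun x : Fin (m + 2 * s) => x.val) hab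
      simp only at h3
      apply Fin.ext
      omega
  exact_mod_cast this

private lemma FlA_back (m s : ℕ) [NeZero m] (hm : 5 ≤ m) (n : ℕ) :
    ((s : ℝ) + 1) ^ n ≤ Bn (Cy m) (FlA_nu m s) n 0 ((n % 2 : ℕ) : ZMod m) := by
  have hν : ∀ t, 0 ≤ FlA_nu m s t := fun t => zero_le_one.trans (FlA_one m s hm t)
  induction n with
  | zero => rw [Bn_zero]; simp
  | succ n ih =>
    rw [Bn_succ']
    have h1 : Bn (Cy m) (FlA_nu m s) n 0 ((n % 2 : ℕ) : ZMod m) *
        (if (Cy m).Adj ((n % 2 : ℕ) : ZMod m) (((n + 1) % 2 : ℕ) : ZMod m) then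
          FlA_nu m s (((n + 1) % 2 : ℕ) : ZMod m) else 0) ≤
        ∑ z, Bn (Cy m) (FlA_nu m s) n 0 z *
        (if (Cy m).Adj z (((n + 1) % 2 : ℕ) : ZMod m) then
          FlA_nu m s (((n + 1) % 2 : ℕ) : ZMod m) else 0) := by
      refine single_le_sum (f := fun z => Bn (Cy m) (FlA_nu m s) n 0 z *
        (if (Cy m).Adj z (((n + 1) % 2 : ℕ) : ZMod m) then
          FlA_nu m s (((n + 1) % 2 : ℕ) : ZMod m) else 0)) (fun z _ => ?_) (mem_univ _)
      refine mul_nonneg (Bn_nonneg hν n _ _) ?_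
      split_ifs
      · exact hν _
      · exact le_rfl
    refine le_trans ?_ h1
    have hadj : (Cy m).Adj ((n % 2 : ℕ) : ZMod m) (((n + 1) % 2 : ℕ) : ZMod m) := by
      rw [Cy_adj (by omega)]
      rcases Nat.mod_two_eq_zero_or_one n with h | h
      · left
        have h2 : (n + 1) % 2 = 1 := by omega
        rw [h, h2]; simp
      · right
        have h2 : (n + 1) % 2 = 0 := by omega
        rw [h, h2]; simp
    rw [if_pos hadj, pow_succ]
    exact mul_le_mul ih (FlA_big m s hm _ (Nat.mod_lt _ two_pos)) (by positivity)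
      (Bn_nonneg hν n _ _)

/-- `s` steps back and forth on the large edge, `j - s` other back steps. -/
theorem HG_clos2 (m j s : ℕ) [NeZero (m + 2 * j)] (hm : 5 ≤ m) (ho : Odd m) (hs : s ≤ j) :
    (s + 1) ^ (2 * s + 2) * (m - 1 + 2 * (j - s)).choose (j - s) ≤
      #(clos (HG m s) (m + 2 * j)) := by
  have : NeZero m := ⟨by omega⟩
  have hν : ∀ t, 0 ≤ FlA_nu m s t := fun t => zero_le_one.trans (FlA_one m s hm t)
  -- the number of closed walks
  have h1 : (#(clos (HG m s) (m + 2 * j)) : ℝ) = Fw (Cy m) (m + 2 * j) (FlA_nu m s) := by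
    unfold HG
    rw [cls_clos (k := m + 2 * j) (m := m) (by omega) (cl m s)]
    unfold Fw wP
    rw [Cy_clos (by omega)]
    push_cast
    rfl
  have h2 : Bn (Cy m) (FlA_nu m s) (m + 2 * j) 0 0 ≤ Fw (Cy m) (m + 2 * j) (FlA_nu m s) := by
    rw [Fw_trace]
    exact single_le_sum (f := fun u => Bn (Cy m) (FlA_nu m s) (m + 2 * j) u u)
      (fun u _ => Bn_nonneg hν _ _ _) (mem_univ _)
  have h3 : Bn (Cy m) (FlA_nu m s) (2 * s + 1) 0 1 *
      Bn (Cy m) (FlA_nu m s) (m - 1 + 2 * (j - s)) 1 0 ≤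
      Bn (Cy m) (FlA_nu m s) (m + 2 * j) 0 0 := by
    have e : m + 2 * j = (2 * s + 1) + (m - 1 + 2 * (j - s)) := by omega
    rw [e, Bn_add (2 * s + 1) (m - 1 + 2 * (j - s))]
    exact single_le_sum (f := fun z => Bn (Cy m) (FlA_nu m s) (2 * s + 1) 0 z *
      Bn (Cy m) (FlA_nu m s) (m - 1 + 2 * (j - s)) z 0)
      (fun u _ => mul_nonneg (Bn_nonneg hν _ _ _) (Bn_nonneg hν _ _ _)) (mem_univ _)
  have h4 : ((s : ℝ) + 1) ^ (2 * s + 1) ≤ Bn (Cy m) (FlA_nu m s) (2 * s + 1) 0 1 := by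
    have h := FlA_back m s hm (2 * s + 1)
    have e : (2 * s + 1) % 2 = 1 := by omega
    rw [e, Nat.cast_one] at h
    exact h
  have h5 : ((m - 1 + 2 * (j - s)).choose (j - s) : ℝ) * ((s : ℝ) + 1) ≤
      Bn (Cy m) (FlA_nu m s) (m - 1 + 2 * (j - s)) 1 0 := by
    have h := Bn_lower' (m := m) (by omega) (FlA_one m s hm) (n := m - 1 + 2 * (j - s)) (by omega)
      (j - s) 1
    have e : (1 : ZMod m) + ((((m - 1 + 2 * (j - s) : ℕ) : ℤ) - 2 * ((j - s : ℕ) : ℤ) : ℤ) : ZMod m)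
        = 0 := by
      have e1 : (((m - 1 + 2 * (j - s) : ℕ) : ℤ) - 2 * ((j - s : ℕ) : ℤ) : ℤ) = ((m : ℤ) - 1) := by
        have : ((m - 1 + 2 * (j - s) : ℕ) : ℤ) = (m : ℤ) - 1 + 2 * ((j - s : ℕ) : ℤ) := by
          push_cast [Nat.cast_sub (show 1 ≤ m by omega)]
          ring
        rw [this]; ring
      rw [e1]
      push_cast
      simp
    rw [e] at h
    refine le_trans (mul_le_mul_of_nonneg_left ?_ (Nat.cast_nonneg _)) h
    have h6 := FlA_big m s hm 0 two_pos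
    rwa [Nat.cast_zero] at h6
  have h6 : (((s + 1) ^ (2 * s + 2) * (m - 1 + 2 * (j - s)).choose (j - s) : ℕ) : ℝ) ≤
      (#(clos (HG m s) (m + 2 * j)) : ℝ) := by
    rw [h1]
    refine le_trans ?_ (h3.trans h2)
    refine le_trans ?_ (mul_le_mul h4 h5 (by positivity) (Bn_nonneg hν _ _ _))
    push_cast
    rw [show 2 * s + 2 = (2 * s + 1) + 1 by ring, pow_succ]
    exact le_of_eq (by ring)
  exact_mod_cast h6

end Pool.Agent.CycSh
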