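import Mathlib

/-!
# The numerical inequality for the failure

Take `s = ⌊τ j⌋`.  `choose (m - 1 + 2 q) q ≥ m^q / q!`, `q! ≤ e q (q / e)^q`,
`choose (m + 2 j) j ≤ (m + 2 j)^j / j!`, `j! ≥ (j / e)^j`, `((m + 2 s) / m)^M ≤ exp (2 s M / m)`.
-/

namespace Pool.Agent.CycSh

theorem lfac_le (q : ℕ) :
    Real.log (q.factorial : ℝ) ≤ 1 + Real.log q + q * Real.log q - q := by
  induction q with
  | zero => simp
  | succ q ih =>
    rcases Nat.eq_zero_or_pos q with rfl | hq
    · simp
    have hq0 : (0 : ℝ) < q := by exact_mod_cast hq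
    rw [Nat.factorial_succ, Nat.cast_mul, Real.log_mul (by positivity) (by positivity)]
    push_cast
    have h1 := Real.one_sub_inv_le_log_of_pos (show (0 : ℝ) < (q + 1) / q by positivity)
    rw [Real.log_div (by positivity) (by positivity), inv_div] at h1
    have h2 : 1 - (q : ℝ) / (q + 1) = 1 / (q + 1) := by field_simp; ring
    rw [h2, div_le_iff₀ (by positivity)] at h1
    nlinarith

theorem lfac_ge (j : ℕ) : j * Real.log j - j ≤ Real.log (j.factorial : ℝ) := by
  rcases Nat.eq_zero_or_pos j with rfl | hj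
  · simp
  have hj0 : (0 : ℝ) < j := by exact_mod_cast hj
  have h1 := Real.pow_div_factorial_le_exp (j : ℝ) hj0.le j
  have h2 := Real.log_le_log (by positivity) h1
  rw [Real.log_exp, Real.log_div (by positivity) (by positivity), Real.log_pow] at h2
  linarith

theorem num_f {τ ε : ℝ} (h0 : 0 < τ) (h1 : τ < 1) (hτ : 1 - τ = Real.exp (-3 * τ))
    (hε : 0 < ε) : ∃ m0 : ℕ, ∀ m : ℕ, m0 ≤ m → ∀ j : ℕ,
      (1 + ε) * m ≤ (j : ℝ) ^ 3 * (τ ^ 2 * (1 - τ)) → (j : ℝ) ^ 3 ≤ 28 * m → ∃ s : ℕ, s ≤ j ∧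
      2 * (m : ℝ) * ((m + 2 * j).choose j : ℝ) * (((m : ℝ) + 2 * s) / m) ^ (m + 2 * j) <
        ((s : ℝ) + 1) ^ (2 * s + 2) * ((m - 1 + 2 * (j - s)).choose (j - s) : ℝ) := by
  have hlε : 0 < Real.log (1 + ε) := Real.log_pos (by linarith)
  set c := τ * Real.log (1 + ε) with hc
  have hc0 : 0 < c := mul_pos h0 hlε
  obtain ⟨j0, hj0⟩ := exists_nat_gt ((2 / c) * (400 + c + 5 * Real.log (10 / c)))
  refine ⟨j0 ^ 3 + 1, fun m hm j h2 h3 => ?_⟩
  have hm1 : 1 ≤ m := by omega
  have hmp : (0 : ℝ) < m := by exact_mod_cast hm1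
  have h1τ : 0 < 1 - τ := by linarith
  have hmj : (m : ℝ) ≤ (j : ℝ) ^ 3 := by
    have e1 : τ ^ 2 * (1 - τ) ≤ 1 := by
      have : τ ^ 2 ≤ 1 := by nlinarith
      nlinarith [sq_nonneg τ]
    have e2 : (j : ℝ) ^ 3 * (τ ^ 2 * (1 - τ)) ≤ (j : ℝ) ^ 3 * 1 :=
      mul_le_mul_of_nonneg_left e1 (by positivity)
    nlinarith
  have hjj : j0 ≤ j := by
    by_contra hlt
    have h4 : j < j0 := not_le.1 hlt
    have h5 : j ^ 3 ≤ j0 ^ 3 := Nat.pow_le_pow_left h4.le 3
    have h6 : m ≤ j ^ 3 := by exact_mod_cast hmj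
    omega
  have hj1 : 1 ≤ j := by
    by_contra hlt
    have : j = 0 := by omega
    subst this
    have h6 : m ≤ 0 ^ 3 := by exact_mod_cast hmj
    omega
  have hjp : (1 : ℝ) ≤ j := by exact_mod_cast hj1
  have hjpos : (0 : ℝ) < j := by linarith
  have hτj : 0 < τ * j := mul_pos h0 hjpos
  -- s
  set s := ⌊τ * j⌋₊ with hs
  have hs1 : (s : ℝ) ≤ τ * j := Nat.floor_le hτj.le
  have hs2 : τ * j < s + 1 := Nat.lt_floor_add_one _
  have hsj : s ≤ j := by
    have : (s : ℝ) ≤ j := by nlinarith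
    exact_mod_cast this
  refine ⟨s, hsj, ?_⟩
  obtain ⟨q, hq⟩ := Nat.exists_eq_add_of_le hsj
  have hq' : j - s = q := by omega
  rw [hq']
  have hqr : (q : ℝ) = j - s := by rw [hq]; push_cast; ring
  set x := (1 - τ) * j with hx
  have hxpos : 0 < x := mul_pos h1τ hjpos
  have hqx : x ≤ q := by rw [hqr, hx]; linarith
  have hqx' : (q : ℝ) ≤ x + 1 := by rw [hqr, hx]; linarith
  have hqpos : (0 : ℝ) < q := by linarith
  have hq1 : (1 : ℝ) ≤ q := by
    have : 0 < q := by exact_mod_cast hqpos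
    exact_mod_cast this
  have hqj : (q : ℝ) ≤ j := by rw [hqr]; linarith [Nat.cast_nonneg (α := ℝ) s]
  have hj2 : (j : ℝ) ^ 2 ≤ 28 * m := by nlinarith [sq_nonneg (j : ℝ)]
  have hspos : (0 : ℝ) ≤ s := Nat.cast_nonneg s
  have hsj' : (s : ℝ) ≤ j := by exact_mod_cast hsj
  -- logs
  have hlm : 0 ≤ Real.log m := Real.log_nonneg (by exact_mod_cast hm1)
  have hlj : 0 ≤ Real.log j := Real.log_nonneg hjp
  have hchoose1 : Real.log ((m + 2 * j).choose j : ℝ) ≤
      j * Real.log m + 56 - (j * Real.log j - j) := by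
    have e1 := Nat.choose_le_pow_div (α := ℝ) j (m + 2 * j)
    have e0 : (0 : ℝ) < ((m + 2 * j).choose j : ℝ) := by
      exact_mod_cast Nat.choose_pos (by omega)
    have e2 := Real.log_le_log e0 e1
    push_cast at e2
    rw [Real.log_div (by positivity) (by positivity), Real.log_pow] at e2
    have e3 : Real.log ((m : ℝ) + 2 * j) ≤ Real.log m + 2 * j / m := by
      have e4 : (m : ℝ) + 2 * j = m * (1 + 2 * j / m) := by field_simp
      rw [e4, Real.log_mul (by positivity) (by positivity)]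
      have e5 := Real.log_le_sub_one_of_pos (show (0 : ℝ) < 1 + 2 * j / m by positivity)
      linarith
    have e6 : (j : ℝ) * Real.log ((m : ℝ) + 2 * j) ≤ j * (Real.log m + 2 * j / m) :=
      mul_le_mul_of_nonneg_left e3 hjpos.le
    have e7 : (j : ℝ) * (2 * j / m) ≤ 56 := by
      rw [mul_div_assoc', div_le_iff₀ hmp]
      nlinarith
    have e8 := lfac_ge j
    nlinarith
  have hchoose2 : q * Real.log m - Real.log (q.factorial : ℝ) ≤
      Real.log ((m - 1 + 2 * q).choose q : ℝ) := by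
    have e0 : (0 : ℝ) < ((m - 1 + 2 * q).choose q : ℝ) := by
      exact_mod_cast Nat.choose_pos (by omega)
    have e1 : m ^ q ≤ q.factorial * (m - 1 + 2 * q).choose q := by
      rw [← Nat.descFactorial_eq_factorial_mul_choose]
      refine le_trans (Nat.pow_le_pow_left (by omega) q) (Nat.pow_sub_le_descFactorial _ _)
    have e2 : (m : ℝ) ^ q ≤ (q.factorial : ℝ) * ((m - 1 + 2 * q).choose q : ℝ) := by
      exact_mod_cast e1
    have e3 := Real.log_le_log (by positivity) e2
    rw [Real.log_pow, Real.log_mul (by positivity) e0.ne'] at e3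
    linarith
  have hpow : ((m + 2 * j : ℕ) : ℝ) * Real.log (((m : ℝ) + 2 * s) / m) ≤ 2 * s + 112 := by
    have e4 : ((m : ℝ) + 2 * s) / m = 1 + 2 * s / m := by field_simp
    have e5 := Real.log_le_sub_one_of_pos (show (0 : ℝ) < 1 + 2 * s / m by positivity)
    rw [e4]
    have e6 : ((m + 2 * j : ℕ) : ℝ) * Real.log (1 + 2 * s / m) ≤
        ((m + 2 * j : ℕ) : ℝ) * (2 * s / m) :=
      mul_le_mul_of_nonneg_left (by linarith) (by positivity)
    refine e6.trans ?_
    push_cast
    rw [mul_div_assoc', div_le_iff₀ hmp]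
    nlinarith [mul_le_mul_of_nonneg_right hsj' hjpos.le]
  have hA : τ * j * (Real.log τ + Real.log j) ≤ (s + 1) * Real.log (s + 1) := by
    rw [← Real.log_mul h0.ne' hjpos.ne']
    rcases le_total 1 (τ * j) with h | h
    · exact mul_le_mul hs2.le (Real.log_le_log hτj hs2.le) (Real.log_nonneg h) (by linarith)
    · have e1 : τ * j * Real.log (τ * j) ≤ 0 :=
        mul_nonpos_of_nonneg_of_nonpos hτj.le (Real.log_nonpos hτj.le h)
      have e2 : 0 ≤ ((s : ℝ) + 1) * Real.log (s + 1) :=
        mul_nonneg (by linarith) (Real.log_nonneg (by linarith))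
      linarith
  have hlx : Real.log x = -3 * τ + Real.log j := by
    rw [hx, Real.log_mul h1τ.ne' hjpos.ne', hτ, Real.log_exp]
  have hB : q * Real.log q ≤ x * (-3 * τ + Real.log j) + 1 + Real.log (j + 1) := by
    have e1 : Real.log q ≤ Real.log (x + 1) := Real.log_le_log hqpos hqx'
    have e2 : 0 ≤ Real.log (x + 1) := Real.log_nonneg (by linarith)
    have e3 : q * Real.log q ≤ (x + 1) * Real.log (x + 1) :=
      mul_le_mul hqx' e1 (Real.log_nonneg hq1) (by linarith)
    have e4 : Real.log (x + 1) ≤ Real.log x + 1 / x := by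
      have e5 : x + 1 = x * (1 + 1 / x) := by field_simp
      rw [e5, Real.log_mul hxpos.ne' (by positivity)]
      have e6 := Real.log_le_sub_one_of_pos (show (0 : ℝ) < 1 + 1 / x by positivity)
      linarith
    have e7 : x * Real.log (x + 1) ≤ x * (Real.log x + 1 / x) :=
      mul_le_mul_of_nonneg_left e4 hxpos.le
    have e8 : x * (1 / x) = 1 := by field_simp
    have e9 : Real.log (x + 1) ≤ Real.log (j + 1) :=
      Real.log_le_log (by linarith) (by rw [hx]; nlinarith)
    rw [hlx] at e7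
    nlinarith
  have hmain : Real.log (1 + ε) ≤ 2 * Real.log τ - 3 * τ + 3 * Real.log j - Real.log m := by
    have e1 := Real.log_le_log (by positivity) h2
    rw [Real.log_mul (by positivity) hmp.ne', Real.log_mul (by positivity) (by positivity),
      Real.log_mul (by positivity) h1τ.ne', Real.log_pow, Real.log_pow] at e1
    have e2 : Real.log (1 - τ) = -3 * τ := by rw [hτ, Real.log_exp]
    rw [e2] at e1
    push_cast at e1
    linarith
  have hlog2 : Real.log 2 ≤ 1 := by
    have := Real.log_two_lt_d9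
    linarith
  have hlj1 : Real.log j ≤ Real.log (j + 1) := Real.log_le_log hjpos (by linarith)
  have hlmj : Real.log m ≤ 3 * Real.log j := by
    have e1 := Real.log_le_log hmp hmj
    rw [Real.log_pow] at e1
    push_cast at e1
    exact e1
  have hlqj : Real.log q ≤ Real.log j := Real.log_le_log hqpos hqj
  have hend : 5 * Real.log (j + 1) + 400 < c * j := by
    set a := 10 / c with ha
    have ha0 : 0 < a := by positivity
    have e1 := Real.log_le_sub_one_of_pos (show (0 : ℝ) < ((j : ℝ) + 1) / a by positivity)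
    rw [Real.log_div (by positivity) ha0.ne'] at e1
    have e2 : ((j : ℝ) + 1) / a = c * (j + 1) / 10 := by rw [ha]; field_simp
    rw [e2] at e1
    have e3 : 2 / c * (400 + c + 5 * Real.log a) < j := by
      refine hj0.trans_le ?_
      exact_mod_cast hjj
    rw [div_mul_eq_mul_div, div_lt_iff₀ hc0] at e3
    linarith
  -- conclusion
  have hlow : Real.log (2 * (m : ℝ) * ((m + 2 * j).choose j : ℝ) *
        (((m : ℝ) + 2 * s) / m) ^ (m + 2 * j)) <
      Real.log (((s : ℝ) + 1) ^ (2 * s + 2) * ((m - 1 + 2 * q).choose q : ℝ)) := by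
    have e0 : (0 : ℝ) < ((m + 2 * j).choose j : ℝ) := by
      exact_mod_cast Nat.choose_pos (by omega)
    have e0' : (0 : ℝ) < ((m - 1 + 2 * q).choose q : ℝ) := by
      exact_mod_cast Nat.choose_pos (by omega)
    rw [Real.log_mul (by positivity) (by positivity), Real.log_mul (by positivity) e0.ne',
      Real.log_mul (by norm_num) hmp.ne', Real.log_pow, Real.log_mul (by positivity) e0'.ne',
      Real.log_pow]
    have f1 := lfac_le q
    have f2 : (s : ℝ) * Real.log m ≤ τ * j * Real.log m := mul_le_mul_of_nonneg_right hs1 hlm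
    have f3 : τ * j * Real.log (1 + ε) ≤
        τ * j * (2 * Real.log τ - 3 * τ + 3 * Real.log j - Real.log m) :=
      mul_le_mul_of_nonneg_left hmain hτj.le
    have f4 : (q : ℝ) * Real.log m = j * Real.log m - s * Real.log m := by rw [hqr]; ring
    have f5 : c * j = τ * j * Real.log (1 + ε) := by rw [hc]; ring
    have f6 : x * (-3 * τ + Real.log j) = (1 - τ) * j * (-3 * τ + Real.log j) := by rw [hx]
    push_cast at hpow ⊢
    nlinarith
  exact (Real.log_lt_log_iff (by
    have e0 : (0 : ℝ) < ((m + 2 * j).choose j : ℝ) := by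
      exact_mod_cast Nat.choose_pos (by omega)
    positivity) (by
    have e0' : (0 : ℝ) < ((m - 1 + 2 * q).choose q : ℝ) := by
      exact_mod_cast Nat.choose_pos (by omega)
    positivity)).1 hlow

end Pool.Agent.CycSh
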