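import Pool.Agent.W_1bfdb5sh_h19.FaF

/-!
# Failure above the threshold

`fail_sharp` (`W_1bfdb5sh_h19/FaF.lean`) with `k = m + 2 j`, `l = m - 2`.
-/

namespace Pool.Agent.CycSh

open Finset Pool.Agent.CycGT Pool.Agent.CycFD
open scoped Classical

theorem fail_sh {τ ε : ℝ} (h0 : 0 < τ) (h1 : τ < 1) (hτ : 1 - τ = Real.exp (-3 * τ))
    (hε : 0 < ε) : ∃ m0 : ℕ, ∀ m : ℕ, m0 ≤ m → Odd m → ∀ j : ℕ,
      (1 + ε) * m ≤ (j : ℝ) ^ 3 * (τ ^ 2 * (1 - τ)) →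
      ∃ δ : ℝ, 0 < δ ∧ ∃ N : ℕ, ∀ n ≥ N,
        (cKL (m + 2 * j) (m - 2) + δ) * (n : ℝ) ^ (m + 2 * j) ≤
          (exC n (m + 2 * j) (m - 2) : ℝ) := by
  have hg : 0 < τ ^ 2 * (1 - τ) := mul_pos (pow_pos h0 2) (by linarith)
  obtain ⟨l0, hl0⟩ := CycSH.fail_sharp h0 h1 hτ (ε := 8 * ε / (τ ^ 2 * (1 - τ))) (by positivity)
  refine ⟨l0 + 3, fun m hm ho j hj => ?_⟩
  have hodd : Odd (m - 2) := by
    rw [Nat.odd_iff] at ho ⊢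
    omega
  have hoddk : Odd (m + 2 * j) := by
    rw [Nat.odd_iff] at ho ⊢
    omega
  refine hl0 (m - 2) (by omega) hodd (m + 2 * j) hoddk (by omega) ?_
  have hc : ((m - 2 : ℕ) : ℝ) = (m : ℝ) - 2 := by
    rw [Nat.cast_sub (by omega)]
    norm_num
  rw [hc]
  push_cast
  have hj0 : (0 : ℝ) ≤ j := Nat.cast_nonneg j
  have e1 : ((m : ℝ) + 2 * j - (m - 2)) ^ 3 = 8 * ((j : ℝ) + 1) ^ 3 := by ring
  rw [e1]
  have e2 : 8 / (τ ^ 2 * (1 - τ)) + 8 * ε / (τ ^ 2 * (1 - τ)) = 8 * (1 + ε) / (τ ^ 2 * (1 - τ)) := by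
    ring
  rw [e2, div_mul_eq_mul_div, div_le_iff₀ hg]
  have h2 : (j : ℝ) ^ 3 ≤ ((j : ℝ) + 1) ^ 3 := pow_le_pow_left₀ hj0 (by linarith) 3
  have h3 : (1 + ε) * ((m : ℝ) - 2) ≤ (1 + ε) * m := by
    apply mul_le_mul_of_nonneg_left (by linarith) (by linarith)
  have h4 := mul_le_mul_of_nonneg_right h2 hg.le
  nlinarith

end Pool.Agent.CycSh
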