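import Pool.Agent.W_1bfdb5sh_h41.Pl

/-!
# The maximum of the weighted count

Compactness of the simplex, homogeneity (`Fw_smul`), `Fw_continuous`.
-/

namespace Pool.Agent.CycSh

open Finset Pool.Agent.CycGT Pool.Agent.CycFD
open scoped Classical

theorem exists_opt {V : Type} [Fintype V] [Nonempty V] (G : SimpleGraph V) (M : ℕ) [NeZero M]
    {a : ℝ} (ha : 0 < a) : ∃ x : V → ℝ, (∀ v, 0 ≤ x v) ∧ ∑ v, x v = a ∧
      ∀ y : V → ℝ, (∀ v, 0 ≤ y v) → Fw G M y ≤ Fw G M x * ((∑ v, y v) / a) ^ M := by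
  have hne : (stdSimplex ℝ V).Nonempty := by
    obtain ⟨v⟩ := ‹Nonempty V›
    exact ⟨_, single_mem_stdSimplex ℝ v⟩
  have hco : Continuous (fun z : V → ℝ => Fw G M (fun v => a * z v)) :=
    (Fw_continuous G M).comp (continuous_pi fun v => continuous_const.mul (continuous_apply v))
  obtain ⟨z, hz, hmax⟩ := (isCompact_stdSimplex ℝ V).exists_isMaxOn hne hco.continuousOn
  refine ⟨fun v => a * z v, fun v => mul_nonneg ha.le (hz.1 v), ?_, fun y hy => ?_⟩
  · rw [← Finset.mul_sum, hz.2, mul_one]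
  · have hσ : 0 ≤ ∑ v, y v := sum_nonneg fun v _ => hy v
    rcases hσ.eq_or_lt with h0 | h0
    · have hy0 : y = fun v => 0 * y v := by
        ext v
        rw [zero_mul]
        exact (sum_eq_zero_iff_of_nonneg fun v _ => hy v).1 h0.symm v (mem_univ v)
      rw [hy0, Fw_smul, ← hy0, ← h0, zero_div, zero_pow (NeZero.ne M), zero_mul, mul_zero]
    · have hz' : (fun v => y v / ∑ w, y w) ∈ stdSimplex ℝ V :=
        ⟨fun v => div_nonneg (hy v) h0.le, by rw [← Finset.sum_div, div_self h0.ne']⟩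
      have h1 : Fw G M (fun v => a * (y v / ∑ w, y w)) ≤ Fw G M (fun v => a * z v) := hmax hz'
      have h2 : y = fun v => (∑ w, y w) / a * (a * (y v / ∑ w, y w)) := by
        ext v
        field_simp
      have h3 : Fw G M y = ((∑ w, y w) / a) ^ M * Fw G M (fun v => a * (y v / ∑ w, y w)) := by
        conv_lhs => rw [h2]
        exact Fw_smul G M _ _
      rw [h3, mul_comm]
      exact mul_le_mul_of_nonneg_right h1 (by positivity)

end Pool.Agent.CycSh
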