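import Pool.Agent.W_1bfdb5sh_h41.R1

/-!
# All degrees of a positive maximiser are equal

`M s d(v) ≤ F ((1 + s / a)^M - 1)` for all `s ≥ 0` by `r1`, so `d(v) ≤ F / a`; and
`∑ x_v d(v) = F` (`dw_sum`).
-/

namespace Pool.Agent.CycSh

open Finset Pool.Agent.CycGT Pool.Agent.CycFD
open scoped Classical

private lemma MxB_bern (k : ℕ) {t : ℝ} (ht : 0 ≤ t) :
    (1 + t) ^ (k + 1) - 1 ≤ ((k : ℝ) + 1) * t * (1 + t) ^ k := by
  induction k with
  | zero => simp
  | succ k ih =>
    have h1 : 1 ≤ (1 + t) ^ (k + 1) := one_le_pow₀ (by linarith)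
    have h2 : (1 + t) * ((1 + t) ^ (k + 1) - 1) ≤ (1 + t) * (((k : ℝ) + 1) * t * (1 + t) ^ k) :=
      mul_le_mul_of_nonneg_left ih (by linarith)
    have h3 : t ≤ t * (1 + t) ^ (k + 1) := le_mul_of_one_le_right ht h1
    have h4 : (1 + t) ^ (k + 1 + 1) = (1 + t) * (1 + t) ^ (k + 1) := by ring
    have h5 : (1 + t) * (((k : ℝ) + 1) * t * (1 + t) ^ k) = ((k : ℝ) + 1) * t * (1 + t) ^ (k + 1) := by
      ring
    rw [h4]
    push_cast
    rw [h5] at h2
    linarith

theorem deg_of_opt {V : Type} [Fintype V] (G : SimpleGraph V) (M : ℕ) [NeZero M] {a : ℝ}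
    (ha : 0 < a) {x : V → ℝ} (hx : ∀ v, 0 < x v) (hs : ∑ v, x v = a)
    (hopt : ∀ y : V → ℝ, (∀ v, 0 ≤ y v) → Fw G M y ≤ Fw G M x * ((∑ v, y v) / a) ^ M) (v : V) :
    dw G M x v = Fw G M x / a := by
  have hx0 : ∀ v, 0 ≤ x v := fun v => (hx v).le
  have hF : 0 ≤ Fw G M x := sum_nonneg fun W _ => prod_nonneg fun p _ => hx0 _
  obtain ⟨k, hk⟩ : ∃ k, M = k + 1 := ⟨M - 1, by have := NeZero.ne M; omega⟩
  have hM : (M : ℝ) = k + 1 := by rw [hk]; push_cast; ring
  have hle : ∀ u : V, dw G M x u ≤ Fw G M x / a := by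
    intro u
    have h1 : ∀ t : ℝ, 0 < t → dw G M x u ≤ Fw G M x / a * (1 + t) ^ k := by
      intro t ht
      have hs0 : 0 ≤ a * t := by positivity
      have h2 := r1 G M hx0 u hs0
      have h3 := hopt (ad x u (a * t)) fun w => by
        unfold ad
        split_ifs
        · have := hx0 w
          linarith
        · have := hx0 w
          linarith
      have h4 : (∑ w, ad x u (a * t) w) / a = 1 + t := by
        unfold ad
        rw [sum_add_distrib, hs, sum_ite_eq' univ u, if_pos (mem_univ u)]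
        field_simp
      rw [h4] at h3
      have h5 := MxB_bern k ht.le
      have h6 : Fw G M x * ((1 + t) ^ M - 1) ≤ Fw G M x * (((k : ℝ) + 1) * t * (1 + t) ^ k) := by
        refine mul_le_mul_of_nonneg_left ?_ hF
        rw [hk]
        exact h5
      have h7 : a * t * (((k : ℝ) + 1) * dw G M x u) ≤
          Fw G M x * (((k : ℝ) + 1) * t * (1 + t) ^ k) := by
        rw [← hM]
        rw [← hM] at h6
        linarith
      have h8 : 0 < a * t * ((k : ℝ) + 1) := by positivity
      have h9 : a * t * ((k : ℝ) + 1) * dw G M x u ≤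
          a * t * ((k : ℝ) + 1) * (Fw G M x / a * (1 + t) ^ k) := by
        have h10 : a * t * ((k : ℝ) + 1) * (Fw G M x / a * (1 + t) ^ k) =
            Fw G M x * (((k : ℝ) + 1) * t * (1 + t) ^ k) := by
          field_simp
        rw [h10]
        calc a * t * ((k : ℝ) + 1) * dw G M x u = a * t * (((k : ℝ) + 1) * dw G M x u) := by ring
          _ ≤ _ := h7
      exact le_of_mul_le_mul_left h9 h8
    have h2 : Filter.Tendsto (fun t : ℝ => Fw G M x / a * (1 + t) ^ k) (nhdsWithin 0 (Set.Ioi 0))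
        (nhds (Fw G M x / a * (1 + 0) ^ k)) := by
      refine Filter.Tendsto.mono_left ?_ nhdsWithin_le_nhds
      have : Continuous (fun t : ℝ => Fw G M x / a * (1 + t) ^ k) := by fun_prop
      exact this.tendsto 0
    rw [add_zero, one_pow, mul_one] at h2
    refine ge_of_tendsto h2 ?_
    filter_upwards [self_mem_nhdsWithin] with t ht
    exact h1 t ht
  have hsum : ∑ u, x u * dw G M x u = ∑ u, x u * (Fw G M x / a) := by
    rw [dw_sum, ← sum_mul, hs]
    field_simp
  have h3 := (sum_eq_sum_iff_of_le fun u _ => mul_le_mul_of_nonneg_left (hle u) (hx0 u)).1 hsum v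
    (mem_univ v)
  exact mul_left_cancel₀ (hx v).ne' h3

end Pool.Agent.CycSh
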