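import Pool.Agent.W_1bfdb5sh_h41.MxA
import Pool.Agent.W_1bfdb5sh_h41.MxB

/-!
# Existence of the maximiser

`exists_opt` for a counterexample, restricted to the support (`Fw_supp`, `Fw_ext`), `deg_of_opt`.
-/

namespace Pool.Agent.CycSh

open Finset Pool.Agent.CycGT Pool.Agent.CycFD
open scoped Classical

private theorem MxE_comap {V : Type} {G : SimpleGraph V} {m : ℕ} (h : OddFree G m) (S : Set V) :
    OddFree (G.comap (Subtype.val : S → V)) m := by
  intro r hr ho v hw
  obtain ⟨p, hp⟩ := hw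
  let f : G.comap (Subtype.val : S → V) →g G := { toFun := Subtype.val, map_rel' := fun h => h }
  exact h r hr ho v ⟨p.map f, by rw [SimpleGraph.Walk.length_map]; exact hp⟩

/-- If the claim fails for `j`, there is a positive maximiser. -/
theorem exists_max (m j : ℕ) [NeZero m] (ho : Odd m) (hcl : ∀ i, i < j → Clm m i)
    (hn : ¬ Clm m j) : ∃ (V : Type) (_ : Fintype V) (G : SimpleGraph V) (x : V → ℝ),
      Mx G m j x := by
  unfold Clm at hn
  push Not at hn
  obtain ⟨_, V, _, G, hof, x0, hx0, hbig0⟩ := hn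
  have hm : 0 < (m : ℝ) := by exact_mod_cast Nat.pos_of_ne_zero (NeZero.ne m)
  have hM0 : m + 2 * j ≠ 0 := NeZero.ne (m + 2 * j)
  have hsum0 : 0 ≤ ∑ v, x0 v := Finset.sum_nonneg fun v _ => hx0 v
  have hne : Nonempty V := by
    by_contra he
    rw [not_nonempty_iff] at he
    have h1 : Fw G (m + 2 * j) x0 = 0 := by
      unfold Fw
      refine Finset.sum_eq_zero fun W _ => ?_
      exact (he.false (W 0)).elim
    have h2 : 0 ≤ Tn m j * ((∑ v, x0 v) / m) ^ (m + 2 * j) :=
      mul_nonneg (Tn_nonneg m j) (pow_nonneg (div_nonneg hsum0 hm.le) _)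
    linarith
  obtain ⟨x1, hx1, hs1, hopt1⟩ := exists_opt G (m + 2 * j) hm
  have hbig1 : Tn m j < Fw G (m + 2 * j) x1 := by
    have h1 := lt_of_lt_of_le hbig0 (hopt1 x0 hx0)
    have h2 : 0 ≤ ((∑ v, x0 v) / m) ^ (m + 2 * j) := pow_nonneg (div_nonneg hsum0 hm.le) _
    exact lt_of_mul_lt_mul_right h1 h2
  let S : Set V := {v | 0 < x1 v}
  have hS : ∀ v, v ∉ S → x1 v = 0 := by
    intro v hv
    exact le_antisymm (not_lt.mp hv) (hx1 v)
  have hpos : ∀ v : S, 0 < x1 v := fun v => v.2
  have hext : ∀ y : S → ℝ, ∑ v, (fun v : V => if h : v ∈ S then y ⟨v, h⟩ else 0) v = ∑ v : S, y v := by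
    intro y
    have e := Finset.sum_subset (s₁ := univ.filter (fun v => v ∈ S)) (s₂ := (univ : Finset V))
      (f := fun v : V => if h : v ∈ S then y ⟨v, h⟩ else 0) (Finset.filter_subset _ _) (by
        intro v _ hv
        have : v ∉ S := fun h => hv (Finset.mem_filter.mpr ⟨Finset.mem_univ _, h⟩)
        exact dif_neg this)
    rw [← e]
    symm
    refine Finset.sum_bij (fun v _ => (v : V)) ?_ ?_ ?_ ?_
    · intro v _
      exact Finset.mem_filter.mpr ⟨Finset.mem_univ _, v.2⟩
    · intro v _ w _ h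
      exact Subtype.ext h
    · intro v hv
      rw [Finset.mem_filter] at hv
      exact ⟨⟨v, hv.2⟩, Finset.mem_univ _, rfl⟩
    · intro v _
      show y v = if h : (v : V) ∈ S then y ⟨v, h⟩ else 0
      rw [dif_pos v.2]
  have hsum : ∑ v : S, x1 v = m := by
    rw [← hext (fun v : S => x1 v), ← hs1]
    refine Finset.sum_congr rfl fun v _ => ?_
    show (if h : v ∈ S then x1 v else 0) = x1 v
    by_cases h : v ∈ S
    · rw [dif_pos h]
    · rw [dif_neg h, hS v h]
  have hF := Fw_supp G (m + 2 * j) x1 S hS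
  have hopt : ∀ y : S → ℝ, (∀ v, 0 ≤ y v) → Fw (G.comap (Subtype.val : S → V)) (m + 2 * j) y ≤
      Fw (G.comap (Subtype.val : S → V)) (m + 2 * j) (fun v : S => x1 v) *
        ((∑ v, y v) / m) ^ (m + 2 * j) := by
    intro y hy
    rw [hF, Fw_ext G (m + 2 * j) S y, ← hext y]
    refine hopt1 _ fun v => ?_
    show 0 ≤ (if h : v ∈ S then y ⟨v, h⟩ else 0)
    split_ifs with h
    · exact hy _
    · exact le_refl _
  refine ⟨S, inferInstance, G.comap (Subtype.val : S → V), fun v => x1 v, ?_⟩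
  exact {
    ho := ho
    of := MxE_comap hof S
    pos := hpos
    sum := hsum
    big := by rw [hF]; exact hbig1
    opt := hopt
    deg := fun v => deg_of_opt _ (m + 2 * j) hm hpos hsum hopt v
    cl := hcl }

end Pool.Agent.CycSh
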