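import Pool.Agent.W_1bfdb5sh_h41.Ent

/-!
# Numerical conclusions for the degrees
-/

namespace Pool.Agent.CycSh

open Finset

private lemma NbA_term {τ ε : ℝ} (h0 : 0 < τ) (h1 : τ < 1) (hτ : 1 - τ = Real.exp (-3 * τ))
    (hε1 : ε < 1) {c : ℝ} (hc0 : 0 < c) (hc2 : c ^ 2 = 1 - ε) {m j : ℕ} (hm : 0 < m)
    (hj : (j : ℝ) ^ 3 * (τ ^ 2 * (1 - τ)) ≤ (1 - ε) * m) {L : ℝ} (hL : 1 ≤ L) {l : ℕ}
    (hl : l ≤ j) :
    L ^ (2 * l) * ((j.descFactorial l : ℝ) / (m : ℝ) ^ l) ≤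
      Real.exp (2 * (c * L)) * (Real.exp 1 * (l + 1)) := by
  have hm' : (0 : ℝ) < m := by exact_mod_cast hm
  have hcl : (0 : ℝ) < c ^ (2 * l) := by positivity
  have hml : (0 : ℝ) < (m : ℝ) ^ l := by positivity
  have hy : (0 : ℝ) ≤ c * L := by positivity
  have h2 := pow_exp_le hy l
  have h3 := ent h0 h1 hτ hl
  have hE : 0 < Real.exp (2 * (c * L)) := Real.exp_pos _
  have hD : (0 : ℝ) ≤ (j.descFactorial l : ℝ) := by positivity
  have hEE : Real.exp (-(2 * (c * L))) * Real.exp (2 * (c * L)) = 1 := by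
    rw [← Real.exp_add]; simp
  have h4 : (c * L) ^ (2 * l) ≤ Real.exp (2 * (c * L)) *
      ((l : ℝ) ^ (2 * l) * Real.exp (-(2 * l))) := by
    calc (c * L) ^ (2 * l) = ((c * L) ^ (2 * l) * Real.exp (-(2 * (c * L)))) *
          Real.exp (2 * (c * L)) := by rw [mul_assoc, hEE, mul_one]
      _ ≤ ((l : ℝ) ^ (2 * l) * Real.exp (-(2 * l))) * Real.exp (2 * (c * L)) := by
          gcongr
      _ = _ := by ring
  have h5 : ((j : ℝ) ^ 3 * (τ ^ 2 * (1 - τ))) ^ l ≤ ((1 - ε) * m) ^ l := by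
    apply pow_le_pow_left₀ _ hj
    have : 0 < 1 - τ := by linarith
    positivity
  have h6 : (c * L) ^ (2 * l) * (j.descFactorial l : ℝ) ≤
      Real.exp (2 * (c * L)) * (Real.exp 1 * (l + 1) * ((1 - ε) * m) ^ l) := by
    calc (c * L) ^ (2 * l) * (j.descFactorial l : ℝ)
        ≤ Real.exp (2 * (c * L)) * ((l : ℝ) ^ (2 * l) * Real.exp (-(2 * l))) *
          (j.descFactorial l : ℝ) := by gcongr
      _ = Real.exp (2 * (c * L)) * ((l : ℝ) ^ (2 * l) * Real.exp (-(2 * l)) *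
          (j.descFactorial l : ℝ)) := by ring
      _ ≤ Real.exp (2 * (c * L)) * (Real.exp 1 * (l + 1) *
          ((j : ℝ) ^ 3 * (τ ^ 2 * (1 - τ))) ^ l) := by gcongr
      _ ≤ _ := by gcongr
  have h7 : (c * L) ^ (2 * l) = c ^ (2 * l) * L ^ (2 * l) := by rw [mul_pow]
  have h8 : ((1 - ε) * (m : ℝ)) ^ l = c ^ (2 * l) * (m : ℝ) ^ l := by
    rw [mul_pow, ← hc2, ← pow_mul]
  rw [h7, h8] at h6
  have h9 : c ^ (2 * l) * (L ^ (2 * l) * (j.descFactorial l : ℝ)) ≤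
      c ^ (2 * l) * ((Real.exp (2 * (c * L)) * (Real.exp 1 * (l + 1))) * (m : ℝ) ^ l) := by
    calc _ = c ^ (2 * l) * L ^ (2 * l) * (j.descFactorial l : ℝ) := by ring
      _ ≤ _ := h6
      _ = _ := by ring
  have h10 := le_of_mul_le_mul_left h9 hcl
  rw [← mul_div_assoc, div_le_iff₀ hml]
  exact h10

/-- The largest product of the degrees is `O(log^2 m)`. -/
theorem num_b1 {τ ε : ℝ} (h0 : 0 < τ) (h1 : τ < 1) (hτ : 1 - τ = Real.exp (-3 * τ))
    (hε : 0 < ε) (hε1 : ε < 1) : ∃ C : ℝ, 1 ≤ C ∧ ∃ m0 : ℕ, ∀ m : ℕ, m0 ≤ m → ∀ j : ℕ,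
      (j : ℝ) ^ 3 * (τ ^ 2 * (1 - τ)) ≤ (1 - ε) * m → ∀ L z : ℝ, 1 ≤ L → 2 * L ≤ z →
      1 ≤ (2 * (j : ℝ) + 2) ^ 2 * (m : ℝ) ^ 5 * Real.exp (12 - z) *
        ∑ l ∈ range (j + 1), L ^ (2 * l) * ((j.descFactorial l : ℝ) / (m : ℝ) ^ l) →
      L ≤ C * Real.log m := by
  obtain ⟨c, hc⟩ : ∃ c, c = Real.sqrt (1 - ε) := ⟨_, rfl⟩
  have hc0 : 0 < c := by rw [hc]; exact Real.sqrt_pos.2 (by linarith)
  have hc2 : c ^ 2 = 1 - ε := by rw [hc]; exact Real.sq_sqrt (by linarith)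
  have hc1 : c < 1 := by nlinarith
  obtain ⟨κ, hκ⟩ : ∃ κ, κ = τ ^ 2 * (1 - τ) := ⟨_, rfl⟩
  have hκ0 : 0 < κ := by
    rw [hκ]
    have : 0 < 1 - τ := by linarith
    positivity
  obtain ⟨A, hA⟩ : ∃ A, A = 4 * Real.exp 13 * (1 / κ + 1) ^ 4 := ⟨_, rfl⟩
  have hA0 : 0 < A := by rw [hA]; positivity
  refine ⟨max 1 ((|Real.log A| + 9) / (2 * (1 - c))), le_max_left _ _, 3, ?_⟩
  intro m hm j hj L z hL hz hle
  have hm' : (3 : ℝ) ≤ m := by exact_mod_cast hm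
  have hmp : 0 < m := by omega
  have hlogm : 1 ≤ Real.log m := by
    rw [Real.le_log_iff_exp_le (by linarith)]
    have := Real.exp_one_lt_d9
    linarith
  have hsum : ∑ l ∈ range (j + 1), L ^ (2 * l) * ((j.descFactorial l : ℝ) / (m : ℝ) ^ l) ≤
      Real.exp (2 * (c * L)) * Real.exp 1 * ((j : ℝ) + 1) ^ 2 := by
    calc _ ≤ ∑ l ∈ range (j + 1), Real.exp (2 * (c * L)) * Real.exp 1 * ((j : ℝ) + 1) := by
          apply sum_le_sum
          intro l hl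
          have hl' : l ≤ j := by have := mem_range.1 hl; omega
          have hl'' : (l : ℝ) ≤ j := by exact_mod_cast hl'
          have := NbA_term h0 h1 hτ hε1 hc0 hc2 hmp hj hL hl'
          refine this.trans ?_
          have hE : 0 < Real.exp (2 * (c * L)) := Real.exp_pos _
          have hE1 : 0 < Real.exp 1 := Real.exp_pos _
          rw [mul_assoc]
          gcongr
      _ = _ := by
          rw [sum_const, card_range, nsmul_eq_mul]
          push_cast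
          ring
  have hjm : (j : ℝ) + 1 ≤ (1 / κ + 1) * m := by
    rw [← hκ] at hj
    have hj3 : (j : ℝ) ≤ (j : ℝ) ^ 3 := by
      rcases Nat.eq_zero_or_pos j with h | h
      · simp [h]
      · have : (1 : ℝ) ≤ j := by exact_mod_cast h
        nlinarith [sq_nonneg ((j : ℝ) - 1), sq_nonneg ((j : ℝ))]
    have hjk : (j : ℝ) * κ ≤ m := by
      have h11 : (j : ℝ) * κ ≤ (j : ℝ) ^ 3 * κ := by gcongr
      have h12 : (1 - ε) * (m : ℝ) ≤ m := by nlinarith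
      linarith
    have h13 : (j : ℝ) ≤ 1 / κ * m := by
      rw [one_div, inv_mul_eq_div, le_div_iff₀ hκ0]
      exact hjk
    linarith
  have hmain : Real.exp (2 * (1 - c) * L) ≤ A * (m : ℝ) ^ 9 := by
    have hz' : Real.exp (12 - z) ≤ Real.exp (12 - 2 * L) := by
      apply Real.exp_le_exp.2; linarith
    have hj0 : (0 : ℝ) ≤ j := by positivity
    have hs0 : 0 ≤ ∑ l ∈ range (j + 1), L ^ (2 * l) *
        ((j.descFactorial l : ℝ) / (m : ℝ) ^ l) := by positivity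
    have h14 : (1 : ℝ) ≤ (2 * (j : ℝ) + 2) ^ 2 * (m : ℝ) ^ 5 * Real.exp (12 - 2 * L) *
        (Real.exp (2 * (c * L)) * Real.exp 1 * ((j : ℝ) + 1) ^ 2) := by
      refine hle.trans ?_
      gcongr
    have h15 : Real.exp (12 - 2 * L) * (Real.exp (2 * (c * L)) * Real.exp 1) *
        Real.exp (2 * (1 - c) * L) = Real.exp 13 := by
      rw [← Real.exp_add, ← Real.exp_add, ← Real.exp_add]
      congr 1
      ring
    calc Real.exp (2 * (1 - c) * L) = 1 * Real.exp (2 * (1 - c) * L) := by ring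
      _ ≤ ((2 * (j : ℝ) + 2) ^ 2 * (m : ℝ) ^ 5 * Real.exp (12 - 2 * L) *
        (Real.exp (2 * (c * L)) * Real.exp 1 * ((j : ℝ) + 1) ^ 2)) *
          Real.exp (2 * (1 - c) * L) := by gcongr
      _ = 4 * ((j : ℝ) + 1) ^ 4 * (m : ℝ) ^ 5 *
          (Real.exp (12 - 2 * L) * (Real.exp (2 * (c * L)) * Real.exp 1) *
            Real.exp (2 * (1 - c) * L)) := by ring
      _ = 4 * ((j : ℝ) + 1) ^ 4 * (m : ℝ) ^ 5 * Real.exp 13 := by rw [h15]
      _ ≤ 4 * ((1 / κ + 1) * m) ^ 4 * (m : ℝ) ^ 5 * Real.exp 13 := by gcongr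
      _ = A * (m : ℝ) ^ 9 := by rw [hA]; ring
  have hlog : 2 * (1 - c) * L ≤ Real.log A + 9 * Real.log m := by
    have hmp' : (0 : ℝ) < m := by linarith
    have h16 := Real.log_le_log (Real.exp_pos _) hmain
    rw [Real.log_exp, Real.log_mul hA0.ne' (by positivity), Real.log_pow] at h16
    push_cast at h16
    linarith
  have h17 : 2 * (1 - c) * L ≤ (|Real.log A| + 9) * Real.log m := by
    have h18 := le_abs_self (Real.log A)
    have h19 : |Real.log A| * 1 ≤ |Real.log A| * Real.log m := by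
      gcongr
    linarith
  have h20 : L ≤ (|Real.log A| + 9) / (2 * (1 - c)) * Real.log m := by
    rw [div_mul_eq_mul_div, le_div_iff₀ (by linarith)]
    linarith
  refine h20.trans ?_
  gcongr
  exact le_max_right _ _

end Pool.Agent.CycSh
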