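import Pool.Agent.W_1bfdb5sh_h41.Ent

/-!
# Numerical conclusions for the degrees
-/

namespace Pool.Agent.CycSh

open Finset

/-- eventually `160 C^6 (log m)^6 ≤ m^2` -/
private theorem NbB_log (C : ℝ) (hC : 1 ≤ C) : ∃ m0 : ℕ, ∀ m : ℕ, m0 ≤ m →
    160 * C ^ 6 * Real.log m ^ 6 ≤ (m : ℝ) ∧ 1 ≤ Real.log m ∧ 42 ≤ m := by
  have h0 : 0 < 1 / (160 * C ^ 6) := by positivity
  have h1 : ∀ᶠ x : ℝ in Filter.atTop, ‖Real.log x ^ 6‖ ≤ 1 / (160 * C ^ 6) * ‖id x‖ :=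
    (Real.isLittleO_pow_log_id_atTop (n := 6)).def h0
  have h2 : ∀ᶠ x : ℝ in Filter.atTop, Real.exp 1 ≤ x := Filter.eventually_ge_atTop _
  have h3 := (tendsto_natCast_atTop_atTop (R := ℝ)).eventually (h1.and h2)
  rw [Filter.eventually_atTop] at h3
  obtain ⟨m0, hm0⟩ := h3
  refine ⟨m0 + 42, fun m hm => ?_⟩
  obtain ⟨a1, a2⟩ := hm0 m (by omega)
  have hmn : (0 : ℝ) ≤ m := Nat.cast_nonneg m
  rw [id, Real.norm_of_nonneg hmn] at a1
  have a3 := (le_abs_self _).trans a1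
  refine ⟨?_, ?_, by omega⟩
  · have h4 : 160 * C ^ 6 * Real.log m ^ 6 ≤ 160 * C ^ 6 * (1 / (160 * C ^ 6) * m) :=
      mul_le_mul_of_nonneg_left a3 (by positivity)
    have h5 : 160 * C ^ 6 * (1 / (160 * C ^ 6) * (m : ℝ)) = m := by
      field_simp
    rw [h5] at h4
    exact h4
  · rw [← Real.log_exp 1]
    exact Real.log_le_log (Real.exp_pos 1) a2

private theorem NbB_geom (n : ℕ) {x : ℝ} (h0 : 0 ≤ x) (h1 : x ≤ 1 / 2) :
    ∑ l ∈ range n, x ^ l ≤ 2 := by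
  calc ∑ l ∈ range n, x ^ l ≤ ∑ l ∈ range n, (1 / 2 : ℝ) ^ l :=
        sum_le_sum fun l _ => pow_le_pow_left₀ h0 h1 l
    _ ≤ 2 := sum_geometric_two_le n

/-- The largest degree is `O(log m)`. -/
theorem num_b2 (C : ℝ) (hC : 1 ≤ C) : ∃ C' : ℝ, 1 ≤ C' ∧ ∃ m0 : ℕ, ∀ m : ℕ, m0 ≤ m → ∀ j : ℕ,
      (j : ℝ) ^ 3 ≤ 20 * m → ∀ L z : ℝ, 1 ≤ L → L ≤ C * Real.log m →
      1 ≤ (2 * (j : ℝ) + 2) ^ 2 * (m : ℝ) ^ 5 * Real.exp (12 - z) *
        ∑ l ∈ range (j + 1), L ^ (2 * l) * ((j.descFactorial l : ℝ) / (m : ℝ) ^ l) →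
      z ≤ C' * Real.log m := by
  obtain ⟨m0, hm0⟩ := NbB_log C hC
  refine ⟨22, by norm_num, m0, fun m hm j hj L z hL1 hL2 h => ?_⟩
  obtain ⟨a1, a2, a3⟩ := hm0 m hm
  have hm42 : (42 : ℝ) ≤ m := by exact_mod_cast a3
  have hmp : (0 : ℝ) < m := by linarith
  have hj0 : (0 : ℝ) ≤ j := Nat.cast_nonneg j
  have hjm : (j : ℝ) ≤ 20 * m := by
    rcases Nat.eq_zero_or_pos j with rfl | hjp
    · push_cast
      linarith
    · have h1 : (1 : ℝ) ≤ j := by exact_mod_cast hjp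
      have h2 : (j : ℝ) * 1 ≤ (j : ℝ) ^ 3 := by
        have : (j : ℝ) ^ 3 = j * (j * j) := by ring
        rw [this]
        exact mul_le_mul_of_nonneg_left (by nlinarith) hj0
      linarith
  -- L^2 j ≤ m / 2
  have hx : L ^ 2 * j / m ≤ 1 / 2 := by
    rw [div_le_iff₀ hmp]
    apply le_of_pow_le_pow_left₀ (n := 3) (by norm_num) (by positivity)
    have e1 : (L ^ 2 * (j : ℝ)) ^ 3 = L ^ 6 * (j : ℝ) ^ 3 := by ring
    have e2 : L ^ 6 ≤ (C * Real.log m) ^ 6 := pow_le_pow_left₀ (by linarith) hL2 6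
    have e3 : L ^ 6 * (j : ℝ) ^ 3 ≤ (C * Real.log m) ^ 6 * (20 * m) :=
      mul_le_mul e2 hj (by positivity) (by positivity)
    have e4 : (C * Real.log m) ^ 6 * (20 * m) = (160 * C ^ 6 * Real.log m ^ 6) * (m / 8) := by ring
    have e5 : (160 * C ^ 6 * Real.log m ^ 6) * (m / 8) ≤ m * (m / 8) :=
      mul_le_mul_of_nonneg_right a1 (by positivity)
    have e6 : (1 / 2 * (m : ℝ)) ^ 3 = m * (m / 8) * m := by ring
    rw [e1, e6]
    have e7 : (m : ℝ) * (m / 8) * 1 ≤ m * (m / 8) * m :=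
      mul_le_mul_of_nonneg_left (by linarith) (by positivity)
    linarith
  have hx0 : 0 ≤ L ^ 2 * j / m := by positivity
  have hsum : ∑ l ∈ range (j + 1), L ^ (2 * l) * ((j.descFactorial l : ℝ) / (m : ℝ) ^ l) ≤ 2 := by
    refine le_trans (sum_le_sum fun l _ => ?_) (NbB_geom (j + 1) hx0 hx)
    have e1 : ((j.descFactorial l : ℕ) : ℝ) ≤ (j : ℝ) ^ l := by
      exact_mod_cast Nat.descFactorial_le_pow j l
    have e2 : (L ^ 2 * (j : ℝ) / m) ^ l = L ^ (2 * l) * ((j : ℝ) ^ l / (m : ℝ) ^ l) := by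
      rw [div_pow, mul_pow, ← pow_mul]
      ring
    rw [e2]
    apply mul_le_mul_of_nonneg_left _ (by positivity)
    exact div_le_div_of_nonneg_right e1 (by positivity)
  have hpos : 0 ≤ (2 * (j : ℝ) + 2) ^ 2 * (m : ℝ) ^ 5 * Real.exp (12 - z) := by positivity
  have h2 : 1 ≤ (2 * (j : ℝ) + 2) ^ 2 * (m : ℝ) ^ 5 * Real.exp (12 - z) * 2 :=
    h.trans (mul_le_mul_of_nonneg_left hsum hpos)
  have h3 : (2 * (j : ℝ) + 2) ^ 2 ≤ ((m : ℝ) ^ 2) ^ 2 := by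
    apply pow_le_pow_left₀ (by positivity)
    nlinarith
  have h4 : 1 ≤ ((m : ℝ) ^ 9 * 2) * Real.exp (12 - z) := by
    have e1 : (2 * (j : ℝ) + 2) ^ 2 * (m : ℝ) ^ 5 * Real.exp (12 - z) * 2 ≤
        ((m : ℝ) ^ 2) ^ 2 * (m : ℝ) ^ 5 * Real.exp (12 - z) * 2 := by
      apply mul_le_mul_of_nonneg_right _ (by norm_num)
      apply mul_le_mul_of_nonneg_right _ (Real.exp_pos _).le
      exact mul_le_mul_of_nonneg_right h3 (by positivity)
    have e2 : ((m : ℝ) ^ 2) ^ 2 * (m : ℝ) ^ 5 * Real.exp (12 - z) * 2 =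
        ((m : ℝ) ^ 9 * 2) * Real.exp (12 - z) := by ring
    linarith
  have h5 : 0 ≤ Real.log (((m : ℝ) ^ 9 * 2) * Real.exp (12 - z)) := Real.log_nonneg h4
  rw [Real.log_mul (by positivity) (Real.exp_pos _).ne', Real.log_exp,
    Real.log_mul (by positivity) (by norm_num), Real.log_pow] at h5
  have h6 : Real.log 2 ≤ 1 := by
    have := Real.log_two_lt_d9
    linarith
  push_cast at h5
  linarith

end Pool.Agent.CycSh
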