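import Pool.Agent.W_1bfdb5sh_h41.Ent

/-!
# Numerical conclusions for the degrees
-/

namespace Pool.Agent.CycSh

open Finset

private theorem NbC_e1 : Real.exp (-(282 / 100)) < 6 / 100 := by
  have h1 : (1 : ℝ) - 45 / 1000 ≤ Real.exp (-(45 / 1000)) := by
    have := Real.add_one_le_exp (-(45 / 1000 : ℝ))
    linarith
  have h2 := Real.exp_one_gt_d9
  have h3 : Real.exp (-(282 / 100)) * (Real.exp 1 ^ 3 * Real.exp (-(45 / 1000)) ^ 4) = 1 := by
    rw [← Real.exp_nat_mul, ← Real.exp_nat_mul, ← Real.exp_add, ← Real.exp_add]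
    norm_num
  have h4 : (100 / 6 : ℝ) < Real.exp 1 ^ 3 * Real.exp (-(45 / 1000)) ^ 4 := by
    have h5 : (2.7182818283 : ℝ) ^ 3 ≤ Real.exp 1 ^ 3 := pow_le_pow_left₀ (by norm_num) h2.le 3
    have h6 : (1 - 45 / 1000 : ℝ) ^ 4 ≤ Real.exp (-(45 / 1000)) ^ 4 :=
      pow_le_pow_left₀ (by norm_num) h1 4
    calc (100 / 6 : ℝ) < (2.7182818283 : ℝ) ^ 3 * (1 - 45 / 1000 : ℝ) ^ 4 := by norm_num
      _ ≤ _ := mul_le_mul h5 h6 (by norm_num) (by positivity)
  have h7 := Real.exp_pos (-(282 / 100 : ℝ))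
  by_contra hcon
  have h8 : (6 / 100 : ℝ) ≤ Real.exp (-(282 / 100)) := not_lt.1 hcon
  have h9 : (6 / 100 : ℝ) * (100 / 6) < Real.exp (-(282 / 100)) *
      (Real.exp 1 ^ 3 * Real.exp (-(45 / 1000)) ^ 4) :=
    mul_lt_mul' h8 h4 (by norm_num) h7
  rw [h3] at h9
  norm_num at h9

private theorem NbC_e2 : 59 / 1000 < Real.exp (-(2823 / 1000)) := by
  have h1 := Real.quadratic_le_exp_of_nonneg (x := 177 / 1000) (by norm_num)
  have h2 := Real.exp_one_lt_d9
  have h3 : Real.exp (-(2823 / 1000)) * Real.exp 1 ^ 3 = Real.exp (177 / 1000) := by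
    rw [← Real.exp_nat_mul, ← Real.exp_add]
    norm_num
  have h5 : Real.exp 1 ^ 3 ≤ (2.7182818286 : ℝ) ^ 3 :=
    pow_le_pow_left₀ (Real.exp_pos 1).le h2.le 3
  by_contra hcon
  have h8 : Real.exp (-(2823 / 1000)) ≤ (59 / 1000 : ℝ) := not_lt.1 hcon
  have h9 : Real.exp (-(2823 / 1000)) * Real.exp 1 ^ 3 ≤ (59 / 1000 : ℝ) * (2.7182818286 : ℝ) ^ 3 :=
    mul_le_mul h8 h5 (by positivity) (by norm_num)
  rw [h3] at h9
  have h10 : (59 / 1000 : ℝ) * (2.7182818286 : ℝ) ^ 3 < 1 + 177 / 1000 + (177 / 1000) ^ 2 / 2 := by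
    norm_num
  linarith

/-- convexity of the exponential function between `0` and `-3 t` -/
private theorem NbC_conv {a t : ℝ} (ha : 0 ≤ a) (ha1 : a ≤ 1) :
    Real.exp (-3 * (a * t)) ≤ a * Real.exp (-3 * t) + (1 - a) := by
  have h := convexOn_exp.2 (Set.mem_univ (-3 * t)) (Set.mem_univ (0 : ℝ)) ha
    (show 0 ≤ 1 - a by linarith) (by ring)
  simp only [smul_eq_mul, mul_zero, add_zero, Real.exp_zero, mul_one] at h
  have e : -3 * (a * t) = a * (-3 * t) := by ring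
  rw [e]
  exact h

/-- `1 / (τ^2 (1 - τ)) ≤ 20`. -/
theorem tau_bd {τ : ℝ} (h0 : 0 < τ) (h1 : τ < 1) (hτ : 1 - τ = Real.exp (-3 * τ)) :
    1 ≤ 20 * (τ ^ 2 * (1 - τ)) ∧ 94 / 100 < τ ∧ τ < 941 / 1000 := by
  have hlo : 94 / 100 < τ := by
    by_contra hcon
    have hc : τ ≤ 94 / 100 := not_lt.1 hcon
    have ha : τ / (94 / 100) ≤ 1 := by
      rw [div_le_one (by norm_num)]
      exact hc
    have h2 := NbC_conv (a := τ / (94 / 100)) (t := 94 / 100) (by positivity) ha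
    have e1 : τ / (94 / 100) * (94 / 100) = τ := by
      field_simp
    have e2 : (-3 : ℝ) * (94 / 100) = -(282 / 100) := by norm_num
    rw [e1, e2, ← hτ] at h2
    have h3 : τ / (94 / 100) * Real.exp (-(282 / 100)) < τ / (94 / 100) * (6 / 100) :=
      mul_lt_mul_of_pos_left NbC_e1 (by positivity)
    have e3 : τ / (94 / 100) * (6 / 100) + (1 - τ / (94 / 100)) = 1 - τ := by
      field_simp
      ring
    linarith
  have hhi : τ < 941 / 1000 := by
    by_contra hcon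
    have hc : 941 / 1000 ≤ τ := not_lt.1 hcon
    have ha : 941 / 1000 / τ ≤ 1 := by
      rw [div_le_one h0]
      exact hc
    have h2 := NbC_conv (a := 941 / 1000 / τ) (t := τ) (by positivity) ha
    have e1 : 941 / 1000 / τ * τ = 941 / 1000 := by
      field_simp
    have e2 : (-3 : ℝ) * (941 / 1000) = -(2823 / 1000) := by norm_num
    rw [e1, e2, ← hτ] at h2
    have e3 : 941 / 1000 / τ * (1 - τ) + (1 - 941 / 1000 / τ) = 59 / 1000 := by
      field_simp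
      ring
    have h3 := NbC_e2
    linarith
  refine ⟨?_, hlo, hhi⟩
  have h2 : (94 / 100 : ℝ) ^ 2 ≤ τ ^ 2 := pow_le_pow_left₀ (by norm_num) hlo.le 2
  have h3 : (94 / 100 : ℝ) ^ 2 * (59 / 1000) ≤ τ ^ 2 * (1 - τ) :=
    mul_le_mul h2 (by linarith) (by norm_num) (by positivity)
  have h4 : (1 : ℝ) ≤ 20 * ((94 / 100 : ℝ) ^ 2 * (59 / 1000)) := by norm_num
  linarith

end Pool.Agent.CycSh
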