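import Pool.Agent.W_1bfdb5sh_h41.SumB
import Pool.Agent.W_1bfdb5fd_h19.Dj

/-!
# Every closed walk has a long chord, or two close chords, or is nice
-/

namespace Pool.Agent.CycSh

open Finset Pool.Agent.CycGT Pool.Agent.CycFD
open scoped Classical

variable {V : Type} [Fintype V] {G : SimpleGraph V}

theorem nice_or {m j : ℕ} [NeZero m] (hm : 6 * j + 25 ≤ m) (ho : Odd m) (hG : OddFree G m)
    {W : ZMod (m + 2 * j) → V} (hW : W ∈ clos G (m + 2 * j)) :
    LongC G j W ∨ CloseC G W ∨ ∃ J, #J ≤ j ∧ Nice G W J := by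
  by_cases hL : LongC G j W
  · exact Or.inl hL
  by_cases hC : CloseC G W
  · exact Or.inr (Or.inl hC)
  refine Or.inr (Or.inr ?_)
  have hcl : IsCl G (m + 2 * j) W := mem_clos.1 hW
  set P : ZMod (m + 2 * j) → Prop := fun p => G.Adj (W p) (W (p + 3)) with hP
  -- two close chords are impossible
  have hcc : ∀ p : ZMod (m + 2 * j), ∀ d ∈ Icc 3 5, P p → ¬ P (p + ((d : ℕ) : ZMod (m + 2 * j))) := by
    intro p d hd h1 h2
    exact hC ⟨p, d, hd, h1, h2⟩
  have h3 : ∀ p, P p → ¬ P (p - 3) := by
    intro p h1 h2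
    refine hcc (p - 3) 3 (by simp) h2 ?_
    have : p - 3 + ((3 : ℕ) : ZMod (m + 2 * j)) = p := by push_cast; ring
    rw [this]; exact h1
  have h4 : ∀ p, P p → ¬ P (p - 4) := by
    intro p h1 h2
    refine hcc (p - 4) 4 (by simp) h2 ?_
    have : p - 4 + ((4 : ℕ) : ZMod (m + 2 * j)) = p := by push_cast; ring
    rw [this]; exact h1
  -- forward adjacencies
  have hf : ∀ p : ZMod (m + 2 * j), ∀ e : ℕ, e ≤ 1 + 2 * j → e % 2 = 1 % 2 →
      G.Adj (W p) (W (p + (e : ZMod (m + 2 * j)))) → e = 1 ∨ e = 3 := by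
    intro p e he1 he2 ha
    by_contra hcon
    push Not at hcon
    obtain ⟨l, hl⟩ : ∃ l, e = 2 * l + 1 := ⟨e / 2, by omega⟩
    refine hL ⟨l, mem_Icc.2 ⟨by omega, by omega⟩, p, ?_⟩
    rw [← hl]; exact ha
  have hadj : ∀ p q, G.Adj (W p) (W q) → q = p + 1 ∨ q = p - 1 ∨ q = p + 3 ∨ q = p - 3 := by
    intro p q ha
    obtain ⟨e, he1, he2, he3⟩ := arc (M := m + 2 * j) rfl ho hG hcl (wk_one.2 ha)
    rcases he3 with he3 | he3
    · rw [he3] at ha
      rcases hf p e he1 he2 ha with h | h
      · left; rw [he3, h]; push_cast; ring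
      · right; right; left; rw [he3, h]; push_cast; ring
    · have hp : p = q + (e : ZMod (m + 2 * j)) := by rw [he3]; ring
      have ha' := ha.symm
      rw [hp] at ha'
      rcases hf q e he1 he2 ha' with h | h
      · right; left; rw [he3, h]; push_cast; ring
      · right; right; right; rw [he3, h]; push_cast; ring
  set J : Finset (ZMod (m + 2 * j)) := univ.filter (fun p => P p ∧ ¬ P (p - 1) ∧ ¬ P (p - 2)) with hJ
  have hmem : ∀ p, p ∈ J ↔ P p ∧ ¬ P (p - 1) ∧ ¬ P (p - 2) := by
    intro p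
    rw [hJ, mem_filter]
    exact and_iff_right (mem_univ _)
  have hsep : Sep 6 J := by
    intro p hp q hq hpq
    by_contra hcon
    push Not at hcon
    obtain ⟨d, hd⟩ : ∃ d, d = (q - p).val := ⟨_, rfl⟩
    have hqd : q = p + (d : ZMod (m + 2 * j)) := by
      rw [hd, ZMod.natCast_zmod_val]; ring
    have hd0 : d ≠ 0 := by
      intro h0
      apply hpq
      rw [hqd, h0]; push_cast; ring
    have hp1 := ((hmem p).1 hp).1
    have hq1 := (hmem q).1 hq
    have hd6 : d < 6 := by omega
    interval_cases d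
    · exact hd0 rfl
    · apply hq1.2.1
      have : q - 1 = p := by rw [hqd]; push_cast; ring
      rw [this]; exact hp1
    · apply hq1.2.2
      have : q - 2 = p := by rw [hqd]; push_cast; ring
      rw [this]; exact hp1
    · exact hcc p 3 (by simp) hp1 (hqd ▸ hq1.1)
    · exact hcc p 4 (by simp) hp1 (hqd ▸ hq1.1)
    · exact hcc p 5 (by simp) hp1 (hqd ▸ hq1.1)
  refine ⟨J, ?_, hadj, hsep, fun p hp => ((hmem p).1 hp).1, ?_⟩
  · refine max_disj (by omega) ho hG j (m + 2 * j) _ rfl W hW J ?_ fun p hp => ((hmem p).1 hp).1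
    intro p hp q hq hpq
    have := hsep p hp q hq hpq
    omega
  · intro p hp
    have hp' : P p := hp
    by_cases h1 : P (p - 1)
    · by_cases h2 : P (p - 2)
      · right; right
        rw [hmem]
        refine ⟨h2, ?_, ?_⟩
        · have : p - 2 - 1 = p - 3 := by ring
          rw [this]; exact h3 p hp'
        · have : p - 2 - 2 = p - 4 := by ring
          rw [this]; exact h4 p hp'
      · right; left
        rw [hmem]
        refine ⟨h1, ?_, ?_⟩
        · have : p - 1 - 1 = p - 2 := by ring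
          rw [this]; exact h2
        · have : p - 1 - 2 = p - 3 := by ring
          rw [this]; exact h3 p hp'
    · by_cases h2 : P (p - 2)
      · right; right
        rw [hmem]
        refine ⟨h2, ?_, ?_⟩
        · have : p - 2 - 1 = p - 3 := by ring
          rw [this]; exact h3 p hp'
        · have : p - 2 - 2 = p - 4 := by ring
          rw [this]; exact h4 p hp'
      · left
        rw [hmem]
        exact ⟨hp', h1, h2⟩

end Pool.Agent.CycSh
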