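import Pool.Agent.W_1bfdb5sh_h41.Df
import Pool.Agent.W_1bfdb5fd_h19.Cut
import Pool.Agent.W_1bfdb5fd_h19.Dj

/-!
# Nice closed walks
-/

namespace Pool.Agent.CycSh

open Finset Pool.Agent.CycGT Pool.Agent.CycFD
open scoped Classical

variable {V : Type} [Fintype V] {G : SimpleGraph V}

private lemma zc {n c d : ℕ} (hn : 0 < n) (h : (c : ZMod n) = (d : ZMod n)) (hc : c < 2 * n)
    (hd : d < 2 * n) : c = d ∨ c = d + n ∨ d = c + n := by
  rw [ZMod.natCast_eq_natCast_iff'] at h
  have h1 : c % n = c ∧ c < n ∨ c % n = c - n ∧ n ≤ c := by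
    rcases Nat.lt_or_ge c n with h2 | h2
    · exact Or.inl ⟨Nat.mod_eq_of_lt h2, h2⟩
    · refine Or.inr ⟨?_, h2⟩
      rw [Nat.mod_eq_sub_mod h2, Nat.mod_eq_of_lt (by omega)]
  have h3 : d % n = d ∧ d < n ∨ d % n = d - n ∧ n ≤ d := by
    rcases Nat.lt_or_ge d n with h2 | h2
    · exact Or.inl ⟨Nat.mod_eq_of_lt h2, h2⟩
    · refine Or.inr ⟨?_, h2⟩
      rw [Nat.mod_eq_sub_mod h2, Nat.mod_eq_of_lt (by omega)]
  omega

omit [Fintype V] in
private lemma wn_cut {r : ℕ} [NeZero r] (W : ZMod (r + 2) → V) {j : ℕ} (h1 : 1 ≤ j)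
    (h2 : j ≤ r) : cut 2 W (j : ZMod r) = W ((j + 2 : ℕ) : ZMod (r + 2)) := by
  rcases Nat.lt_or_ge j r with h | h
  · have hv : ((j : ℕ) : ZMod r).val = j := ZMod.val_natCast_of_lt h
    have h0 : ((j : ℕ) : ZMod r) ≠ 0 := by
      intro h0
      rw [h0, ZMod.val_zero] at hv
      omega
    unfold cut
    rw [if_neg h0, hv]
  · have hj : j = r := le_antisymm h2 h
    subst hj
    unfold cut
    rw [if_pos (ZMod.natCast_self j), ZMod.natCast_self (j + 2)]

private lemma njb_cut0 {s r : ℕ} [NeZero r] (hr : 13 ≤ r) {W : ZMod (r + 2) → V}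
    (h1 : ∀ p q, G.Adj (W p) (W q) → q = p + 1 ∨ q = p - 1 ∨ q = p + 3 ∨ q = p - 3)
    {J : Finset (ZMod (r + 2))} (hJ : #J = s + 1) (h3 : Sep 6 J)
    (h4 : ∀ p ∈ J, G.Adj (W p) (W (p + 3)))
    (h5 : ∀ p, G.Adj (W p) (W (p + 3)) → p ∈ J ∨ p - 1 ∈ J ∨ p - 2 ∈ J)
    (h0 : 0 ∈ J) : ∃ J' : Finset (ZMod r), #J' = s ∧ Nice G (cut 2 W) J' := by
  have hrep : ∀ i : ZMod r, ∃ a : ℕ, 1 ≤ a ∧ a ≤ r ∧ (a : ZMod r) = i := by
    intro i
    rcases Nat.eq_zero_or_pos i.val with h | h
    · refine ⟨r, by omega, le_rfl, ?_⟩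
      rw [ZMod.natCast_self]
      exact ((ZMod.val_eq_zero i).1 h).symm
    · exact ⟨i.val, h, (ZMod.val_lt i).le, ZMod.natCast_zmod_val i⟩
  have hJv : ∀ q ∈ J, q ≠ 0 → 6 ≤ q.val ∧ q.val + 6 ≤ r + 2 := by
    intro q hq hne
    have := sep_two h3 h0 hq (Ne.symm hne)
    rwa [sub_zero] at this
  have hJn : ∀ n : ℕ, 0 < n → n < r + 2 → (n : ZMod (r + 2)) ∈ J → 6 ≤ n ∧ n + 6 ≤ r + 2 := by
    intro n hn1 hn2 hn
    have hv : ((n : ℕ) : ZMod (r + 2)).val = n := ZMod.val_natCast_of_lt hn2
    have := hJv _ hn (by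
      intro h
      rw [h, ZMod.val_zero] at hv
      omega)
    rwa [hv] at this
  have hcast : ∀ q ∈ J, q ≠ 0 → (((q.val - 2 : ℕ) : ZMod r)).val = q.val - 2 := by
    intro q hq hne
    have := hJv q hq hne
    exact ZMod.val_natCast_of_lt (by omega)
  refine ⟨(J.erase 0).image (fun q => ((q.val - 2 : ℕ) : ZMod r)), ?_, ⟨fun i i' hadj => ?_, ?_,
    ?_, ?_⟩⟩
  rotate_left
  · obtain ⟨a, ha1, ha2, rfl⟩ := hrep i
    obtain ⟨b, hb1, hb2, rfl⟩ := hrep i'
    rw [wn_cut W ha1 ha2, wn_cut W hb1 hb2] at hadj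
    have hn0 : 0 < r + 2 := by omega
    have key : b = a + 1 ∨ a = b + 1 ∨ b = a + 3 ∨ a = b + 3 ∨ a + r = b + 1 ∨ b + r = a + 1 ∨
        a + r = b + 3 ∨ b + r = a + 3 := by
      rcases h1 _ _ hadj with e | e | e | e
      · have e' : ((b + 2 : ℕ) : ZMod (r + 2)) = ((a + 3 : ℕ) : ZMod (r + 2)) := by
          push_cast at e ⊢
          linear_combination e
        rcases zc hn0 e' (by omega) (by omega) with h | h | h <;> omega
      · have e' : ((b + 3 : ℕ) : ZMod (r + 2)) = ((a + 2 : ℕ) : ZMod (r + 2)) := by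
          push_cast at e ⊢
          linear_combination e
        rcases zc hn0 e' (by omega) (by omega) with h | h | h <;> omega
      · have e' : ((b + 2 : ℕ) : ZMod (r + 2)) = ((a + 5 : ℕ) : ZMod (r + 2)) := by
          push_cast at e ⊢
          linear_combination e
        rcases zc hn0 e' (by omega) (by omega) with h | h | h <;> omega
      · have e' : ((b + 5 : ℕ) : ZMod (r + 2)) = ((a + 2 : ℕ) : ZMod (r + 2)) := by
          push_cast at e ⊢
          linear_combination e
        rcases zc hn0 e' (by omega) (by omega) with h | h | h <;> omega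
    have hr0 : ((r : ℕ) : ZMod r) = 0 := ZMod.natCast_self r
    rcases key with h | h | h | h | h | h | h | h
    · left; rw [h]; push_cast; ring
    · right; left; rw [h]; push_cast; ring
    · right; right; left; rw [h]; push_cast; ring
    · right; right; right; rw [h]; push_cast; ring
    · right; left
      have := congrArg (fun n : ℕ => (n : ZMod r)) h
      push_cast at this
      rw [hr0] at this
      linear_combination -this
    · left
      have := congrArg (fun n : ℕ => (n : ZMod r)) h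
      push_cast at this
      rw [hr0] at this
      linear_combination this
    · right; right; right
      have := congrArg (fun n : ℕ => (n : ZMod r)) h
      push_cast at this
      rw [hr0] at this
      linear_combination -this
    · right; right; left
      have := congrArg (fun n : ℕ => (n : ZMod r)) h
      push_cast at this
      rw [hr0] at this
      linear_combination this
  · intro i hi i' hi' hne
    obtain ⟨q, hq, rfl⟩ := mem_image.1 hi
    obtain ⟨q', hq', rfl⟩ := mem_image.1 hi'
    obtain ⟨hq0, hqJ⟩ := mem_erase.1 hq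
    obtain ⟨hq0', hqJ'⟩ := mem_erase.1 hq'
    have h7 := hJv q hqJ hq0
    have h8 := hJv q' hqJ' hq0'
    have hqq : q ≠ q' := fun e => hne (by rw [e])
    have h9 := h3 q hqJ q' hqJ' hqq
    rcases Nat.lt_or_ge q'.val q.val with h | h
    · have e : ((q'.val - 2 : ℕ) : ZMod r) - ((q.val - 2 : ℕ) : ZMod r) =
          ((q'.val + r - q.val : ℕ) : ZMod r) := by
        rw [Nat.cast_sub (by omega), Nat.cast_sub (by omega), Nat.cast_sub (by omega)]
        push_cast
        rw [ZMod.natCast_self]
        ring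
      rw [e, ZMod.val_natCast_of_lt (by omega)]
      omega
    · have e : ((q'.val - 2 : ℕ) : ZMod r) - ((q.val - 2 : ℕ) : ZMod r) =
          ((q'.val - q.val : ℕ) : ZMod r) := by
        rw [Nat.cast_sub (by omega), Nat.cast_sub (by omega), Nat.cast_sub (by omega)]
        push_cast
        ring
      rw [e, ZMod.val_natCast_of_lt (by omega)]
      have e2 : q' - q = ((q'.val - q.val : ℕ) : ZMod (r + 2)) := by
        rw [Nat.cast_sub h, ZMod.natCast_zmod_val, ZMod.natCast_zmod_val]
      rw [e2, ZMod.val_natCast_of_lt (by omega)] at h9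
      exact h9
  · intro i hi
    obtain ⟨q, hq, rfl⟩ := mem_image.1 hi
    obtain ⟨hq0, hqJ⟩ := mem_erase.1 hq
    have h7 := hJv q hqJ hq0
    exact cut_chord (by omega) (by omega) (h4 q hqJ)
  · intro i hadj
    obtain ⟨a, ha1, ha2, rfl⟩ := hrep i
    have hn0 : 0 < r + 2 := by omega
    have hr0 : ((r : ℕ) : ZMod r) = 0 := ZMod.natCast_self r
    have hz : ∀ n : ℕ, 0 < n → n < r + 2 → (n : ZMod (r + 2)) ≠ 0 := by
      intro n h0 h1 h2
      rw [ZMod.natCast_eq_zero_iff] at h2
      exact absurd (Nat.le_of_dvd h0 h2) (by omega)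
    rcases Nat.lt_or_ge r (a + 3) with h | h
    · exfalso
      have e : (a : ZMod r) + 3 = ((a + 3 - r : ℕ) : ZMod r) := by
        rw [Nat.cast_sub (by omega)]
        push_cast
        rw [hr0]
        ring
      rw [e, wn_cut W ha1 ha2, wn_cut W (by omega) (by omega)] at hadj
      rcases h1 _ _ hadj with e | e | e | e
      · have e' : ((a + 3 - r + 2 : ℕ) : ZMod (r + 2)) = ((a + 3 : ℕ) : ZMod (r + 2)) := by
          push_cast at e ⊢
          linear_combination e
        rcases zc hn0 e' (by omega) (by omega) with h | h | h <;> omega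
      · have e' : ((a + 3 - r + 3 : ℕ) : ZMod (r + 2)) = ((a + 2 : ℕ) : ZMod (r + 2)) := by
          push_cast at e ⊢
          linear_combination e
        rcases zc hn0 e' (by omega) (by omega) with h | h | h <;> omega
      · have e' : ((a + 3 - r + 2 : ℕ) : ZMod (r + 2)) = ((a + 5 : ℕ) : ZMod (r + 2)) := by
          push_cast at e ⊢
          linear_combination e
        rcases zc hn0 e' (by omega) (by omega) with h | h | h <;> omega
      · have e' : ((a + 3 - r + 5 : ℕ) : ZMod (r + 2)) = ((a + 2 : ℕ) : ZMod (r + 2)) := by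
          push_cast at e ⊢
          linear_combination e
        rcases zc hn0 e' (by omega) (by omega) with h | h | h <;> omega
    · have e : (a : ZMod r) + 3 = ((a + 3 : ℕ) : ZMod r) := by push_cast; ring
      rw [e, wn_cut W ha1 ha2, wn_cut W (by omega) h] at hadj
      have e2 : ((a + 3 + 2 : ℕ) : ZMod (r + 2)) = ((a + 2 : ℕ) : ZMod (r + 2)) + 3 := by
        push_cast
        ring
      rw [e2] at hadj
      rcases h5 _ hadj with h6 | h6 | h6
      · left
        refine mem_image.2 ⟨_, mem_erase.2 ⟨hz (a + 2) (by omega) (by omega), h6⟩, ?_⟩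
        rw [ZMod.val_natCast_of_lt (by omega)]
        congr 1
      · right; left
        have e3 : ((a + 2 : ℕ) : ZMod (r + 2)) - 1 = ((a + 1 : ℕ) : ZMod (r + 2)) := by
          push_cast
          ring
        rw [e3] at h6
        have h7 := hJn (a + 1) (by omega) (by omega) h6
        refine mem_image.2 ⟨_, mem_erase.2 ⟨hz (a + 1) (by omega) (by omega), h6⟩, ?_⟩
        rw [ZMod.val_natCast_of_lt (by omega)]
        have e4 : a + 1 - 2 = a - 1 := by omega
        rw [e4, Nat.cast_sub (by omega)]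
        push_cast
        ring
      · right; right
        have e3 : ((a + 2 : ℕ) : ZMod (r + 2)) - 2 = ((a : ℕ) : ZMod (r + 2)) := by
          push_cast
          ring
        rw [e3] at h6
        have h7 := hJn a (by omega) (by omega) h6
        refine mem_image.2 ⟨_, mem_erase.2 ⟨hz a (by omega) (by omega), h6⟩, ?_⟩
        rw [ZMod.val_natCast_of_lt (by omega), Nat.cast_sub (by omega)]
        push_cast
        ring
  · rw [card_image_of_injOn, card_erase_of_mem h0, hJ]
    · rfl
    · intro q hq q' hq' h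
      have hq2 := mem_erase.1 (mem_coe.1 hq)
      have hq2' := mem_erase.1 (mem_coe.1 hq')
      have h6 := congrArg ZMod.val h
      beta_reduce at h6
      rw [hcast q hq2.2 hq2.1, hcast q' hq2'.2 hq2'.1] at h6
      have h7 := hJv q hq2.2 hq2.1
      have h8 := hJv q' hq2'.2 hq2'.1
      exact ZMod.val_injective _ (by omega)

/-- Cutting an element of `J`. -/
theorem nice_cut {r : ℕ} [NeZero r] (hr : 20 ≤ r) {W : ZMod (r + 2) → V}
    {J : Finset (ZMod (r + 2))} (h : Nice G W J) {p : ZMod (r + 2)} (hp : p ∈ J) :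
    ∃ J' : Finset (ZMod r), #J' + 1 = #J ∧ Nice G (cut 2 (rot (M := r + 2) W p)) J' := by
  obtain ⟨s, hs⟩ : ∃ s, #J = s + 1 := ⟨#J - 1, by
    have := card_pos.2 ⟨p, hp⟩
    omega⟩
  have key : ∃ J' : Finset (ZMod r), #J' = s ∧ Nice G (cut 2 (rot (M := r + 2) W p)) J' := by
    refine njb_cut0 (G := G) (J := J.image (fun q => q - p)) (by omega) ?_ ?_ ?_ ?_ ?_ ?_
    · intro a b hab
      rcases h.adj (p + a) (p + b) hab with e | e | e | e
      · exact Or.inl (by linear_combination e)
      · exact Or.inr (Or.inl (by linear_combination e))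
      · exact Or.inr (Or.inr (Or.inl (by linear_combination e)))
      · exact Or.inr (Or.inr (Or.inr (by linear_combination e)))
    · rw [card_image_of_injective _ (fun a b hab => sub_left_injective hab), hs]
    · intro a ha b hb hab
      obtain ⟨a', ha', rfl⟩ := mem_image.1 ha
      obtain ⟨b', hb', rfl⟩ := mem_image.1 hb
      have e : b' - p - (a' - p) = b' - a' := by ring
      rw [e]
      exact h.sep a' ha' b' hb' (fun e' => hab (by rw [e']))
    · intro a ha
      obtain ⟨a', ha', rfl⟩ := mem_image.1 ha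
      have := h.ch a' ha'
      show G.Adj (W (p + (a' - p))) (W (p + (a' - p + 3)))
      have e1 : p + (a' - p) = a' := by ring
      have e2 : p + (a' - p + 3) = a' + 3 := by ring
      rw [e1, e2]
      exact this
    · intro a ha
      have ha' : G.Adj (W (p + a)) (W (p + a + 3)) := by
        have e2 : p + (a + 3) = p + a + 3 := by ring
        rw [← e2]
        exact ha
      rcases h.cov (p + a) ha' with e | e | e
      · exact Or.inl (mem_image.2 ⟨_, e, by ring⟩)
      · exact Or.inr (Or.inl (mem_image.2 ⟨_, e, by ring⟩))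
      · exact Or.inr (Or.inr (mem_image.2 ⟨_, e, by ring⟩))
    · exact mem_image.2 ⟨p, hp, by ring⟩
  obtain ⟨J', hJ', hN⟩ := key
  exact ⟨J', by omega, hN⟩

end Pool.Agent.CycSh
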