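import Pool.Agent.W_1bfdb5sh_h41.Df
import Pool.Agent.W_1bfdb5fd_h19.Cut
import Pool.Agent.W_1bfdb5fd_h19.Dj

/-!
# Nice closed walks
-/

namespace Pool.Agent.CycSh

open Finset Pool.Agent.CycGT Pool.Agent.CycFD
open scoped Classical

variable {V : Type} [Fintype V] {G : SimpleGraph V}

omit [Fintype V] in
private lemma nja_fc {r e : ℕ} [NeZero r] (hr : 2 * e + 12 ≤ r) {W : ZMod (r + 2) → V}
    (h1 : ∀ p q, G.Adj (W p) (W q) → q = p + 1 ∨ q = p - 1 ∨ q = p + 3 ∨ q = p - 3)
    {J : Finset (ZMod (r + 2))} (h3 : Sep 6 J) (h4 : ∀ p ∈ J, G.Adj (W p) (W (p + 3)))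
    (h5 : ∀ p, G.Adj (W p) (W (p + 3)) → p ∈ J ∨ p - 1 ∈ J ∨ p - 2 ∈ J)
    {p : ZMod (r + 2)} (hp : p ∈ J) : FCe G e W p := by
  have hz : ∀ n : ℕ, 0 < n → n < r + 2 → (n : ZMod (r + 2)) ≠ 0 := by
    intro n h0 h1 h2
    rw [ZMod.natCast_eq_zero_iff] at h2
    exact absurd (Nat.le_of_dvd h0 h2) (by omega)
  have hns : ∀ d : ℕ, 1 ≤ d → d ≤ 5 → p - (d : ZMod (r + 2)) ∉ J := by
    intro d hd1 hd5 hmem
    have hne : p - (d : ZMod (r + 2)) ≠ p := by
      intro e'
      exact hz d (by omega) (by omega) (by linear_combination -e')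
    have := h3 _ hmem _ hp hne
    have e1 : p - (p - (d : ZMod (r + 2))) = (d : ZMod (r + 2)) := by ring
    rw [e1, ZMod.val_natCast_of_lt (by omega)] at this
    omega
  have hnp : ∀ d : ℕ, 1 ≤ d → d ≤ 3 →
      ¬ G.Adj (W (p - (d : ZMod (r + 2)))) (W (p - (d : ZMod (r + 2)) + 3)) := by
    intro d hd1 hd3 hadj
    rcases h5 _ hadj with e' | e' | e'
    · exact hns d hd1 (by omega) e'
    · have := hns (d + 1) (by omega) (by omega)
      push_cast at this
      apply this
      have e1 : p - ((d : ZMod (r + 2)) + 1) = p - (d : ZMod (r + 2)) - 1 := by ring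
      rw [e1]
      exact e'
    · have := hns (d + 2) (by omega) (by omega)
      push_cast at this
      apply this
      have e1 : p - ((d : ZMod (r + 2)) + 2) = p - (d : ZMod (r + 2)) - 2 := by ring
      rw [e1]
      exact e'
  refine ⟨h4 p hp, fun a ha => ⟨fun hadj => ?_, fun hadj => ?_⟩⟩
  · rw [mem_Icc] at ha
    rcases h1 _ _ hadj with e' | e' | e' | e'
    · refine hz (2 * a + 2) (by omega) (by omega) ?_
      push_cast
      linear_combination -e'
    · refine hz (2 * a) (by omega) (by omega) ?_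
      push_cast
      linear_combination -e'
    · refine hz (2 * a + 4) (by omega) (by omega) ?_
      push_cast
      linear_combination -e'
    · rcases Nat.lt_or_ge 1 a with h | h
      · refine hz (2 * a - 2) (by omega) (by omega) ?_
        rw [Nat.cast_sub (by omega)]
        push_cast
        linear_combination -e'
      · obtain rfl : a = 1 := by omega
        refine hnp 2 (by omega) (by omega) ?_
        have e1 : p - ((2 : ℕ) : ZMod (r + 2)) + 3 = p + 1 := by
          push_cast
          ring
        rw [e1]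
        have e2 : p - 2 * ((1 : ℕ) : ZMod (r + 2)) = p - ((2 : ℕ) : ZMod (r + 2)) := by
          push_cast
          ring
        rw [e2] at hadj
        exact hadj.symm
  · rw [mem_Icc] at ha
    rcases h1 _ _ hadj with e' | e' | e' | e'
    · refine hz (2 * a + 2) (by omega) (by omega) ?_
      push_cast
      linear_combination -e'
    · refine hz (2 * a) (by omega) (by omega) ?_
      push_cast
      linear_combination -e'
    · refine hz (2 * a + 4) (by omega) (by omega) ?_
      push_cast
      linear_combination -e'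
    · rcases Nat.lt_or_ge 1 a with h | h
      · refine hz (2 * a - 2) (by omega) (by omega) ?_
        rw [Nat.cast_sub (by omega)]
        push_cast
        linear_combination -e'
      · obtain rfl : a = 1 := by omega
        refine hnp 1 (by omega) (by omega) ?_
        have e1 : p - ((1 : ℕ) : ZMod (r + 2)) + 3 = p + 2 := by
          push_cast
          ring
        rw [e1]
        have e2 : p + 1 - 2 * ((1 : ℕ) : ZMod (r + 2)) = p - ((1 : ℕ) : ZMod (r + 2)) := by
          push_cast
          ring
        rw [e2] at hadj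
        exact hadj.symm

/-- The elements of `J` are first chords. -/
theorem nice_fc {r e : ℕ} [NeZero r] (hr : 2 * e + 14 ≤ r) {W : ZMod r → V}
    {J : Finset (ZMod r)} (h : Nice G W J) {p : ZMod r} (hp : p ∈ J) : FCe G e W p := by
  obtain ⟨q, rfl⟩ : ∃ q, r = q + 2 := ⟨r - 2, by omega⟩
  haveI : NeZero q := ⟨by omega⟩
  exact nja_fc (r := q) (by omega) h.adj h.sep h.ch h.cov hp

theorem nice_zero {r : ℕ} [NeZero r] {W : ZMod r → V} (hW : W ∈ clos G r) (h : Nice G W ∅) :
    W ∈ AI G r := by
  have h6 : ∀ p, ¬ G.Adj (W p) (W (p + 3)) := by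
    intro p hp
    rcases h.cov p hp with e | e | e <;> exact notMem_empty _ e
  rw [mem_AI]
  refine ⟨mem_clos.1 hW, fun p q hpq => ?_⟩
  rcases h.adj p q hpq with e | e | e | e
  · exact Or.inl e
  · exact Or.inr e
  · exact (h6 p (e ▸ hpq)).elim
  · refine (h6 q ?_).elim
    have e' : q + 3 = p := by rw [e]; ring
    rw [e']
    exact hpq.symm

end Pool.Agent.CycSh
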