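import Pool.Agent.W_1bfdb5sh_h41.NbA
import Pool.Agent.W_1bfdb5sh_h41.NbB
import Pool.Agent.W_1bfdb5sh_h41.NbC
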