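import Pool.Agent.W_1bfdb5sh_h41.Ub
import Pool.Agent.W_1bfdb5fd_h19.Op
import Pool.Agent.W_1bfdb5fd_h19.Pt

/-!
# Optimisation on the cycle
-/

namespace Pool.Agent.CycSh

open Finset Pool.Agent.CycGT Pool.Agent.CycFD
open scoped Classical

theorem exp_two (z : ℝ) : Real.exp z ≤ 1 + z + z ^ 2 / 2 * (1 + Real.exp z) := by
  have he : 0 < Real.exp z := Real.exp_pos z
  rcases le_total z 0 with hz | hz
  · -- `z ≤ 0`
    have h1 : 1 + (-z) + (-z) ^ 2 / 2 ≤ Real.exp (-z) :=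
      Real.quadratic_le_exp_of_nonneg (by linarith)
    have h2 : Real.exp z * Real.exp (-z) = 1 := by
      rw [← Real.exp_add, add_neg_cancel, Real.exp_zero]
    have h3 : Real.exp z * (1 + (-z) + (-z) ^ 2 / 2) ≤ 1 :=
      (mul_le_mul_of_nonneg_left h1 he.le).trans h2.le
    have h4 : Real.exp z ≤ 1 + z + z ^ 2 / 2 := by
      have h5 : 0 < 1 + (-z) + (-z) ^ 2 / 2 := by nlinarith
      have h6 : 1 ≤ (1 + z + z ^ 2 / 2) * (1 + (-z) + (-z) ^ 2 / 2) := by
        nlinarith [sq_nonneg (z ^ 2)]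
      have h7 : Real.exp z * (1 + (-z) + (-z) ^ 2 / 2) ≤
          (1 + z + z ^ 2 / 2) * (1 + (-z) + (-z) ^ 2 / 2) := h3.trans h6
      exact le_of_mul_le_mul_right h7 h5
    nlinarith [mul_nonneg (sq_nonneg z) he.le]
  · -- `0 ≤ z`
    rcases le_total 2 (z ^ 2) with h2 | h2
    · nlinarith [mul_nonneg (sub_nonneg.2 h2) he.le]
    · have h3 : z ≤ 2 := by nlinarith
      have h4 : 1 - z / 2 ≤ Real.exp (-(z / 2)) := by
        have := Real.add_one_le_exp (-(z / 2))
        linarith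
      have h5 : (1 - z / 2) ^ 2 ≤ Real.exp (-z) := by
        have h6 : Real.exp (-z) = Real.exp (-(z / 2)) ^ 2 := by
          rw [← Real.exp_nat_mul]
          congr 1
          push_cast
          ring
        rw [h6]
        exact pow_le_pow_left₀ (by linarith) h4 2
      have h7 : Real.exp z * Real.exp (-z) = 1 := by
        rw [← Real.exp_add, add_neg_cancel, Real.exp_zero]
      have h8 : (1 - z ^ 2 / 2) ≤ (1 + z + z ^ 2 / 2) * Real.exp (-z) := by
        have h9 : 0 ≤ 1 + z + z ^ 2 / 2 := by nlinarith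
        refine le_trans ?_ (mul_le_mul_of_nonneg_left h5 h9)
        nlinarith [mul_nonneg (sq_nonneg z) (sq_nonneg (1 - z)), sq_nonneg z]
      have h10 : Real.exp z * (1 - z ^ 2 / 2) ≤ 1 + z + z ^ 2 / 2 := by
        calc Real.exp z * (1 - z ^ 2 / 2) ≤ Real.exp z * ((1 + z + z ^ 2 / 2) * Real.exp (-z)) :=
              mul_le_mul_of_nonneg_left h8 he.le
          _ = (1 + z + z ^ 2 / 2) * (Real.exp z * Real.exp (-z)) := by ring
          _ = 1 + z + z ^ 2 / 2 := by rw [h7, mul_one]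
      nlinarith

/-- The abstract step: `P` a finite set of `h` with visits `e h t`, weights `exp (z_h)`. -/
theorem opt_abs_w {m : ℕ} [NeZero m] {ι : Type*} (P : Finset ι) (e : ι → ZMod m → ℕ) (j : ℕ)
    (h1 : ∀ h ∈ P, ∑ t, e h t = 2 * j)
    (h2 : ∀ t, (m : ℝ) * ∑ h ∈ P, (e h t : ℝ) = 2 * j * #P)
    (d : ZMod m → ℝ) (hd : ∑ t, d t = 0) {U : ℝ}
    (hU : ∀ t, ∑ h ∈ P, (e h t : ℝ) * Real.exp (∑ s, (e h s : ℝ) * d s) ≤ U) :
    ∑ h ∈ P, Real.exp (∑ s, (e h s : ℝ) * d s) ≤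
      #P + j * (∑ t, d t ^ 2) * (2 * j * #P / m + U) := by
  have hm : (0 : ℝ) < m := by
    have : m ≠ 0 := NeZero.ne m
    exact_mod_cast Nat.pos_of_ne_zero this
  have h2' : ∀ t, ∑ h ∈ P, (e h t : ℝ) = 2 * j * #P / m := by
    intro t
    rw [eq_div_iff hm.ne', mul_comm]
    exact h2 t
  set z : ι → ℝ := fun h => ∑ s, (e h s : ℝ) * d s with hz
  -- the linear term
  have hlin : ∑ h ∈ P, z h = 0 := by
    rw [hz]
    simp only
    rw [Finset.sum_comm]
    have : ∀ s, ∑ h ∈ P, (e h s : ℝ) * d s = (2 * j * #P / m) * d s := by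
      intro s
      rw [← Finset.sum_mul, h2' s]
    rw [Finset.sum_congr rfl fun s _ => this s, ← Finset.mul_sum, hd, mul_zero]
  -- the quadratic term
  have hcs : ∀ h ∈ P, z h ^ 2 ≤ 2 * j * ∑ s, (e h s : ℝ) * d s ^ 2 := by
    intro h hh
    have h3 : (∑ s, (e h s : ℝ)) = 2 * j := by exact_mod_cast h1 h hh
    have h4 := Finset.sum_mul_sq_le_sq_mul_sq (univ : Finset (ZMod m))
      (fun s => Real.sqrt (e h s)) (fun s => Real.sqrt (e h s) * d s)
    have e1 : ∀ s, Real.sqrt (e h s) * (Real.sqrt (e h s) * d s) = (e h s : ℝ) * d s := by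
      intro s
      rw [← mul_assoc, Real.mul_self_sqrt (Nat.cast_nonneg _)]
    have e2 : ∀ s, Real.sqrt (e h s) ^ 2 = (e h s : ℝ) := fun s => Real.sq_sqrt (Nat.cast_nonneg _)
    have e3 : ∀ s, (Real.sqrt (e h s) * d s) ^ 2 = (e h s : ℝ) * d s ^ 2 := by
      intro s
      rw [mul_pow, Real.sq_sqrt (Nat.cast_nonneg _)]
    simp only [e1, e2, e3, h3] at h4
    exact h4
  have hmain : ∀ h ∈ P, Real.exp (z h) ≤
      1 + z h + j * ∑ s, d s ^ 2 * ((e h s : ℝ) + (e h s : ℝ) * Real.exp (z h)) := by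
    intro h hh
    have h3 := exp_two (z h)
    have h4 := hcs h hh
    have h5 : 0 ≤ 1 + Real.exp (z h) := by
      have := Real.exp_pos (z h)
      linarith
    have h6 := mul_le_mul_of_nonneg_right h4 h5
    have h7 : (j : ℝ) * ∑ s, d s ^ 2 * ((e h s : ℝ) + (e h s : ℝ) * Real.exp (z h)) =
        (2 * j * ∑ s, (e h s : ℝ) * d s ^ 2) * (1 + Real.exp (z h)) / 2 := by
      have h8 : ∀ s, d s ^ 2 * ((e h s : ℝ) + (e h s : ℝ) * Real.exp (z h)) =
          ((e h s : ℝ) * d s ^ 2) * (1 + Real.exp (z h)) := fun s => by ring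
      rw [Finset.sum_congr rfl fun s _ => h8 s, ← Finset.sum_mul]
      ring
    rw [h7]
    linarith
  calc ∑ h ∈ P, Real.exp (z h)
      ≤ ∑ h ∈ P, (1 + z h + j * ∑ s, d s ^ 2 * ((e h s : ℝ) + (e h s : ℝ) * Real.exp (z h))) :=
        sum_le_sum hmain
    _ = #P + 0 + j * ∑ s, d s ^ 2 * (∑ h ∈ P, (e h s : ℝ) +
          ∑ h ∈ P, (e h s : ℝ) * Real.exp (z h)) := by
        rw [sum_add_distrib, sum_add_distrib, hlin, sum_const, nsmul_eq_mul, mul_one,
          ← Finset.mul_sum, Finset.sum_comm]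
        congr 2
        refine Finset.sum_congr rfl fun s _ => ?_
        rw [← Finset.mul_sum, sum_add_distrib]
    _ ≤ #P + j * (∑ t, d t ^ 2) * (2 * j * #P / m + U) := by
        rw [add_zero, mul_assoc, Finset.sum_mul]
        refine add_le_add le_rfl (mul_le_mul_of_nonneg_left (sum_le_sum fun s _ => ?_)
          (Nat.cast_nonneg _))
        refine mul_le_mul_of_nonneg_left ?_ (sq_nonneg _)
        rw [h2' s]
        exact add_le_add le_rfl (hU s)

end Pool.Agent.CycSh
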