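import Pool.Agent.W_1bfdb5sh_h41.Ub
import Pool.Agent.W_1bfdb5fd_h19.Op
import Pool.Agent.W_1bfdb5fd_h19.Pt
import Pool.Agent.W_1bfdb5sh_h41.OwA
import Pool.Agent.W_1bfdb5sh_h41.CyA

/-!
# Optimisation on the cycle
-/

namespace Pool.Agent.CycSh

open Finset Pool.Agent.CycGT Pool.Agent.CycFD
open scoped Classical

theorem opt_w {m j : ℕ} [NeZero m] (hcl : ∀ i, i < j → Clm m i) (ho : Odd m)
    (hm : 1000 * (j + 1) ^ 2 ≤ m) (v : ZMod m → ℝ) (hs : ∑ t, v t = m)
    (hv : ∀ t, |v t - 1| ≤ 1 / 10) (h2 : ∑ t, (v t - 1) ^ 2 ≤ 1) :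
    Fw (Cy m) (m + 2 * j) v ≤ Tn m j := by
  have hj2 : (j + 1) ≤ (j + 1) ^ 2 := Nat.le_self_pow (by norm_num) _
  have hm3 : 3 ≤ m := by omega
  have hjm : j < m := by omega
  have hr : Odd (m + 2 * j) := ho.add_even (even_two_mul j)
  have hm0 : (0 : ℝ) < m := by exact_mod_cast Nat.pos_of_ne_zero (NeZero.ne m)
  set d : ZMod m → ℝ := fun t => v t - 1 with hd
  have hvd : ∀ t, v t = 1 + d t := fun t => by simp [hd]
  have hdε : ∀ t, |d t| ≤ 1 / 10 := hv
  have hv0 : ∀ t, 0 ≤ v t := fun t => by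
    have := (abs_le.1 (hdε t)).1
    rw [hvd]; linarith
  have hds : ∑ t, d t = 0 := by
    simp only [hd, sum_sub_distrib, hs, sum_const, card_univ, ZMod.card, nsmul_eq_mul, mul_one,
      sub_self]
  set D : ℝ := ∑ t, d t ^ 2 with hD
  have hD0 : 0 ≤ D := sum_nonneg fun t _ => sq_nonneg _
  have hT0 : 0 ≤ Tn m j := Tn_nonneg m j
  have hcard : (#(pats (m + 2 * j) m) : ℝ) = Tn m j := by
    rw [pats_card hm3 ho j hjm]
    unfold Tn
    push_cast
    ring
  have hprod : ∏ t, v t ≤ Real.exp (-(D / 3)) := by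
    calc ∏ t, v t ≤ ∏ t, Real.exp (d t - d t ^ 2 / 3) := by
          apply prod_le_prod (fun t _ => hv0 t)
          intro t _
          rw [hvd]
          exact opt_aux1 ((hdε t).trans (by norm_num))
      _ = Real.exp (-(D / 3)) := by
          rw [← Real.exp_sum, sum_sub_distrib, hds, ← sum_div]
          congr 1
          ring
  have hprod0 : 0 ≤ ∏ t, v t := prod_nonneg fun t _ => hv0 t
  have hpw : ∀ h : ZMod (m + 2 * j) → ZMod m, ∏ t, v t ^ vis h t ≤
      Real.exp (∑ t, (vis h t : ℝ) * d t) := by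
    intro h
    calc ∏ t, v t ^ vis h t ≤ ∏ t, Real.exp ((vis h t : ℝ) * d t) := by
          apply prod_le_prod (fun t _ => pow_nonneg (hv0 t) _)
          intro t _
          rw [Real.exp_nat_mul]
          apply pow_le_pow_left₀ (hv0 t)
          rw [hvd, add_comm]
          exact Real.add_one_le_exp _
      _ = Real.exp (∑ t, (vis h t : ℝ) * d t) := by rw [← Real.exp_sum]
  have hU : ∀ t, ∑ h ∈ pats (m + 2 * j) m, (vis h t : ℝ) *
      Real.exp (∑ s, (vis h s : ℝ) * d s) ≤ 300 * ((j : ℝ) / m) * Tn m j := by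
    intro t
    have hw := U_le hcl ho hm (fun s => Real.exp (d s)) (fun s => Real.exp_pos _) ?_ ?_ t
    · refine le_trans (le_of_eq (sum_congr rfl fun h hh => ?_)) hw
      congr 1
      rw [vis_prod hm3 ho hr hh (fun s => Real.exp (d s)), ← Real.exp_sum, hds, Real.exp_zero,
        one_mul, Real.exp_sum]
      refine prod_congr rfl fun s _ => ?_
      rw [Real.exp_nat_mul]
    · intro s
      have h1 := (abs_le.1 (hdε s)).2
      have h3 := (abs_le.1 (Real.abs_exp_sub_one_sub_id_le ((hdε s).trans (by norm_num)))).2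
      have h4 : d s ^ 2 ≤ 1 / 100 := by
        have := sq_abs (d s)
        nlinarith [abs_nonneg (d s), hdε s]
      linarith
    · have h3 : ∀ s, Real.exp (d s) ≤ 1 + d s + d s ^ 2 := fun s => by
        have := (abs_le.1 (Real.abs_exp_sub_one_sub_id_le ((hdε s).trans (by norm_num)))).2
        linarith
      calc ∑ s, Real.exp (d s) ≤ ∑ s, (1 + d s + d s ^ 2) := sum_le_sum fun s _ => h3 s
        _ = m + D := by
            rw [sum_add_distrib, sum_add_distrib, hds, sum_const, card_univ, ZMod.card,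
              nsmul_eq_mul, mul_one, add_zero]
        _ ≤ m + 1 := by linarith
  have hS := opt_abs_w (pats (m + 2 * j) m) (fun h t => vis h t) j
    (fun h hh => vis_sum hm3 ho j hh) (vis_rot hm3 ho j) d hds hU
  rw [hcard] at hS
  have hj1 : 1000 * (j : ℝ) ^ 2 ≤ m := by
    have h3 : (1000 * ((j : ℝ) + 1) ^ 2) ≤ m := by exact_mod_cast hm
    have h4 : (0 : ℝ) ≤ j := Nat.cast_nonneg j
    nlinarith
  have hS' : ∑ h ∈ pats (m + 2 * j) m, Real.exp (∑ s, (vis h s : ℝ) * d s) ≤
      Tn m j * (1 + D / 3) := by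
    refine hS.trans ?_
    have e : Tn m j + j * (∑ t, d t ^ 2) *
        (2 * j * Tn m j / m + 300 * ((j : ℝ) / m) * Tn m j) =
        Tn m j * (1 + (302 * (j : ℝ) ^ 2 / m) * D) := by
      rw [← hD]
      field_simp
      ring
    rw [e]
    apply mul_le_mul_of_nonneg_left _ hT0
    have h5 : (302 * (j : ℝ) ^ 2 / m) ≤ 1 / 3 := by
      rw [div_le_div_iff₀ hm0 (by norm_num)]
      nlinarith [sq_nonneg (j : ℝ)]
    nlinarith
  calc Fw (Cy m) (m + 2 * j) v = ∑ h ∈ pats (m + 2 * j) m, ∏ p, v (h p) := by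
        unfold Fw wP
        rw [Cy_clos hm3]
    _ = ∑ h ∈ pats (m + 2 * j) m, (∏ t, v t) * ∏ t, v t ^ vis h t :=
        sum_congr rfl fun h hh => vis_prod hm3 ho hr hh v
    _ = (∏ t, v t) * ∑ h ∈ pats (m + 2 * j) m, ∏ t, v t ^ vis h t := by rw [mul_sum]
    _ ≤ Real.exp (-(D / 3)) * (Tn m j * (1 + D / 3)) := by
        apply mul_le_mul hprod _ _ (Real.exp_pos _).le
        · exact (sum_le_sum fun h _ => hpw h).trans hS'
        · exact sum_nonneg fun h _ => prod_nonneg fun t _ => pow_nonneg (hv0 t) _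
    _ ≤ Real.exp (-(D / 3)) * (Tn m j * Real.exp (D / 3)) := by
        apply mul_le_mul_of_nonneg_left _ (Real.exp_pos _).le
        apply mul_le_mul_of_nonneg_left _ hT0
        rw [add_comm]
        exact Real.add_one_le_exp _
    _ = Tn m j := by
        rw [mul_comm, mul_assoc, ← Real.exp_add]
        simp

end Pool.Agent.CycSh
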