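import Pool.Agent.W_1bfdb5sh_h41.BSt
import Pool.Agent.W_1bfdb5sh_h41.NumB

/-!
# The degrees of a maximiser
-/

namespace Pool.Agent.CycSh

open Finset Pool.Agent.CycGT Pool.Agent.CycFD
open scoped Classical

theorem PB_log_one {m : ℕ} (hm : 3 ≤ m) : 1 ≤ Real.log m := by
  have h3 : (3 : ℝ) ≤ m := by exact_mod_cast hm
  rw [Real.le_log_iff_exp_le (by linarith)]
  have := Real.exp_one_lt_d9
  linarith

theorem part_b {τ ε : ℝ} (h0 : 0 < τ) (h1 : τ < 1) (hτ : 1 - τ = Real.exp (-3 * τ))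
    (hε : 0 < ε) (hε1 : ε < 1) : ∃ C : ℝ, 1 ≤ C ∧ ∃ m0 : ℕ, ∀ m : ℕ, m0 ≤ m → ∀ j : ℕ,
      (j : ℝ) ^ 3 * (τ ^ 2 * (1 - τ)) ≤ (1 - ε) * m → ∀ (_ : NeZero m) (V : Type)
      (_ : Fintype V) (G : SimpleGraph V) (x : V → ℝ), Mx G m j x →
      ∀ v, dg G x v ≤ C * Real.log m := by
  obtain ⟨C, hC1, m1, H1⟩ := num_b1 h0 h1 hτ hε hε1
  obtain ⟨C', hC1', m2, H2⟩ := num_b2 C hC1
  have htau := (tau_bd h0 h1 hτ).1
  refine ⟨C', hC1', max (max m1 m2) 100, ?_⟩
  intro m hm j hj _ V _ G x hM v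
  have hm1 : m1 ≤ m := le_trans (le_trans (le_max_left _ _) (le_max_left _ _)) hm
  have hm2 : m2 ≤ m := le_trans (le_trans (le_max_right _ _) (le_max_left _ _)) hm
  have hm3 : 100 ≤ m := le_trans (le_max_right _ _) hm
  have hmR : (0 : ℝ) ≤ m := Nat.cast_nonneg m
  have hj3 : (j : ℝ) ^ 3 ≤ 20 * m := by
    have e0 : (0 : ℝ) ≤ (j : ℝ) ^ 3 := by positivity
    nlinarith [mul_le_mul_of_nonneg_left htau e0]
  have h47 : 4 * j + 7 ≤ m := by
    by_contra hcon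
    push Not at hcon
    have hj24 : 24 ≤ j := by omega
    have hj3' : j ^ 3 ≤ 20 * m := by exact_mod_cast hj3
    have : m ≤ 4 * j + 6 := by omega
    nlinarith [Nat.mul_le_mul hj24 hj24, Nat.mul_le_mul (Nat.mul_le_mul hj24 hj24) (le_refl j)]
  have hx : ∀ v, 0 ≤ x v := fun v => (hM.pos v).le
  have hdg : ∀ v, 0 ≤ dg G x v := fun v => wS_nonneg hx _
  obtain ⟨p, q, hpq, hmax⟩ := max_edge hM
  have hpq0 : 0 ≤ dg G x p * dg G x q := mul_nonneg (hdg p) (hdg q)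
  set L : ℝ := max 1 (Real.sqrt (dg G x p * dg G x q)) with hL
  have hL1 : 1 ≤ L := le_max_left _ _
  have hLb : Lb G x L := by
    refine ⟨hL1, fun u w huw => (hmax u w huw).trans ?_⟩
    calc dg G x p * dg G x q = Real.sqrt (dg G x p * dg G x q) ^ 2 := (Real.sq_sqrt hpq0).symm
      _ ≤ L ^ 2 := by
        apply pow_le_pow_left₀ (Real.sqrt_nonneg _) (le_max_right _ _)
  have hLlog : L ≤ C * Real.log m := by
    rcases le_total (Real.sqrt (dg G x p * dg G x q)) 1 with h | h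
    · have hL' : L = 1 := max_eq_left h
      rw [hL']
      have := PB_log_one (m := m) (by omega)
      nlinarith
    · have hL' : L = Real.sqrt (dg G x p * dg G x q) := max_eq_right h
      refine H1 m hm1 j hj L (dg G x p + dg G x q) hL1 ?_ (bstar hM h47 hLb hpq)
      rw [hL']
      have e1 : Real.sqrt (dg G x p * dg G x q) = Real.sqrt (dg G x p) * Real.sqrt (dg G x q) :=
        Real.sqrt_mul (hdg p) _
      rw [e1]
      nlinarith [sq_nonneg (Real.sqrt (dg G x p) - Real.sqrt (dg G x q)),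
        Real.sq_sqrt (hdg p), Real.sq_sqrt (hdg q)]
  obtain ⟨w, hvw⟩ := has_nb hM v
  have := H2 m hm2 j hj3 L (dg G x v + dg G x w) hL1 hLlog (bstar hM h47 hLb hvw)
  linarith [hdg w]

end Pool.Agent.CycSh
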