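import Pool.Agent.W_1bfdb5sh_h41.Dec
import Pool.Agent.W_1bfdb5sh_h41.C7A
import Pool.Agent.W_1bfdb5sh_h41.C7B

/-!
# A good closed walk of length `m`
-/

namespace Pool.Agent.CycSh

open Finset Pool.Agent.CycGT Pool.Agent.CycFD
open scoped Classical

private theorem PcA_geom0 (a : ℕ) {x : ℝ} (h0 : 0 ≤ x) (h1 : x ≤ 1 / 2) (n : ℕ) (hn : a ≤ n + 1) :
    ∑ l ∈ Icc a n, x ^ l ≤ 2 * x ^ a - 2 * x ^ (n + 1) := by
  induction n with
  | zero =>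
    rcases Nat.eq_zero_or_pos a with rfl | ha
    · simp
      linarith
    · have : a = 1 := by omega
      subst this
      simp
  | succ n ih =>
    rcases Nat.lt_or_ge (n + 1) a with h | h
    · have : a = n + 1 + 1 := by omega
      subst this
      simp
    · rw [sum_Icc_succ_top (by omega)]
      have h2 := ih h
      have h3 : x ^ (n + 1 + 1) = x ^ (n + 1) * x := pow_succ _ _
      have h4 : x ^ (n + 1) * x ≤ x ^ (n + 1) * (1 / 2) :=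
        mul_le_mul_of_nonneg_left h1 (by positivity)
      linarith

private theorem PcA_geom (a : ℕ) {x : ℝ} (h0 : 0 ≤ x) (h1 : x ≤ 1 / 2) (n : ℕ) :
    ∑ l ∈ Icc a n, x ^ l ≤ 2 * x ^ a := by
  rcases Nat.lt_or_ge (n + 1) a with h | h
  · rw [Icc_eq_empty (by omega), sum_empty]
    positivity
  · have := PcA_geom0 a h0 h1 n h
    have h2 : 0 ≤ x ^ (n + 1) := by positivity
    linarith

/-- Numerical conclusion. -/
theorem c7_num {m j : ℕ} {K F : ℝ} (hK : 1 ≤ K) (hm : 10 ^ 8 * K ^ 4 * ((j : ℝ) + 1) ^ 2 ≤ m)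
    (hF : Tn m j < F)
    (h : F ≤ ∑ l ∈ Icc 2 j, ((m : ℝ) + 2 * j) * (K ^ (2 * l) * (((j : ℝ) / m) ^ l * Tn m j)) +
      3 * ((m : ℝ) + 2 * j) * (K ^ 4 * (((j : ℝ) / m) ^ 2 * Tn m j)) +
      ∑ i ∈ Icc 1 j, 2 * K ^ 2 * (K ^ 2 * j / m) ^ i * Tn m j +
      (1 + 2 * j / m) * Real.exp (4 * (j : ℝ) ^ 2 * K ^ 2 / m) *
        Real.exp (-(1 / 10000) / 2) * Tn m j) : False := by
  have hj0 : (0 : ℝ) ≤ j := Nat.cast_nonneg j
  have hK0 : (0 : ℝ) < K := by linarith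
  have hK2 : 1 ≤ K ^ 2 := one_le_pow₀ hK
  have hK4 : K ^ 2 ≤ K ^ 4 := pow_le_pow_right₀ hK (by norm_num)
  have hm0 : (0 : ℝ) < m := lt_of_lt_of_le (by positivity) hm
  have hmn : 0 < m := by exact_mod_cast hm0
  have hT : 0 < Tn m j := by
    unfold Tn
    have h1 : 0 < (m + 2 * j).choose j := Nat.choose_pos (by omega)
    have h2 : (0 : ℝ) < ((m + 2 * j).choose j : ℝ) := by exact_mod_cast h1
    positivity
  obtain ⟨x, hx⟩ : ∃ x : ℝ, x = K ^ 2 * j / m := ⟨_, rfl⟩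
  have hx0 : 0 ≤ x := by rw [hx]; positivity
  have hmx : m * x = K ^ 2 * j := by
    rw [hx]
    field_simp
  have hs1 : (j : ℝ) ^ 2 ≤ (j + 1) ^ 2 := pow_le_pow_left₀ hj0 (by linarith) 2
  have hs2 : (j : ℝ) ≤ (j + 1) ^ 2 := by nlinarith
  have hr1 : 10 ^ 8 * (K ^ 4 * (j : ℝ) ^ 2) ≤ m := by
    have : K ^ 4 * (j : ℝ) ^ 2 ≤ K ^ 4 * (j + 1) ^ 2 := mul_le_mul_of_nonneg_left hs1 (by positivity)
    linarith
  have hr2 : 10 ^ 8 * (K ^ 4 * (j : ℝ)) ≤ m := by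
    have : K ^ 4 * (j : ℝ) ≤ K ^ 4 * (j + 1) ^ 2 := mul_le_mul_of_nonneg_left hs2 (by positivity)
    linarith
  have hr3 : 10 ^ 8 * (K ^ 2 * (j : ℝ) ^ 2) ≤ m := by
    have : K ^ 2 * (j : ℝ) ^ 2 ≤ K ^ 4 * (j : ℝ) ^ 2 := mul_le_mul_of_nonneg_right hK4 (by positivity)
    linarith
  have hr4 : 10 ^ 8 * (K ^ 2 * (j : ℝ)) ≤ m := by
    have : K ^ 2 * (j : ℝ) ≤ K ^ 4 * (j : ℝ) := mul_le_mul_of_nonneg_right hK4 hj0
    linarith
  have hr5 : 10 ^ 8 * (j : ℝ) ≤ m := by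
    have : 1 * (j : ℝ) ≤ K ^ 2 * (j : ℝ) := mul_le_mul_of_nonneg_right hK2 hj0
    linarith
  -- K^2 j x = K^4 j^2 / m
  have hy1 : K ^ 2 * j * x ≤ 1 / 10 ^ 8 := by
    have e : K ^ 2 * j * x = K ^ 4 * j ^ 2 / m := by
      rw [hx]
      ring
    rw [e, div_le_div_iff₀ hm0 (by norm_num)]
    linarith
  have hy2 : K ^ 2 * x ≤ 1 / 10 ^ 8 := by
    have e : K ^ 2 * x = K ^ 4 * j / m := by
      rw [hx]
      ring
    rw [e, div_le_div_iff₀ hm0 (by norm_num)]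
    linarith
  have hx1 : x ≤ 1 / 10 ^ 8 := by
    rw [hx, div_le_div_iff₀ hm0 (by norm_num)]
    linarith
  have hm2 : (m : ℝ) + 2 * j ≤ 2 * m := by linarith
  -- first sum
  have t1 : ∑ l ∈ Icc 2 j, ((m : ℝ) + 2 * j) * (K ^ (2 * l) * (((j : ℝ) / m) ^ l * Tn m j)) ≤
      4 / 10 ^ 8 * Tn m j := by
    have e : ∀ l, ((m : ℝ) + 2 * j) * (K ^ (2 * l) * (((j : ℝ) / m) ^ l * Tn m j)) =
        ((m : ℝ) + 2 * j) * Tn m j * x ^ l := by
      intro l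
      have e1 : x ^ l = K ^ (2 * l) * ((j : ℝ) / m) ^ l := by
        rw [hx, mul_div_assoc, mul_pow, ← pow_mul]
      rw [e1]
      ring
    rw [sum_congr rfl fun l _ => e l, ← mul_sum]
    have g := PcA_geom 2 hx0 (by linarith) j
    calc ((m : ℝ) + 2 * j) * Tn m j * ∑ l ∈ Icc 2 j, x ^ l
        ≤ ((m : ℝ) + 2 * j) * Tn m j * (2 * x ^ 2) := mul_le_mul_of_nonneg_left g (by positivity)
      _ ≤ (2 * m) * Tn m j * (2 * x ^ 2) := by
          apply mul_le_mul_of_nonneg_right _ (by positivity)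
          exact mul_le_mul_of_nonneg_right hm2 hT.le
      _ = 4 * (m * x * x) * Tn m j := by ring
      _ = 4 * (K ^ 2 * j * x) * Tn m j := by rw [hmx]
      _ ≤ 4 * (1 / 10 ^ 8) * Tn m j := by
          apply mul_le_mul_of_nonneg_right _ hT.le
          linarith
      _ = 4 / 10 ^ 8 * Tn m j := by ring
  have t2 : 3 * ((m : ℝ) + 2 * j) * (K ^ 4 * (((j : ℝ) / m) ^ 2 * Tn m j)) ≤
      6 / 10 ^ 8 * Tn m j := by
    have e : 3 * ((m : ℝ) + 2 * j) * (K ^ 4 * (((j : ℝ) / m) ^ 2 * Tn m j)) =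
        3 * ((m : ℝ) + 2 * j) * x ^ 2 * Tn m j := by
      rw [hx]
      ring
    rw [e]
    calc 3 * ((m : ℝ) + 2 * j) * x ^ 2 * Tn m j ≤ 3 * (2 * m) * x ^ 2 * Tn m j := by
          apply mul_le_mul_of_nonneg_right _ hT.le
          apply mul_le_mul_of_nonneg_right _ (by positivity)
          linarith
      _ = 6 * (m * x * x) * Tn m j := by ring
      _ = 6 * (K ^ 2 * j * x) * Tn m j := by rw [hmx]
      _ ≤ 6 * (1 / 10 ^ 8) * Tn m j := by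
          apply mul_le_mul_of_nonneg_right _ hT.le
          linarith
      _ = 6 / 10 ^ 8 * Tn m j := by ring
  have t3 : ∑ i ∈ Icc 1 j, 2 * K ^ 2 * (K ^ 2 * j / m) ^ i * Tn m j ≤ 4 / 10 ^ 8 * Tn m j := by
    rw [← hx]
    have e : ∀ i, 2 * K ^ 2 * x ^ i * Tn m j = 2 * K ^ 2 * Tn m j * x ^ i := by
      intro i
      ring
    rw [sum_congr rfl fun i _ => e i, ← mul_sum]
    have g := PcA_geom 1 hx0 (by linarith) j
    calc 2 * K ^ 2 * Tn m j * ∑ i ∈ Icc 1 j, x ^ i ≤ 2 * K ^ 2 * Tn m j * (2 * x ^ 1) :=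
          mul_le_mul_of_nonneg_left g (by positivity)
      _ = 4 * (K ^ 2 * x) * Tn m j := by ring
      _ ≤ 4 * (1 / 10 ^ 8) * Tn m j := by
          apply mul_le_mul_of_nonneg_right _ hT.le
          linarith
      _ = 4 / 10 ^ 8 * Tn m j := by ring
  have t4 : (1 + 2 * j / m) * Real.exp (4 * (j : ℝ) ^ 2 * K ^ 2 / m) *
        Real.exp (-(1 / 10000) / 2) * Tn m j ≤ (1 - 49 / 10 ^ 6) * Tn m j := by
    apply mul_le_mul_of_nonneg_right _ hT.le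
    have a1 : 1 + 2 * (j : ℝ) / m ≤ Real.exp (2 / 10 ^ 8) := by
      have b1 : 2 * (j : ℝ) / m ≤ 2 / 10 ^ 8 := by
        rw [div_le_div_iff₀ hm0 (by norm_num)]
        linarith
      have b2 := Real.add_one_le_exp (2 / 10 ^ 8 : ℝ)
      linarith
    have a2 : Real.exp (4 * (j : ℝ) ^ 2 * K ^ 2 / m) ≤ Real.exp (4 / 10 ^ 8) := by
      apply Real.exp_le_exp.2
      rw [div_le_div_iff₀ hm0 (by norm_num)]
      linarith
    have a3 : (1 + 2 * (j : ℝ) / m) * Real.exp (4 * (j : ℝ) ^ 2 * K ^ 2 / m) *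
        Real.exp (-(1 / 10000) / 2) ≤ Real.exp (2 / 10 ^ 8) * Real.exp (4 / 10 ^ 8) *
        Real.exp (-(1 / 10000) / 2) := by
      apply mul_le_mul_of_nonneg_right _ (Real.exp_pos _).le
      exact mul_le_mul a1 a2 (Real.exp_pos _).le (Real.exp_pos _).le
    refine a3.trans ?_
    rw [← Real.exp_add, ← Real.exp_add]
    have b3 := Real.add_one_le_exp (-((2 / 10 ^ 8 : ℝ) + 4 / 10 ^ 8 + -(1 / 10000) / 2))
    rw [Real.exp_neg] at b3
    have b4 := Real.exp_pos ((2 / 10 ^ 8 : ℝ) + 4 / 10 ^ 8 + -(1 / 10000) / 2)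
    rw [le_inv_comm₀ (by norm_num) b4] at b3
    refine b3.trans ?_
    norm_num
  have hfin : F ≤ (4 / 10 ^ 8 + 6 / 10 ^ 8 + 4 / 10 ^ 8 + (1 - 49 / 10 ^ 6)) * Tn m j := by
    linarith
  have : (4 / 10 ^ 8 + 6 / 10 ^ 8 + 4 / 10 ^ 8 + (1 - 49 / 10 ^ 6)) * Tn m j ≤ 1 * Tn m j :=
    mul_le_mul_of_nonneg_right (by norm_num) hT.le
  linarith

end Pool.Agent.CycSh
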