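import Pool.Agent.W_1bfdb5sh_h41.Dec
import Pool.Agent.W_1bfdb5sh_h41.C7A
import Pool.Agent.W_1bfdb5sh_h41.C7B
import Pool.Agent.W_1bfdb5sh_h41.PcA
import Pool.Agent.W_1bfdb5sh_h41.DeB

/-!
# A good closed walk of length `m`
-/

namespace Pool.Agent.CycSh

open Finset Pool.Agent.CycGT Pool.Agent.CycFD
open scoped Classical

/-- The terms of the last sum of `dec`. -/
noncomputable def PcB_g {V : Type} [Fintype V] (G : SimpleGraph V) (x : V → ℝ) (m j : ℕ) [NeZero m]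
    (K : ℝ) (s i : ℕ) : ℝ :=
  1 / (s.factorial : ℝ) * (((m : ℝ) + 2 * j) / (m + 2 * i)) *
    ∑ k ∈ AI G (m + 2 * i), wP x k * (EEw G x i k + 4 * s * K ^ 2) ^ s

theorem part_c {V : Type} [Fintype V] {G : SimpleGraph V} {x : V → ℝ} {m j : ℕ} [NeZero m]
    (h : Mx G m j x) {K : ℝ} (hK : 1 ≤ K) (hD : ∀ v, dg G x v ≤ K)
    (hm : 10 ^ 8 * K ^ 4 * ((j : ℝ) + 1) ^ 2 ≤ m) :
    ∃ c ∈ clos G m, Dw G x c ≤ 1 / 10000 := by
  by_contra hcon
  push Not at hcon
  have hj0 : (0 : ℝ) ≤ j := Nat.cast_nonneg j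
  have hK4 : 1 ≤ K ^ 4 := one_le_pow₀ hK
  have hm1 : 10 ^ 8 * ((j : ℝ) + 1) ^ 2 ≤ m := by
    refine le_trans ?_ hm
    nlinarith [sq_nonneg ((j : ℝ) + 1), mul_nonneg (sub_nonneg.2 hK4) (sq_nonneg ((j : ℝ) + 1))]
  have hmR : (10 : ℝ) * j + 40 ≤ m := by nlinarith
  have hmN : 10 * j + 40 ≤ m := by exact_mod_cast hmR
  have hm0 : 0 < m := by omega
  have hm0R : (0 : ℝ) < m := by exact_mod_cast hm0
  have hx : ∀ v, 0 ≤ x v := fun v => (h.pos v).le
  have hT : ∀ i : ℕ, 0 ≤ Tn m i := fun i => Tn_nonneg m i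
  have hF : ∀ l, 1 ≤ l → l ≤ j → Fw G (m + 2 * (j - l)) x ≤ ((j : ℝ) / m) ^ l * Tn m j := by
    intro l hl hlj
    have h1 := h.cl (j - l) (by omega) inferInstance V inferInstance G h.of x hx
    rw [h.sum, div_self hm0R.ne', one_pow, mul_one] at h1
    exact h1.trans (Tn_le hm0 j l hlj)
  have hdec := dec (x := x) hmN h.ho h.of hx (by linarith : (0 : ℝ) ≤ K) hD
  refine c7_num (m := m) (j := j) hK hm h.big (hdec.trans ?_)
  have e1 : ∑ l ∈ Icc 2 j, ((m : ℝ) + 2 * j) * (K ^ (2 * l) * Fw G (m + 2 * (j - l)) x) ≤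
      ∑ l ∈ Icc 2 j, ((m : ℝ) + 2 * j) * (K ^ (2 * l) * (((j : ℝ) / m) ^ l * Tn m j)) := by
    refine sum_le_sum fun l hl => ?_
    have hl' := mem_Icc.1 hl
    exact mul_le_mul_of_nonneg_left (mul_le_mul_of_nonneg_left (hF l (by omega) hl'.2)
      (by positivity)) (by positivity)
  have e2 : 3 * ((m : ℝ) + 2 * j) * (K ^ 4 * (if 2 ≤ j then Fw G (m + 2 * (j - 2)) x else 0)) ≤
      3 * ((m : ℝ) + 2 * j) * (K ^ 4 * (((j : ℝ) / m) ^ 2 * Tn m j)) := by
    refine mul_le_mul_of_nonneg_left (mul_le_mul_of_nonneg_left ?_ (by positivity))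
      (by positivity)
    split_ifs with h2
    · exact hF 2 (by omega) h2
    · exact mul_nonneg (by positivity) (hT j)
  have e3 : ∑ s ∈ range (j + 1), 1 / (s.factorial : ℝ) *
        (((m : ℝ) + 2 * j) / (m + 2 * (j - s : ℕ))) *
        ∑ k ∈ AI G (m + 2 * (j - s)), wP x k * (EEw G x (j - s) k + 4 * s * K ^ 2) ^ s ≤
      ∑ i ∈ Icc 1 j, 2 * K ^ 2 * (K ^ 2 * j / m) ^ i * Tn m j +
      (1 + 2 * j / m) * Real.exp (4 * (j : ℝ) ^ 2 * K ^ 2 / m) *
        Real.exp (-(1 / 10000) / 2) * Tn m j := by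
    have h1 : ∑ s ∈ range (j + 1), 1 / (s.factorial : ℝ) *
        (((m : ℝ) + 2 * j) / (m + 2 * (j - s : ℕ))) *
        ∑ k ∈ AI G (m + 2 * (j - s)), wP x k * (EEw G x (j - s) k + 4 * s * K ^ 2) ^ s =
        ∑ s ∈ range (j + 1), PcB_g G x m j K s (j - s) := rfl
    rw [h1, sum_range_succ]
    refine add_le_add ?_ ?_
    · have h2 : ∑ s ∈ range j, PcB_g G x m j K s (j - s) ≤
          ∑ s ∈ range j, 2 * K ^ 2 * (K ^ 2 * j / m) ^ (j - s) * Tn m j := by
        refine sum_le_sum fun s hs => ?_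
        have hs' := mem_range.1 hs
        exact c7_hi (i := j - s) (s := s) h.ho h.of h.pos h.sum hK hD hm (by omega) (by omega)
      refine h2.trans (le_of_eq ?_)
      refine sum_nbij' (fun s => j - s) (fun i => j - i) ?_ ?_ ?_ ?_ ?_
      · intro s hs
        have hs' := mem_range.1 hs
        exact mem_Icc.2 ⟨by omega, by omega⟩
      · intro i hi
        have hi' := mem_Icc.1 hi
        exact mem_range.2 (by omega)
      · intro s hs
        have hs' := mem_range.1 hs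
        show j - (j - s) = s
        omega
      · intro i hi
        have hi' := mem_Icc.1 hi
        show j - (j - i) = i
        omega
      · intro s _
        rfl
    · have h3 := c7_lo (G := G) (x := x) h.ho h.of h.pos h.sum hK hD hm
        (D0 := 1 / 10000) (by norm_num) (fun c hc => (hcon c hc).le)
      refine le_trans (le_of_eq ?_) h3
      rw [Nat.sub_self]
      unfold PcB_g
      have h4 : AI G (m + 2 * 0) = clos G m := AI_m (by omega) h.ho h.of
      rw [h4]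
      rw [Nat.cast_zero, mul_zero, add_zero]
      rfl
  linarith

end Pool.Agent.CycSh
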