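import Pool.Agent.W_1bfdb5sh_h41.OpW
import Pool.Agent.W_1bfdb5sh_h41.Bal
import Pool.Agent.W_1bfdb5fd_h19.Hm

/-!
# A maximiser has no good closed walk of length `m`
-/

namespace Pool.Agent.CycSh

open Finset Pool.Agent.CycGT Pool.Agent.CycFD
open scoped Classical

theorem part_de {V : Type} [Fintype V] {G : SimpleGraph V} {x : V → ℝ} {m j : ℕ} [NeZero m]
    (h : Mx G m j x) (hj : 1 ≤ j) (hm : 1000 * (j + 1) ^ 2 ≤ m) {c : ZMod m → V}
    (hc : c ∈ clos G m) (hD : Dw G x c ≤ 1 / 10000) : False := by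
  have hm4 : 4000 ≤ m := by nlinarith
  have hc' : IsCl G m c := mem_clos.1 hc
  have hx0 : ∀ u, 0 ≤ x u := fun u => (h.pos u).le
  obtain ⟨hb, ha, ha2⟩ := bal_w (by omega) h.ho h.of hc' h.pos h.sum hD
  have h2 := two_cls h hj hm hc' hb ha
  obtain ⟨f, hf, hA⟩ := hom_ex (by omega) h.ho h.of hc' h2
  set v : ZMod m → ℝ := fun t => wS x (univ.filter (fun u => f u = t)) with hv
  have hF : Fw G (m + 2 * j) x ≤ Fw (Cy m) (m + 2 * j) v := hom_w (by omega) _ hx0 f hf
  have hvs : ∑ t, v t = m := by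
    rw [← h.sum, hv]
    exact sum_fiberwise univ f x
  have hb0 : 0 ≤ wS x (BB G c) := wS_nonneg hx0 _
  have hva : ∀ t, 0 ≤ v t - wS x (AA G c t) := by
    intro t
    have : wS x (AA G c t) ≤ v t :=
      wS_mono hx0 fun w hw => mem_filter.2 ⟨mem_univ _, hA t w hw⟩
    linarith
  have hsum : ∑ t, (v t - wS x (AA G c t)) = wS x (BB G c) := by
    rw [sum_sub_distrib, hvs, ← h.sum]
    linarith [AA_wsum (by omega : 13 ≤ m) h.ho h.of hc' x]
  have hvb : ∀ t, v t - wS x (AA G c t) ≤ wS x (BB G c) := by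
    intro t
    rw [← hsum]
    exact single_le_sum (f := fun t => v t - wS x (AA G c t)) (fun s _ => hva s) (mem_univ t)
  have hv1 : ∀ t, |v t - 1| ≤ 1 / 10 := by
    intro t
    have h1 := abs_le.1 (ha t)
    rw [abs_le]
    constructor
    · linarith [hva t, h1.1]
    · linarith [hvb t, h1.2]
  have hv2 : ∑ t, (v t - 1) ^ 2 ≤ 1 := by
    have h3 : ∀ t, (v t - 1) ^ 2 ≤ 2 * (wS x (AA G c t) - 1) ^ 2 +
        2 * (v t - wS x (AA G c t)) := by
      intro t
      have h4 := hva t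
      have h5 : v t - wS x (AA G c t) ≤ 1 := by linarith [hvb t]
      nlinarith [sq_nonneg ((wS x (AA G c t) - 1) - (v t - wS x (AA G c t))),
        mul_nonneg h4 (sub_nonneg.2 h5)]
    calc ∑ t, (v t - 1) ^ 2 ≤ ∑ t, (2 * (wS x (AA G c t) - 1) ^ 2 +
        2 * (v t - wS x (AA G c t))) := sum_le_sum fun t _ => h3 t
      _ = 2 * ∑ t, (wS x (AA G c t) - 1) ^ 2 + 2 * wS x (BB G c) := by
        rw [sum_add_distrib, ← mul_sum, ← mul_sum, hsum]
      _ ≤ 1 := by linarith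
  have := opt_w h.cl h.ho hm v hvs hv1 hv2
  linarith [h.big]

end Pool.Agent.CycSh
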