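import Pool.Agent.W_1bfdb5sh_h41.Df

/-!
# Basic facts on the weighted counts
-/

namespace Pool.Agent.CycSh

open Finset Pool.Agent.CycGT Pool.Agent.CycFD
open scoped Classical

/-- The first two terms of the expansion of a product. -/
theorem prod_add_one {ι : Type*} (S : Finset ι) (f g : ι → ℝ) (hf : ∀ i ∈ S, 0 ≤ f i)
    (hg : ∀ i ∈ S, 0 ≤ g i) :
    ∏ i ∈ S, f i + ∑ i ∈ S, g i * ∏ k ∈ S.erase i, f k ≤ ∏ i ∈ S, (f i + g i) := by
  induction S using Finset.induction_on with
  | empty => simp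
  | insert a S ha ih =>
    have hf' : ∀ i ∈ S, 0 ≤ f i := fun i hi => hf i (mem_insert_of_mem hi)
    have hg' : ∀ i ∈ S, 0 ≤ g i := fun i hi => hg i (mem_insert_of_mem hi)
    have hfa : 0 ≤ f a := hf a (mem_insert_self a S)
    have hga : 0 ≤ g a := hg a (mem_insert_self a S)
    have h1 := ih hf' hg'
    have h2 : ∏ i ∈ S, f i ≤ ∏ i ∈ S, (f i + g i) :=
      prod_le_prod hf' fun i hi => le_add_of_nonneg_right (hg' i hi)
    have h3 : ∑ i ∈ S, g i * ∏ k ∈ (insert a S).erase i, f k =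
        f a * ∑ i ∈ S, g i * ∏ k ∈ S.erase i, f k := by
      rw [mul_sum]
      refine sum_congr rfl fun i hi => ?_
      have hia : a ≠ i := fun h => ha (h ▸ hi)
      rw [erase_insert_of_ne hia, prod_insert (fun h => ha (mem_of_mem_erase h))]
      ring
    rw [prod_insert ha, prod_insert ha, sum_insert ha, erase_insert ha, h3]
    have h4 := mul_le_mul_of_nonneg_left h1 hfa
    have h5 := mul_le_mul_of_nonneg_left h2 hga
    linarith

variable {V : Type} [Fintype V]

theorem ad_nonneg {x : V → ℝ} (hx : ∀ v, 0 ≤ x v) (v : V) {s : ℝ} (hs : 0 ≤ s) (w : V) :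
    0 ≤ ad x v s w := by
  unfold ad
  have h := hx w
  split_ifs <;> linarith

theorem ad_sum (x : V → ℝ) (v : V) (s : ℝ) : ∑ w, ad x v s w = ∑ w, x w + s := by
  unfold ad
  rw [sum_add_distrib]
  simp

theorem wP_nonneg {r : ℕ} [NeZero r] {x : V → ℝ} (hx : ∀ v, 0 ≤ x v) (W : ZMod r → V) :
    0 ≤ wP x W := by
  unfold wP
  exact prod_nonneg fun p _ => hx (W p)

/-- The weight is rotation invariant. -/
theorem wP_rot {r : ℕ} [NeZero r] (x : V → ℝ) (W : ZMod r → V) (p : ZMod r) :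
    wP x (rot W p) = wP x W := by
  unfold wP rot
  exact Fintype.prod_equiv (Equiv.addLeft p) _ _ fun i => rfl

end Pool.Agent.CycSh
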