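import Pool.Agent.W_1bfdb5sh_h41.Df
import Pool.Agent.W_1bfdb5sh_h41.PlA

/-!
# Basic facts on the weighted counts
-/

namespace Pool.Agent.CycSh

open Finset Pool.Agent.CycGT Pool.Agent.CycFD
open scoped Classical

variable {V : Type} [Fintype V]

theorem Fw_nonneg (G : SimpleGraph V) (r : ℕ) [NeZero r] {x : V → ℝ} (hx : ∀ v, 0 ≤ x v) :
    0 ≤ Fw G r x := by
  unfold Fw
  exact sum_nonneg fun W _ => wP_nonneg hx W

theorem Fw_mono (G : SimpleGraph V) (r : ℕ) [NeZero r] {x y : V → ℝ} (hx : ∀ v, 0 ≤ x v)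
    (hxy : ∀ v, x v ≤ y v) : Fw G r x ≤ Fw G r y := by
  unfold Fw
  refine sum_le_sum fun W _ => ?_
  unfold wP
  exact prod_le_prod (fun p _ => hx (W p)) fun p _ => hxy (W p)

theorem Fw_smul (G : SimpleGraph V) (r : ℕ) [NeZero r] (c : ℝ) (x : V → ℝ) :
    Fw G r (fun v => c * x v) = c ^ r * Fw G r x := by
  unfold Fw
  rw [mul_sum]
  refine sum_congr rfl fun W _ => ?_
  unfold wP
  rw [prod_mul_distrib, prod_const, card_univ, ZMod.card]

theorem Fw_one (G : SimpleGraph V) (r : ℕ) [NeZero r] :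
    Fw G r (fun _ => 1) = #(clos G r) := by
  unfold Fw wP
  simp

theorem dw_nonneg (G : SimpleGraph V) (r : ℕ) [NeZero r] {x : V → ℝ} (hx : ∀ v, 0 ≤ x v) (v : V) :
    0 ≤ dw G r x v := by
  unfold dw
  exact sum_nonneg fun W _ => prod_nonneg fun p _ => hx (W p)

end Pool.Agent.CycSh
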