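import Pool.Agent.W_1bfdb5sh_h41.Df
import Pool.Agent.W_1bfdb5sh_h41.PlA

/-!
# Basic facts on the weighted counts
-/

namespace Pool.Agent.CycSh

open Finset Pool.Agent.CycGT Pool.Agent.CycFD
open scoped Classical

variable {V : Type} [Fintype V]

/-- The weighted number of closed walks is continuous. -/
theorem Fw_continuous (G : SimpleGraph V) (r : ℕ) [NeZero r] :
    Continuous (fun x : V → ℝ => Fw G r x) := by
  unfold Fw wP
  exact continuous_finset_sum _ fun W _ => continuous_finset_prod _ fun p _ => continuous_apply (W p)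

/-- Vertices of weight zero can be removed. -/
theorem Fw_supp (G : SimpleGraph V) (r : ℕ) [NeZero r] (x : V → ℝ) (S : Set V)
    (hS : ∀ v, v ∉ S → x v = 0) :
    Fw (G.comap (Subtype.val : S → V)) r (fun v => x v) = Fw G r x := by
  unfold Fw
  have hinj : Function.Injective (fun (W : ZMod r → S) (p : ZMod r) => (W p : V)) := by
    intro W W' h
    funext p
    exact Subtype.ext (congrFun h p)
  have h1 : ∑ W ∈ clos (G.comap (Subtype.val : S → V)) r, wP (fun v : S => x v) W =
      ∑ W ∈ (clos (G.comap (Subtype.val : S → V)) r).image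
        (fun (W : ZMod r → S) (p : ZMod r) => (W p : V)), wP x W := by
    rw [sum_image fun a _ b _ h => hinj h]
    rfl
  rw [h1]
  refine sum_subset ?_ ?_
  · intro W hW
    rw [mem_image] at hW
    obtain ⟨W', hW', rfl⟩ := hW
    rw [clos, mem_filter] at hW' ⊢
    exact ⟨mem_univ _, fun i => hW'.2 i⟩
  · intro W hW hW2
    by_contra hne
    apply hW2
    have hmem : ∀ p, W p ∈ S := by
      intro p
      by_contra hp
      exact hne (prod_eq_zero (mem_univ p) (hS _ hp))
    rw [mem_image]
    refine ⟨fun p => ⟨W p, hmem p⟩, ?_, rfl⟩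
    rw [clos, mem_filter] at hW ⊢
    exact ⟨mem_univ _, fun i => hW.2 i⟩

/-- Weights on a subset extended by zero. -/
theorem Fw_ext (G : SimpleGraph V) (r : ℕ) [NeZero r] (S : Set V) (y : S → ℝ) :
    Fw (G.comap (Subtype.val : S → V)) r y =
      Fw G r (fun v => if h : v ∈ S then y ⟨v, h⟩ else 0) := by
  rw [← Fw_supp G r (fun v => if h : v ∈ S then y ⟨v, h⟩ else 0) S (fun v hv => dif_neg hv)]
  congr 1
  funext v
  rw [dif_pos v.2]

end Pool.Agent.CycSh
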