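import Pool.Agent.W_1bfdb5sh_h41.Clo
import Pool.Agent.W_1bfdb5sh_h41.Arm
import Pool.Agent.W_1bfdb5sh_h41.Tr
import Pool.Agent.W_1bfdb5sh_h41.Pl

/-!
# The pair lemma
-/

namespace Pool.Agent.CycSh

open Finset Pool.Agent.CycGT Pool.Agent.CycFD
open scoped Classical

variable {V : Type} [Fintype V] {G : SimpleGraph V} {x : V → ℝ}

/-- The neighbourhoods of the ends of an edge are disjoint. -/
theorem pair_wS {m : ℕ} (hG : OddFree G m) (hm : 5 ≤ m) (x : V → ℝ) {v w : V}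
    (hvw : G.Adj v w) : wS x (Nb G v ∪ Nb G w) = dg G x v + dg G x w := by
  have hd : Disjoint (Nb G v) (Nb G w) := by
    rw [Finset.disjoint_left]
    intro u h1 h2
    simp only [Nb, Finset.mem_filter, Finset.mem_univ, true_and] at h1 h2
    refine hG 3 (by omega) (by decide) u ⟨.cons h1 (.cons hvw (.cons h2.symm .nil)), rfl⟩
  rw [wS, Finset.sum_union hd]
  rfl

theorem yz_nonneg (hx : ∀ v, 0 ≤ x v) (Z : Finset V) (v w : V) (u : V) : 0 ≤ yz x Z v w u := by
  have h1 : ∀ u, 0 ≤ (fun u => if u ∈ Z then 2 / wS x Z * x u else x u) u := by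
    intro u
    dsimp only
    split_ifs
    · exact mul_nonneg (div_nonneg zero_le_two (wS_nonneg hx Z)) (hx u)
    · exact hx u
  exact ad_nonneg (fun u => ad_nonneg h1 v zero_le_one u) w zero_le_one u

/-- Total weight. -/
theorem yz_sum {m : ℕ} (hG : OddFree G m) (hm : 5 ≤ m) (hx : ∀ v, 0 < x v) {v w : V}
    (hvw : G.Adj v w) : ∑ u, yz x (Nb G v ∪ Nb G w) v w u =
      ∑ u, x u - (dg G x v + dg G x w) + 4 := by
  rw [← pair_wS hG hm x hvw]
  have hZ : w ∈ Nb G v ∪ Nb G w := by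
    refine Finset.mem_union_left _ ?_
    simp only [Nb, Finset.mem_filter, Finset.mem_univ, true_and]
    exact hvw.symm
  have hpos : 0 < wS x (Nb G v ∪ Nb G w) := by
    refine Finset.sum_pos (fun u _ => hx u) ⟨w, hZ⟩
  have h1 : ∑ u, (if u ∈ Nb G v ∪ Nb G w then 2 / wS x (Nb G v ∪ Nb G w) * x u else x u) =
      ∑ u, x u - wS x (Nb G v ∪ Nb G w) + 2 := by
    generalize Nb G v ∪ Nb G w = Z at *
    rw [Finset.sum_ite, ← Finset.mul_sum]
    have e1 : ∑ u ∈ univ.filter (fun u => u ∈ Z), x u = wS x Z := by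
      rw [wS]
      congr 1
      ext u
      simp
    have e2 : ∑ u ∈ univ.filter (fun u => u ∈ Z), x u + ∑ u ∈ univ.filter (fun u => ¬ u ∈ Z), x u =
        ∑ u, x u := Finset.sum_filter_add_sum_filter_not _ _ _
    rw [e1] at e2 ⊢
    rw [div_mul_cancel₀ _ hpos.ne']
    linarith
  rw [yz, ad_sum, ad_sum, h1]
  ring

end Pool.Agent.CycSh
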