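import Pool.Agent.W_1bfdb5sh_h41.Clo
import Pool.Agent.W_1bfdb5sh_h41.Arm
import Pool.Agent.W_1bfdb5sh_h41.Tr
import Pool.Agent.W_1bfdb5sh_h41.Pl
import Pool.Agent.W_1bfdb5sh_h41.PrA

/-!
# The pair lemma
-/

namespace Pool.Agent.CycSh

open Finset Pool.Agent.CycGT Pool.Agent.CycFD
open scoped Classical

variable {V : Type} [Fintype V] {G : SimpleGraph V} {x : V → ℝ}

/-- Upper bound for one arm. -/
private noncomputable def pbR (G : SimpleGraph V) (x : V → ℝ) (L : ℝ) (v : V) (a : ℕ) : ℝ :=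
  if a % 2 = 1 then L ^ (a - 1) else dg G x v * L ^ (a - 2)

private lemma pbR_nonneg (hx : ∀ v, 0 ≤ x v) {L : ℝ} (hL : Lb G x L) (v : V) (a : ℕ) :
    0 ≤ pbR G x L v a := by
  have h0 : (0 : ℝ) ≤ L := by linarith [hL.1]
  unfold pbR
  split_ifs
  · positivity
  · exact mul_nonneg (wS_nonneg hx _) (by positivity)

private lemma pb_arm (hx : ∀ v, 0 < x v) {L : ℝ} (hL : Lb G x L) {a : ℕ} (ha : 1 ≤ a) (v s : V) :
    Bn G x a v s ≤ x s * pbR G x L v a := by
  have hx' : ∀ v, 0 ≤ x v := fun v => (hx v).le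
  unfold pbR
  split_ifs with h
  · obtain ⟨n, rfl⟩ : ∃ n, a = 2 * n + 1 := ⟨a / 2, by omega⟩
    rw [show 2 * n + 1 - 1 = 2 * n by omega]
    exact arm_odd hx' hL n v s
  · obtain ⟨n, rfl⟩ : ∃ n, a = 2 * n + 2 := ⟨a / 2 - 1, by omega⟩
    rw [show 2 * n + 2 - 2 = 2 * n by omega]
    exact arm_even hx' hL n v s

private lemma pb_arm' (hx : ∀ v, 0 < x v) {L : ℝ} (hL : Lb G x L) {a : ℕ} (ha : 1 ≤ a)
    (v s : V) : Bn G x a s v ≤ x v * pbR G x L v a := by
  unfold pbR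
  split_ifs with h
  · obtain ⟨n, rfl⟩ : ∃ n, a = 2 * n + 1 := ⟨a / 2, by omega⟩
    rw [show 2 * n + 1 - 1 = 2 * n by omega]
    exact arm_odd' hx hL n v s
  · obtain ⟨n, rfl⟩ : ∃ n, a = 2 * n + 2 := ⟨a / 2 - 1, by omega⟩
    rw [show 2 * n + 2 - 2 = 2 * n by omega]
    exact arm_even' hx hL n v s

private lemma pb_hub0 {m j : ℕ} (hG : OddFree G m) (hm : 4 * j + 7 ≤ m) {v w : V}
    (hvw : G.Adj v w) {a : ℕ} (ha : a ≤ 2 * j + 2) {s : V} (hs : s ∈ Nb G v ∪ Nb G w)
    (h : Wk G a v s) : G.Adj (if a % 2 = 1 then v else w) s := by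
  rw [mem_union, mem_Nb, mem_Nb] at hs
  split_ifs with hp
  · rcases hs with hs | hs
    · exact hs.symm
    · exfalso
      have h2 : Wk G (a + 1 + 1) v v := (h.trans (wk_one.2 hs)).trans (wk_one.2 hvw.symm)
      refine hG (a + 1 + 1) (by omega) ?_ v h2
      rw [Nat.odd_iff]
      omega
  · rcases hs with hs | hs
    · exfalso
      have h2 : Wk G (a + 1) v v := h.trans (wk_one.2 hs)
      refine hG (a + 1) (by omega) ?_ v h2
      rw [Nat.odd_iff]
      omega
    · exact hs.symm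

/-- The part of the estimate which is common to all cases. -/
private lemma pb_common {m j : ℕ} (hG : OddFree G m) (hm : 4 * j + 7 ≤ m)
    (hx : ∀ v, 0 < x v) {L : ℝ} (hL : Lb G x L) {v w : V} (hvw : G.Adj v w) {a b : ℕ}
    (ha : a ∈ Icc 1 (2 * j + 2)) (hb : b ∈ Icc 1 (2 * j + 2)) (n : ℕ) {E : ℝ}
    (hE : ∑ s ∈ (Nb G v ∪ Nb G w).filter (fun s => G.Adj (if a % 2 = 1 then v else w) s),
      ∑ s' ∈ (Nb G v ∪ Nb G w).filter (fun s => G.Adj (if b % 2 = 1 then v else w) s),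
        x s * Qn G x (Nb G v ∪ Nb G w) n s s' ≤ E) :
    ∑ s ∈ Nb G v ∪ Nb G w, ∑ s' ∈ Nb G v ∪ Nb G w,
        Bn G x a v s * Qn G x (Nb G v ∪ Nb G w) n s s' * Bn G x b s' v ≤
      x v * (pbR G x L v a * pbR G x L v b * E) := by
  have hx' : ∀ v, 0 ≤ x v := fun v => (hx v).le
  rw [mem_Icc] at ha hb
  set Z := Nb G v ∪ Nb G w with hZ
  have hQ : ∀ s s', 0 ≤ Qn G x Z n s s' := by
    intro s s'
    unfold Qn
    refine sum_nonneg fun z _ => mul_nonneg (Bn_nonneg (off_nonneg hx') _ _ _) ?_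
    split_ifs
    · exact hx' _
    · exact le_refl _
  have hRa := pbR_nonneg hx' hL v a
  have hRb := pbR_nonneg hx' hL v b
  have h1 : ∑ s ∈ Z, ∑ s' ∈ Z, Bn G x a v s * Qn G x Z n s s' * Bn G x b s' v =
      ∑ s ∈ Z.filter (fun s => G.Adj (if a % 2 = 1 then v else w) s),
        ∑ s' ∈ Z.filter (fun s => G.Adj (if b % 2 = 1 then v else w) s),
          Bn G x a v s * Qn G x Z n s s' * Bn G x b s' v := by
    rw [← sum_filter_of_ne (p := fun s => G.Adj (if a % 2 = 1 then v else w) s)]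
    · refine sum_congr rfl fun s _ => ?_
      rw [← sum_filter_of_ne (p := fun s => G.Adj (if b % 2 = 1 then v else w) s)]
      intro s' hs' hne
      have h3 : Bn G x b s' v ≠ 0 := fun h0 => hne (by rw [h0, mul_zero])
      exact pb_hub0 hG hm hvw hb.2 hs' (Bn_wk h3).symm
    · intro s hs hne
      have h3 : Bn G x a v s ≠ 0 := by
        intro h0
        apply hne
        refine sum_eq_zero fun s' _ => ?_
        rw [h0, zero_mul, zero_mul]
      exact pb_hub0 hG hm hvw ha.2 hs (Bn_wk h3)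
  rw [h1]
  calc ∑ s ∈ Z.filter (fun s => G.Adj (if a % 2 = 1 then v else w) s),
        ∑ s' ∈ Z.filter (fun s => G.Adj (if b % 2 = 1 then v else w) s),
          Bn G x a v s * Qn G x Z n s s' * Bn G x b s' v ≤
      ∑ s ∈ Z.filter (fun s => G.Adj (if a % 2 = 1 then v else w) s),
        ∑ s' ∈ Z.filter (fun s => G.Adj (if b % 2 = 1 then v else w) s),
          (x v * (pbR G x L v a * pbR G x L v b)) * (x s * Qn G x Z n s s') := by
        refine sum_le_sum fun s _ => sum_le_sum fun s' _ => ?_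
        have e1 := pb_arm hx hL ha.1 v s
        have e2 := pb_arm' hx hL hb.1 v s'
        calc Bn G x a v s * Qn G x Z n s s' * Bn G x b s' v ≤
            (x s * pbR G x L v a) * Qn G x Z n s s' * (x v * pbR G x L v b) := by
              refine mul_le_mul (mul_le_mul_of_nonneg_right e1 (hQ s s')) e2
                (Bn_nonneg hx' _ _ _) ?_
              exact mul_nonneg (mul_nonneg (hx' s) hRa) (hQ s s')
          _ = _ := by ring
    _ = (x v * (pbR G x L v a * pbR G x L v b)) *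
        ∑ s ∈ Z.filter (fun s => G.Adj (if a % 2 = 1 then v else w) s),
        ∑ s' ∈ Z.filter (fun s => G.Adj (if b % 2 = 1 then v else w) s),
          x s * Qn G x Z n s s' := by
        rw [mul_sum]
        refine sum_congr rfl fun s _ => ?_
        rw [mul_sum]
    _ ≤ (x v * (pbR G x L v a * pbR G x L v b)) * E :=
        mul_le_mul_of_nonneg_left hE (mul_nonneg (hx' v) (mul_nonneg hRa hRb))
    _ = _ := by ring

/-- The product of the two arms. -/
private lemma pb_prod {m : ℕ} (hx : ∀ v, 0 < x v) (hs : ∑ v, x v = m) (hm : 1 ≤ m) {L : ℝ}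
    (hL : Lb G x L) (v : V) {a b l : ℕ} (ha : 1 ≤ a) (hb : 1 ≤ b)
    (h : a + b = 2 * l + 2 ∨ a + b = 2 * l + 3) :
    pbR G x L v a * pbR G x L v b ≤ (m : ℝ) ^ 2 * L ^ (2 * l) := by
  have hx' : ∀ v, 0 ≤ x v := fun v => (hx v).le
  have hL1 := hL.1
  have hL0 : (0 : ℝ) ≤ L := by linarith
  have hm1 : (1 : ℝ) ≤ m := by exact_mod_cast hm
  have hd0 : 0 ≤ dg G x v := wS_nonneg hx' _
  have hd : dg G x v ≤ m := by
    rw [← hs, ← wS_univ]
    exact wS_mono hx' (subset_univ _)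
  have key : ∀ (c e : ℝ), 0 ≤ c → c ≤ m → 0 ≤ e → e ≤ m → ∀ p q : ℕ, p + q ≤ 2 * l →
      (c * L ^ p) * (e * L ^ q) ≤ (m : ℝ) ^ 2 * L ^ (2 * l) := by
    intro c e hc hcm he hem p q hpq
    calc (c * L ^ p) * (e * L ^ q) = (c * e) * L ^ (p + q) := by rw [pow_add]; ring
      _ ≤ ((m : ℝ) * m) * L ^ (2 * l) :=
          mul_le_mul (mul_le_mul hcm hem he (by linarith)) (pow_le_pow_right₀ hL1 hpq)
            (by positivity) (by positivity)
      _ = _ := by ring
  unfold pbR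
  split_ifs with h1 h2 h2
  · have := key 1 1 zero_le_one hm1 zero_le_one hm1 (a - 1) (b - 1) (by omega)
    simpa using this
  · have := key 1 (dg G x v) zero_le_one hm1 hd0 hd (a - 1) (b - 2) (by omega)
    simpa using this
  · have := key (dg G x v) 1 hd0 hd zero_le_one hm1 (a - 2) (b - 1) (by omega)
    simpa using this
  · exact key (dg G x v) (dg G x v) hd0 hd hd0 hd (a - 2) (b - 2) (by omega)

/-- A diagonal entry is at most the weighted count, or zero. -/
private lemma pb_diag {m j l : ℕ} [NeZero m] (ho : Odd m) (hG : OddFree G m) {y : V → ℝ}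
    (hy : ∀ v, 0 ≤ y v) (hl : 2 * l ≤ m + 2 * j) (c : V) {L : ℝ} (hL : 1 ≤ L) :
    L ^ (2 * l) * Bn G y (m + 2 * j - 2 * l) c c ≤
      ∑ l ∈ range (j + 1), L ^ (2 * l) * Fw G (m + 2 * (j - l)) y := by
  have hL0 : (0 : ℝ) ≤ L := by linarith
  have hF : ∀ i, 0 ≤ Fw G (m + 2 * i) y := fun i => Fw_nonneg G _ hy
  by_cases h : l ≤ j
  · rw [show m + 2 * j - 2 * l = m + 2 * (j - l) by omega]
    have h1 : Bn G y (m + 2 * (j - l)) c c ≤ Fw G (m + 2 * (j - l)) y := by
      rw [Fw_trace]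
      exact single_le_sum (f := fun u => Bn G y (m + 2 * (j - l)) u u)
        (fun u _ => Bn_nonneg hy _ _ _) (mem_univ c)
    calc L ^ (2 * l) * Bn G y (m + 2 * (j - l)) c c ≤
        L ^ (2 * l) * Fw G (m + 2 * (j - l)) y := mul_le_mul_of_nonneg_left h1 (by positivity)
      _ ≤ _ := single_le_sum (f := fun l => L ^ (2 * l) * Fw G (m + 2 * (j - l)) y)
          (fun i _ => mul_nonneg (by positivity) (hF _)) (mem_range.2 (by omega))
  · have h0 : Bn G y (m + 2 * j - 2 * l) c c = 0 := by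
      refine Bn_odd hG ?_ (by omega) c
      obtain ⟨q, hq⟩ := ho
      rw [Nat.odd_iff]
      omega
    rw [h0, mul_zero]
    exact sum_nonneg fun i _ => mul_nonneg (by positivity) (hF _)

/-- The contribution of given last and first visits. -/
theorem pair_ab {m j : ℕ} [NeZero m] (ho : Odd m) (hG : OddFree G m) (hm : 4 * j + 7 ≤ m)
    (hx : ∀ v, 0 < x v) (hs : ∑ v, x v = m) {L : ℝ} (hL : Lb G x L) {v w : V}
    (hvw : G.Adj v w) {a b : ℕ} (ha : a ∈ Icc 1 (2 * j + 2)) (hb : b ∈ Icc 1 (2 * j + 2)) :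
    ∑ s ∈ Nb G v ∪ Nb G w, ∑ s' ∈ Nb G v ∪ Nb G w,
        Bn G x a v s * Qn G x (Nb G v ∪ Nb G w) (m + 2 * j - a - b) s s' * Bn G x b s' v ≤
      x v * ((m : ℝ) ^ 4 * ∑ l ∈ range (j + 1), L ^ (2 * l) *
        Fw G (m + 2 * (j - l)) (yz x (Nb G v ∪ Nb G w) v w)) := by
  have hx' : ∀ v, 0 ≤ x v := fun v => (hx v).le
  have ha' := mem_Icc.1 ha
  have hb' := mem_Icc.1 hb
  have hL1 := hL.1
  have hL0 : (0 : ℝ) ≤ L := by linarith
  set Z := Nb G v ∪ Nb G w with hZ
  set y := yz x Z v w with hy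
  have hy0 : ∀ u, 0 ≤ y u := yz_nonneg hx' Z v w
  have hwZ : 0 < wS x Z := by
    have : w ∈ Z := by rw [hZ, mem_union, mem_Nb]; exact Or.inl hvw.symm
    exact sum_pos (fun u _ => hx u) ⟨w, this⟩
  have hZm : wS x Z ≤ m := by
    rw [← hs, ← wS_univ]
    exact wS_mono hx' (subset_univ _)
  have hyu : ∀ u, y u = (if u ∈ Z then 2 / wS x Z * x u else x u) +
      (if u = v then 1 else 0) + (if u = w then 1 else 0) := fun u => rfl
  have hite : ∀ (u c : V), (0 : ℝ) ≤ if u = c then 1 else 0 := by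
    intro u c
    split_ifs <;> norm_num
  have hbase : ∀ u, 0 ≤ (if u ∈ Z then 2 / wS x Z * x u else x u) := by
    intro u
    split_ifs
    · exact mul_nonneg (by positivity) (hx' u)
    · exact hx' u
  have hoff : ∀ u, u ∉ Z → x u ≤ y u := by
    intro u hu
    rw [hyu, if_neg hu]
    linarith [hite u v, hite u w]
  have hyv : 1 ≤ y v := by
    rw [hyu, if_pos rfl]
    linarith [hite v w, hbase v]
  have hyw : 1 ≤ y w := by
    rw [hyu]
    simp only [if_true]
    linarith [hite w v, hbase w]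
  set κ : ℝ := wS x Z / 2 with hκ
  have hκ0 : 0 ≤ κ := by positivity
  have hκm : κ ^ 2 ≤ (m : ℝ) ^ 2 := by
    refine pow_le_pow_left₀ hκ0 ?_ 2
    have : wS x Z / 2 ≤ wS x Z := by linarith
    linarith
  have hZy : ∀ u ∈ Z, x u ≤ κ * y u := by
    intro u hu
    rw [hyu, if_pos hu]
    have h1 : κ * (2 / wS x Z * x u) = x u := by
      rw [hκ]
      field_simp
    have h2 : 0 ≤ κ * ((if u = v then (1 : ℝ) else 0) + (if u = w then 1 else 0)) :=
      mul_nonneg hκ0 (add_nonneg (hite u v) (hite u w))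
    nlinarith
  have hn : 1 ≤ m + 2 * j - a - b := by omega
  -- the closed walks
  have fin : ∀ (l : ℕ) (c : V), (a + b = 2 * l + 2 ∨ a + b = 2 * l + 3) →
      x v * (pbR G x L v a * pbR G x L v b * (κ ^ 2 * Bn G y (m + 2 * j - 2 * l) c c)) ≤
      x v * ((m : ℝ) ^ 4 * ∑ l ∈ range (j + 1), L ^ (2 * l) * Fw G (m + 2 * (j - l)) y) := by
    intro l c hl
    refine mul_le_mul_of_nonneg_left ?_ (hx' v)
    have e1 := pb_prod hx hs (by omega) hL v ha'.1 hb'.1 hl
    have e2 := pb_diag (j := j) (l := l) ho hG hy0 (by omega) c hL1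
    have hB := Bn_nonneg (G := G) hy0 (m + 2 * j - 2 * l) c c
    calc pbR G x L v a * pbR G x L v b * (κ ^ 2 * Bn G y (m + 2 * j - 2 * l) c c) ≤
        ((m : ℝ) ^ 2 * L ^ (2 * l)) * ((m : ℝ) ^ 2 * Bn G y (m + 2 * j - 2 * l) c c) := by
          refine mul_le_mul e1 (mul_le_mul_of_nonneg_right hκm hB)
            (mul_nonneg (by positivity) hB) (by positivity)
      _ = (m : ℝ) ^ 4 * (L ^ (2 * l) * Bn G y (m + 2 * j - 2 * l) c c) := by ring
      _ ≤ _ := mul_le_mul_of_nonneg_left e2 (by positivity)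
  by_cases h1 : a % 2 = 1 <;> by_cases h2 : b % 2 = 1
  · obtain ⟨l, hl⟩ : ∃ l, a + b = 2 * l + 2 := ⟨(a + b) / 2 - 1, by omega⟩
    refine le_trans (pb_common hG hm hx hL hvw ha hb (m + 2 * j - a - b)
      (E := κ ^ 2 * Bn G y (m + 2 * j - 2 * l) v v) ?_) (fin l v (Or.inl hl))
    simp only [if_pos h1, if_pos h2]
    have := close_one (G := G) (Z := Z) hx' hy0 hoff hκ0 hZy hyv hn
    rwa [show m + 2 * j - a - b + 2 = m + 2 * j - 2 * l by omega] at this
  · obtain ⟨l, hl⟩ : ∃ l, a + b = 2 * l + 3 := ⟨(a + b - 3) / 2, by omega⟩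
    refine le_trans (pb_common hG hm hx hL hvw ha hb (m + 2 * j - a - b)
      (E := κ ^ 2 * Bn G y (m + 2 * j - 2 * l) v v) ?_) (fin l v (Or.inr hl))
    simp only [if_pos h1, if_neg h2]
    have := close_two (G := G) (Z := Z) hx' hy0 hoff hκ0 hZy hvw.symm hyv hyw hn
    rwa [show m + 2 * j - a - b + 3 = m + 2 * j - 2 * l by omega] at this
  · obtain ⟨l, hl⟩ : ∃ l, a + b = 2 * l + 3 := ⟨(a + b - 3) / 2, by omega⟩
    refine le_trans (pb_common hG hm hx hL hvw ha hb (m + 2 * j - a - b)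
      (E := κ ^ 2 * Bn G y (m + 2 * j - 2 * l) w w) ?_) (fin l w (Or.inr hl))
    simp only [if_neg h1, if_pos h2]
    have := close_two (G := G) (Z := Z) hx' hy0 hoff hκ0 hZy hvw hyw hyv hn
    rwa [show m + 2 * j - a - b + 3 = m + 2 * j - 2 * l by omega] at this
  · obtain ⟨l, hl⟩ : ∃ l, a + b = 2 * l + 2 := ⟨(a + b) / 2 - 1, by omega⟩
    refine le_trans (pb_common hG hm hx hL hvw ha hb (m + 2 * j - a - b)
      (E := κ ^ 2 * Bn G y (m + 2 * j - 2 * l) w w) ?_) (fin l w (Or.inl hl))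
    simp only [if_neg h1, if_neg h2]
    have := close_one (G := G) (Z := Z) hx' hy0 hoff hκ0 hZy hyw hn
    rwa [show m + 2 * j - a - b + 2 = m + 2 * j - 2 * l by omega] at this

end Pool.Agent.CycSh
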