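import Pool.Agent.W_1bfdb5sh_h41.Clo
import Pool.Agent.W_1bfdb5sh_h41.Arm
import Pool.Agent.W_1bfdb5sh_h41.Tr
import Pool.Agent.W_1bfdb5sh_h41.Pl
import Pool.Agent.W_1bfdb5sh_h41.PrB

/-!
# The pair lemma
-/

namespace Pool.Agent.CycSh

open Finset Pool.Agent.CycGT Pool.Agent.CycFD
open scoped Classical

variable {V : Type} [Fintype V] {G : SimpleGraph V} {x : V → ℝ}

/-- The pair lemma. -/
theorem pair_le {m j : ℕ} [NeZero m] (ho : Odd m) (hG : OddFree G m) (hm : 4 * j + 7 ≤ m)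
    (hx : ∀ v, 0 < x v) (hs : ∑ v, x v = m) {L : ℝ} (hL : Lb G x L) {v w : V}
    (hvw : G.Adj v w) : dw G (m + 2 * j) x v ≤
      (2 * (j : ℝ) + 2) ^ 2 * (m : ℝ) ^ 4 * ∑ l ∈ range (j + 1), L ^ (2 * l) *
        Fw G (m + 2 * (j - l)) (yz x (Nb G v ∪ Nb G w) v w) := by
  have h1 := pair_dec (x := x) ho hG hm (fun u => (hx u).le) hvw
  have h2 := h1.trans (sum_le_sum fun a ha => sum_le_sum fun b hb =>
    pair_ab ho hG hm hx hs hL hvw ha hb)
  rw [Bn_diag] at h2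
  simp only [sum_const, Nat.card_Icc, nsmul_eq_mul] at h2
  have h3 : ((2 * j + 2 + 1 - 1 : ℕ) : ℝ) = 2 * (j : ℝ) + 2 := by
    have h4 : 2 * j + 2 + 1 - 1 = 2 * j + 2 := by omega
    rw [h4]
    push_cast
    ring
  rw [h3] at h2
  refine le_of_mul_le_mul_left (h2.trans (le_of_eq ?_)) (hx v)
  ring

end Pool.Agent.CycSh
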