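import Pool.Agent.W_1bfdb5sh_h41.R1A

/-!
# Derivatives of the weighted count
-/

namespace Pool.Agent.CycSh

open Finset Pool.Agent.CycGT Pool.Agent.CycFD
open scoped Classical

variable {V : Type} [Fintype V]

private theorem pao {r : ℕ} (S : Finset (ZMod r)) (f g : ZMod r → ℝ) (hf : ∀ i, 0 ≤ f i)
    (hg : ∀ i, 0 ≤ g i) :
    ∏ i ∈ S, f i + ∑ i ∈ S, g i * ∏ k ∈ S.erase i, f k ≤ ∏ i ∈ S, (f i + g i) := by
  have h := prod_add_one S f g (fun i _ => hf i) (fun i _ => hg i)
  have e0 : (fun a b : ZMod r => Classical.propDecidable (a = b)) = ZMod.decidableEq r :=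
    Subsingleton.elim _ _
  rw [e0] at h
  exact h

theorem r1 (G : SimpleGraph V) (r : ℕ) [NeZero r] {x : V → ℝ} (hx : ∀ v, 0 ≤ x v) (v : V) {s : ℝ}
    (hs : 0 ≤ s) : Fw G r x + s * (r * dw G r x v) ≤ Fw G r (ad x v s) := by
  rw [← dw_rot, Fw, Fw, Finset.mul_sum, ← Finset.sum_add_distrib]
  refine Finset.sum_le_sum fun W _ => ?_
  have h := pao (univ : Finset (ZMod r)) (fun p => x (W p))
    (fun p => if W p = v then s else 0) (fun p => hx _)
    (fun p => by split_ifs; exacts [hs, le_rfl])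
  have e : s * ∑ p, (if W p = v then ∏ q ∈ univ.erase p, x (W q) else 0) =
      ∑ p, (if W p = v then s else 0) * ∏ q ∈ univ.erase p, x (W q) := by
    rw [Finset.mul_sum]
    refine Finset.sum_congr rfl fun p _ => ?_
    split_ifs
    · rfl
    · rw [mul_zero, zero_mul]
  rw [e]
  exact h

/-- Two marked vertices. -/
theorem r2 (G : SimpleGraph V) (r : ℕ) [NeZero r] {x : V → ℝ} (hx : ∀ v, 0 ≤ x v) (v w : V) :
    (r : ℝ) * ∑ W ∈ (clos G r).filter (fun W => W 0 = v), ∑ p ∈ univ.erase (0 : ZMod r),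
      (if W p = w then ∏ q ∈ (univ.erase (0 : ZMod r)).erase p, x (W q) else 0) ≤
    Fw G r (ad (ad x w 1) v 1) := by
  have hx' : ∀ u, 0 ≤ ad x w 1 u := fun u => ad_nonneg hx w zero_le_one u
  have h1 := r1 G r hx' v zero_le_one
  have h2 : 0 ≤ Fw G r (ad x w 1) := Finset.sum_nonneg fun W _ => wP_nonneg hx' W
  have h3 : ∑ W ∈ (clos G r).filter (fun W => W 0 = v), ∑ p ∈ univ.erase (0 : ZMod r),
      (if W p = w then ∏ q ∈ (univ.erase (0 : ZMod r)).erase p, x (W q) else 0) ≤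
      dw G r (ad x w 1) v := by
    rw [dw]
    refine Finset.sum_le_sum fun W _ => ?_
    have h := pao (univ.erase (0 : ZMod r)) (fun p => x (W p))
      (fun p => if W p = w then (1 : ℝ) else 0) (fun p => hx _)
      (fun p => by split_ifs; exacts [zero_le_one, le_rfl])
    have h0 : 0 ≤ ∏ p ∈ univ.erase (0 : ZMod r), x (W p) := Finset.prod_nonneg fun p _ => hx _
    have e : ∑ p ∈ univ.erase (0 : ZMod r),
        (if W p = w then ∏ q ∈ (univ.erase (0 : ZMod r)).erase p, x (W q) else 0) =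
        ∑ p ∈ univ.erase (0 : ZMod r), (if W p = w then (1 : ℝ) else 0) *
          ∏ q ∈ (univ.erase (0 : ZMod r)).erase p, x (W q) := by
      refine Finset.sum_congr rfl fun p _ => ?_
      split_ifs
      · rw [one_mul]
      · rw [zero_mul]
    rw [e]
    have h4 : ∏ p ∈ univ.erase (0 : ZMod r), (x (W p) + if W p = w then (1 : ℝ) else 0) =
        ∏ p ∈ univ.erase (0 : ZMod r), ad x w 1 (W p) := rfl
    rw [h4] at h
    linarith
  have h4 := mul_le_mul_of_nonneg_left h3 (Nat.cast_nonneg (α := ℝ) r)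
  rw [one_mul] at h1
  linarith

end Pool.Agent.CycSh
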