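import Pool.Agent.W_1bfdb5sh_h41.Pl
import Pool.Agent.W_1bfdb5fd_h19.CutC

/-!
# Derivatives of the weighted count
-/

namespace Pool.Agent.CycSh

open Finset Pool.Agent.CycGT Pool.Agent.CycFD
open scoped Classical

variable {V : Type} [Fintype V]

/-- Every position instead of the position 0. -/
theorem dw_rot (G : SimpleGraph V) (r : ℕ) [NeZero r] (x : V → ℝ) (v : V) :
    ∑ W ∈ clos G r, ∑ p, (if W p = v then ∏ q ∈ univ.erase p, x (W q) else 0) =
      r * dw G r x v := by
  have e1 : ∀ W ∈ clos G r, ∑ p, (if W p = v then ∏ q ∈ univ.erase p, x (W q) else 0) =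
      ∑ p, (fun W' : ZMod r → V => if W' 0 = v then ∏ q ∈ univ.erase (0 : ZMod r), x (W' q)
        else 0) (rot W p) := by
    intro W _
    refine Finset.sum_congr rfl fun p _ => ?_
    have e : rot W p 0 = W p := by
      show W (p + 0) = W p
      rw [add_zero]
    have e2 : ∏ q ∈ univ.erase p, x (W q) = ∏ q ∈ univ.erase (0 : ZMod r), x (rot W p q) := by
      symm
      refine Finset.prod_nbij' (fun q => p + q) (fun q => -p + q) ?_ ?_ ?_ ?_ ?_
      · intro q hq
        rw [Finset.mem_erase] at hq ⊢
        refine ⟨fun h => hq.1 ?_, Finset.mem_univ _⟩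
        have : p + q = p + 0 := by rw [h, add_zero]
        exact add_left_cancel this
      · intro q hq
        rw [Finset.mem_erase] at hq ⊢
        refine ⟨fun h => hq.1 ?_, Finset.mem_univ _⟩
        have : -p + q = -p + p := by rw [h, neg_add_cancel]
        exact add_left_cancel this
      · intro q _
        exact neg_add_cancel_left p q
      · intro q _
        exact add_neg_cancel_left p q
      · intro q _
        rfl
    show _ = (if rot W p 0 = v then ∏ q ∈ univ.erase (0 : ZMod r), x (rot W p q) else 0)
    rw [e, e2]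
  rw [Finset.sum_congr rfl e1, ← rot_avg (G := G) (fun W' : ZMod r → V =>
    if W' 0 = v then ∏ q ∈ univ.erase (0 : ZMod r), x (W' q) else 0)]
  unfold dw
  rw [Finset.sum_filter]

theorem dw_sum (G : SimpleGraph V) (r : ℕ) [NeZero r] (x : V → ℝ) :
    ∑ v, x v * dw G r x v = Fw G r x := by
  unfold Fw dw
  simp only [Finset.sum_filter, Finset.mul_sum]
  rw [Finset.sum_comm]
  refine Finset.sum_congr rfl fun W _ => ?_
  rw [Finset.sum_eq_single (W 0)]
  · rw [if_pos rfl]
    unfold wP
    exact Finset.mul_prod_erase univ (fun p => x (W p)) (Finset.mem_univ 0)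
  · intro v _ hv
    rw [if_neg (fun h => hv h.symm), mul_zero]
  · intro h
    exact absurd (Finset.mem_univ _) h

end Pool.Agent.CycSh
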