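import Pool.Agent.W_1bfdb5sh_h41.CutW

/-!
# Closed walks with long chords or with two close chords of length 3
-/

namespace Pool.Agent.CycSh

open Finset Pool.Agent.CycGT Pool.Agent.CycFD
open scoped Classical

variable {V : Type} [Fintype V] {G : SimpleGraph V} {x : V → ℝ}

theorem chordw_one {a r N : ℕ} [NeZero r] [NeZero N] (hN : r + a = N) (hr : 2 ≤ r)
    (hx : ∀ v, 0 ≤ x v) {D : ℝ} (hD : ∀ v, dg G x v ≤ D) :
    ∑ W ∈ clos G N, ∑ p, (if G.Adj (W p) (W (p + ((a + 1 : ℕ) : ZMod N))) then
      wP x W else 0) ≤ (N : ℝ) * (D ^ a * Fw G r x) := by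
  subst hN
  have h := chordw (G := G) (x := x) (a := a) (r := r) hr hx hD (fun _ => 1)
    (fun _ => zero_le_one)
  simp only [mul_one] at h
  exact h

theorem sum_b {m j : ℕ} [NeZero m] (hm : 13 ≤ m) (hx : ∀ v, 0 ≤ x v) {D : ℝ}
    (hD : ∀ v, dg G x v ≤ D) :
    ∑ W ∈ (clos G (m + 2 * j)).filter (fun W => LongC G j W), wP x W ≤
      ∑ l ∈ Icc 2 j, ((m : ℝ) + 2 * j) * (D ^ (2 * l) * Fw G (m + 2 * (j - l)) x) := by
  have hP : ∀ W : ZMod (m + 2 * j) → V, 0 ≤ wP x W := fun W => prod_nonneg fun p _ => hx _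
  calc ∑ W ∈ (clos G (m + 2 * j)).filter (fun W => LongC G j W), wP x W
      ≤ ∑ W ∈ clos G (m + 2 * j), ∑ l ∈ Icc 2 j, ∑ p,
          (if G.Adj (W p) (W (p + ((2 * l + 1 : ℕ) : ZMod (m + 2 * j)))) then wP x W else 0) := by
        rw [Finset.sum_filter]
        refine Finset.sum_le_sum fun W _ => ?_
        have hnn : ∀ l ∈ Icc 2 j, 0 ≤ ∑ p,
            (if G.Adj (W p) (W (p + ((2 * l + 1 : ℕ) : ZMod (m + 2 * j)))) then
              wP x W else 0) := by
          intro l _
          refine Finset.sum_nonneg fun p _ => ?_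
          split_ifs
          · exact hP W
          · exact le_rfl
        split_ifs with h
        · obtain ⟨l, hl, p, hp⟩ := h
          refine le_trans ?_ (Finset.single_le_sum hnn hl)
          have h1 : ∀ q ∈ (univ : Finset (ZMod (m + 2 * j))), 0 ≤
              (if G.Adj (W q) (W (q + ((2 * l + 1 : ℕ) : ZMod (m + 2 * j)))) then
                wP x W else 0) := by
            intro q _
            split_ifs
            · exact hP W
            · exact le_rfl
          refine le_trans ?_ (Finset.single_le_sum h1 (mem_univ p))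
          rw [if_pos hp]
        · exact Finset.sum_nonneg hnn
    _ = ∑ l ∈ Icc 2 j, ∑ W ∈ clos G (m + 2 * j), ∑ p,
          (if G.Adj (W p) (W (p + ((2 * l + 1 : ℕ) : ZMod (m + 2 * j)))) then
            wP x W else 0) := Finset.sum_comm
    _ ≤ ∑ l ∈ Icc 2 j, ((m : ℝ) + 2 * j) * (D ^ (2 * l) * Fw G (m + 2 * (j - l)) x) := by
        refine Finset.sum_le_sum fun l hl => ?_
        rw [Finset.mem_Icc] at hl
        have hN : m + 2 * (j - l) + 2 * l = m + 2 * j := by omega
        have h := chordw_one (G := G) (x := x) (a := 2 * l) (r := m + 2 * (j - l))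
          (N := m + 2 * j) hN (by omega) hx hD
        push_cast at h ⊢
        exact h

end Pool.Agent.CycSh
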