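import Pool.Agent.W_1bfdb5sh_h41.CutW
import Pool.Agent.W_1bfdb5fd_h19.Dj

/-!
# Closed walks with long chords or with two close chords of length 3
-/

namespace Pool.Agent.CycSh

open Finset Pool.Agent.CycGT Pool.Agent.CycFD
open scoped Classical

variable {V : Type} [Fintype V] {G : SimpleGraph V} {x : V → ℝ}

/-- Chords of length 3 at a fixed position. -/
private theorem chord_at {r : ℕ} [NeZero r] [NeZero (r + 2)] (hr : 2 ≤ r) (hx : ∀ v, 0 ≤ x v)
    {D : ℝ} (hD : ∀ v, dg G x v ≤ D) (q : ZMod (r + 2)) :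
    ∑ W ∈ clos G (r + 2), (if G.Adj (W q) (W (q + 3)) then wP x W else 0) ≤
      D ^ 2 * Fw G r x := by
  have h1 := cutw (G := G) (x := x) (a := 2) hr hx hD (fun _ => 1) (fun _ => zero_le_one)
  have h2 := rot_sum (G := G) (fun W : ZMod (r + 2) → V =>
    if G.Adj (W 0) (W ((2 + 1 : ℕ) : ZMod (r + 2))) then wP x W else 0) q
  have h3 : ∑ W ∈ clos G (r + 2), (if G.Adj (W q) (W (q + 3)) then wP x W else 0) =
      ∑ W ∈ clos G (r + 2), (if G.Adj (rot W q 0) (rot W q ((2 + 1 : ℕ) : ZMod (r + 2))) then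
        wP x (rot W q) else 0) := by
    refine sum_congr rfl fun W _ => ?_
    have e1 : rot W q 0 = W q := by show W (q + 0) = W q; rw [add_zero]
    have e2 : rot W q ((2 + 1 : ℕ) : ZMod (r + 2)) = W (q + 3) := by
      show W (q + ((2 + 1 : ℕ) : ZMod (r + 2))) = W (q + 3)
      norm_num
    rw [e1, e2, wP_rot]
  rw [h3, h2, ← sum_filter]
  simpa [Fw] using h1

private theorem sum_b_aux {r : ℕ} [NeZero r] [NeZero (r + 2)] [NeZero (r + 2 + 2)] (hr : 9 ≤ r)
    (hx : ∀ v, 0 ≤ x v) {D : ℝ} (hD : ∀ v, dg G x v ≤ D) :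
    ∑ W ∈ (clos G (r + 2 + 2)).filter (fun W => CloseC G W), wP x W ≤
      3 * ((r + 2 + 2 : ℕ) : ℝ) * (D ^ 4 * Fw G r x) := by
  set g : (ZMod (r + 2) → V) → ℝ := fun W' => ∑ d ∈ Icc 1 3,
    if G.Adj (W' ((d : ℕ) : ZMod (r + 2))) (W' (((d : ℕ) : ZMod (r + 2)) + 3)) then 1 else 0
    with hg
  have hg0 : ∀ W', 0 ≤ g W' := fun W' => sum_nonneg fun d _ => by split_ifs <;> norm_num
  have s1 : ∑ W ∈ (clos G (r + 2 + 2)).filter (fun W => CloseC G W), wP x W ≤
      ∑ W ∈ clos G (r + 2 + 2), ∑ p, (if G.Adj (W p) (W (p + ((2 + 1 : ℕ) : ZMod (r + 2 + 2)))) then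
        wP x W * g (cut 2 (rot W p)) else 0) := by
    rw [sum_filter]
    refine sum_le_sum fun W _ => ?_
    have hnn : ∀ p ∈ (univ : Finset (ZMod (r + 2 + 2))),
        0 ≤ (if G.Adj (W p) (W (p + ((2 + 1 : ℕ) : ZMod (r + 2 + 2)))) then
        wP x W * g (cut 2 (rot W p)) else 0) := by
      intro p _
      split_ifs
      · exact mul_nonneg (wP_nonneg hx W) (hg0 _)
      · exact le_rfl
    by_cases hc : CloseC G W
    · rw [if_pos hc]
      obtain ⟨p, d, hd, h1, h2⟩ := hc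
      rw [mem_Icc] at hd
      refine le_trans ?_ (single_le_sum hnn (mem_univ p))
      have e1 : p + ((2 + 1 : ℕ) : ZMod (r + 2 + 2)) = p + 3 := by norm_num
      rw [e1, if_pos h1]
      have hv : ((d : ℕ) : ZMod (r + 2 + 2)).val = d := ZMod.val_cast_of_lt (by omega)
      have h3 : G.Adj (cut 2 (rot W p) ((d - 2 : ℕ) : ZMod (r + 2)))
          (cut 2 (rot W p) (((d - 2 : ℕ) : ZMod (r + 2)) + 3)) := by
        have h4 := cut_chord (G := G) (W := rot W p) (q := ((d : ℕ) : ZMod (r + 2 + 2)))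
          (by rw [hv]; omega) (by rw [hv]; omega) (by
            show G.Adj (W (p + _)) (W (p + (_ + 3)))
            rw [← add_assoc]
            exact h2)
        rw [hv] at h4
        exact h4
      have h5 : 1 ≤ g (cut 2 (rot W p)) := by
        have h6 : (if G.Adj (cut 2 (rot W p) ((d - 2 : ℕ) : ZMod (r + 2)))
          (cut 2 (rot W p) (((d - 2 : ℕ) : ZMod (r + 2)) + 3)) then (1 : ℝ) else 0) ≤
            g (cut 2 (rot W p)) := by
          refine single_le_sum (f := fun d : ℕ =>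
            if G.Adj (cut 2 (rot W p) ((d : ℕ) : ZMod (r + 2)))
              (cut 2 (rot W p) (((d : ℕ) : ZMod (r + 2)) + 3)) then (1 : ℝ) else 0) ?_ ?_
          · intro i _
            show (0 : ℝ) ≤ if _ then _ else _
            split_ifs <;> norm_num
          · rw [mem_Icc]; omega
        rw [if_pos h3] at h6
        exact h6
      exact le_mul_of_one_le_right (wP_nonneg hx W) h5
    · rw [if_neg hc]
      exact sum_nonneg hnn
  have s2 := chordw (G := G) (x := x) (a := 2) (r := r + 2) (by omega) hx hD g hg0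
  have s3 : ∑ W ∈ clos G (r + 2), wP x W * g W ≤ 3 * (D ^ 2 * Fw G r x) := by
    have e : ∑ W ∈ clos G (r + 2), wP x W * g W = ∑ d ∈ Icc 1 3, ∑ W ∈ clos G (r + 2),
        (if G.Adj (W ((d : ℕ) : ZMod (r + 2))) (W (((d : ℕ) : ZMod (r + 2)) + 3)) then
          wP x W else 0) := by
      rw [sum_comm]
      refine sum_congr rfl fun W _ => ?_
      rw [hg, mul_sum]
      refine sum_congr rfl fun d _ => ?_
      rw [mul_ite, mul_one, mul_zero]
    rw [e]
    calc _ ≤ ∑ _d ∈ Icc 1 3, D ^ 2 * Fw G r x :=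
          sum_le_sum fun d _ => chord_at (by omega) hx hD _
      _ = 3 * (D ^ 2 * Fw G r x) := by simp
  refine s1.trans (s2.trans ?_)
  have h7 : D ^ 2 * ∑ W ∈ clos G (r + 2), wP x W * g W ≤ D ^ 2 * (3 * (D ^ 2 * Fw G r x)) :=
    mul_le_mul_of_nonneg_left s3 (sq_nonneg D)
  have h8 := mul_le_mul_of_nonneg_left h7 (Nat.cast_nonneg (α := ℝ) (r + 2 + 2))
  refine h8.trans (le_of_eq ?_)
  ring

theorem sum_b' {m j : ℕ} [NeZero m] (hm : 13 ≤ m) (hx : ∀ v, 0 ≤ x v) {D : ℝ}
    (hD : ∀ v, dg G x v ≤ D) :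
    ∑ W ∈ (clos G (m + 2 * (j + 2))).filter (fun W => CloseC G W), wP x W ≤
      3 * ((m : ℝ) + 2 * (j + 2)) * (D ^ 4 * Fw G (m + 2 * j) x) := by
  haveI : NeZero (m + 2 * j + 2) := ⟨by omega⟩
  haveI : NeZero (m + 2 * j + 2 + 2) := ⟨by omega⟩
  have h := sum_b_aux (G := G) (x := x) (r := m + 2 * j) (by omega) hx hD
  have e : ((m + 2 * j + 2 + 2 : ℕ) : ℝ) = (m : ℝ) + 2 * (j + 2) := by push_cast; ring
  rw [e] at h
  exact h

/-- For `j ≤ 1` there are no two close chords. -/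
theorem no_close {m j : ℕ} [NeZero m] (hm : 13 ≤ m) (ho : Odd m) (hG : OddFree G m) (hj : j ≤ 1)
    {W : ZMod (m + 2 * j) → V} (hW : W ∈ clos G (m + 2 * j)) : ¬ CloseC G W := by
  rintro ⟨p, d, hd, h1, h2⟩
  rw [mem_Icc] at hd
  have hv : ((d : ℕ) : ZMod (m + 2 * j)).val = d := ZMod.val_cast_of_lt (by omega)
  have hd0 : ((d : ℕ) : ZMod (m + 2 * j)) ≠ 0 := by
    intro h
    rw [h, ZMod.val_zero] at hv
    omega
  have hne : p ≠ p + ((d : ℕ) : ZMod (m + 2 * j)) := by
    intro h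
    apply hd0
    have := left_eq_add.1 h
    exact this
  have hsep : Sep 3 ({p, p + ((d : ℕ) : ZMod (m + 2 * j))} : Finset (ZMod (m + 2 * j))) := by
    intro a ha b hb hab
    rw [mem_insert, mem_singleton] at ha hb
    rcases ha with rfl | rfl <;> rcases hb with rfl | rfl
    · exact absurd rfl hab
    · rw [add_sub_cancel_left, hv]; omega
    · have e : b - (b + ((d : ℕ) : ZMod (m + 2 * j))) = -((d : ℕ) : ZMod (m + 2 * j)) := by ring
      rw [e, ZMod.neg_val, if_neg hd0, hv]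
      omega
    · exact absurd rfl hab
  have h3 := max_disj (by omega) ho hG j (m + 2 * j) inferInstance rfl W hW _ hsep (by
    intro a ha
    rw [mem_insert, mem_singleton] at ha
    rcases ha with rfl | rfl
    · exact h1
    · exact h2)
  rw [card_pair hne] at h3
  omega

end Pool.Agent.CycSh
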