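import Pool.Agent.W_1bfdb5sh_h41.ThA
import Pool.Agent.W_1bfdb5sh_h41.FlC
import Pool.Agent.W_1bfdb5fd_h19.Rb

/-!
# The sharp threshold
-/

namespace Pool.Agent.CycSh

open Finset Filter Topology Pool.Agent.CycGT Pool.Agent.CycFD
open scoped Classical

private theorem ShA_exp3 : Real.exp 3 = Real.exp 1 ^ 3 := by
  rw [← Real.exp_nat_mul]
  norm_num

private theorem ShA_low : Real.exp (-3 * (94 / 100 : ℝ)) < 1 - 94 / 100 := by
  have h1 := Real.exp_one_gt_d9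
  have h2 : (2.7182818283 : ℝ) ^ 3 < Real.exp 3 := by
    rw [ShA_exp3]
    gcongr
  have h3 : (0.94 : ℝ) ≤ Real.exp (-0.06) := by
    have := Real.add_one_le_exp (-0.06 : ℝ)
    norm_num at this ⊢
    linarith
  have h4 : (0.94 : ℝ) ^ 3 ≤ Real.exp (-0.18) := by
    have h5 : Real.exp (-0.18) = Real.exp (-0.06) ^ 3 := by
      rw [← Real.exp_nat_mul]
      norm_num
    rw [h5]
    gcongr
  have h6 : Real.exp (3 * (94 / 100 : ℝ)) = Real.exp 3 * Real.exp (-0.18) := by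
    rw [← Real.exp_add]
    norm_num
  have h7 : (2.7182818283 : ℝ) ^ 3 * 0.94 ^ 3 < Real.exp (3 * (94 / 100 : ℝ)) := by
    rw [h6]
    exact mul_lt_mul h2 h4 (by norm_num) (Real.exp_pos _).le
  have h8 : Real.exp (-3 * (94 / 100 : ℝ)) = (Real.exp (3 * (94 / 100 : ℝ)))⁻¹ := by
    rw [← Real.exp_neg]
    norm_num
  rw [h8, inv_lt_comm₀ (Real.exp_pos _) (by norm_num)]
  refine lt_trans ?_ h7
  norm_num

private theorem ShA_high : 1 - 941 / 1000 < Real.exp (-3 * (941 / 1000 : ℝ)) := by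
  have h1 := Real.exp_one_lt_d9
  have h2 : Real.exp 3 < (2.7182818286 : ℝ) ^ 3 := by
    rw [ShA_exp3]
    gcongr
  have h3 : (1 + 0.177 + 0.177 ^ 2 / 2 : ℝ) ≤ Real.exp 0.177 :=
    Real.quadratic_le_exp_of_nonneg (by norm_num)
  have h6 : Real.exp (3 * (941 / 1000 : ℝ)) * Real.exp 0.177 = Real.exp 3 := by
    rw [← Real.exp_add]
    norm_num
  have h7 : Real.exp (3 * (941 / 1000 : ℝ)) < 16.9 := by
    by_contra hcon
    push Not at hcon
    have h8 : (16.9 : ℝ) * (1 + 0.177 + 0.177 ^ 2 / 2) ≤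
        Real.exp (3 * (941 / 1000 : ℝ)) * Real.exp 0.177 :=
      mul_le_mul hcon h3 (by norm_num) (Real.exp_pos _).le
    rw [h6] at h8
    norm_num at h8 h2
    linarith
  have h8 : Real.exp (-3 * (941 / 1000 : ℝ)) = (Real.exp (3 * (941 / 1000 : ℝ)))⁻¹ := by
    rw [← Real.exp_neg]
    norm_num
  rw [h8, lt_inv_comm₀ (by norm_num) (Real.exp_pos _)]
  refine lt_trans h7 ?_
  norm_num

/-- The root of `1 - τ = exp (-3 τ)`. -/
theorem tau_ex : ∃ τ : ℝ, 94 / 100 < τ ∧ τ < 941 / 1000 ∧ 1 - τ = Real.exp (-3 * τ) := by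
  have hc : ContinuousOn (fun x : ℝ => Real.exp (-3 * x) - (1 - x))
      (Set.Icc (94 / 100) (941 / 1000)) := by
    fun_prop
  have h := intermediate_value_Ioo (by norm_num : (94 / 100 : ℝ) ≤ 941 / 1000) hc
  have h0 : (0 : ℝ) ∈ Set.Ioo (Real.exp (-3 * (94 / 100 : ℝ)) - (1 - 94 / 100))
      (Real.exp (-3 * (941 / 1000 : ℝ)) - (1 - 941 / 1000)) :=
    ⟨sub_neg.2 ShA_low, sub_pos.2 ShA_high⟩
  obtain ⟨τ, ⟨h1, h2⟩, h3⟩ := h h0
  exact ⟨τ, h1, h2, (sub_eq_zero.1 h3).symm⟩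

end Pool.Agent.CycSh
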