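import Pool.Agent.W_1bfdb5sh_h41.ThA
import Pool.Agent.W_1bfdb5sh_h41.FlC
import Pool.Agent.W_1bfdb5sh_h41.PlB
import Pool.Agent.W_1bfdb5fd_h19.Rb

/-!
# The sharp threshold
-/

namespace Pool.Agent.CycSh

open Finset Filter Topology Pool.Agent.CycGT Pool.Agent.CycFD
open scoped Classical

/-- The unweighted form of the claim. -/
theorem clm_closed {m j : ℕ} [NeZero m] (hcl : Clm m j) {V : Type} [Fintype V]
    {G : SimpleGraph V} (hG : OddFree G m) :
    (#(clos G (m + 2 * j)) : ℝ) * (m : ℝ) ^ (m + 2 * j) ≤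
      2 * m * ((m + 2 * j).choose j : ℝ) * (Fintype.card V : ℝ) ^ (m + 2 * j) := by
  have h := hcl inferInstance V inferInstance G hG (fun _ => 1) (fun _ => zero_le_one)
  rw [Fw_one] at h
  have hm : 0 < (m : ℝ) := by exact_mod_cast Nat.pos_of_ne_zero (NeZero.ne m)
  have hs : ∑ _v : V, (1 : ℝ) = (Fintype.card V : ℝ) := by
    rw [sum_const, card_univ, nsmul_eq_mul, mul_one]
  rw [hs, div_pow, ← mul_div_assoc, le_div_iff₀ (pow_pos hm _)] at h
  unfold Tn at h
  exact h

end Pool.Agent.CycSh
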