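import Pool.Agent.W_1bfdb5sh_h41.ThA
import Pool.Agent.W_1bfdb5sh_h41.FlC
import Pool.Agent.W_1bfdb5fd_h19.Rb
import Pool.Agent.W_1bfdb5sh_h41.ShA
import Pool.Agent.W_1bfdb5sh_h41.ShB

/-!
# The sharp threshold
-/

namespace Pool.Agent.CycSh

open Finset Filter Topology Pool.Agent.CycGT Pool.Agent.CycFD
open scoped Classical

theorem sharp : ∃ τ : ℝ, 94 / 100 < τ ∧ τ < 941 / 1000 ∧ 1 - τ = Real.exp (-3 * τ) ∧
    ∀ ε : ℝ, 0 < ε → ∃ l0 : ℕ, ∀ l : ℕ, l0 ≤ l → Odd l → ∀ k : ℕ, Odd k → l < k →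
      (((k : ℝ) - l) ^ 3 ≤ (8 / (τ ^ 2 * (1 - τ)) - ε) * l →
        Tendsto (fun n : ℕ => (exC n k l : ℝ) / (n : ℝ) ^ k) atTop (𝓝 (cKL k l)) ∧
        ∀ (V : Type) [Fintype V] (G : SimpleGraph V),
          (∀ i, Odd i → 3 ≤ i → i ≤ l → (SimpleGraph.cycleGraph i).Free G) →
            (G.copyCount (SimpleGraph.cycleGraph k) : ℝ) ≤
              cKL k l * (Fintype.card V : ℝ) ^ k) ∧
      ((8 / (τ ^ 2 * (1 - τ)) + ε) * l ≤ ((k : ℝ) - l) ^ 3 →
        ∃ δ : ℝ, 0 < δ ∧ ∃ N : ℕ, ∀ n ≥ N, (cKL k l + δ) * (n : ℝ) ^ k ≤ (exC n k l : ℝ)) := by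
  obtain ⟨τ, h1, h2, h3⟩ := tau_ex
  refine ⟨τ, h1, h2, h3, ?_⟩
  intro ε hε
  have hτ0 : 0 < τ := by linarith
  have hτ1 : τ < 1 := by linarith
  obtain ⟨P, hP⟩ : ∃ P : ℝ, P = τ ^ 2 * (1 - τ) := ⟨_, rfl⟩
  have hsq : 88 / 100 < τ ^ 2 := by nlinarith
  have hP0 : 5 / 100 < P := by rw [hP]; nlinarith
  have hPpos : 0 < P := by linarith
  have hP1 : P < 1 := by rw [hP]; nlinarith
  obtain ⟨a, ha⟩ : ∃ a : ℝ, a = ε * P / 8 := ⟨_, rfl⟩
  have ha0 : 0 < a := by rw [ha]; positivity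
  obtain ⟨m1, hm1⟩ := thm_a (τ := τ) (ε := min a (1 / 2)) hτ0 hτ1 h3 (lt_min ha0 (by norm_num))
    (lt_of_le_of_lt (min_le_right _ _) (by norm_num))
  obtain ⟨m2, hm2⟩ := fail_sh (τ := τ) (ε := a / 2) hτ0 hτ1 h3 (by positivity)
  rw [← hP] at hm1 hm2
  obtain ⟨J0, hJ0⟩ := exists_nat_ge (12 * (1 + a) / a)
  obtain ⟨l1, hl1⟩ := exists_nat_ge ((8 + 4 * a) / a)
  refine ⟨m1 + m2 + 3 + J0 ^ 3 + l1, ?_⟩
  intro l hl hlo k hko hlk
  obtain ⟨j, rfl⟩ : ∃ j, k = l + 2 + 2 * j := by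
    obtain ⟨b, hb⟩ := hlo
    obtain ⟨c, hc⟩ := hko
    exact ⟨c - b - 1, by omega⟩
  have hl3 : 3 ≤ l := by omega
  have hlR : (3 : ℝ) ≤ l := by exact_mod_cast hl3
  have hmo : Odd (l + 2) := by
    obtain ⟨b, hb⟩ := hlo
    exact ⟨b + 1, by omega⟩
  have hj0 : (0 : ℝ) ≤ j := Nat.cast_nonneg j
  have hc : ((((l + 2 + 2 * j : ℕ) : ℝ) - l) ^ 3) = 8 * ((j : ℝ) + 1) ^ 3 := by
    push_cast
    ring
  have hl2 : l + 2 - 2 = l := by omega
  rw [hc, ← hP]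
  constructor
  · intro H
    have H1 : ((j : ℝ) + 1) ^ 3 * P ≤ (1 - a) * l := by
      have h4 := mul_le_mul_of_nonneg_right H (show (0 : ℝ) ≤ P / 8 by positivity)
      have h5 : (8 / P - ε) * l * (P / 8) = (1 - a) * l := by
        rw [ha]
        field_simp
      rw [h5] at h4
      calc ((j : ℝ) + 1) ^ 3 * P = 8 * ((j : ℝ) + 1) ^ 3 * (P / 8) := by ring
        _ ≤ _ := h4
    have H2 : (j : ℝ) ^ 3 * P ≤ (1 - min a (1 / 2)) * ((l + 2 : ℕ) : ℝ) := by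
      have h4 : (j : ℝ) ^ 3 ≤ ((j : ℝ) + 1) ^ 3 := pow_le_pow_left₀ hj0 (by linarith) 3
      have h5 : (1 - a) * (l : ℝ) ≤ (1 - min a (1 / 2)) * l :=
        mul_le_mul_of_nonneg_right (by linarith [min_le_left a (1 / 2)]) (by linarith)
      have h6 : (0 : ℝ) ≤ 1 - min a (1 / 2) := by linarith [min_le_right a (1 / 2)]
      have h7 : (j : ℝ) ^ 3 * P ≤ ((j : ℝ) + 1) ^ 3 * P :=
        mul_le_mul_of_nonneg_right h4 hPpos.le
      push_cast
      nlinarith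
    have hcl : Clm (l + 2) j := hm1 (l + 2) (by omega) hmo j H2
    have hjm : j < l + 2 := by
      by_contra hcon
      push Not at hcon
      have h4 : ((l + 2 : ℕ) : ℝ) ≤ j := by exact_mod_cast hcon
      have h5 : (5 : ℝ) ≤ ((l + 2 : ℕ) : ℝ) := by push_cast; linarith
      have h6 : (1 - min a (1 / 2)) * ((l + 2 : ℕ) : ℝ) ≤ j := by
        have h7 : 1 - min a (1 / 2) ≤ 1 := by linarith [lt_min ha0 (by norm_num : (0 : ℝ) < 1 / 2)]
        nlinarith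
      have h8 : (25 : ℝ) ≤ (j : ℝ) ^ 2 := by nlinarith
      have h9 : (j : ℝ) < (j : ℝ) ^ 3 * P := by
        have h10 : (1 : ℝ) < (j : ℝ) ^ 2 * P := by nlinarith
        have h11 : (0 : ℝ) < j := by linarith
        calc (j : ℝ) = j * 1 := by ring
          _ < j * ((j : ℝ) ^ 2 * P) := mul_lt_mul_of_pos_left h10 h11
          _ = (j : ℝ) ^ 3 * P := by ring
      linarith
    constructor
    · have h4 := asym_gen (l + 2) j (by omega) hmo hjm fun q H hH => by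
        have h5 := clm_closed hcl hH
        rw [Fintype.card_fin] at h5
        exact h5
      rw [hl2] at h4
      exact h4
    · intro V _ G hG
      have h4 := exact_gen (l + 2) j (by omega) hmo hjm G (by rw [hl2]; exact hG) fun hO =>
        clm_closed hcl hO
      rw [hl2] at h4
      exact h4
  · intro H
    have H1 : (1 + a) * l ≤ ((j : ℝ) + 1) ^ 3 * P := by
      have h4 := mul_le_mul_of_nonneg_right H (show (0 : ℝ) ≤ P / 8 by positivity)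
      have h5 : (8 / P + ε) * l * (P / 8) = (1 + a) * l := by
        rw [ha]
        field_simp
      rw [h5] at h4
      calc (1 + a) * (l : ℝ) ≤ 8 * ((j : ℝ) + 1) ^ 3 * (P / 8) := h4
        _ = _ := by ring
    have hlJ : ((J0 : ℝ)) ^ 3 < l := by
      have : J0 ^ 3 < l := by omega
      exact_mod_cast this
    have hll : (8 + 4 * a) / a ≤ l := by
      have : (l1 : ℝ) ≤ l := by exact_mod_cast (by omega : l1 ≤ l)
      linarith
    have hjJ : (J0 : ℝ) ≤ (j : ℝ) + 1 := by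
      by_contra hcon
      push Not at hcon
      have h4 : ((j : ℝ) + 1) ^ 3 ≤ (J0 : ℝ) ^ 3 := pow_le_pow_left₀ (by linarith) hcon.le 3
      have h5 : ((j : ℝ) + 1) ^ 3 * P ≤ ((j : ℝ) + 1) ^ 3 :=
        mul_le_of_le_one_right (by positivity) hP1.le
      nlinarith
    have hjj : 12 * (1 + a) ≤ a * ((j : ℝ) + 1) := by
      have h4 := hJ0.trans hjJ
      rw [div_le_iff₀ ha0] at h4
      linarith
    have hll' : 8 + 4 * a ≤ a * l := by
      rw [div_le_iff₀ ha0] at hll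
      linarith
    have H2 : (1 + a / 2) * ((l + 2 : ℕ) : ℝ) ≤ (j : ℝ) ^ 3 * P := by
      have h4 : ((j : ℝ) + 1) ^ 3 - 3 * ((j : ℝ) + 1) ^ 2 ≤ (j : ℝ) ^ 3 := by nlinarith
      -- `(1 + a) * 3 (j + 1)^2 ≤ (a / 4) (j + 1)^3`
      have h5 : (1 + a) * (3 * ((j : ℝ) + 1) ^ 2) ≤ a / 4 * ((j : ℝ) + 1) ^ 3 := by
        have h6 := mul_le_mul_of_nonneg_right hjj (show (0 : ℝ) ≤ ((j : ℝ) + 1) ^ 2 by positivity)
        nlinarith
      have h6 : (1 + a) * (j : ℝ) ^ 3 ≥ (1 + 3 * a / 4) * ((j : ℝ) + 1) ^ 3 := by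
        have h7 := mul_le_mul_of_nonneg_left h4 (show (0 : ℝ) ≤ 1 + a by positivity)
        nlinarith
      have h7 : (1 + a) * ((j : ℝ) ^ 3 * P) ≥ (1 + 3 * a / 4) * ((1 + a) * l) := by
        have h8 := mul_le_mul_of_nonneg_right h6.le hPpos.le
        have h9 := mul_le_mul_of_nonneg_left H1 (show (0 : ℝ) ≤ 1 + 3 * a / 4 by positivity)
        nlinarith
      have h8 : (j : ℝ) ^ 3 * P ≥ (1 + 3 * a / 4) * l := by
        have h9 : (0 : ℝ) < 1 + a := by positivity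
        by_contra hcon
        push Not at hcon
        have h10 := mul_lt_mul_of_pos_left hcon h9
        nlinarith
      push_cast
      nlinarith
    have h4 := hm2 (l + 2) (by omega) hmo j H2
    rw [hl2] at h4
    exact h4

end Pool.Agent.CycSh
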