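import Pool.Agent.W_1bfdb5sh_h41.ShA
import Pool.Agent.W_1bfdb5sh_h41.ShB
import Pool.Agent.W_1bfdb5sh_h41.ShC
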