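import Pool.Agent.W_1bfdb5sh_h41.MxE
import Pool.Agent.W_1bfdb5sh_h41.PB
import Pool.Agent.W_1bfdb5sh_h41.PC
import Pool.Agent.W_1bfdb5sh_h41.PDE
import Pool.Agent.W_1bfdb5sh_h41.PrW
import Pool.Agent.W_1bfdb5sh_h41.DeA
import Pool.Agent.W_1bfdb5sh_h41.PlA

/-!
# Theorem A
-/

namespace Pool.Agent.CycSh

open Finset Pool.Agent.CycGT Pool.Agent.CycFD
open scoped Classical

theorem clm_zero {m : ℕ} (hm : 13 ≤ m) (ho : Odd m) : Clm m 0 := by
  by_contra hn
  have : NeZero m := ⟨by omega⟩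
  obtain ⟨V, _, G, x, h⟩ := exists_max m 0 ho (fun i hi => absurd hi (Nat.not_lt_zero i)) hn
  have h1 : Fw G m x ≤ 2 * m := by
    refine le_trans ?_ (prw hm ho h.of h.pos h.sum)
    unfold Fw
    refine sum_le_sum fun c hc => ?_
    have hcl : IsCl G m c := (mem_filter.mp hc).2
    have h0 := Dw_nonneg hm ho h.of hcl h.pos h.sum
    have h2 := wP_nonneg (fun v => (h.pos v).le) c
    calc wP x c = wP x c * 1 := (mul_one _).symm
      _ ≤ wP x c * Real.exp (Dw G x c) := mul_le_mul_of_nonneg_left (Real.one_le_exp h0) h2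
  have h3 := h.big
  have h4 : Tn m 0 = 2 * m := by
    unfold Tn
    rw [Nat.choose_zero_right, Nat.cast_one, mul_one]
  rw [h4] at h3
  exact absurd h1 (not_le.mpr h3)

end Pool.Agent.CycSh
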