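import Pool.Agent.W_1bfdb5sh_h41.MxE
import Pool.Agent.W_1bfdb5sh_h41.PB
import Pool.Agent.W_1bfdb5sh_h41.PC
import Pool.Agent.W_1bfdb5sh_h41.PDE
import Pool.Agent.W_1bfdb5sh_h41.TaA

/-!
# Theorem A
-/

namespace Pool.Agent.CycSh

open Finset Pool.Agent.CycGT Pool.Agent.CycFD
open scoped Classical

private theorem TaB_log (A : ℝ) : ∃ m1 : ℕ, ∀ m : ℕ, m1 ≤ m → A * Real.log m ^ 12 ≤ m := by
  have h1 := (Real.isLittleO_pow_log_id_atTop (n := 12)).bound (show (0 : ℝ) < 1 / (|A| + 1) by positivity)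
  have h2 := (tendsto_natCast_atTop_atTop (R := ℝ)).eventually h1
  obtain ⟨m1, hm1⟩ := Filter.eventually_atTop.1 h2
  refine ⟨m1, fun m hm => ?_⟩
  have h3 := hm1 m hm
  simp only [id, Real.norm_eq_abs] at h3
  have h4 : |(m : ℝ)| = m := abs_of_nonneg (Nat.cast_nonneg m)
  rw [h4] at h3
  have hA : 0 < |A| + 1 := by positivity
  have h5 : (|A| + 1) * |Real.log (m : ℝ) ^ 12| ≤ m := by
    have h6 := mul_le_mul_of_nonneg_left h3 hA.le
    have h7 : (|A| + 1) * (1 / (|A| + 1) * (m : ℝ)) = m := by field_simp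
    rw [h7] at h6
    exact h6
  have h8 : 0 ≤ Real.log (m : ℝ) ^ 12 := by positivity
  rw [abs_of_nonneg h8] at h5
  have h9 : A * Real.log (m : ℝ) ^ 12 ≤ (|A| + 1) * Real.log (m : ℝ) ^ 12 :=
    mul_le_mul_of_nonneg_right (by linarith [le_abs_self A]) h8
  exact h9.trans h5

private theorem TaB_num {C g : ℝ} (hC : 1 ≤ C) (hg : 0 < g) (hg1 : g ≤ 1) :
    ∃ m1 : ℕ, ∀ m : ℕ, m1 ≤ m → ∀ j : ℕ, (j : ℝ) ^ 3 * g ≤ m →
      1 ≤ C * Real.log m ∧ 10 ^ 8 * (C * Real.log m) ^ 4 * ((j : ℝ) + 1) ^ 2 ≤ m := by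
  obtain ⟨m1, hm1⟩ := TaB_log (10 ^ 24 * C ^ 12 * (64 / g ^ 2))
  refine ⟨max m1 3, fun m hm j hj => ?_⟩
  have h1 : m1 ≤ m := (le_max_left _ _).trans hm
  have h2 : 3 ≤ m := (le_max_right _ _).trans hm
  have h2' : (3 : ℝ) ≤ m := by exact_mod_cast h2
  have hL : 1 ≤ Real.log m := by
    rw [Real.le_log_iff_exp_le (by linarith)]
    have := Real.exp_one_lt_d9
    linarith
  refine ⟨by nlinarith, ?_⟩
  have h3 := hm1 m h1
  obtain ⟨y, hy⟩ : ∃ y : ℝ, y = (j : ℝ) + 1 := ⟨_, rfl⟩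
  have hj0 : (0 : ℝ) ≤ j := Nat.cast_nonneg _
  have hy3 : y ^ 3 * g ≤ 8 * m := by
    rcases Nat.eq_zero_or_pos j with h4 | h4
    · have : y = 1 := by rw [hy, h4]; norm_num
      rw [this]
      nlinarith
    · have h5 : (1 : ℝ) ≤ j := by exact_mod_cast h4
      have h6 : y ≤ 2 * j := by rw [hy]; linarith
      have h7 : y ^ 3 ≤ (2 * (j : ℝ)) ^ 3 := pow_le_pow_left₀ (by rw [hy]; linarith) h6 3
      have h8 : (2 * (j : ℝ)) ^ 3 = 8 * (j : ℝ) ^ 3 := by ring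
      rw [h8] at h7
      have h9 := mul_le_mul_of_nonneg_right h7 hg.le
      nlinarith
  have hy0 : 0 ≤ y := by rw [hy]; linarith
  have hy6 : y ^ 6 ≤ 64 / g ^ 2 * (m : ℝ) ^ 2 := by
    have h4 : (y ^ 3 * g) ^ 2 ≤ (8 * (m : ℝ)) ^ 2 := pow_le_pow_left₀ (by positivity) hy3 2
    have h5 : y ^ 6 = (y ^ 3 * g) ^ 2 / g ^ 2 := by
      field_simp
    rw [h5, div_le_iff₀ (by positivity)]
    have h6 : 64 / g ^ 2 * (m : ℝ) ^ 2 * g ^ 2 = (8 * (m : ℝ)) ^ 2 := by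
      field_simp
      ring
    rw [h6]
    exact h4
  rw [← hy]
  have hm0 : (0 : ℝ) ≤ m := Nat.cast_nonneg _
  refine le_of_pow_le_pow_left₀ (n := 3) (by norm_num) hm0 ?_
  have h10 : 0 ≤ 10 ^ 24 * C ^ 12 * Real.log (m : ℝ) ^ 12 := by positivity
  calc (10 ^ 8 * (C * Real.log m) ^ 4 * y ^ 2) ^ 3
      = (10 ^ 24 * C ^ 12 * Real.log (m : ℝ) ^ 12) * y ^ 6 := by ring
    _ ≤ (10 ^ 24 * C ^ 12 * Real.log (m : ℝ) ^ 12) * (64 / g ^ 2 * (m : ℝ) ^ 2) :=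
        mul_le_mul_of_nonneg_left hy6 h10
    _ = (10 ^ 24 * C ^ 12 * (64 / g ^ 2) * Real.log (m : ℝ) ^ 12) * (m : ℝ) ^ 2 := by ring
    _ ≤ m * (m : ℝ) ^ 2 := mul_le_mul_of_nonneg_right h3 (by positivity)
    _ = (m : ℝ) ^ 3 := by ring

theorem thm_a {τ ε : ℝ} (h0 : 0 < τ) (h1 : τ < 1) (hτ : 1 - τ = Real.exp (-3 * τ))
    (hε : 0 < ε) (hε1 : ε < 1) : ∃ m0 : ℕ, ∀ m : ℕ, m0 ≤ m → Odd m → ∀ j : ℕ,
      (j : ℝ) ^ 3 * (τ ^ 2 * (1 - τ)) ≤ (1 - ε) * m → Clm m j := by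
  have h1' : 0 < 1 - τ := by linarith
  obtain ⟨g, hg⟩ : ∃ g, g = τ ^ 2 * (1 - τ) := ⟨_, rfl⟩
  have hg0 : 0 < g := by rw [hg]; positivity
  have hg1 : g ≤ 1 := by
    rw [hg]
    have h2 : τ ^ 2 ≤ 1 := by nlinarith
    nlinarith
  obtain ⟨C, hC, m0, hm0⟩ := part_b h0 h1 hτ hε hε1
  obtain ⟨m1, hm1⟩ := TaB_num hC hg0 hg1
  refine ⟨max (max m0 m1) 13, ?_⟩
  intro m hm ho j
  have hmm0 : m0 ≤ m := ((le_max_left _ _).trans (le_max_left _ _)).trans hm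
  have hmm1 : m1 ≤ m := ((le_max_right _ _).trans (le_max_left _ _)).trans hm
  have hm13 : 13 ≤ m := (le_max_right _ _).trans hm
  have hmR : (0 : ℝ) ≤ m := Nat.cast_nonneg _
  haveI : NeZero m := ⟨by omega⟩
  induction j using Nat.strong_induction_on with
  | _ j ih =>
    intro hj
    rcases Nat.eq_zero_or_pos j with hj0 | hj0
    · rw [hj0]
      exact clm_zero hm13 ho
    · by_contra hn
      have hcl : ∀ i, i < j → Clm m i := by
        intro i hi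
        refine ih i hi (le_trans ?_ hj)
        rw [← hg]
        have h2 : (i : ℝ) ≤ j := by exact_mod_cast hi.le
        exact mul_le_mul_of_nonneg_right (pow_le_pow_left₀ (Nat.cast_nonneg _) h2 3) hg0.le
      obtain ⟨V, hV, G, x, hx⟩ := exists_max m j ho hcl hn
      have hj' : (j : ℝ) ^ 3 * g ≤ m := by
        rw [hg]
        refine hj.trans ?_
        nlinarith
      obtain ⟨hK1, hK2⟩ := hm1 m hmm1 j hj'
      have hdg := hm0 m hmm0 j hj ⟨NeZero.ne m⟩ V hV G x hx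
      obtain ⟨c, hc, hD⟩ := part_c hx hK1 hdg hK2
      refine part_de hx hj0 ?_ hc hD
      have hK4 : (1 : ℝ) ≤ (C * Real.log m) ^ 4 := one_le_pow₀ hK1
      have h3 : (1000 : ℝ) * ((j : ℝ) + 1) ^ 2 ≤ m := by
        refine le_trans ?_ hK2
        refine mul_le_mul_of_nonneg_right ?_ (by positivity)
        nlinarith
      exact_mod_cast h3

end Pool.Agent.CycSh
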