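import Pool.Agent.W_1bfdb5sh_h41.Cyc
import Pool.Agent.W_1bfdb5sh_h41.BadV
import Pool.Agent.W_1bfdb5sh_h41.Tr
import Pool.Agent.W_1bfdb5sh_h41.TnR
import Pool.Agent.W_1bfdb5sh_h41.Pl
import Pool.Agent.W_1bfdb5fd_h19.CutC

/-!
# Every vertex has good neighbours in two classes
-/

namespace Pool.Agent.CycSh

open Finset Pool.Agent.CycGT Pool.Agent.CycFD
open scoped Classical

variable {V : Type} [Fintype V] {G : SimpleGraph V} {x : V → ℝ}

/-- The number of closed walks through a vertex from the claim. -/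
theorem dw_clm {m i : ℕ} [NeZero m] (hcl : Clm m i) (hG : OddFree G m) (hx : ∀ v, 0 ≤ x v)
    (v : V) : ((m : ℝ) + 2 * i) * dw G (m + 2 * i) x v ≤
      Tn m i * ((∑ u, x u + 1) / m) ^ (m + 2 * i) := by
  have hy0 : ∀ w, 0 ≤ ad x v 1 w := ad_nonneg hx v zero_le_one
  have h1 := hcl inferInstance V inferInstance G hG (ad x v 1) hy0
  rw [ad_sum] at h1
  refine le_trans ?_ h1
  have h2 : ∀ W : ZMod (m + 2 * i) → V,
      ∑ p, (if W p = v then (1 : ℝ) else 0) * ∏ q ∈ univ.erase p, x (W q) ≤ wP (ad x v 1) W := by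
    intro W
    have h := prod_add_one univ (fun p => x (W p)) (fun p => if W p = v then (1 : ℝ) else 0)
      (fun p _ => hx _) (fun p _ => by split_ifs <;> norm_num)
    have hp : 0 ≤ ∏ p, x (W p) := prod_nonneg fun p _ => hx _
    have e : wP (ad x v 1) W = ∏ p, (x (W p) + if W p = v then (1 : ℝ) else 0) := rfl
    rw [e]
    refine le_trans (le_add_of_nonneg_left hp) (le_trans (le_of_eq ?_) h)
    refine congrArg₂ (· + ·) rfl (sum_congr rfl fun p _ => ?_)
    refine congrArg₂ (· * ·) rfl (prod_congr ?_ fun _ _ => rfl)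
    ext q
    simp only [mem_erase]
  have h3 : ∀ p : ZMod (m + 2 * i), ∑ W ∈ clos G (m + 2 * i),
      (if W p = v then (1 : ℝ) else 0) * ∏ q ∈ univ.erase p, x (W q) =
        dw G (m + 2 * i) x v := by
    intro p
    have h := rot_sum (G := G) (fun W' : ZMod (m + 2 * i) → V =>
      (if W' 0 = v then (1 : ℝ) else 0) * ∏ q ∈ univ.erase 0, x (W' q)) p
    have e1 : ∀ W ∈ clos G (m + 2 * i), (if W p = v then (1 : ℝ) else 0) *
        ∏ q ∈ univ.erase p, x (W q) = (fun W' : ZMod (m + 2 * i) → V =>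
          (if W' 0 = v then (1 : ℝ) else 0) * ∏ q ∈ univ.erase 0, x (W' q)) (rot W p) := by
      intro W _
      have e0 : rot W p 0 = W p := by
        show W (p + 0) = W p
        rw [add_zero]
      show _ = (if rot W p 0 = v then (1 : ℝ) else 0) * ∏ q ∈ univ.erase 0, x (W (p + q))
      rw [e0]
      congr 1
      refine (prod_nbij' (fun q => p + q) (fun q => q - p) ?_ ?_ ?_ ?_ ?_).symm
      · intro q hq
        rw [mem_erase] at hq ⊢
        refine ⟨fun h => hq.1 ?_, mem_univ _⟩
        have : p + q = p + 0 := by rw [h, add_zero]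
        exact add_left_cancel this
      · intro q hq
        rw [mem_erase] at hq ⊢
        exact ⟨sub_ne_zero.2 hq.1, mem_univ _⟩
      · intro q _
        show p + q - p = q
        ring
      · intro q _
        show p + (q - p) = q
        ring
      · intro q _
        rfl
    rw [sum_congr rfl e1, h]
    unfold dw
    rw [sum_filter]
    refine sum_congr rfl fun W _ => ?_
    by_cases hW : W 0 = v
    · rw [if_pos hW, if_pos hW, one_mul]
    · rw [if_neg hW, if_neg hW, zero_mul]
  have h4 : ∑ W ∈ clos G (m + 2 * i), ∑ p, (if W p = v then (1 : ℝ) else 0) *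
      ∏ q ∈ univ.erase p, x (W q) = ((m : ℝ) + 2 * i) * dw G (m + 2 * i) x v := by
    rw [sum_comm, sum_congr rfl fun p _ => h3 p, sum_const, card_univ, ZMod.card, nsmul_eq_mul]
    push_cast
    ring
  rw [← h4]
  exact sum_le_sum fun W _ => h2 W

end Pool.Agent.CycSh
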