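import Pool.Agent.W_1bfdb5sh_h41.Cyc
import Pool.Agent.W_1bfdb5sh_h41.BadV
import Pool.Agent.W_1bfdb5sh_h41.Tr
import Pool.Agent.W_1bfdb5sh_h41.TnR
import Pool.Agent.W_1bfdb5sh_h41.DeA
import Pool.Agent.W_1bfdb5sh_h41.TwA

/-!
# Every vertex has good neighbours in two classes
-/

namespace Pool.Agent.CycSh

open Finset Pool.Agent.CycGT Pool.Agent.CycFD
open scoped Classical

variable {V : Type} [Fintype V] {G : SimpleGraph V} {x : V → ℝ}

/-- All good neighbours in one class. -/
theorem one_cls {m j : ℕ} [NeZero m] (h : Mx G m j x) (hj : 1 ≤ j)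
    (hm : 1000 * (j + 1) ^ 2 ≤ m) {c : ZMod m → V} (hc : IsCl G m c)
    (ha : ∀ t, |wS x (AA G c t) - 1| ≤ 1 / 20) {v : V} {s : ZMod m}
    (hv : ∀ w, G.Adj v w → w ∉ BB G c → w ∈ AA G c s) :
    dw G (m + 2 * j) (off x (BB G c)) v ≤ 10 * ((j : ℝ) / m) * (Tn m j / m) := by
  obtain ⟨i, rfl⟩ : ∃ i, j = i + 1 := ⟨j - 1, by omega⟩
  have hm4 : 4000 ≤ m := by nlinarith
  have hmp : (0 : ℝ) < m := by exact_mod_cast (by omega : 0 < m)
  have hx : ∀ v, 0 ≤ x v := fun v => (h.pos v).le
  set a : ZMod m → ℝ := fun t => wS x (AA G c t) with had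
  have ha0 : ∀ t, 0 ≤ a t := fun t => wS_nonneg hx _
  have hoff : ∀ u, 0 ≤ off x (BB G c) u := by
    intro u; unfold off; split_ifs
    · exact le_rfl
    · exact hx u
  set x' := off x (BB G c) with hx'
  -- the matrix entry
  have hE : Bn (Cy m) a (m + 2 * i) s s ≤ 9 / m * (a s * Tn m i) := by
    rw [Bn_diag]
    have e1 := dw_clm (h.cl i (Nat.lt_succ_self i)) (Cy_odd h.ho) ha0 s
    have e2 : ∑ t, a t ≤ m := by
      have := AA_wsum (by omega) h.ho h.of hc x
      rw [h.sum] at this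
      have h3 := wS_nonneg hx (BB G c)
      simp only [had]
      linarith
    have e3 : 0 ≤ ∑ t, a t := sum_nonneg fun t _ => ha0 t
    have e4 := pow_nine (m := m) (j := i + 1) (by omega) (by nlinarith) (i := i) (by omega)
      (s := ∑ t, a t + 1) (by linarith) (by linarith)
    have e5 : ((m : ℝ) + 2 * i) * dw (Cy m) (m + 2 * i) a s ≤ Tn m i * 9 :=
      e1.trans (mul_le_mul_of_nonneg_left e4 (Tn_nonneg m i))
    have e6 : (m : ℝ) * dw (Cy m) (m + 2 * i) a s ≤ Tn m i * 9 := by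
      have e7 : 0 ≤ dw (Cy m) (m + 2 * i) a s :=
        sum_nonneg fun W _ => prod_nonneg fun p _ => ha0 _
      have : 0 ≤ (2 * (i : ℝ)) * dw (Cy m) (m + 2 * i) a s := by positivity
      linarith
    have e8 : dw (Cy m) (m + 2 * i) a s ≤ Tn m i * 9 / m := by
      rw [le_div_iff₀ hmp]; linarith
    calc a s * dw (Cy m) (m + 2 * i) a s ≤ a s * (Tn m i * 9 / m) :=
          mul_le_mul_of_nonneg_left e8 (ha0 s)
      _ = 9 / m * (a s * Tn m i) := by ring
  -- the walks
  have hdw : dw G (m + 2 * (i + 1)) x' v ≤ a s * Bn (Cy m) a (m + 2 * i) s s := by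
    rw [dw_two G x' (by omega) v]
    have e0 : m + 2 * (i + 1) - 2 = m + 2 * i := by omega
    rw [e0]
    have hz : ∀ u, u ∈ BB G c → x' u = 0 := fun u hu => by rw [hx']; simp [off, hu]
    have hle : ∀ u, x' u ≤ x u := by
      intro u; rw [hx']; unfold off; split_ifs
      · exact hx u
      · exact le_rfl
    have hn : ∀ u u', 0 ≤ Bn G x' (m + 2 * i) u u' := fun u u' => Bn_nonneg hoff _ u u'
    have hz' : ∀ u u', u' ∈ BB G c → Bn G x' (m + 2 * i) u u' = 0 := by
      intro u u' hu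
      obtain ⟨n, hn⟩ : ∃ n, m + 2 * i = n + 1 := ⟨m + 2 * i - 1, by omega⟩
      rw [hn, Bn_succ']
      refine sum_eq_zero fun z _ => ?_
      rw [hz u' hu, ite_self, mul_zero]
    -- inner sum
    have hin : ∀ u ∈ AA G c s, ∑ u' ∈ Nb G v, Bn G x' (m + 2 * i) u u' ≤
        Bn (Cy m) a (m + 2 * i) s s := by
      intro u hu
      refine le_trans ?_ (cls_walk (by omega) h.ho h.of hc hx (m + 2 * i) (t' := s) hu)
      have e1 : ∑ u' ∈ Nb G v, Bn G x' (m + 2 * i) u u' =
          ∑ u' ∈ (Nb G v).filter (fun u' => u' ∉ BB G c), Bn G x' (m + 2 * i) u u' := by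
        rw [sum_filter]
        refine sum_congr rfl fun u' _ => ?_
        by_cases hb : u' ∈ BB G c
        · rw [if_neg (not_not.2 hb), hz' u u' hb]
        · rw [if_pos hb]
      rw [e1]
      refine sum_le_sum_of_subset_of_nonneg ?_ fun _ _ _ => hn _ _
      intro u' hu'
      rw [mem_filter] at hu'
      have : G.Adj u' v := by
        have := hu'.1; unfold Nb at this; rw [mem_filter] at this; exact this.2
      exact hv u' this.symm hu'.2
    have e1 : ∀ u ∈ Nb G v, ∑ u' ∈ Nb G v, x' u * Bn G x' (m + 2 * i) u u' ≤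
        (if u ∈ AA G c s then x u else 0) * Bn (Cy m) a (m + 2 * i) s s := by
      intro u hu
      rw [← mul_sum]
      have huv : G.Adj u v := by
        unfold Nb at hu; rw [mem_filter] at hu; exact hu.2
      by_cases hb : u ∈ BB G c
      · rw [hz u hb, zero_mul]
        refine mul_nonneg ?_ (Bn_nonneg ha0 _ _ _)
        split_ifs
        · exact hx u
        · exact le_rfl
      · have hu' : u ∈ AA G c s := hv u huv.symm hb
        rw [if_pos hu']
        exact mul_le_mul (hle u) (hin u hu') (sum_nonneg fun _ _ => hn _ _) (hx u)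
    refine (sum_le_sum e1).trans ?_
    rw [← sum_mul]
    refine mul_le_mul_of_nonneg_right ?_ (Bn_nonneg ha0 _ _ _)
    rw [← sum_filter]
    simp only [had, wS]
    refine sum_le_sum_of_subset_of_nonneg ?_ fun u _ _ => hx u
    intro u hu
    exact (mem_filter.1 hu).2
  have hT := Tn_le (m := m) (by omega) (i + 1) 1 (by omega)
  rw [pow_one, Nat.add_sub_cancel] at hT
  have has : a s ≤ 21 / 20 := by
    have := (abs_le.1 (ha s)).2
    simp only [had]; linarith
  have hT0 := Tn_nonneg m i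
  have has2 : a s * a s ≤ 441 / 400 := by nlinarith [ha0 s]
  calc dw G (m + 2 * (i + 1)) x' v ≤ a s * Bn (Cy m) a (m + 2 * i) s s := hdw
    _ ≤ a s * (9 / m * (a s * Tn m i)) := mul_le_mul_of_nonneg_left hE (ha0 s)
    _ = (a s * a s) * (9 / m * Tn m i) := by ring
    _ ≤ 441 / 400 * (9 / m * Tn m i) :=
        mul_le_mul_of_nonneg_right has2 (by positivity)
    _ ≤ 10 * (1 / m * Tn m i) := by
        have : 0 ≤ 1 / (m : ℝ) * Tn m i := by positivity
        have e : (9 : ℝ) / m * Tn m i = 9 * (1 / m * Tn m i) := by ring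
        rw [e]; linarith
    _ ≤ 10 * (1 / m * (((i + 1 : ℕ) : ℝ) / m * Tn m (i + 1))) := by
        have := mul_le_mul_of_nonneg_left hT (by positivity : (0 : ℝ) ≤ 1 / m)
        linarith
    _ = 10 * (((i + 1 : ℕ) : ℝ) / m) * (Tn m (i + 1) / m) := by ring

end Pool.Agent.CycSh
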