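import Pool.Agent.W_1bfdb5sh_h41.Cyc
import Pool.Agent.W_1bfdb5sh_h41.BadV
import Pool.Agent.W_1bfdb5sh_h41.Tr
import Pool.Agent.W_1bfdb5sh_h41.TnR
import Pool.Agent.W_1bfdb5sh_h41.TwB

/-!
# Every vertex has good neighbours in two classes
-/

namespace Pool.Agent.CycSh

open Finset Pool.Agent.CycGT Pool.Agent.CycFD
open scoped Classical

variable {V : Type} [Fintype V] {G : SimpleGraph V} {x : V → ℝ}

theorem two_cls {m j : ℕ} [NeZero m] (h : Mx G m j x) (hj : 1 ≤ j)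
    (hm : 1000 * (j + 1) ^ 2 ≤ m) {c : ZMod m → V} (hc : IsCl G m c)
    (hb : wS x (BB G c) ≤ 3 / 10000) (ha : ∀ t, |wS x (AA G c t) - 1| ≤ 1 / 20) (v : V) :
    ∃ t t', (∃ w ∈ AA G c t, G.Adj v w) ∧ (∃ w ∈ AA G c t', G.Adj v w) ∧ t ≠ t' := by
  by_contra hcon
  have hone : ∃ s : ZMod m, ∀ w, G.Adj v w → w ∉ BB G c → w ∈ AA G c s := by
    by_cases hex : ∃ t, ∃ w ∈ AA G c t, G.Adj v w
    · obtain ⟨s, hs⟩ := hex
      refine ⟨s, fun w hw hwb => ?_⟩
      rw [mem_BB] at hwb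
      push Not at hwb
      obtain ⟨t, ht⟩ := hwb
      by_cases hts : t = s
      · rwa [hts] at ht
      · exact absurd ⟨t, s, ⟨w, ht, hw⟩, hs, hts⟩ hcon
    · refine ⟨0, fun w hw hwb => ?_⟩
      rw [mem_BB] at hwb
      push Not at hwb
      obtain ⟨t, ht⟩ := hwb
      exact absurd ⟨t, w, ht, hw⟩ hex
  obtain ⟨s, hs⟩ := hone
  have hx : ∀ u, 0 ≤ x u := fun u => (h.pos u).le
  have h40 : 40 * j ≤ m := by nlinarith
  have h1 := one_cls h hj hm hc ha hs
  have h2 := bad_vis h h40 v (BB G c)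
  have h3 := dw_split G (m + 2 * j) hx v (BB G c)
  have h4 := h.deg v
  have h5 := h.big
  have hmpos : (0 : ℝ) < m := by
    have := NeZero.pos m
    exact_mod_cast this
  have hT : 0 ≤ Tn m j := Tn_nonneg m j
  have hF : 0 < Fw G (m + 2 * j) x := lt_of_le_of_lt hT h5
  have hFm : 0 < Fw G (m + 2 * j) x / m := div_pos hF hmpos
  have hTm : Tn m j / m ≤ Fw G (m + 2 * j) x / m := by
    exact div_le_div_of_nonneg_right h5.le hmpos.le
  have hjm : (j : ℝ) / m ≤ 1 / 1000 := by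
    rw [div_le_div_iff₀ hmpos (by norm_num)]
    have : (1000 * j : ℕ) ≤ m := by nlinarith
    have h' : ((1000 * j : ℕ) : ℝ) ≤ m := by exact_mod_cast this
    push_cast at h'
    linarith
  have hjm0 : 0 ≤ (j : ℝ) / m := by positivity
  have hTm0 : 0 ≤ Tn m j / m := by positivity
  have h6 : wS x (BB G c) * (9 * (Fw G (m + 2 * j) x / m)) ≤
      3 / 10000 * (9 * (Fw G (m + 2 * j) x / m)) :=
    mul_le_mul_of_nonneg_right hb (by positivity)
  have h7 : 10 * ((j : ℝ) / m) * (Tn m j / m) ≤ 10 * (1 / 1000) * (Fw G (m + 2 * j) x / m) := by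
    apply mul_le_mul _ hTm hTm0 (by norm_num)
    linarith
  rw [h4] at h3
  linarith

end Pool.Agent.CycSh
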