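import Pool.Agent.W_1bfdb5sh_h41.Vst
import Pool.Agent.W_1bfdb5sh_h41.Two
import Pool.Agent.W_1bfdb5fd_h19.PtB

/-!
# The weighted number of excess visits in `C_m`
-/

namespace Pool.Agent.CycSh

open Finset Pool.Agent.CycGT Pool.Agent.CycFD
open scoped Classical

private lemma Ub_geom {q : ℝ} (hq0 : 0 ≤ q) (hq1 : q ≤ 1 / 100) (n : ℕ) :
    ∑ l ∈ Icc 1 n, q ^ l ≤ 100 / 99 * q := by
  have h1 : (1 - q) * ∑ l ∈ Icc 1 n, q ^ l = q - q ^ (n + 1) := by
    induction n with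
    | zero => simp
    | succ n ih =>
      rw [sum_Icc_succ_top (by omega), mul_add, ih]
      ring
  have h2 : 0 ≤ q ^ (n + 1) := pow_nonneg hq0 _
  have h3 : 0 ≤ ∑ l ∈ Icc 1 n, q ^ l := sum_nonneg fun l _ => pow_nonneg hq0 _
  nlinarith

private lemma Ub_exp : Real.exp (2 + 4 / 1000) ≤ 9 := by
  have h1 : Real.exp 1 < 2.7182818286 := Real.exp_one_lt_d9
  have h2 : Real.exp (4 / 1000) ≤ 1.01 := by
    have := Real.exp_bound_div_one_sub_of_interval (x := 4 / 1000) (by norm_num) (by norm_num)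
    refine this.trans ?_
    norm_num
  have h3 : Real.exp (2 + 4 / 1000) = Real.exp 1 * Real.exp 1 * Real.exp (4 / 1000) := by
    rw [← Real.exp_add, ← Real.exp_add]
    norm_num
  rw [h3]
  have p1 := Real.exp_pos 1
  have p2 := Real.exp_pos (4 / 1000 : ℝ)
  have h4 : Real.exp 1 * Real.exp 1 ≤ 2.7182818286 * 2.7182818286 :=
    mul_le_mul h1.le h1.le p1.le (by norm_num)
  calc Real.exp 1 * Real.exp 1 * Real.exp (4 / 1000)
      ≤ (2.7182818286 * 2.7182818286) * 1.01 := mul_le_mul h4 h2 p2.le (by norm_num)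
    _ ≤ 9 := by norm_num

theorem U_le {m j : ℕ} [NeZero m] (hcl : ∀ i, i < j → Clm m i) (ho : Odd m)
    (hm : 1000 * (j + 1) ^ 2 ≤ m) (w : ZMod m → ℝ) (hw0 : ∀ t, 0 < w t)
    (hw1 : ∀ t, w t ≤ 6 / 5) (hs : ∑ t, w t ≤ m + 1) (t : ZMod m) :
    ∑ h ∈ pats (m + 2 * j) m, (vis h t : ℝ) * ∏ p, w (h p) ≤ 300 * ((j : ℝ) / m) * Tn m j := by
  have hmj : 1000 * (j + 1) ≤ m := by nlinarith
  have hm3 : 3 ≤ m := by omega
  have hw : ∀ t, 0 ≤ w t := fun t => (hw0 t).le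
  have hmR : (1000 : ℝ) * (j + 1) ≤ m := by exact_mod_cast hmj
  have hj0 : (0 : ℝ) ≤ j := Nat.cast_nonneg j
  have hm0 : (0 : ℝ) < m := by linarith
  have hT : 0 ≤ Tn m j := Tn_nonneg m j
  -- the number of visits
  have step1 : ∑ h ∈ pats (m + 2 * j) m, (vis h t : ℝ) * ∏ p, w (h p) ≤
      ∑ W ∈ clos (Cy m) (m + 2 * j), wP w W * ((NV W t : ℝ) * ((NV W t : ℝ) - 1)) := by
    rw [Cy_clos hm3]
    refine sum_le_sum fun h _ => ?_
    rw [mul_comm]
    refine mul_le_mul_of_nonneg_left ?_ (prod_nonneg fun p _ => hw _)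
    have hv : vis h t = NV h t - 1 := by
      unfold vis NV
      congr
    rw [hv]
    rcases Nat.eq_zero_or_pos (NV h t) with h0 | h0
    · rw [h0]; simp
    · have h1 : ((NV h t - 1 : ℕ) : ℝ) = (NV h t : ℝ) - 1 := by
        rw [Nat.cast_sub h0]; simp
      have h2 : (1 : ℝ) ≤ NV h t := by exact_mod_cast h0
      rw [h1]
      nlinarith
  have hD : ∀ v, dg (Cy m) w v ≤ 3 := by
    intro v
    rw [Cy_dg hm3]
    have h1 := hw1 (v - 1)
    have h2 := hw1 (v + 1)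
    linarith
  have step2 := NV_le (G := Cy m) (x := w) (j := j) ho (Cy_odd ho) (by omega) hw hD t
  -- the terms
  have term : ∀ l ∈ Icc 1 j, (3 : ℝ) ^ (2 * l) * (w t * dw (Cy m) (m + 2 * (j - l)) w t) ≤
      (54 / 5 / m * Tn m j) * (9 * ((j : ℝ) / m)) ^ l := by
    intro l hl
    rw [mem_Icc] at hl
    have hi : j - l < j := by omega
    set i := j - l with hidef
    have h1 := dw_clm (hcl i hi) (Cy_odd ho) hw t
    have hd0 : 0 ≤ dw (Cy m) (m + 2 * i) w t := by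
      unfold dw
      exact sum_nonneg fun W _ => prod_nonneg fun p _ => hw _
    have hT0 : 0 ≤ Tn m i := Tn_nonneg m i
    have hij : (i : ℝ) ≤ j := by exact_mod_cast hi.le
    have hi0 : (0 : ℝ) ≤ i := Nat.cast_nonneg i
    have h2 : ((∑ u, w u + 1) / m) ^ (m + 2 * i) ≤ 9 := by
      have e1 : (∑ u, w u + 1) / m ≤ Real.exp (2 / m) := by
        have e2 : (∑ u, w u + 1) / m ≤ 2 / m + 1 := by
          rw [div_add_one hm0.ne']
          exact div_le_div_of_nonneg_right (by linarith) hm0.le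
        exact e2.trans (Real.add_one_le_exp _)
      have e3 : 0 ≤ (∑ u, w u + 1) / m := by
        have : 0 ≤ ∑ u, w u := sum_nonneg fun u _ => hw u
        positivity
      calc ((∑ u, w u + 1) / m) ^ (m + 2 * i) ≤ (Real.exp (2 / m)) ^ (m + 2 * i) :=
            pow_le_pow_left₀ e3 e1 _
        _ = Real.exp (((m + 2 * i : ℕ) : ℝ) * (2 / m)) := by rw [Real.exp_nat_mul]
        _ ≤ Real.exp (2 + 4 / 1000) := by
            refine Real.exp_le_exp.2 ?_
            push_cast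
            rw [mul_div_assoc', div_le_iff₀ hm0]
            nlinarith
        _ ≤ 9 := Ub_exp
    have h3 : (m : ℝ) * dw (Cy m) (m + 2 * i) w t ≤ 9 * Tn m i := by
      have e1 : (m : ℝ) * dw (Cy m) (m + 2 * i) w t ≤
          ((m : ℝ) + 2 * i) * dw (Cy m) (m + 2 * i) w t :=
        mul_le_mul_of_nonneg_right (by linarith) hd0
      have e2 : Tn m i * ((∑ u, w u + 1) / m) ^ (m + 2 * i) ≤ Tn m i * 9 :=
        mul_le_mul_of_nonneg_left h2 hT0
      linarith
    have h4 : dw (Cy m) (m + 2 * i) w t ≤ 9 * Tn m i / m := by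
      rw [le_div_iff₀ hm0, mul_comm]
      exact h3
    have h5 : Tn m i ≤ ((j : ℝ) / m) ^ l * Tn m j := Tn_le (by omega) j l hl.2
    have h6 : w t * dw (Cy m) (m + 2 * i) w t ≤ 6 / 5 * (9 * Tn m i / m) :=
      mul_le_mul (hw1 t) h4 hd0 (by norm_num)
    have h7 : 6 / 5 * (9 * Tn m i / m) ≤ 54 / 5 / m * (((j : ℝ) / m) ^ l * Tn m j) := by
      have : 6 / 5 * (9 * Tn m i / m) = 54 / 5 / m * Tn m i := by ring
      rw [this]
      exact mul_le_mul_of_nonneg_left h5 (by positivity)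
    calc (3 : ℝ) ^ (2 * l) * (w t * dw (Cy m) (m + 2 * i) w t)
        ≤ 3 ^ (2 * l) * (54 / 5 / m * (((j : ℝ) / m) ^ l * Tn m j)) :=
          mul_le_mul_of_nonneg_left (h6.trans h7) (by positivity)
      _ = (54 / 5 / m * Tn m j) * (9 * ((j : ℝ) / m)) ^ l := by
          rw [pow_mul, mul_pow]
          norm_num
          ring
  have step3 : ∑ l ∈ Icc 1 j, (3 : ℝ) ^ (2 * l) * (w t * dw (Cy m) (m + 2 * (j - l)) w t) ≤
      (54 / 5 / m * Tn m j) * (100 / 99 * (9 * ((j : ℝ) / m))) := by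
    refine (sum_le_sum term).trans ?_
    rw [← mul_sum]
    refine mul_le_mul_of_nonneg_left (Ub_geom (by positivity) ?_ j) (by positivity)
    rw [mul_div_assoc', div_le_iff₀ hm0]
    linarith
  have step4 : 2 * ((m : ℝ) + 2 * j) * ((54 / 5 / m * Tn m j) * (100 / 99 * (9 * ((j : ℝ) / m)))) ≤
      300 * ((j : ℝ) / m) * Tn m j := by
    have e1 : ((m : ℝ) + 2 * j) / m ≤ 1.01 := by
      rw [div_le_iff₀ hm0]
      linarith
    have e2 : 0 ≤ ((j : ℝ) / m) * Tn m j := by positivity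
    have e3 : 2 * ((m : ℝ) + 2 * j) * ((54 / 5 / m * Tn m j) * (100 / 99 * (9 * ((j : ℝ) / m)))) =
        (((m : ℝ) + 2 * j) / m) * (97200 / 495 * (((j : ℝ) / m) * Tn m j)) := by
      ring
    rw [e3]
    have e4 : (((m : ℝ) + 2 * j) / m) * (97200 / 495 * (((j : ℝ) / m) * Tn m j)) ≤
        1.01 * (97200 / 495 * (((j : ℝ) / m) * Tn m j)) :=
      mul_le_mul_of_nonneg_right e1 (by positivity)
    refine e4.trans ?_
    have e5 : 300 * ((j : ℝ) / m) * Tn m j = 300 * (((j : ℝ) / m) * Tn m j) := by ring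
    rw [e5]
    nlinarith
  calc _ ≤ _ := step1
    _ ≤ _ := step2
    _ ≤ 2 * ((m : ℝ) + 2 * j) * ((54 / 5 / m * Tn m j) * (100 / 99 * (9 * ((j : ℝ) / m)))) :=
      mul_le_mul_of_nonneg_left step3 (by positivity)
    _ ≤ _ := step4

end Pool.Agent.CycSh
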