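import Pool.Agent.W_1bfdb5sh_h41.Bs

/-!
# Last and first visits to a set
-/

namespace Pool.Agent.CycSh

open Finset Pool.Agent.CycGT Pool.Agent.CycFD
open scoped Classical

variable {V : Type} [Fintype V] {G : SimpleGraph V} {x : V → ℝ} {Z : Finset V}

theorem off_nonneg (hx : ∀ v, 0 ≤ x v) (w : V) : 0 ≤ off x Z w := by
  unfold off
  split_ifs
  · exact le_refl 0
  · exact hx w

/-- All first steps lead to `Z`. -/
theorem Bn_off_first {u : V} (h : ∀ z, G.Adj u z → z ∈ Z) (n : ℕ) (w : V) :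
    Bn G (off x Z) (n + 1) u w = 0 := by
  rw [Bn_succ]
  refine sum_eq_zero fun z _ => ?_
  by_cases hz : G.Adj u z
  · simp [off, h z hz]
  · simp [hz]

theorem Bn_off_last {w : V} (h : w ∈ Z) (n : ℕ) (u : V) : Bn G (off x Z) (n + 1) u w = 0 := by
  rw [Bn_succ']
  refine sum_eq_zero fun z _ => ?_
  simp [off, h]

theorem Qn_comp {t : ℕ} (ht : 1 ≤ t) (a : ℕ) (s s' : V) :
    ∑ u, Bn G (off x Z) a s u * Qn G x Z t u s' = Qn G x Z (a + t) s s' := by
  unfold Qn
  have h1 : a + t - 1 = a + (t - 1) := by omega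
  rw [h1]
  simp only [Bn_add a (t - 1), sum_mul, mul_sum]
  rw [sum_comm]
  refine sum_congr rfl fun z _ => sum_congr rfl fun u _ => ?_
  ring

/-- An entry of `Qn` comes from a walk. -/
theorem Qn_wk {t : ℕ} (ht : 1 ≤ t) {u w : V} (h : Qn G x Z t u w ≠ 0) : Wk G t u w := by
  unfold Qn at h
  obtain ⟨z, -, hz⟩ := exists_ne_zero_of_sum_ne_zero h
  have h1 : Bn G (off x Z) (t - 1) u z ≠ 0 := left_ne_zero_of_mul hz
  have h2 : G.Adj z w := by
    by_contra hcon
    exact right_ne_zero_of_mul hz (if_neg hcon)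
  obtain ⟨p, hp⟩ := Bn_wk h1
  refine ⟨p.append (SimpleGraph.Walk.cons h2 SimpleGraph.Walk.nil), ?_⟩
  rw [SimpleGraph.Walk.length_append, hp]
  simp only [SimpleGraph.Walk.length_cons, SimpleGraph.Walk.length_nil]
  omega

end Pool.Agent.CycSh
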