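import Pool.Agent.W_1bfdb5sh_h41.Bs
import Pool.Agent.W_1bfdb5sh_h41.VisA

/-!
# Last and first visits to a set
-/

namespace Pool.Agent.CycSh

open Finset Pool.Agent.CycGT Pool.Agent.CycFD
open scoped Classical

variable {V : Type} [Fintype V] {G : SimpleGraph V} {x : V → ℝ} {Z : Finset V}

private theorem VisB_sum (f : ℕ → ℝ) (n : ℕ) : ∑ a ∈ Icc 1 n, f a = ∑ i ∈ range n, f (i + 1) := by
  induction n with
  | zero => simp
  | succ n ih => rw [sum_Icc_succ_top (by omega), sum_range_succ, ih]

/-- Decomposition by the last visit to `Z` at one of the times `1, ..., n`. -/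
theorem last_visit (G : SimpleGraph V) (x : V → ℝ) (Z : Finset V) (n : ℕ) (u w : V) :
    Bn G x n u w = Bn G (off x Z) n u w +
      ∑ a ∈ Icc 1 n, ∑ s ∈ Z, Bn G x a u s * Bn G (off x Z) (n - a) s w := by
  induction n generalizing w with
  | zero =>
    rw [Bn_zero, Bn_zero]
    simp
  | succ n ih =>
    by_cases hw : w ∈ Z
    · rw [Bn_off_last hw n u, zero_add, sum_Icc_succ_top (by omega)]
      have h1 : ∑ a ∈ Icc 1 n, ∑ s ∈ Z, Bn G x a u s * Bn G (off x Z) (n + 1 - a) s w = 0 := by
        refine sum_eq_zero fun a ha => sum_eq_zero fun s _ => ?_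
        rw [mem_Icc] at ha
        have e : n + 1 - a = (n - a) + 1 := by omega
        rw [e, Bn_off_last hw (n - a) s, mul_zero]
      rw [h1, zero_add, Nat.sub_self]
      have h2 : ∀ s ∈ Z, Bn G x (n + 1) u s * Bn G (off x Z) 0 s w =
          if s = w then Bn G x (n + 1) u w else 0 := by
        intro s _
        rw [Bn_zero]
        by_cases h : s = w
        · rw [if_pos h, if_pos h, mul_one, h]
        · rw [if_neg h, if_neg h, mul_zero]
      rw [sum_congr rfl h2, sum_ite_eq' Z w, if_pos hw]
    · have hK : ∀ z, (if G.Adj z w then x w else 0) = (if G.Adj z w then off x Z w else 0) := by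
        intro z
        simp [off, hw]
      rw [Bn_succ' n u w, sum_Icc_succ_top (by omega), Nat.sub_self]
      have h2 : ∑ s ∈ Z, Bn G x (n + 1) u s * Bn G (off x Z) 0 s w = 0 := by
        refine sum_eq_zero fun s hs => ?_
        have hsw : s ≠ w := fun h => hw (by rw [← h]; exact hs)
        rw [Bn_zero, if_neg hsw, mul_zero]
      rw [h2, add_zero, Bn_succ' (x := off x Z) n u w]
      have h3 : ∀ z, Bn G x n u z * (if G.Adj z w then x w else 0) =
          Bn G (off x Z) n u z * (if G.Adj z w then off x Z w else 0) +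
          ∑ a ∈ Icc 1 n, ∑ s ∈ Z, Bn G x a u s * (Bn G (off x Z) (n - a) s z *
            (if G.Adj z w then off x Z w else 0)) := by
        intro z
        rw [ih z, hK z, add_mul, sum_mul]
        congr 1
        refine sum_congr rfl fun a _ => ?_
        rw [sum_mul]
        exact sum_congr rfl fun s _ => by ring
      rw [sum_congr rfl (fun z _ => h3 z), sum_add_distrib]
      congr 1
      rw [sum_comm]
      refine sum_congr rfl fun a ha => ?_
      rw [mem_Icc] at ha
      rw [sum_comm]
      refine sum_congr rfl fun s _ => ?_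
      rw [← mul_sum]
      have e : n + 1 - a = (n - a) + 1 := by omega
      rw [e, Bn_succ' (x := off x Z) (n - a) s w]

/-- Decomposition by the first visit to `Z` at one of the times `1, ..., n`. -/
theorem first_visit (G : SimpleGraph V) (x : V → ℝ) (Z : Finset V) (n : ℕ) (u w : V) :
    Bn G x n u w = Bn G (off x Z) n u w +
      ∑ t ∈ Icc 1 n, ∑ s ∈ Z, Qn G x Z t u s * Bn G x (n - t) s w := by
  induction n generalizing u with
  | zero =>
    rw [Bn_zero, Bn_zero]
    simp
  | succ n ih =>
    rw [VisB_sum, sum_range_succ']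
    have hQ1 : ∀ s, Qn G x Z (0 + 1) u s = if G.Adj u s then x s else 0 := by
      intro s
      unfold Qn
      rw [Nat.add_sub_cancel]
      have : ∀ z, Bn G (off x Z) 0 u z * (if G.Adj z s then x s else 0) =
          if u = z then (if G.Adj u s then x s else 0) else 0 := by
        intro z
        rw [Bn_zero]
        by_cases h : u = z
        · rw [if_pos h, if_pos h, one_mul, h]
        · rw [if_neg h, if_neg h, zero_mul]
      rw [sum_congr rfl (fun z _ => this z), sum_ite_eq, if_pos (mem_univ _)]
    have hsplit : Bn G x (n + 1) u w = ∑ z, (if G.Adj u z then off x Z z else 0) * Bn G x n z w +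
        ∑ s ∈ Z, (if G.Adj u s then x s else 0) * Bn G x n s w := by
      rw [Bn_succ n u w]
      have h1 : ∑ s ∈ Z, (if G.Adj u s then x s else 0) * Bn G x n s w =
          ∑ s, if s ∈ Z then (if G.Adj u s then x s else 0) * Bn G x n s w else 0 := by
        rw [sum_ite_mem, univ_inter]
      rw [h1, ← sum_add_distrib]
      refine sum_congr rfl fun z _ => ?_
      by_cases hz : z ∈ Z
      · simp [off, hz]
      · simp [off, hz]
    rw [hsplit]
    have h2 : ∑ z, (if G.Adj u z then off x Z z else 0) * Bn G x n z w =
        Bn G (off x Z) (n + 1) u w +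
        ∑ i ∈ range n, ∑ s ∈ Z, Qn G x Z (i + 1 + 1) u s * Bn G x (n - (i + 1)) s w := by
      have h3 : ∀ z, (if G.Adj u z then off x Z z else 0) * Bn G x n z w =
          (if G.Adj u z then off x Z z else 0) * Bn G (off x Z) n z w +
          ∑ i ∈ range n, ∑ s ∈ Z, ((Bn G (off x Z) 1 u z * Qn G x Z (i + 1) z s) *
            Bn G x (n - (i + 1)) s w) := by
        intro z
        rw [ih z, VisB_sum, mul_add, mul_sum]
        congr 1
        refine sum_congr rfl fun i _ => ?_
        rw [mul_sum]
        refine sum_congr rfl fun s _ => ?_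
        rw [Bn_one]
        ring
      rw [sum_congr rfl (fun z _ => h3 z), sum_add_distrib, Bn_succ (x := off x Z) n u w]
      congr 1
      rw [sum_comm]
      refine sum_congr rfl fun i _ => ?_
      rw [sum_comm]
      refine sum_congr rfl fun s _ => ?_
      rw [← sum_mul, Qn_comp (by omega) 1 u s, Nat.add_comm 1 (i + 1)]
    rw [h2, add_assoc]
    congr 1
    refine congrArg₂ (· + ·) ?_ ?_
    · refine sum_congr rfl fun i _ => sum_congr rfl fun s _ => ?_
      have e : n - (i + 1) = n + 1 - (i + 1 + 1) := by omega
      rw [e]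
    · refine sum_congr rfl fun s _ => ?_
      rw [hQ1 s]
      rfl

end Pool.Agent.CycSh
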