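import Pool.Agent.W_1bfdb5sh_h41.Bs
import Pool.Agent.W_1bfdb5sh_h41.VisB

/-!
# Last and first visits to a set
-/

namespace Pool.Agent.CycSh

open Finset Pool.Agent.CycGT Pool.Agent.CycFD
open scoped Classical

variable {V : Type} [Fintype V] {G : SimpleGraph V} {x : V → ℝ} {Z : Finset V}

theorem VisC_wk_add {a b : ℕ} {u v w : V} (h₁ : Wk G a u v) (h₂ : Wk G b v w) :
    Wk G (a + b) u w := by
  obtain ⟨p, hp⟩ := h₁
  obtain ⟨q, hq⟩ := h₂
  exact ⟨p.append q, by rw [SimpleGraph.Walk.length_append, hp, hq]⟩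

theorem VisC_wk_one {u v : V} (h : G.Adj u v) : Wk G 1 u v :=
  ⟨h.toWalk, by simp⟩

/-- Exact decomposition for the split `A + N`. -/
theorem VisC_split (A N : ℕ) (hA : 1 ≤ A) (hN : 1 ≤ N) {v : V}
    (hv : ∀ z, G.Adj v z → z ∈ Z) (hvZ : v ∈ Z) :
    Bn G x (A + N) v v = ∑ a ∈ Icc 1 A, ∑ t ∈ Icc 1 N, ∑ s ∈ Z, ∑ s' ∈ Z,
      Bn G x a v s * Qn G x Z (A - a + t) s s' * Bn G x (N - t) s' v := by
  have h1 : ∀ u, Bn G x A v u = ∑ a ∈ Icc 1 A, ∑ s ∈ Z, Bn G x a v s * Bn G (off x Z) (A - a) s u := by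
    intro u
    rw [last_visit G x Z A v u]
    obtain ⟨n, rfl⟩ : ∃ n, A = n + 1 := ⟨A - 1, by omega⟩
    rw [Bn_off_first hv n u, zero_add]
  have h2 : ∀ u, Bn G x N u v = ∑ t ∈ Icc 1 N, ∑ s' ∈ Z, Qn G x Z t u s' * Bn G x (N - t) s' v := by
    intro u
    rw [first_visit G x Z N u v]
    obtain ⟨n, rfl⟩ : ∃ n, N = n + 1 := ⟨N - 1, by omega⟩
    rw [Bn_off_last hvZ n u, zero_add]
  rw [Bn_add]
  simp_rw [h1, h2]
  -- expand products
  have e1 : ∀ u : V, (∑ a ∈ Icc 1 A, ∑ s ∈ Z, Bn G x a v s * Bn G (off x Z) (A - a) s u) *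
      (∑ t ∈ Icc 1 N, ∑ s' ∈ Z, Qn G x Z t u s' * Bn G x (N - t) s' v) =
      ∑ a ∈ Icc 1 A, ∑ t ∈ Icc 1 N, ∑ s ∈ Z, ∑ s' ∈ Z,
        Bn G x a v s * (Bn G (off x Z) (A - a) s u * Qn G x Z t u s') * Bn G x (N - t) s' v := by
    intro u
    rw [Finset.sum_mul_sum]
    refine Finset.sum_congr rfl fun a _ => Finset.sum_congr rfl fun t _ => ?_
    rw [Finset.sum_mul_sum]
    refine Finset.sum_congr rfl fun s _ => Finset.sum_congr rfl fun s' _ => ?_
    ring
  simp_rw [e1]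
  rw [Finset.sum_comm]
  refine Finset.sum_congr rfl fun a _ => ?_
  rw [Finset.sum_comm]
  refine Finset.sum_congr rfl fun t ht => ?_
  rw [Finset.sum_comm]
  refine Finset.sum_congr rfl fun s _ => ?_
  rw [Finset.sum_comm]
  refine Finset.sum_congr rfl fun s' _ => ?_
  rw [← Finset.sum_mul, ← Finset.mul_sum, Qn_comp (Finset.mem_Icc.1 ht).1]

/-- The visits of a closed walk through `v` to `Z = N(v) ∪ N(w)` are close to `v`. -/
theorem pair_dec {m j : ℕ} (ho : Odd m) (hG : OddFree G m) (hm : 4 * j + 7 ≤ m)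
    (hx : ∀ v, 0 ≤ x v) {v w : V} (hvw : G.Adj v w) :
    Bn G x (m + 2 * j) v v ≤ ∑ a ∈ Icc 1 (2 * j + 2), ∑ b ∈ Icc 1 (2 * j + 2),
      ∑ s ∈ Nb G v ∪ Nb G w, ∑ s' ∈ Nb G v ∪ Nb G w,
        Bn G x a v s * Qn G x (Nb G v ∪ Nb G w) (m + 2 * j - a - b) s s' * Bn G x b s' v := by
  obtain ⟨c, hc⟩ := ho
  have hv : ∀ z, G.Adj v z → z ∈ Nb G v ∪ Nb G w := fun z hz =>
    Finset.mem_union_left _ (by unfold Nb; simpa using hz.symm)
  have hvZ : v ∈ Nb G v ∪ Nb G w := Finset.mem_union_right _ (by unfold Nb; simpa using hvw)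
  have hM : m + 2 * j = (2 * j + 2) + (m - 2) := by omega
  have h0 := VisC_split (G := G) (x := x) (Z := Nb G v ∪ Nb G w) (2 * j + 2) (m - 2)
    (by omega) (by omega) (v := v) hv hvZ
  rw [← hM] at h0
  rw [h0]
  refine le_of_eq (Finset.sum_congr rfl fun a ha => ?_)
  rw [Finset.mem_Icc] at ha
  have hz : ∀ t ∈ Icc 1 (m - 2), t ∉ (Icc 1 (m - 2)).filter
      (fun t => m - 2 - t ∈ Icc 1 (2 * j + 2)) →
      ∑ s ∈ Nb G v ∪ Nb G w, ∑ s' ∈ Nb G v ∪ Nb G w,
        Bn G x a v s * Qn G x (Nb G v ∪ Nb G w) (2 * j + 2 - a + t) s s' *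
          Bn G x (m - 2 - t) s' v = 0 := by
    intro t ht ht'
    rw [Finset.mem_Icc] at ht
    have ht2 : m - 2 - t = 0 ∨ 2 * j + 2 < m - 2 - t := by
      by_contra hcon
      push Not at hcon
      exact ht' (by rw [Finset.mem_filter, Finset.mem_Icc, Finset.mem_Icc]; omega)
    refine Finset.sum_eq_zero fun s _ => Finset.sum_eq_zero fun s' hs' => ?_
    by_contra hne
    have hB1 : Bn G x a v s ≠ 0 := fun h => hne (by rw [h]; ring)
    have hQ : Qn G x (Nb G v ∪ Nb G w) (2 * j + 2 - a + t) s s' ≠ 0 := fun h =>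
      hne (by rw [h]; ring)
    have hB2 : Bn G x (m - 2 - t) s' v ≠ 0 := fun h => hne (by rw [h]; ring)
    rcases ht2 with h | h
    · rw [h, Bn_zero] at hB2
      have hsv : s' = v := by
        by_contra h'
        exact hB2 (if_neg h')
      subst hsv
      apply hQ
      unfold Qn
      refine Finset.sum_eq_zero fun z _ => ?_
      by_cases hz : G.Adj z s'
      · obtain ⟨n, hn⟩ : ∃ n, 2 * j + 2 - a + t - 1 = n + 1 := ⟨2 * j + 2 - a + t - 2, by omega⟩
        rw [hn, Bn_off_last (hv z hz.symm), zero_mul]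
      · rw [if_neg hz, mul_zero]
    · have w1 := Bn_wk hB1
      have w2 := Qn_wk (by omega) hQ
      have w3 := Bn_wk hB2
      have w12 := VisC_wk_add w1 w2
      rcases Finset.mem_union.1 hs' with hs | hs
      · have hadj : G.Adj s' v := by unfold Nb at hs; simpa using hs
        have p1 := VisC_wk_add w12 (VisC_wk_one hadj)
        have p2 := VisC_wk_add (VisC_wk_one hadj.symm) w3
        rcases Nat.even_or_odd (1 + (m - 2 - t)) with he | hod
        · refine hG _ ?_ ?_ v p1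
          · omega
          · obtain ⟨k, hk⟩ := he
            exact ⟨j + c + 1 - k, by omega⟩
        · exact hG _ (by omega) hod v p2
      · have hadj : G.Adj s' w := by unfold Nb at hs; simpa using hs
        have p1 := VisC_wk_add (VisC_wk_add w12 (VisC_wk_one hadj)) (VisC_wk_one hvw.symm)
        have p2 := VisC_wk_add (VisC_wk_add (VisC_wk_one hvw) (VisC_wk_one hadj.symm)) w3
        rcases Nat.even_or_odd (1 + 1 + (m - 2 - t)) with he | hod
        · refine hG _ ?_ ?_ v p1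
          · omega
          · obtain ⟨k, hk⟩ := he
            exact ⟨j + c + 2 - k, by omega⟩
        · exact hG _ (by omega) hod v p2
  rw [← Finset.sum_subset (Finset.filter_subset _ _) hz]
  refine Finset.sum_nbij' (fun t => m - 2 - t) (fun b => m - 2 - b) ?_ ?_ ?_ ?_ ?_
  · intro t ht
    exact (Finset.mem_filter.1 ht).2
  · intro b hb
    rw [Finset.mem_Icc] at hb
    rw [Finset.mem_filter, Finset.mem_Icc, Finset.mem_Icc]
    omega
  · intro t ht
    have := (Finset.mem_filter.1 ht).1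
    rw [Finset.mem_Icc] at this
    show m - 2 - (m - 2 - t) = t
    omega
  · intro b hb
    rw [Finset.mem_Icc] at hb
    show m - 2 - (m - 2 - b) = b
    omega
  · intro t ht
    have := (Finset.mem_filter.1 ht).1
    rw [Finset.mem_Icc] at this
    have e : 2 * j + 2 - a + t = m + 2 * j - a - (m - 2 - t) := by omega
    simp only [e]

end Pool.Agent.CycSh
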