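import Pool.Agent.W_1bfdb5sh_h41.Tr
import Pool.Agent.W_1bfdb5sh_h41.R1

/-!
# Closed walks which visit a vertex several times
-/

namespace Pool.Agent.CycSh

open Finset Pool.Agent.CycGT Pool.Agent.CycFD
open scoped Classical

variable {V : Type} [Fintype V] {G : SimpleGraph V} {x : V → ℝ}

private theorem VtA_NV {r : ℕ} [NeZero r] (W : ZMod r → V) (v : V) :
    (NV W v : ℝ) * ((NV W v : ℝ) - 1) =
      ∑ p, ∑ q ∈ univ.erase (0 : ZMod r), (if W p = v then (1 : ℝ) else 0) *
        (if W (p + q) = v then 1 else 0) := by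
  have h1 : (NV W v : ℝ) = ∑ p, (if W p = v then (1 : ℝ) else 0) := by
    rw [Finset.sum_boole]
    rfl
  have h2 : ∀ p : ZMod r, ∑ q ∈ univ.erase (0 : ZMod r), (if W p = v then (1 : ℝ) else 0) *
        (if W (p + q) = v then 1 else 0) = (if W p = v then (1 : ℝ) else 0) * (NV W v : ℝ) -
          (if W p = v then (1 : ℝ) else 0) := by
    intro p
    have h3 : ∑ q, (if W p = v then (1 : ℝ) else 0) * (if W (p + q) = v then 1 else 0) =
        (if W p = v then (1 : ℝ) else 0) * (NV W v : ℝ) := by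
      rw [← Finset.mul_sum, h1]
      congr 1
      exact Fintype.sum_equiv (Equiv.addLeft p) _ _ fun i => rfl
    have h4 := Finset.add_sum_erase univ (fun q : ZMod r => (if W p = v then (1 : ℝ) else 0) *
      (if W (p + q) = v then 1 else 0)) (Finset.mem_univ 0)
    rw [h3] at h4
    have h5 : (if W p = v then (1 : ℝ) else 0) * (if W (p + 0) = v then 1 else 0) =
        (if W p = v then (1 : ℝ) else 0) := by
      rw [add_zero]
      split_ifs <;> simp
    simp only [h5] at h4
    linarith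
  rw [Finset.sum_congr rfl fun p _ => h2 p, Finset.sum_sub_distrib, ← Finset.sum_mul, ← h1]
  ring

private theorem VtA_erase {r : ℕ} [NeZero r] (F : ZMod r → ℝ) :
    ∑ q ∈ univ.erase (0 : ZMod r), F q = ∑ q ∈ Icc 1 (r - 1), F ((q : ℕ) : ZMod r) := by
  have hr : 0 < r := NeZero.pos r
  symm
  refine Finset.sum_nbij' (fun q : ℕ => (q : ZMod r)) (fun q => q.val) ?_ ?_ ?_ ?_ ?_
  · intro q hq
    rw [Finset.mem_Icc] at hq
    rw [Finset.mem_erase]
    refine ⟨fun h => ?_, Finset.mem_univ _⟩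
    have h1 := (ZMod.natCast_eq_zero_iff q r).1 h
    have h2 := Nat.le_of_dvd (by omega) h1
    omega
  · intro q hq
    rw [Finset.mem_erase] at hq
    have h1 := ZMod.val_lt q
    have h2 : q.val ≠ 0 := fun h => hq.1 ((ZMod.val_eq_zero q).1 h)
    rw [Finset.mem_Icc]
    omega
  · intro q hq
    rw [Finset.mem_Icc] at hq
    exact ZMod.val_cast_of_lt (by omega)
  · intro q _
    exact ZMod.natCast_zmod_val q
  · intro q _
    rfl

/-- Two marked visits. -/
theorem NV_two (G : SimpleGraph V) (x : V → ℝ) (r : ℕ) [NeZero r] (v : V) :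
    ∑ W ∈ clos G r, wP x W * ((NV W v : ℝ) * ((NV W v : ℝ) - 1)) =
      r * ∑ q ∈ Icc 1 (r - 1), Bn G x q v v * Bn G x (r - q) v v := by
  obtain ⟨f, hf⟩ : ∃ f : (ZMod r → V) → ℝ, f = fun W => wP x W *
      ∑ q ∈ univ.erase (0 : ZMod r), (if W 0 = v then (1 : ℝ) else 0) *
        (if W q = v then 1 else 0) := ⟨_, rfl⟩
  have h1 : ∀ W ∈ clos G r, wP x W * ((NV W v : ℝ) * ((NV W v : ℝ) - 1)) =
      ∑ p, f (rot W p) := by
    intro W _
    rw [VtA_NV, Finset.mul_sum]
    refine Finset.sum_congr rfl fun p _ => ?_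
    rw [hf]
    show _ = wP x (rot W p) * ∑ q ∈ univ.erase (0 : ZMod r),
      (if W (p + 0) = v then (1 : ℝ) else 0) * (if W (p + q) = v then 1 else 0)
    rw [wP_rot, add_zero]
  rw [Finset.sum_congr rfl h1, ← rot_avg (G := G) f]
  congr 1
  have h2 : ∀ W, f W = ∑ q ∈ Icc 1 (r - 1), wP x W *
      ((if W 0 = v then (1 : ℝ) else 0) * (if W ((q : ℕ) : ZMod r) = v then 1 else 0)) := by
    intro W
    rw [hf]
    show wP x W * ∑ q ∈ univ.erase (0 : ZMod r), (if W 0 = v then (1 : ℝ) else 0) *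
        (if W q = v then 1 else 0) = _
    rw [VtA_erase (fun q => (if W 0 = v then (1 : ℝ) else 0) * (if W q = v then 1 else 0)),
      Finset.mul_sum]
  rw [Finset.sum_congr rfl fun W _ => h2 W, Finset.sum_comm]
  refine Finset.sum_congr rfl fun q hq => ?_
  rw [Finset.mem_Icc] at hq
  have hr : 0 < r := NeZero.pos r
  have h3 := two_point G x (r := r) (q := q) (by omega) (by omega)
    (fun u w => (if u = v then (1 : ℝ) else 0) * (if w = v then 1 else 0))
  rw [h3, Finset.sum_eq_single v, Finset.sum_eq_single v]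
  · simp
  · intro w _ hw
    simp [hw]
  · intro h
    exact absurd (Finset.mem_univ _) h
  · intro u _ hu
    simp [hu]
  · intro h
    exact absurd (Finset.mem_univ _) h

end Pool.Agent.CycSh
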