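import Pool.Agent.W_1bfdb5sh_h41.Tr
import Pool.Agent.W_1bfdb5sh_h41.R1
import Pool.Agent.W_1bfdb5sh_h41.VtA

/-!
# Closed walks which visit a vertex several times
-/

namespace Pool.Agent.CycSh

open Finset Pool.Agent.CycGT Pool.Agent.CycFD
open scoped Classical

variable {V : Type} [Fintype V] {G : SimpleGraph V} {x : V → ℝ}

theorem NV_le {m j : ℕ} [NeZero m] (ho : Odd m) (hG : OddFree G m) (hm : 2 * j + 3 ≤ m)
    (hx : ∀ v, 0 ≤ x v) {D : ℝ} (hD : ∀ v, dg G x v ≤ D) (v : V) :
    ∑ W ∈ clos G (m + 2 * j), wP x W * ((NV W v : ℝ) * ((NV W v : ℝ) - 1)) ≤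
      2 * ((m : ℝ) + 2 * j) * ∑ l ∈ Icc 1 j, D ^ (2 * l) *
        (x v * dw G (m + 2 * (j - l)) x v) := by
  have hD0 : 0 ≤ D := (wS_nonneg hx (Nb G v)).trans (hD v)
  have hB : ∀ n, 0 ≤ Bn G x n v v := fun n => Bn_nonneg hx n v v
  set E : ℕ → ℝ := fun l => D ^ (2 * l) * (x v * dw G (m + 2 * (j - l)) x v) with hE
  have hEB : ∀ l, E l = D ^ (2 * l) * Bn G x (m + 2 * (j - l)) v v := fun l => by
    rw [hE, Bn_diag]
  have hE0 : ∀ l, 0 ≤ E l := fun l => by
    rw [hEB]
    exact mul_nonneg (pow_nonneg hD0 _) (hB _)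
  have key : ∀ q ∈ Icc 1 (m + 2 * j - 1), Bn G x q v v * Bn G x (m + 2 * j - q) v v ≤
      ∑ l ∈ Icc 1 j, ((if q = 2 * l then E l else 0) +
        (if q = m + 2 * (j - l) then E l else 0)) := by
    intro q hq
    rw [mem_Icc] at hq
    have hnn : ∀ l ∈ Icc 1 j, 0 ≤ ((if q = 2 * l then E l else 0) +
        (if q = m + 2 * (j - l) then E l else 0)) := by
      intro l _
      refine add_nonneg ?_ ?_ <;> split_ifs
      · exact hE0 l
      · exact le_refl _
      · exact hE0 l
      · exact le_refl _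
    obtain ⟨k, hk⟩ := ho
    rcases Nat.even_or_odd' q with ⟨l, hl | hl⟩
    · by_cases hlj : l ≤ j
      · refine le_trans ?_ (single_le_sum hnn (mem_Icc.2 ⟨by omega, hlj⟩))
        rw [if_pos hl]
        have h1 : Bn G x q v v * Bn G x (m + 2 * j - q) v v ≤ E l := by
          rw [hEB, show m + 2 * j - q = m + 2 * (j - l) by omega, hl]
          exact mul_le_mul_of_nonneg_right (Bn_entry hx hD _ _ _) (hB _)
        refine h1.trans (le_add_of_nonneg_right ?_)
        split_ifs
        · exact hE0 l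
        · exact le_refl _
      · have h1 : Bn G x (m + 2 * j - q) v v = 0 :=
          Bn_odd hG ⟨k + j - l, by omega⟩ (by omega) v
        rw [h1, mul_zero]
        exact sum_nonneg hnn
    · by_cases hlj : m ≤ q
      · have hq2 : q = m + 2 * (j - (k + j - l)) := by omega
        refine le_trans ?_ (single_le_sum hnn (mem_Icc.2 ⟨?_, ?_⟩ : k + j - l ∈ Icc 1 j))
        · rw [if_pos hq2]
          have h1 : Bn G x q v v * Bn G x (m + 2 * j - q) v v ≤ E (k + j - l) := by
            rw [hEB, show m + 2 * j - q = 2 * (k + j - l) by omega, ← hq2, mul_comm]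
            exact mul_le_mul_of_nonneg_right (Bn_entry hx hD _ _ _) (hB _)
          refine h1.trans (le_add_of_nonneg_left ?_)
          split_ifs
          · exact hE0 _
          · exact le_refl _
        · omega
        · omega
      · have h1 : Bn G x q v v = 0 := Bn_odd hG ⟨l, hl⟩ (by omega) v
        rw [h1, zero_mul]
        exact sum_nonneg hnn
  have h2 : ∑ q ∈ Icc 1 (m + 2 * j - 1), Bn G x q v v * Bn G x (m + 2 * j - q) v v ≤
      2 * ∑ l ∈ Icc 1 j, E l := by
    refine (sum_le_sum key).trans ?_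
    rw [sum_comm, mul_sum]
    refine sum_le_sum fun l _ => ?_
    have h5 : ∀ (a : ℕ), (∑ q ∈ Icc 1 (m + 2 * j - 1), if q = a then E l else 0) ≤ E l := by
      intro a
      rw [sum_ite_eq']
      split_ifs
      · exact le_refl _
      · exact hE0 l
    rw [sum_add_distrib]
    exact (add_le_add (h5 _) (h5 _)).trans_eq (two_mul (E l)).symm
  rw [NV_two G x (m + 2 * j) v]
  push_cast
  have h3 : 0 ≤ (m : ℝ) + 2 * j := by positivity
  calc ((m : ℝ) + 2 * j) * ∑ q ∈ Icc 1 (m + 2 * j - 1),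
        Bn G x q v v * Bn G x (m + 2 * j - q) v v
      ≤ ((m : ℝ) + 2 * j) * (2 * ∑ l ∈ Icc 1 j, E l) := mul_le_mul_of_nonneg_left h2 h3
    _ = 2 * ((m : ℝ) + 2 * j) * ∑ l ∈ Icc 1 j, E l := by ring

end Pool.Agent.CycSh
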